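import Pool.Agent.UN.Defs

/-!
# ORD: definitions

Quantifier free formulas `Qf L ι` and U-formulas `Uf L ι` (for all values of finitely many further
variables a quantifier free formula is true) with variables in `ι`. A structure with constants
`N : Mo L P M` is given by a structure on `M`, a set `A ⊆ M` (the universe) and the constants
`c : P → M`; quantifiers range over `A`. A system `T : Th L P` of axioms: for every `x` there are
`y` with the U-formula `ax k`. `Cw T N C`: the set `C` is closed (it contains witnesses, valid in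
`N`, of its elements). Frames `F : Fr L P`: a system of axioms, a definable linear order, and a
notion of closeness.
-/

set_option autoImplicit false
set_option linter.unusedVariables false

namespace ORD

open Set

variable {L : FirstOrder.Language.{0, 0}} {P P' M M' ι κ : Type}

/-! ## Formulas -/

/-- quantifier free formulas with variables in `ι` -/
inductive Qf (L : FirstOrder.Language.{0, 0}) (ι : Type) : Type
  | eq (i j : ι) : Qf L ι
  | rel (n : ℕ) (R : L.Relations n) (t : Fin n → ι) : Qf L ι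
  | bot : Qf L ι
  | imp (φ ψ : Qf L ι) : Qf L ι

/-- truth of a quantifier free formula -/
def Qf.Tr (S : L.Structure M) (v : ι → M) : Qf L ι → Prop
  | .eq i j => v i = v j
  | .rel n R t => S.RelMap R fun k => v (t k)
  | .bot => False
  | .imp φ ψ => φ.Tr S v → ψ.Tr S v

/-- renaming of variables -/
def Qf.map (h : ι → κ) : Qf L ι → Qf L κ
  | .eq i j => .eq (h i) (h j)
  | .rel n R t => .rel n R fun k => h (t k)
  | .bot => .bot
  | .imp φ ψ => .imp (φ.map h) (ψ.map h)

/-- negation -/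
def Qf.not (φ : Qf L ι) : Qf L ι := φ.imp .bot

/-- conjunction -/
def Qf.and (φ ψ : Qf L ι) : Qf L ι := (φ.imp ψ.not).not

/-- disjunction -/
def Qf.or (φ ψ : Qf L ι) : Qf L ι := φ.not.imp ψ

/-- conjunction of a list -/
def Qf.all : List (Qf L ι) → Qf L ι
  | [] => Qf.not .bot
  | φ :: l => φ.and (Qf.all l)

/-- U-formulas: `∀ z, q` with `q` quantifier free, `z` of length `m` -/
structure Uf (L : FirstOrder.Language.{0, 0}) (ι : Type) : Type where
  m : ℕ
  q : Qf L (ι ⊕ Fin m)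

/-- truth of a U-formula in the structure with the universe `A` -/
def Uf.Tr (S : L.Structure M) (A : Set M) (v : ι → M) (φ : Uf L ι) : Prop :=
  ∀ z : Fin φ.m → M, (∀ k, z k ∈ A) → φ.q.Tr S (Sum.elim v z)

/-- renaming of the free variables -/
def Uf.map (h : ι → κ) (φ : Uf L ι) : Uf L κ := ⟨φ.m, φ.q.map (Sum.map h id)⟩

/-- a quantifier free formula as a U-formula -/
def Uf.qf (φ : Qf L ι) : Uf L ι := ⟨0, φ.map Sum.inl⟩

/-! ## Structures with constants -/

/-- structures with universe `A ⊆ M` and constants `c` -/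
structure Mo (L : FirstOrder.Language.{0, 0}) (P M : Type) : Type where
  S : L.Structure M
  A : Set M
  c : P → M

/-- truth of a quantifier free formula with constants -/
def Mo.Q (N : Mo L P M) (φ : Qf L (P ⊕ ι)) (v : ι → M) : Prop := φ.Tr N.S (Sum.elim N.c v)

/-- truth of a U-formula with constants -/
def Mo.Tr (N : Mo L P M) (φ : Uf L (P ⊕ ι)) (v : ι → M) : Prop :=
  φ.Tr N.S N.A (Sum.elim N.c v)

/-- the substructure on `C` -/
def Mo.sub (N : Mo L P M) (C : Set M) : Mo L P M := { N with A := C }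

/-- fewer constants, or other names for the constants -/
def Mo.res (N : Mo L P M) (h : P' → P) : Mo L P' M := { S := N.S, A := N.A, c := N.c ∘ h }

/-- `h` is an isomorphism from the universe of `N` to the universe of `N'` -/
structure Is (N : Mo L P M) (N' : Mo L P M') (h : M → M') : Prop where
  bij : BijOn h N.A N'.A
  cst : ∀ p, h (N.c p) = N'.c p
  rel : ∀ (n : ℕ) (R : L.Relations n) (t : Fin n → M), (∀ i, t i ∈ N.A) →
    (N.S.RelMap R t ↔ N'.S.RelMap R (h ∘ t))

/-- U-embeddings: `j` maps the universe to the universe, the constants to the constants, and all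
U-formulas which are true in `N` are true in `N'` for the images -/
structure UE (N : Mo L P M) (N' : Mo L P M') (j : M → M') : Prop where
  uni : ∀ x ∈ N.A, j x ∈ N'.A
  cst : ∀ p, j (N.c p) = N'.c p
  tr : ∀ (ι : Type) (φ : Uf L (P ⊕ ι)) (v : ι → M), (∀ i, v i ∈ N.A) → N.Tr φ v →
    N'.Tr φ (j ∘ v)

/-! ## Axioms -/

/-- systems of axioms `∀ x ∃ y, ax k (x, y)`, `y` of length `n k`, `ax k` a U-formula -/
structure Th (L : FirstOrder.Language.{0, 0}) (P : Type) : Type 1 where
  K : Type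
  n : K → ℕ
  ax : ∀ k, Uf L (P ⊕ Fin (n k + 1))

/-- `y` is a `k`-witness of `x` -/
def Th.Wit (T : Th L P) (N : Mo L P M) (k : T.K) (x : M) (y : Fin (T.n k) → M) : Prop :=
  N.Tr (T.ax k) (Fin.cons x y : Fin (T.n k + 1) → M)

/-- models -/
structure Md (T : Th L P) (N : Mo L P M) : Prop where
  ne : N.A.Nonempty
  cst : ∀ p, N.c p ∈ N.A
  wit : ∀ x ∈ N.A, ∀ k, ∃ y : Fin (T.n k) → M, (∀ i, y i ∈ N.A) ∧ T.Wit N k x y

/-- `C` is closed in `N`: it contains witnesses, valid in `N`, of all its elements -/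
structure Cw (T : Th L P) (N : Mo L P M) (C : Set M) : Prop where
  sub : C ⊆ N.A
  wit : ∀ x ∈ C, ∀ k, ∃ y : Fin (T.n k) → M, (∀ i, y i ∈ C) ∧ T.Wit N k x y

/-- other names for the constants -/
def Th.map (T : Th L P) (h : P → P') : Th L P' where
  K := T.K
  n := T.n
  ax k := (T.ax k).map (Sum.map h id)

/-- addresses -/
abbrev Adr (T : Th L P) : Type := List ((k : T.K) × Fin (T.n k))

/-- trees of witnesses of `y`: `u s` is the element at the address `s` -/
structure Tre (T : Th L P) (N : Mo L P M) (y : M) (u : Adr T → M) : Prop where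
  uni : ∀ s, u s ∈ N.A
  top : u [] = y
  wit : ∀ s k, T.Wit N k (u s) fun i => u (⟨k, i⟩ :: s)

/-! ## Frames -/

/-- Frames: a system of axioms, a definable set with a definable order, a family of U-formulas for
closeness, and a constant `v` -/
structure Fr (L : FirstOrder.Language.{0, 0}) (P : Type) : Type 1 where
  T : Th L P
  d : Qf L (P ⊕ Fin 1)
  l : Qf L (P ⊕ Fin 2)
  E : ℕ → Uf L (P ⊕ Fin 2)
  v : P

namespace Fr

variable (F : Fr L P)

/-- the definable set -/
def D (N : Mo L P M) (x : M) : Prop := x ∈ N.A ∧ N.Q F.d ![x]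

/-- the order -/
def Lt (N : Mo L P M) (x y : M) : Prop := N.Q F.l ![x, y]

/-- close elements -/
def Cl (N : Mo L P M) (x y : M) : Prop := ∃ n, N.Tr (F.E n) ![x, y]

/-- `x` is far below `y` -/
def Ll (N : Mo L P M) (x y : M) : Prop := F.Lt N x y ∧ ¬ F.Cl N x y

/-- The conditions on frames. `ab1`, `ab2`: the class of an element of a closed set is contained in
this set, and closeness is the same in the closed set. -/
structure Ok : Prop where
  irr : ∀ (M : Type) (N : Mo L P M), Md F.T N → ∀ x, F.D N x → ¬ F.Lt N x x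
  trs : ∀ (M : Type) (N : Mo L P M), Md F.T N → ∀ x y z, F.D N x → F.D N y → F.D N z →
    F.Lt N x y → F.Lt N y z → F.Lt N x z
  tot : ∀ (M : Type) (N : Mo L P M), Md F.T N → ∀ x y, F.D N x → F.D N y →
    x = y ∨ F.Lt N x y ∨ F.Lt N y x
  crf : ∀ (M : Type) (N : Mo L P M), Md F.T N → ∀ x, F.D N x → F.Cl N x x
  csm : ∀ (M : Type) (N : Mo L P M), Md F.T N → ∀ x y, F.D N x → F.D N y → F.Cl N x y →
    F.Cl N y x
  ctr : ∀ (M : Type) (N : Mo L P M), Md F.T N → ∀ x y z, F.D N x → F.D N y → F.D N z →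
    F.Cl N x y → F.Cl N y z → F.Cl N x z
  cvx : ∀ (M : Type) (N : Mo L P M), Md F.T N → ∀ x y z, F.D N x → F.D N y → F.D N z →
    F.Lt N x y → F.Lt N y z → F.Cl N x z → F.Cl N x y
  ab1 : ∀ (M : Type) (N : Mo L P M), Md F.T N → ∀ C, Cw F.T N C → (∀ p, N.c p ∈ C) →
    ∀ y ∈ C, F.D N y → ∀ y', F.D N y' → F.Cl N y y' → y' ∈ C
  ab2 : ∀ (M : Type) (N : Mo L P M), Md F.T N → ∀ C, Cw F.T N C → (∀ p, N.c p ∈ C) →
    ∀ x ∈ C, ∀ y ∈ C, F.D N x → F.D N y → F.Cl (N.sub C) x y → F.Cl N x y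
  vdd : ∀ (M : Type) (N : Mo L P M), Md F.T N → F.D N (N.c F.v)

/-- the condition at the address `s`: if `u s` is between `y` and `v`, then it is close to `y`, with
the bound `g s` -/
def Bd (g : Adr F.T → ℕ) (N : Mo L P M) (y : M) (u : Adr F.T → M) (s : Adr F.T) : Prop :=
  F.D N (u s) → F.Lt N y (u s) → F.Lt N (u s) (N.c F.v) → N.Tr (F.E (g s)) ![y, u s]

/-- `u` is a tree of witnesses of `y`, and its elements are not between `y` and `v`, or close to
`y` -/
structure Lam (g : Adr F.T → ℕ) (N : Mo L P M) (y : M) (u : Adr F.T → M) : Prop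
    extends Tre F.T N y u where
  bd : ∀ s, F.Bd g N y u s

/-- good elements -/
def Good (g : Adr F.T → ℕ) (N : Mo L P M) (y : M) : Prop := ∃ u, F.Lam g N y u

/-- finite parts of `Lam`: the witnesses for `J`, the bounds for `H` -/
structure LamP (g : Adr F.T → ℕ) (J : Finset (Adr F.T × F.T.K)) (H : Finset (Adr F.T))
    (N : Mo L P M) (y : M) (u : Adr F.T → M) : Prop where
  uni : ∀ s, u s ∈ N.A
  top : u [] = y
  wit : ∀ s ∈ J, F.T.Wit N s.2 (u s.1) fun i => u (⟨s.2, i⟩ :: s.1)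
  bd : ∀ s ∈ H, F.Bd g N y u s

/-- Reasons: a U-formula `θ (y, a)` which excludes, in all models, a finite part of `Lam`. -/
structure Rsn (g : Adr F.T → ℕ) : Type where
  n : ℕ
  θ : Uf L (P ⊕ Fin (n + 1))
  J : Finset (Adr F.T × F.T.K)
  H : Finset (Adr F.T)
  ok : ∀ (M : Type) (N : Mo L P M), Md F.T N → ∀ (y : M) (a : Fin n → M), y ∈ N.A →
    (∀ i, a i ∈ N.A) → N.Tr θ (Fin.cons y a : Fin (n + 1) → M) → ¬ ∃ u, F.LamP g J H N y u

variable {F}

/-- the reason `ρ` applies to `y` with the parameters `a` -/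
def Has {g : Adr F.T → ℕ} (N : Mo L P M) (y : M) (ρ : F.Rsn g) (a : Fin ρ.n → M) : Prop :=
  (∀ i, a i ∈ N.A) ∧ N.Tr ρ.θ (Fin.cons y a : Fin (ρ.n + 1) → M)

variable (F)

/-- `y` has a reason -/
def Rd (g : Adr F.T → ℕ) (N : Mo L P M) (y : M) : Prop := ∃ (ρ : F.Rsn g) (a : _), Has N y ρ a

end Fr

/-! ## The two kinds of frames -/

/-- `T` with the axioms: `l` is a strict linear order on `d`, and the constant `v` is in `d` -/
def Th.lin (T : Th L P) (d : Qf L (P ⊕ Fin 1)) (l : Qf L (P ⊕ Fin 2)) (v : P) : Th L P :=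
  let D (κ : Type) (x : P ⊕ κ) : Qf L (P ⊕ κ) := d.map (Sum.elim Sum.inl fun _ => x)
  let Lt (κ : Type) (x y : P ⊕ κ) : Qf L (P ⊕ κ) := l.map (Sum.elim Sum.inl ![x, y])
  let U (m : ℕ) (q : Qf L (P ⊕ (Fin 1 ⊕ Fin m))) : Uf L (P ⊕ Fin 1) :=
    ⟨m, q.map (Sum.elim (fun p => Sum.inl (Sum.inl p))
      (Sum.elim (fun i => Sum.inl (Sum.inr i)) Sum.inr))⟩
  let x (m : ℕ) : P ⊕ (Fin 1 ⊕ Fin m) := Sum.inr (Sum.inl 0)
  let z (m : ℕ) (i : Fin m) : P ⊕ (Fin 1 ⊕ Fin m) := Sum.inr (Sum.inr i)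
  { K := T.K ⊕ Fin 4
    n := Sum.elim T.n fun _ => 0
    ax := fun k => match k with
      | .inl k => T.ax k
      | .inr 0 => U 0 ((D _ (x 0)).imp (Lt _ (x 0) (x 0)).not)
      | .inr 1 => U 2 ((D _ (x 2)).imp ((D _ (z 2 0)).imp ((D _ (z 2 1)).imp
          ((Lt _ (x 2) (z 2 0)).imp ((Lt _ (z 2 0) (z 2 1)).imp (Lt _ (x 2) (z 2 1)))))))
      | .inr 2 => U 1 ((D _ (x 1)).imp ((D _ (z 1 0)).imp
          ((Qf.eq (x 1) (z 1 0)).or ((Lt _ (x 1) (z 1 0)).or (Lt _ (z 1 0) (x 1))))))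
      | .inr 3 => U 0 (D _ (Sum.inl v)) }

/-- the U-formula `x ∈ d → (y ∈ d, x < y and not (z ∈ d, x < z < y)) or (z ∈ d → not x < z)`, for
all `z` -/
def scf (d : Qf L (P ⊕ Fin 1)) (l : Qf L (P ⊕ Fin 2)) : Uf L (P ⊕ Fin 2) :=
  let V := (P ⊕ Fin 2) ⊕ Fin 1
  let D (x : V) : Qf L V := d.map (Sum.elim (fun p => Sum.inl (Sum.inl p)) fun _ => x)
  let Lt (x y : V) : Qf L V := l.map (Sum.elim (fun p => Sum.inl (Sum.inl p)) ![x, y])
  let x : V := Sum.inl (Sum.inr 0)
  let y : V := Sum.inl (Sum.inr 1)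
  let z : V := Sum.inr 0
  ⟨1, (D x).imp (((D y).and ((Lt x y).and ((D z).imp ((Lt x z).imp (Lt z y).not)))).or
    ((D z).imp (Lt x z).not))⟩

/-- the converse order -/
def swp (l : Qf L (P ⊕ Fin 2)) : Qf L (P ⊕ Fin 2) := l.map (Sum.map id ![1, 0])

/-- `T` with the axioms: all elements of `d` which are not maximal (minimal) have an immediate
successor (predecessor) -/
def Th.sp (T : Th L P) (d : Qf L (P ⊕ Fin 1)) (l : Qf L (P ⊕ Fin 2)) : Th L P where
  K := T.K ⊕ Bool
  n := Sum.elim T.n fun _ => 1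
  ax := fun k => match k with
    | .inl k => T.ax k
    | .inr true => scf d l
    | .inr false => scf d (swp l)

/-- `z` is an element of `d` between `x` and `y` (strictly) -/
def Btw (d : Qf L (P ⊕ Fin 1)) (l : Qf L (P ⊕ Fin 2)) (N : Mo L P M) (x y z : M) : Prop :=
  z ∈ N.A ∧ N.Q d ![z] ∧ ((N.Q l ![x, z] ∧ N.Q l ![z, y]) ∨ (N.Q l ![y, z] ∧ N.Q l ![z, x]))

/-- the U-formula: there are at most `n` elements of `d` between `x` and `y` -/
def btf (d : Qf L (P ⊕ Fin 1)) (l : Qf L (P ⊕ Fin 2)) (n : ℕ) : Uf L (P ⊕ Fin 2) :=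
  let V := (P ⊕ Fin 2) ⊕ Fin (n + 1)
  let D (x : V) : Qf L V := d.map (Sum.elim (fun p => Sum.inl (Sum.inl p)) fun _ => x)
  let Lt (x y : V) : Qf L V := l.map (Sum.elim (fun p => Sum.inl (Sum.inl p)) ![x, y])
  let x : V := Sum.inl (Sum.inr 0)
  let y : V := Sum.inl (Sum.inr 1)
  let B (z : V) : Qf L V := (D z).and (((Lt x z).and (Lt z y)).or ((Lt y z).and (Lt z x)))
  ⟨n + 1, ((Qf.all ((List.finRange (n + 1)).map fun i => B (Sum.inr i))).and
    (Qf.all ((List.finRange (n + 1)).map fun i => Qf.all (((List.finRange (n + 1)).filter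
      (i < ·)).map fun j => (Qf.eq (Sum.inr i) (Sum.inr j)).not)))).not⟩

/-- frames of the first kind: closeness is equality -/
def Fr1 (T : Th L P) (d : Qf L (P ⊕ Fin 1)) (l : Qf L (P ⊕ Fin 2)) (v : P) : Fr L P where
  T := T.lin d l v
  d := d
  l := l
  E _ := Uf.qf (Qf.eq (Sum.inr 0) (Sum.inr 1))
  v := v

/-- frames of the second kind: immediate successors and predecessors exist, two elements are close
if there are finitely many elements of `d` between them -/
def Fr2 (T : Th L P) (d : Qf L (P ⊕ Fin 1)) (l : Qf L (P ⊕ Fin 2)) (v : P) : Fr L P where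
  T := (T.lin d l v).sp d l
  d := d
  l := l
  E n := btf d l n
  v := v

end ORD
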