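import Pool.Agent.UNE.DEC
import Pool.Agent.ORD.Defs

/-!
# ORD [DCN]: decoding for sets in a structure of any size
-/

set_option autoImplicit false
set_option linter.unusedVariables false

namespace ORD

open Set Pool.Agent.Helper5.DU Pool.Agent.Helper6.Str Pool.Agent.Helper79.VC

variable {L : FirstOrder.Language.{0, 0}}

private def DCN_e {M : Type} (Y X : Set M) (h : X ⊆ Y) : {y : Y | (y : M) ∈ X} ≃ X where
  toFun := fun y => ⟨((y : Y) : M), y.2⟩
  invFun := fun x => ⟨⟨x, h x.2⟩, x.2⟩
  left_inv := fun _ => rfl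
  right_inv := fun _ => rfl

/-- In a scattered class there is no continuous family of subsets `X f` of a structure, with a
countable union, such that `X f` and `X f'` are isomorphic over a finite set only for `f = f'`. -/
theorem dcn [∀ n, IsEmpty (L.Functions n)] {K : Set (L.Structure ℕ)} (hK : Scat K) {M : Type}
    (S : L.Structure M) (X : (ℕ → Bool) → Set M) (hct : (⋃ f, X f).Countable)
    (hcl : ∀ x, IsClopen {f | x ∈ X f}) (hinf : ∀ f, (X f).Infinite) (G : Set M) (hG : G.Finite)
    (hGX : ∀ f, G ⊆ X f)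
    (hmem : ∀ f, ∀ e : ℕ → M, Function.Injective e → range e = X f → pl S e ∈ K) :
    ∃ f f', f ≠ f' ∧ ∃ g : X f ≃ X f', (∀ x : X f, (x : M) ∈ G → (g x : M) = x) ∧
      ∀ (n : ℕ) (R : L.Relations n) (v : Fin n → X f),
        S.RelMap R (fun i => (v i : M)) ↔ S.RelMap R (fun i => (g (v i) : M)) := by
  have hsub : ∀ f, X f ⊆ ⋃ f, X f := fun f => subset_iUnion X f
  generalize hYd : (⋃ f, X f) = Y at hct hsub
  have hM : Countable Y := hct.to_subtype
  have hval : Function.Injective (fun y : Y => (y : M)) := Subtype.val_injective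
  obtain ⟨f, f', hne, g, hg1, hg2⟩ := UNE.dec2 (S := pl S fun y : Y => (y : M))
    (X := fun f => {y : Y | (y : M) ∈ X f}) hK (fun x => hcl x)
    (fun f hfn => by
      refine hinf f ?_
      have h1 : ((fun y : Y => (y : M)) '' {y : Y | (y : M) ∈ X f}).Finite := hfn.image _
      refine h1.subset ?_
      intro x hx
      exact ⟨⟨x, hsub f hx⟩, hx, rfl⟩)
    (G := {y : Y | (y : M) ∈ G}) (hG.preimage hval.injOn) (fun f y hy => hGX f hy)
    (fun f e he1 he2 => by
      have h1 : pl (pl S fun y : Y => (y : M)) e = pl S fun n => ((e n : Y) : M) := rfl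
      rw [h1]
      refine hmem f _ (hval.comp he1) ?_
      ext x
      constructor
      · rintro ⟨n, rfl⟩
        have h2 : e n ∈ {y : Y | (y : M) ∈ X f} := he2 ▸ mem_range_self n
        exact h2
      · intro hx
        have h2 : (⟨x, hsub f hx⟩ : Y) ∈ range e := he2 ▸ hx
        obtain ⟨n, hn⟩ := h2
        exact ⟨n, congrArg Subtype.val hn⟩)
  refine ⟨f, f', hne, ((DCN_e Y (X f) (hsub f)).symm.trans g).trans (DCN_e Y (X f') (hsub f')),
    ?_, ?_⟩
  · intro x hx
    exact congrArg Subtype.val (hg1 ⟨⟨x, hsub f x.2⟩, x.2⟩ hx)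
  · intro n R v
    exact hg2 n R fun i => ⟨⟨v i, hsub f (v i).2⟩, (v i).2⟩

end ORD
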