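import Pool.Agent.ORD.StA

/-!
# ORD, module BAS: basic facts on formulas
-/

set_option autoImplicit false
set_option linter.unusedVariables false

namespace ORD

open Set FirstOrder

variable {L : Lg} {P V ι κ κ' M : Type}

theorem BAS_qmap (S : L.Structure M) (h : ι → κ) (v : κ → M) (φ : Qf L ι) :
    (φ.map h).Tr S v ↔ φ.Tr S (v ∘ h) := by
  induction φ with
  | eq i j => exact Iff.rfl
  | rel n R t => exact Iff.rfl
  | bot => exact Iff.rfl
  | imp φ ψ h1 h2 => exact imp_congr h1 h2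

theorem BAS_mm (f : ι → κ) (g : κ → κ') (φ : Qf L ι) : (φ.map f).map g = φ.map (g ∘ f) := by
  induction φ with
  | eq i j => rfl
  | rel n R t => rfl
  | bot => rfl
  | imp φ ψ h1 h2 =>
    show Qf.imp _ _ = Qf.imp _ _
    rw [h1, h2]

theorem BAS_umap (S : L.Structure M) (A : Set M) (h : ι → κ) (v : κ → M) (φ : Uf L ι) :
    (φ.map h).Tr S A v ↔ φ.Tr S A (v ∘ h) := by
  refine forall_congr' fun z => imp_congr Iff.rfl ?_
  have h1 := BAS_qmap S (Sum.map h id) (Sum.elim v z) φ.q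
  have h2 : Sum.elim v z ∘ Sum.map h id = Sum.elim (v ∘ h) z := by
    funext x
    rcases x with x | x <;> rfl
  rw [h2] at h1
  exact h1

theorem BAS_uqf (S : L.Structure M) (A : Set M) (v : ι → M) (φ : Qf L ι) :
    (Uf.qf φ).Tr S A v ↔ φ.Tr S v := by
  constructor
  · intro h
    have h1 := h Fin.elim0 fun k => k.elim0
    exact (BAS_qmap S Sum.inl _ φ).1 h1
  · intro h z _
    exact (BAS_qmap S Sum.inl _ φ).2 h

theorem BAS_qand (S : L.Structure M) (v : ι → M) (φ ψ : Qf L ι) :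
    (φ.and ψ).Tr S v ↔ φ.Tr S v ∧ ψ.Tr S v := by
  show ((φ.Tr S v → ψ.Tr S v → False) → False) ↔ _
  tauto

theorem BAS_qor (S : L.Structure M) (v : ι → M) (φ ψ : Qf L ι) :
    (φ.or ψ).Tr S v ↔ φ.Tr S v ∨ ψ.Tr S v := by
  show ((φ.Tr S v → False) → ψ.Tr S v) ↔ _
  tauto

theorem BAS_qall (S : L.Structure M) (v : ι → M) (l : List (Qf L ι)) :
    (Qf.all l).Tr S v ↔ ∀ φ ∈ l, φ.Tr S v := by
  induction l with
  | nil =>
    constructor
    · intro _ φ h
      exact absurd h List.not_mem_nil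
    · intro _ h
      exact h
  | cons φ l ih =>
    rw [List.forall_mem_cons, ← ih]
    exact BAS_qand S v φ (Qf.all l)

theorem BAS_qeq (S S' : L.Structure M) (A : Set M) (v : ι → M) (φ : Qf L ι)
    (h : ∀ (n : ℕ) (R : L.Relations n) (t : Fin n → M), (∀ i, t i ∈ A) →
      (S.RelMap R t ↔ S'.RelMap R t)) (hv : ∀ i, v i ∈ A) : φ.Tr S v ↔ φ.Tr S' v := by
  induction φ with
  | eq i j => exact Iff.rfl
  | rel n R t => exact h n R _ fun i => hv _
  | bot => exact Iff.rfl
  | imp φ ψ h1 h2 => exact imp_congr h1 h2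

theorem BAS_ueq (S S' : L.Structure M) (A : Set M) (v : ι → M) (φ : Uf L ι)
    (h : ∀ (n : ℕ) (R : L.Relations n) (t : Fin n → M), (∀ i, t i ∈ A) →
      (S.RelMap R t ↔ S'.RelMap R t)) (hv : ∀ i, v i ∈ A) : φ.Tr S A v ↔ φ.Tr S' A v := by
  refine forall_congr' fun z => forall_congr' fun hz => ?_
  refine BAS_qeq S S' A _ φ.q h ?_
  rintro (i | i)
  · exact hv i
  · exact hz i

theorem BAS_t {n m : ℕ} (t : Fin n → (P ⊕ V) ⊕ Fin m) :
    ∃ (n' : ℕ) (a : Fin n' → V) (t' : Fin n → (P ⊕ Fin n') ⊕ Fin m),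
      t = Sum.map (Sum.map id a) id ∘ t' := by
  rcases isEmpty_or_nonempty V with hV | ⟨⟨v0⟩⟩
  · refine ⟨0, Fin.elim0, fun k => match t k with
      | .inl (.inl p) => .inl (.inl p)
      | .inl (.inr x) => isEmptyElim x
      | .inr j => .inr j, ?_⟩
    funext k
    rcases h : t k with (p | x) | j
    · simp only [Function.comp, h]
      rfl
    · exact isEmptyElim x
    · simp only [Function.comp, h]
      rfl
  · refine ⟨n, fun k => match t k with
      | .inl (.inl p) => v0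
      | .inl (.inr x) => x
      | .inr j => v0, fun k => match t k with
      | .inl (.inl p) => .inl (.inl p)
      | .inl (.inr x) => .inl (.inr k)
      | .inr j => .inr j, ?_⟩
    funext k
    rcases h : t k with (p | x) | j
    · simp only [Function.comp, h]
      rfl
    · simp only [Function.comp, h, Sum.map_inl, Sum.map_inr]
    · simp only [Function.comp, h]
      rfl

theorem BAS_qfin {m : ℕ} (q : Qf L ((P ⊕ V) ⊕ Fin m)) :
    ∃ (n : ℕ) (a : Fin n → V) (q' : Qf L ((P ⊕ Fin n) ⊕ Fin m)),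
      q = q'.map (Sum.map (Sum.map id a) id) := by
  induction q with
  | eq i j =>
    obtain ⟨n, a, t', ht⟩ := BAS_t ![i, j]
    refine ⟨n, a, .eq (t' 0) (t' 1), ?_⟩
    have h0 := congrFun ht 0
    have h1 := congrFun ht 1
    simp only [Matrix.cons_val_zero, Matrix.cons_val_one, Function.comp] at h0 h1
    show Qf.eq i j = Qf.eq _ _
    rw [h0, h1]
  | rel r R t =>
    obtain ⟨n, a, t', ht⟩ := BAS_t t
    refine ⟨n, a, .rel r R t', ?_⟩
    show Qf.rel r R t = Qf.rel r R _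
    rw [ht]
    rfl
  | bot => exact ⟨0, Fin.elim0, .bot, rfl⟩
  | imp φ ψ h1 h2 =>
    obtain ⟨n1, a1, q1, h1⟩ := h1
    obtain ⟨n2, a2, q2, h2⟩ := h2
    refine ⟨n1 + n2, Fin.append a1 a2,
      .imp (q1.map (Sum.map (Sum.map id (Fin.castAdd n2)) id))
        (q2.map (Sum.map (Sum.map id (Fin.natAdd n1)) id)), ?_⟩
    show Qf.imp φ ψ = Qf.imp _ _
    rw [BAS_mm, BAS_mm]
    have e1 : Sum.map (Sum.map id (Fin.append a1 a2)) id ∘
        Sum.map (Sum.map id (Fin.castAdd n2)) (id : Fin m → Fin m) =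
        (Sum.map (Sum.map id a1) id : (P ⊕ Fin n1) ⊕ Fin m → (P ⊕ V) ⊕ Fin m) := by
      funext x
      rcases x with (x | x) | x
      · rfl
      · simp [Fin.append_left]
      · rfl
    have e2 : Sum.map (Sum.map id (Fin.append a1 a2)) id ∘
        Sum.map (Sum.map id (Fin.natAdd n1)) (id : Fin m → Fin m) =
        (Sum.map (Sum.map id a2) id : (P ⊕ Fin n2) ⊕ Fin m → (P ⊕ V) ⊕ Fin m) := by
      funext x
      rcases x with (x | x) | x
      · rfl
      · simp [Fin.append_right]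
      · rfl
    rw [e1, e2, ← h1, ← h2]

theorem BAS_uand (φ ψ : Uf L ι) : ∃ χ : Uf L ι,
    ∀ (M : Type) (S : L.Structure M) (A : Set M) (v : ι → M), A.Nonempty →
      (χ.Tr S A v ↔ (φ.Tr S A v ∧ ψ.Tr S A v)) := by
  refine ⟨⟨φ.m + ψ.m, (φ.q.map (Sum.map id (Fin.castAdd ψ.m))).and
    (ψ.q.map (Sum.map id (Fin.natAdd φ.m)))⟩, ?_⟩
  rintro M S A v ⟨a0, ha0⟩
  have e1 : ∀ z : Fin (φ.m + ψ.m) → M, Sum.elim v z ∘ Sum.map id (Fin.castAdd ψ.m) =
      Sum.elim v (z ∘ Fin.castAdd ψ.m) := by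
    intro z
    funext x
    rcases x with x | x <;> rfl
  have e2 : ∀ z : Fin (φ.m + ψ.m) → M, Sum.elim v z ∘ Sum.map id (Fin.natAdd φ.m) =
      Sum.elim v (z ∘ Fin.natAdd φ.m) := by
    intro z
    funext x
    rcases x with x | x <;> rfl
  have key : ∀ z : Fin (φ.m + ψ.m) → M,
      ((φ.q.map (Sum.map id (Fin.castAdd ψ.m))).and
        (ψ.q.map (Sum.map id (Fin.natAdd φ.m)))).Tr S (Sum.elim v z) ↔
      (φ.q.Tr S (Sum.elim v (z ∘ Fin.castAdd ψ.m)) ∧
        ψ.q.Tr S (Sum.elim v (z ∘ Fin.natAdd φ.m))) := by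
    intro z
    rw [BAS_qand, BAS_qmap, BAS_qmap, e1, e2]
  constructor
  · intro h
    constructor
    · intro z hz
      have h1 := ((key (Fin.append z fun _ => a0)).1 (h _ ?_)).1
      · have e3 : (Fin.append z fun _ : Fin ψ.m => a0) ∘ Fin.castAdd ψ.m = z := by
          funext k
          simp [Fin.append_left]
        rw [e3] at h1
        exact h1
      · intro k
        refine Fin.addCases (fun i => ?_) (fun i => ?_) k
        · rw [Fin.append_left]
          exact hz i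
        · rw [Fin.append_right]
          exact ha0
    · intro z hz
      have h1 := ((key (Fin.append (fun _ => a0) z)).1 (h _ ?_)).2
      · have e3 : (Fin.append (fun _ : Fin φ.m => a0) z) ∘ Fin.natAdd φ.m = z := by
          funext k
          simp [Fin.append_right]
        rw [e3] at h1
        exact h1
      · intro k
        refine Fin.addCases (fun i => ?_) (fun i => ?_) k
        · rw [Fin.append_left]
          exact ha0
        · rw [Fin.append_right]
          exact hz i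
  · rintro ⟨h1, h2⟩ z hz
    exact (key z).2 ⟨h1 _ fun k => hz _, h2 _ fun k => hz _⟩

/-- formulas of bounded depth -/
def BAS_D (L : Lg) (ι : Type) : ℕ → Set (Qf L ι)
  | 0 => (range fun x : ι × ι => Qf.eq x.1 x.2) ∪
      (range fun x : (Σ n, L.Relations n × (Fin n → ι)) => Qf.rel x.1 x.2.1 x.2.2) ∪ {.bot}
  | n + 1 => BAS_D L ι n ∪ image2 Qf.imp (BAS_D L ι n) (BAS_D L ι n)

theorem BAS_ctq (hL : ∀ n, Countable (L.Relations n)) (hι : Countable ι) :
    Countable (Qf L ι) := by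
  have h1 : ∀ n, (BAS_D L ι n).Countable := by
    intro n
    induction n with
    | zero => exact ((countable_range _).union (countable_range _)).union (countable_singleton _)
    | succ n ih => exact ih.union (ih.image2 ih _)
  have hmono : Monotone (BAS_D L ι) := monotone_nat_of_le_succ fun n => subset_union_left
  have h2 : ∀ φ : Qf L ι, ∃ n, φ ∈ BAS_D L ι n := by
    intro φ
    induction φ with
    | eq i j => exact ⟨0, Or.inl (Or.inl ⟨(i, j), rfl⟩)⟩
    | rel n R t => exact ⟨0, Or.inl (Or.inr ⟨⟨n, R, t⟩, rfl⟩)⟩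
    | bot => exact ⟨0, Or.inr rfl⟩
    | imp φ ψ h1 h2 =>
      obtain ⟨n1, h1⟩ := h1
      obtain ⟨n2, h2⟩ := h2
      exact ⟨max n1 n2 + 1, Or.inr ⟨φ, hmono (le_max_left _ _) h1, ψ,
        hmono (le_max_right _ _) h2, rfl⟩⟩
  have h3 : (univ : Set (Qf L ι)) = ⋃ n, BAS_D L ι n := by
    ext φ
    simp only [mem_univ, mem_iUnion, true_iff]
    exact h2 φ
  rw [← countable_univ_iff, h3]
  exact countable_iUnion h1

theorem BAS_ctu (hL : ∀ n, Countable (L.Relations n)) (hι : Countable ι) :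
    Countable (Uf L ι) := by
  have h1 : ∀ m, Countable (Qf L (ι ⊕ Fin m)) := fun m => BAS_ctq hL inferInstance
  have h2 : Function.Injective (fun φ : Uf L ι => (⟨φ.m, φ.q⟩ : Σ m, Qf L (ι ⊕ Fin m))) := by
    rintro ⟨m, q⟩ ⟨m', q'⟩ h
    simp only [Sigma.mk.injEq] at h
    obtain ⟨rfl, h⟩ := h
    rw [eq_of_heq h]
  exact h2.countable

theorem BAS_ctR (F : Fr L P) (g : Adr F.T → ℕ) (hL : ∀ n, Countable (L.Relations n))
    (hP : Countable P) (hK : Countable F.T.K) : Countable (F.Rsn g) := by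
  have h1 : ∀ n, Countable (Uf L (P ⊕ Fin (n + 1))) := fun n => BAS_ctu hL inferInstance
  have h2 : Function.Injective (fun ρ : F.Rsn g => (⟨ρ.n, ρ.θ, ρ.J, ρ.H⟩ :
      Σ n, Uf L (P ⊕ Fin (n + 1)) × Finset (Adr F.T × F.T.K) × Finset (Adr F.T))) := by
    rintro ⟨n, θ, J, H, ok⟩ ⟨n', θ', J', H', ok'⟩ h
    simp only [Sigma.mk.injEq] at h
    obtain ⟨rfl, h⟩ := h
    have h := eq_of_heq h
    simp only [Prod.mk.injEq] at h
    obtain ⟨rfl, rfl, rfl⟩ := h
    rfl
  exact h2.countable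

/-- **BAS**: basic facts on formulas. -/
theorem thm_BAS : BAS where
  qmap := BAS_qmap
  umap := BAS_umap
  uqf := BAS_uqf
  qnot := fun S v φ => Iff.rfl
  qand := BAS_qand
  qor := BAS_qor
  qall := BAS_qall
  down := fun S A B v φ hBA h z hz => h z fun k => hBA (hz k)
  qeq := BAS_qeq
  ueq := BAS_ueq
  ufin := by
    intro L P V φ
    obtain ⟨n, a, q', h⟩ := BAS_qfin φ.q
    refine ⟨n, a, ⟨φ.m, q'⟩, ?_⟩
    obtain ⟨m, q⟩ := φ
    show (⟨m, q⟩ : Uf L (P ⊕ V)) = ⟨m, _⟩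
    rw [← h]
  uimp := by
    intro L ι φ ψ
    refine ⟨⟨ψ.m, (φ.map Sum.inl).imp ψ.q⟩, ?_⟩
    intro M S A v
    constructor
    · intro h h1 z hz
      exact h z hz ((BAS_qmap S Sum.inl _ φ).2 h1)
    · intro h z hz h1
      exact h ((BAS_qmap S Sum.inl _ φ).1 h1) z hz
  uand := BAS_uand
  utop := by
    intro L ι
    exact ⟨Uf.qf (Qf.not .bot), fun M S A v => (BAS_uqf S A v _).2 fun h => h⟩
  ctq := BAS_ctq
  ctu := BAS_ctu
  ctT := fun T hT => inferInstance
  ctR := BAS_ctR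

end ORD
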