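import Pool.Agent.ORD.StA

/-!
# ORD: compactness for U-formulas (an ultraproduct)
-/

set_option autoImplicit false
set_option linter.unusedVariables false

namespace ORD

open Set FirstOrder Filter

section

variable {L : Lg} {P X : Type} (u : Ultrafilter X) {M : X → Type} (N : ∀ x, Mo L P (M x))

/-- choice functions -/
private abbrev CPT_W : Type := ∀ x, (N x).A

/-- equality almost everywhere -/
private def CPT_r : Setoid (CPT_W N) where
  r w w' := ∀ᶠ x in (u : Filter X), w x = w' x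
  iseqv := ⟨fun w => Eventually.of_forall fun x => rfl,
    fun h => h.mono fun x hx => hx.symm,
    fun h h' => by filter_upwards [h, h'] with x hx hx'; exact hx.trans hx'⟩

/-- the ultraproduct -/
private abbrev CPT_M : Type := Quotient (CPT_r u N)

private def CPT_q (w : CPT_W N) : CPT_M u N := Quotient.mk (CPT_r u N) w

private theorem CPT_qe (w w' : CPT_W N) :
    CPT_q u N w = CPT_q u N w' ↔ ∀ᶠ x in (u : Filter X), w x = w' x :=
  Quotient.eq (r := CPT_r u N)

private noncomputable def CPT_o (a : CPT_M u N) : CPT_W N := Quotient.out a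

private theorem CPT_qo (a : CPT_M u N) : CPT_q u N (CPT_o u N a) = a := Quotient.out_eq a

private noncomputable def CPT_S (w₀ : CPT_W N) : L.Structure (CPT_M u N) where
  funMap _ _ := CPT_q u N w₀
  RelMap R t := ∀ᶠ x in (u : Filter X), (N x).S.RelMap R fun i => ((CPT_o u N (t i) x : (N x).A) : M x)

private theorem CPT_los (w₀ : CPT_W N) {ι : Type} (φ : Qf L ι) (w : ι → CPT_W N) :
    φ.Tr (CPT_S u N w₀) (fun i => CPT_q u N (w i)) ↔
      ∀ᶠ x in (u : Filter X), φ.Tr (N x).S (fun i => ((w i x : (N x).A) : M x)) := by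
  induction φ with
  | eq i j =>
    show CPT_q u N (w i) = CPT_q u N (w j) ↔ _
    rw [CPT_qe]
    exact eventually_congr (Eventually.of_forall fun x => Subtype.ext_iff)
  | rel n R t =>
    show (∀ᶠ x in (u : Filter X), (N x).S.RelMap R fun k =>
      ((CPT_o u N (CPT_q u N (w (t k))) x : (N x).A) : M x)) ↔ _
    have h : ∀ᶠ x in (u : Filter X), ∀ k, CPT_o u N (CPT_q u N (w (t k))) x = w (t k) x := by
      rw [eventually_all]
      intro k
      exact (CPT_qe u N _ _).1 (CPT_qo u N _)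
    refine eventually_congr (h.mono fun x hx => ?_)
    show _ ↔ (N x).S.RelMap R fun k => ((w (t k) x : (N x).A) : M x)
    have e : (fun k => ((CPT_o u N (CPT_q u N (w (t k))) x : (N x).A) : M x)) =
        fun k => ((w (t k) x : (N x).A) : M x) := funext fun k => by rw [hx k]
    rw [e]
  | bot =>
    show False ↔ ∀ᶠ x in (u : Filter X), False
    rw [eventually_false_iff_eq_bot]
    exact ⟨False.elim, fun h => u.neBot.ne h⟩
  | imp φ ψ h1 h2 =>
    show (φ.Tr _ _ → ψ.Tr _ _) ↔ ∀ᶠ x in (u : Filter X), (φ.Tr _ _ → ψ.Tr _ _)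
    rw [Ultrafilter.eventually_imp, h1, h2]

private theorem CPT_losU (w₀ : CPT_W N) {ι : Type} (φ : Uf L ι) (w : ι → CPT_W N) :
    φ.Tr (CPT_S u N w₀) univ (fun i => CPT_q u N (w i)) ↔
      ∀ᶠ x in (u : Filter X), φ.Tr (N x).S (N x).A (fun i => ((w i x : (N x).A) : M x)) := by
  classical
  constructor
  · intro h
    by_contra hn
    rw [← Ultrafilter.eventually_not] at hn
    have hz : ∀ x, ∃ z : Fin φ.m → (N x).A,
        ¬ φ.Tr (N x).S (N x).A (fun i => ((w i x : (N x).A) : M x)) →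
        ¬ φ.q.Tr (N x).S (Sum.elim (fun i => ((w i x : (N x).A) : M x))
          (fun k => ((z k : (N x).A) : M x))) := by
      intro x
      by_cases hx : φ.Tr (N x).S (N x).A (fun i => ((w i x : (N x).A) : M x))
      · exact ⟨fun _ => w₀ x, fun h => absurd hx h⟩
      · have := hx
        unfold Uf.Tr at this
        push Not at this
        obtain ⟨z, hz, hz'⟩ := this
        exact ⟨fun k => ⟨z k, hz k⟩, fun _ => hz'⟩
    choose z hz using hz
    have h1 := h (fun k => CPT_q u N (fun x => z x k)) (fun _ => mem_univ _)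
    have e : (Sum.elim (fun i => CPT_q u N (w i)) fun k => CPT_q u N (fun x => z x k)) =
        fun j => CPT_q u N ((Sum.elim w (fun k => (fun x => z x k : CPT_W N)) : _ → CPT_W N) j) := by
      funext j
      rcases j with j | j <;> rfl
    rw [e, CPT_los] at h1
    obtain ⟨x, hx, hx'⟩ := (h1.and hn).exists
    apply hz x hx'
    have e' : (Sum.elim (fun i => ((w i x : (N x).A) : M x)) fun k => ((z x k : (N x).A) : M x)) =
        fun j => (((Sum.elim w (fun k => (fun x => z x k : CPT_W N)) : _ → CPT_W N) j x :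
          (N x).A) : M x) := by
      funext j
      rcases j with j | j <;> rfl
    rw [e']
    exact hx
  · intro h z _
    have e : (Sum.elim (fun i => CPT_q u N (w i)) z) =
        fun j => CPT_q u N ((Sum.elim w (fun k => CPT_o u N (z k)) : _ → CPT_W N) j) := by
      funext j
      rcases j with j | j
      · rfl
      · exact (CPT_qo u N (z j)).symm
    rw [e, CPT_los]
    refine h.mono fun x hx => ?_
    have := hx (fun k => ((CPT_o u N (z k) x : (N x).A) : M x)) (fun k => Subtype.coe_prop _)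
    have e' : (Sum.elim (fun i => ((w i x : (N x).A) : M x)) fun k =>
          ((CPT_o u N (z k) x : (N x).A) : M x)) =
        fun j => (((Sum.elim w (fun k => CPT_o u N (z k)) : _ → CPT_W N) j x :
          (N x).A) : M x) := by
      funext j
      rcases j with j | j <;> rfl
    rw [← e']
    exact this

/-- the ultraproduct with constants -/
private noncomputable def CPT_N (hc : ∀ x p, (N x).c p ∈ (N x).A) (w₀ : CPT_W N) :
    Mo L P (CPT_M u N) where
  S := CPT_S u N w₀
  A := univ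
  c p := CPT_q u N fun x => ⟨(N x).c p, hc x p⟩

private theorem CPT_tr (hc : ∀ x p, (N x).c p ∈ (N x).A) (w₀ : CPT_W N) {ι : Type}
    (φ : Uf L (P ⊕ ι)) (w : ι → CPT_W N) :
    (CPT_N u N hc w₀).Tr φ (fun i => CPT_q u N (w i)) ↔
      ∀ᶠ x in (u : Filter X), (N x).Tr φ (fun i => ((w i x : (N x).A) : M x)) := by
  show φ.Tr (CPT_S u N w₀) univ (Sum.elim (fun p => CPT_q u N fun x => ⟨(N x).c p, hc x p⟩)
    (fun i => CPT_q u N (w i))) ↔ _
  have e : (Sum.elim (fun p => CPT_q u N fun x => ⟨(N x).c p, hc x p⟩)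
      (fun i => CPT_q u N (w i))) = fun j => CPT_q u N ((Sum.elim
        (fun p => (fun x => ⟨(N x).c p, hc x p⟩ : CPT_W N)) w : P ⊕ ι → CPT_W N) j) := by
    funext j
    rcases j with j | j <;> rfl
  rw [e, CPT_losU]
  refine eventually_congr (Eventually.of_forall fun x => ?_)
  have e' : (fun j => (((Sum.elim
        (fun p => (fun x => ⟨(N x).c p, hc x p⟩ : CPT_W N)) w : P ⊕ ι → CPT_W N) j x :
          (N x).A) : M x)) = Sum.elim (N x).c (fun i => ((w i x : (N x).A) : M x)) := by
    funext j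
    rcases j with j | j <;> rfl
  rw [e']
  exact Iff.rfl

private theorem CPT_md (hc : ∀ x p, (N x).c p ∈ (N x).A) (w₀ : CPT_W N) {T : Th L P}
    (hT : ∀ x, Md T (N x)) : Md T (CPT_N u N hc w₀) := by
  refine ⟨⟨CPT_q u N w₀, mem_univ _⟩, fun p => mem_univ _, fun a _ k => ?_⟩
  have h1 : ∀ x, ∃ y : Fin (T.n k) → (N x).A, T.Wit (N x) k (CPT_o u N a x : M x)
      (fun i => ((y i : (N x).A) : M x)) := by
    intro x
    obtain ⟨y, hy, hy'⟩ := (hT x).wit (CPT_o u N a x : M x) (Subtype.coe_prop _) k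
    exact ⟨fun i => ⟨y i, hy i⟩, hy'⟩
  choose y hy using h1
  refine ⟨fun i => CPT_q u N fun x => y x i, fun _ => mem_univ _, ?_⟩
  have e : (Fin.cons a (fun i => CPT_q u N fun x => y x i) : Fin (T.n k + 1) → CPT_M u N) =
      fun j => CPT_q u N ((Fin.cons (CPT_o u N a) (fun i => (fun x => y x i : CPT_W N)) :
        Fin (T.n k + 1) → CPT_W N) j) := by
    funext j
    refine Fin.cases ?_ (fun j => ?_) j
    · exact (CPT_qo u N a).symm
    · rfl
  show (CPT_N u N hc w₀).Tr (T.ax k) (Fin.cons a _ : Fin (T.n k + 1) → CPT_M u N)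
  rw [e, CPT_tr]
  refine Eventually.of_forall fun x => ?_
  have e' : (fun j => (((Fin.cons (CPT_o u N a) (fun i => (fun x => y x i : CPT_W N)) :
        Fin (T.n k + 1) → CPT_W N) j x : (N x).A) : M x)) =
      (Fin.cons (CPT_o u N a x : M x) (fun i => ((y x i : (N x).A) : M x)) :
        Fin (T.n k + 1) → M x) := by
    funext j
    refine Fin.cases ?_ (fun j => ?_) j <;> rfl
  rw [e']
  exact hy x

end

theorem thm_CPT (hb : BAS) : St_CPT := by
  classical
  intro L P T V Γ h
  have h1 : ∀ Δ : Finset Γ, ∃ (M : Type) (N : Mo L P M) (v : V → M), Md T N ∧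
      (∀ i, v i ∈ N.A) ∧ ∀ φ ∈ Δ, N.Tr φ.1 v := by
    intro Δ
    obtain ⟨M, N, v, h1, h2, h3⟩ := h (Subtype.val '' (Δ : Set Γ)) (by
      rintro _ ⟨φ, _, rfl⟩
      exact φ.2) (Δ.finite_toSet.image _)
    exact ⟨M, N, v, h1, h2, fun φ hφ => h3 φ.1 ⟨φ, hφ, rfl⟩⟩
  choose M N v hM hv hΔ using h1
  let u : Ultrafilter (Finset Γ) := Ultrafilter.of atTop
  have hu : (u : Filter (Finset Γ)) ≤ atTop := Ultrafilter.of_le _
  let w₀ : CPT_W N := fun x => ⟨_, (hM x).ne.some_mem⟩
  have hc : ∀ x p, (N x).c p ∈ (N x).A := fun x => (hM x).cst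
  refine ⟨CPT_M u N, CPT_N u N hc w₀, fun i => CPT_q u N fun x => ⟨v x i, hv x i⟩,
    CPT_md u N hc w₀ hM, rfl, fun φ hφ => ?_⟩
  rw [CPT_tr]
  have h2 : ∀ᶠ x in (u : Filter (Finset Γ)), {(⟨φ, hφ⟩ : Γ)} ≤ x :=
    hu (eventually_ge_atTop _)
  exact h2.mono fun x hx => hΔ x ⟨φ, hφ⟩ (Finset.singleton_subset_iff.1 hx)

end ORD
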