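import Pool.Agent.ORD.StA

/-!
# ORD, module ABS: absoluteness and persistence of the notions of a frame
-/

set_option autoImplicit false
set_option linter.unusedVariables false

namespace ORD

open Set FirstOrder

private theorem ABS_c1 {M M' : Type} (j : M → M') (x : M) : j ∘ ![x] = ![j x] := by
  funext i
  have : i = 0 := Subsingleton.elim _ _
  subst this
  rfl

private theorem ABS_c2 {M M' : Type} (j : M → M') (x y : M) : j ∘ ![x, y] = ![j x, j y] := by
  funext i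
  refine Fin.cases rfl (fun i => ?_) i
  have : i = 0 := Subsingleton.elim _ _
  subst this
  rfl

private theorem ABS_cc {M M' : Type} (j : M → M') {n : ℕ} (x : M) (a : Fin n → M) :
    j ∘ (Fin.cons x a : Fin (n + 1) → M) = (Fin.cons (j x) (j ∘ a) : Fin (n + 1) → M') := by
  funext i
  refine Fin.cases rfl (fun i => ?_) i
  rfl

private theorem ABS_m1 {M : Type} {A : Set M} {x : M} (hx : x ∈ A) : ∀ i, (![x] : Fin 1 → M) i ∈ A := by
  intro i
  have : i = 0 := Subsingleton.elim _ _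
  subst this
  exact hx

private theorem ABS_m2 {M : Type} {A : Set M} {x y : M} (hx : x ∈ A) (hy : y ∈ A) :
    ∀ i, (![x, y] : Fin 2 → M) i ∈ A := by
  intro i
  refine Fin.cases hx (fun i => ?_) i
  have : i = 0 := Subsingleton.elim _ _
  subst this
  exact hy

private theorem ABS_mc {M : Type} {A : Set M} {n : ℕ} {x : M} {a : Fin n → M} (hx : x ∈ A)
    (ha : ∀ i, a i ∈ A) : ∀ i, (Fin.cons x a : Fin (n + 1) → M) i ∈ A := by
  intro i
  exact Fin.cases hx (fun i => ha i) i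

variable {L : Lg} {P M M' : Type} {F : Fr L P}

private theorem ABS_udd (he : EMB) {N : Mo L P M} {N' : Mo L P M'} {j : M → M'}
    (h : UE N N' j) (x : M) (hx : x ∈ N.A) : F.D N' (j x) ↔ F.D N x := by
  have h1 := he.uqi h F.d ![x] (ABS_m1 hx)
  rw [ABS_c1] at h1
  unfold Fr.D
  rw [h1]
  exact ⟨fun h2 => ⟨hx, h2.2⟩, fun h2 => ⟨h.uni x hx, h2.2⟩⟩

private theorem ABS_ult (he : EMB) {N : Mo L P M} {N' : Mo L P M'} {j : M → M'}
    (h : UE N N' j) (x : M) (hx : x ∈ N.A) (y : M) (hy : y ∈ N.A) :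
    F.Lt N' (j x) (j y) ↔ F.Lt N x y := by
  have h1 := he.uqi h F.l ![x, y] (ABS_m2 hx hy)
  rw [ABS_c2] at h1
  exact h1.symm

private theorem ABS_ucl (hb : BAS) (he : EMB) {N : Mo L P M} {N' : Mo L P M'} {j : M → M'}
    (h : UE N N' j) (hc : ∀ p, N.c p ∈ N.A) (x : M) (hx : x ∈ N.A) (y : M) (hy : y ∈ N.A) :
    F.Cl N' (j x) (j y) ↔ F.Cl N x y := by
  have hIs : Is N (N'.sub (j '' N.A)) j := by
    refine ⟨(he.uin h).bijOn_image, h.cst, ?_⟩
    intro n R t ht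
    exact he.uqi h (Qf.rel n R fun i => Sum.inr i : Qf L (P ⊕ Fin n)) t ht
  constructor
  · rintro ⟨n, hn⟩
    refine ⟨n, ?_⟩
    have h1 := he.ist hIs hc (F.E n) ![x, y] (ABS_m2 hx hy)
    rw [ABS_c2] at h1
    rw [h1]
    refine hb.down N'.S N'.A (j '' N.A) _ (F.E n) ?_ hn
    rintro _ ⟨z, hz, rfl⟩
    exact h.uni z hz
  · rintro ⟨n, hn⟩
    refine ⟨n, ?_⟩
    have h1 := h.tr (Fin 2) (F.E n) ![x, y] (ABS_m2 hx hy) hn
    rwa [ABS_c2] at h1

private theorem ABS_lam (hb : BAS) (he : EMB) {g : Adr F.T → ℕ} {N : Mo L P M}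
    {N' : Mo L P M'} {j : M → M'} (h : UE N N' j) (hc : ∀ p, N.c p ∈ N.A) (y : M)
    (u : Adr F.T → M) (hu : F.Lam g N y u) : F.Lam g N' (j y) (j ∘ u) := by
  have hy : y ∈ N.A := hu.top ▸ hu.uni []
  refine { uni := fun s => h.uni _ (hu.uni s), top := congrArg j hu.top, wit := ?_, bd := ?_ }
  · intro s k
    have h1 := h.tr _ (F.T.ax k) _ (ABS_mc (hu.uni s) fun i => hu.uni (⟨k, i⟩ :: s)) (hu.wit s k)
    rw [ABS_cc] at h1
    exact h1
  · intro s h1 h2 h3
    have h1' := (ABS_udd he h (u s) (hu.uni s)).1 h1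
    have h2' := (ABS_ult he h y hy (u s) (hu.uni s)).1 h2
    have h3' : F.Lt N (u s) (N.c F.v) := by
      rw [← ABS_ult he h (u s) (hu.uni s) (N.c F.v) (hc F.v), h.cst]
      exact h3
    have h4 := h.tr (Fin 2) _ ![y, u s] (ABS_m2 hy (hu.uni s)) (hu.bd s h1' h2' h3')
    rwa [ABS_c2] at h4

/-- [ABS] absoluteness and persistence -/
theorem thm_ABS (hb : BAS) (he : EMB) : ABS where
  udd h x hx := ABS_udd he h x hx
  ult h x hx y hy := ABS_ult he h x hx y hy
  ucl h hc x hx y hy := ABS_ucl hb he h hc x hx y hy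
  sdd := by
    intro L P M F N C hC x hx
    exact ⟨fun h => ⟨hC hx, h.2⟩, fun h => ⟨hx, h.2⟩⟩
  scl := by
    intro L P M F N C hOk hMd hCw hc x hx y hy hDx hDy
    constructor
    · exact hOk.ab2 M N hMd C hCw hc x hx y hy hDx hDy
    · rintro ⟨n, hn⟩
      exact ⟨n, hb.down N.S N.A C _ (F.E n) hCw.sub hn⟩
  lam h hc y u hu := ABS_lam hb he h hc y u hu
  lsb := by
    intro L P M F g N C y u hu hC huC
    refine { uni := huC, top := hu.top, wit := ?_, bd := ?_ }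
    · intro s k
      exact hb.down N.S N.A C _ (F.T.ax k) hC (hu.wit s k)
    · intro s h1 h2 h3
      exact hb.down N.S N.A C _ (F.E (g s)) hC (hu.bd s ⟨hC h1.1, h1.2⟩ h2 h3)
  lcw := by
    intro L P M F g N y u hK hu
    refine ⟨⟨?_, ?_⟩, ?_⟩
    · rintro _ ⟨s, rfl⟩
      exact hu.uni s
    · rintro _ ⟨s, rfl⟩ k
      exact ⟨fun i => u (⟨k, i⟩ :: s), fun i => ⟨_, rfl⟩, hu.wit s k⟩
    · have := hb.ctT F.T hK
      exact countable_range u
  lbt := by
    rintro L P M F g N y u hu _ ⟨s, rfl⟩ h1 h2 h3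
    exact ⟨g s, hu.bd s h1 h2 h3⟩
  has := by
    intro L P M M' F g N N' j h y hy ρ a ha
    refine ⟨fun i => h.uni _ (ha.1 i), ?_⟩
    have h1 := h.tr _ ρ.θ _ (ABS_mc hy ha.1) ha.2
    rwa [ABS_cc] at h1
  hsb := by
    intro L P M F g N C y ρ a hC haC ha
    exact ⟨haC, hb.down N.S N.A C _ ρ.θ hC ha.2⟩
  rgd := by
    rintro L P M F g N hMd y hy ⟨ρ, a, ha⟩ ⟨u, hu⟩
    exact ρ.ok M N hMd y a hy ha.1 ha.2
      ⟨u, ⟨hu.uni, hu.top, fun s _ => hu.wit s.1 s.2, fun s _ => hu.bd s⟩⟩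
  isd := by
    intro L P M M' F N N' h hI hc x hx
    exact ABS_udd he (he.iue hI hc) x hx
  isl := by
    intro L P M M' F N N' h hI hc x hx y hy
    exact ABS_ult he (he.iue hI hc) x hx y hy
  isc := by
    intro L P M M' F N N' h hI hc x hx y hy
    exact ABS_ucl hb he (he.iue hI hc) hc x hx y hy
  isg := by
    intro L P M M' F g N N' h hI hc x hx
    constructor
    · rintro ⟨u, hu⟩
      obtain ⟨h', hI', h1, h2⟩ := he.isi hI hc ⟨x, hx⟩
      have hc' : ∀ p, N'.c p ∈ N'.A := by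
        intro p
        rw [← hI.cst p]
        exact hI.bij.mapsTo (hc p)
      have h3 := ABS_lam hb he (he.iue hI' hc') hc' _ u hu
      rw [h1 x hx] at h3
      exact ⟨_, h3⟩
    · rintro ⟨u, hu⟩
      exact ⟨_, ABS_lam hb he (he.iue hI hc) hc _ u hu⟩

end ORD
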