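import Pool.Agent.ORD.StA

/-!
# ORD, module BTF: the meaning of the formulas `btf`, `scf`, models of `Th.lin`, `Th.sp`
-/

set_option autoImplicit false
set_option linter.unusedVariables false

namespace ORD

open Set FirstOrder

private theorem BTF_D (hb : BAS) {L : Lg} {P M κ : Type} (N : Mo L P M) (W : κ → M) (f : P → κ)
    (hf : ∀ p, W (f p) = N.c p) (x : κ) (d : Qf L (P ⊕ Fin 1)) :
    (d.map (Sum.elim f fun _ => x)).Tr N.S W ↔ N.Q d ![W x] := by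
  rw [hb.qmap, Mo.Q]
  have h : W ∘ (Sum.elim f fun _ => x) = Sum.elim N.c ![W x] := by
    funext i
    rcases i with p | i
    · exact hf p
    · fin_cases i
      rfl
  rw [h]

private theorem BTF_L (hb : BAS) {L : Lg} {P M κ : Type} (N : Mo L P M) (W : κ → M) (f : P → κ)
    (hf : ∀ p, W (f p) = N.c p) (x y : κ) (l : Qf L (P ⊕ Fin 2)) :
    (l.map (Sum.elim f ![x, y])).Tr N.S W ↔ N.Q l ![W x, W y] := by
  rw [hb.qmap, Mo.Q]
  have h : W ∘ (Sum.elim f ![x, y]) = Sum.elim N.c ![W x, W y] := by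
    funext i
    rcases i with p | i
    · exact hf p
    · fin_cases i <;> rfl
  rw [h]

private theorem BTF_btf (hb : BAS) {L : Lg} {P M : Type} (d : Qf L (P ⊕ Fin 1))
    (l : Qf L (P ⊕ Fin 2)) (N : Mo L P M) (n : ℕ) (x y : M) :
    N.Tr (btf d l n) ![x, y] ↔
      ¬ ∃ z : Fin (n + 1) → M, Function.Injective z ∧ ∀ i, Btw d l N x y (z i) := by
  rw [Mo.Tr, Uf.Tr]
  have key : ∀ z : Fin (n + 1) → M, (btf d l n).q.Tr N.S (Sum.elim (Sum.elim N.c ![x, y]) z) ↔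
      ¬ ((∀ i, N.Q d ![z i] ∧ ((N.Q l ![x, z i] ∧ N.Q l ![z i, y]) ∨
        (N.Q l ![y, z i] ∧ N.Q l ![z i, x]))) ∧ ∀ i j, i < j → z i ≠ z j) := by
    intro z
    unfold btf
    simp only [hb.qnot, hb.qand, hb.qor, hb.qall, List.mem_map, List.mem_finRange, true_and,
      List.mem_filter, decide_eq_true_eq, forall_exists_index, forall_apply_eq_imp_iff,
      and_imp, forall_apply_eq_imp_iff₂]
    simp only [BTF_D hb N (Sum.elim (Sum.elim N.c ![x, y]) z) (fun p => Sum.inl (Sum.inl p))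
      (fun p => rfl), BTF_L hb N (Sum.elim (Sum.elim N.c ![x, y]) z)
      (fun p => Sum.inl (Sum.inl p)) (fun p => rfl)]
    rfl
  constructor
  · rintro h ⟨z, hz, hB⟩
    exact (key z).1 (h z fun k => (hB k).1) ⟨fun i => (hB i).2, fun i j hij he =>
      absurd (hz he) hij.ne⟩
  · intro h z hz
    refine (key z).2 ?_
    rintro ⟨h1, h2⟩
    apply h
    refine ⟨z, ?_, fun i => ⟨hz i, h1 i⟩⟩
    intro i j hij
    rcases lt_trichotomy i j with hlt | heq | hgt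
    · exact absurd hij (h2 i j hlt)
    · exact heq
    · exact absurd hij.symm (h2 j i hgt)

private theorem BTF_scf (hb : BAS) {L : Lg} {P M : Type} (d : Qf L (P ⊕ Fin 1))
    (l : Qf L (P ⊕ Fin 2)) (N : Mo L P M) (x y : M) :
    N.Tr (scf d l) ![x, y] ↔
    (N.Q d ![x] → ((N.Q d ![y] ∧ N.Q l ![x, y] ∧ ∀ z ∈ N.A, N.Q d ![z] → N.Q l ![x, z] →
      ¬ N.Q l ![z, y]) ∨ ∀ z ∈ N.A, N.Q d ![z] → ¬ N.Q l ![x, z])) := by
  rw [Mo.Tr, Uf.Tr]
  have key : ∀ z : Fin 1 → M, (scf d l).q.Tr N.S (Sum.elim (Sum.elim N.c ![x, y]) z) ↔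
      (N.Q d ![x] → ((N.Q d ![y] ∧ N.Q l ![x, y] ∧ (N.Q d ![z 0] → N.Q l ![x, z 0] →
      ¬ N.Q l ![z 0, y])) ∨ (N.Q d ![z 0] → ¬ N.Q l ![x, z 0]))) := by
    intro z
    unfold scf
    simp only [Qf.Tr, hb.qnot, hb.qand, hb.qor]
    simp only [BTF_D hb N (Sum.elim (Sum.elim N.c ![x, y]) z) (fun p => Sum.inl (Sum.inl p))
      (fun p => rfl), BTF_L hb N (Sum.elim (Sum.elim N.c ![x, y]) z)
      (fun p => Sum.inl (Sum.inl p)) (fun p => rfl)]
    rfl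
  show (∀ z : Fin 1 → M, (∀ k, z k ∈ N.A) →
    (scf d l).q.Tr N.S (Sum.elim (Sum.elim N.c ![x, y]) z)) ↔ _
  constructor
  · intro h hx
    by_cases h0 : N.Q d ![y] ∧ N.Q l ![x, y]
    · refine Or.inl ⟨h0.1, h0.2, fun z hz hd hl => ?_⟩
      have h1 := (key ![z]).1 (h ![z] fun k => by
        have hk : k = 0 := Subsingleton.elim _ _
        subst hk
        exact hz) hx
      rcases h1 with h1 | h1
      · exact h1.2.2 hd hl
      · exact absurd hl (h1 hd)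
    · refine Or.inr fun z hz hd => ?_
      have h1 := (key ![z]).1 (h ![z] fun k => by
        have hk : k = 0 := Subsingleton.elim _ _
        subst hk
        exact hz) hx
      rcases h1 with h1 | h1
      · exact absurd ⟨h1.1, h1.2.1⟩ h0
      · exact h1 hd
  · intro h z hz
    refine (key z).2 fun hx => ?_
    rcases h hx with h1 | h1
    · exact Or.inl ⟨h1.1, h1.2.1, h1.2.2 (z 0) (hz 0)⟩
    · exact Or.inr (h1 (z 0) (hz 0))

private theorem BTF_swp (hb : BAS) {L : Lg} {P M : Type} (l : Qf L (P ⊕ Fin 2)) (N : Mo L P M)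
    (x y : M) : N.Q (swp l) ![x, y] ↔ N.Q l ![y, x] := by
  rw [Mo.Q, swp, hb.qmap, Mo.Q]
  have h : Sum.elim N.c ![x, y] ∘ Sum.map id ![(1 : Fin 2), 0] = Sum.elim N.c ![y, x] := by
    funext i
    rcases i with p | i
    · rfl
    · fin_cases i <;> rfl
  rw [h]

/-- the auxiliary formulas of `Th.lin` -/
private theorem BTF_U (hb : BAS) {L : Lg} {P M : Type} (N : Mo L P M) (m : ℕ)
    (q : Qf L (P ⊕ (Fin 1 ⊕ Fin m))) (x : M) (y : Fin 0 → M) :
    N.Tr (⟨m, q.map (Sum.elim (fun p => Sum.inl (Sum.inl p))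
      (Sum.elim (fun i => Sum.inl (Sum.inr i)) Sum.inr))⟩ : Uf L (P ⊕ Fin 1))
      (Fin.cons x y : Fin (0 + 1) → M) ↔
    ∀ z : Fin m → M, (∀ k, z k ∈ N.A) → q.Tr N.S (Sum.elim N.c (Sum.elim ![x] z)) := by
  rw [Mo.Tr, Uf.Tr]
  refine forall_congr' fun z => ?_
  rw [hb.qmap]
  have h : Sum.elim (Sum.elim N.c (Fin.cons x y : Fin (0 + 1) → M)) z ∘
      (Sum.elim (fun p => Sum.inl (Sum.inl p)) (Sum.elim (fun i => Sum.inl (Sum.inr i)) Sum.inr) :
        P ⊕ (Fin 1 ⊕ Fin m) → (P ⊕ Fin 1) ⊕ Fin m) = Sum.elim N.c (Sum.elim ![x] z) := by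
    funext i
    rcases i with p | i | i
    · rfl
    · fin_cases i
      rfl
    · rfl
  rw [h]

private theorem BTF_lin (hb : BAS) {L : Lg} {P M : Type} (T : Th L P) (d : Qf L (P ⊕ Fin 1))
    (l : Qf L (P ⊕ Fin 2)) (v : P) (N : Mo L P M) : Md (T.lin d l v) N ↔
    (Md T N ∧ (∀ x ∈ N.A, N.Q d ![x] → ¬ N.Q l ![x, x]) ∧
      (∀ x ∈ N.A, ∀ y ∈ N.A, ∀ z ∈ N.A, N.Q d ![x] → N.Q d ![y] → N.Q d ![z] →
        N.Q l ![x, y] → N.Q l ![y, z] → N.Q l ![x, z]) ∧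
      (∀ x ∈ N.A, ∀ y ∈ N.A, N.Q d ![x] → N.Q d ![y] →
        x = y ∨ N.Q l ![x, y] ∨ N.Q l ![y, x]) ∧ N.Q d ![N.c v]) := by
  have h0 : ∀ (x : M) (y : Fin 0 → M), (T.lin d l v).Wit N (Sum.inr 0) x y ↔
      (N.Q d ![x] → ¬ N.Q l ![x, x]) := by
    intro x y
    refine (BTF_U hb N 0 _ x y).trans ?_
    have h : ∀ z : Fin 0 → M, ((Qf.map (Sum.elim Sum.inl fun _ => Sum.inr (Sum.inl 0)) d).imp
        (Qf.map (Sum.elim Sum.inl ![Sum.inr (Sum.inl 0), Sum.inr (Sum.inl 0)]) l).not :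
        Qf L (P ⊕ (Fin 1 ⊕ Fin 0))).Tr N.S (Sum.elim N.c (Sum.elim ![x] z)) ↔
        (N.Q d ![x] → ¬ N.Q l ![x, x]) := by
      intro z
      simp only [Qf.Tr, hb.qnot]
      rw [BTF_D hb N (Sum.elim N.c (Sum.elim ![x] z)) Sum.inl (fun p => rfl),
        BTF_L hb N (Sum.elim N.c (Sum.elim ![x] z)) Sum.inl (fun p => rfl)]
      rfl
    constructor
    · intro h1
      exact (h Fin.elim0).1 (h1 Fin.elim0 fun k => k.elim0)
    · intro h1 z _
      exact (h z).2 h1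
  have h1 : ∀ (x : M) (y : Fin 0 → M), (T.lin d l v).Wit N (Sum.inr 1) x y ↔
      ∀ z : Fin 2 → M, (∀ k, z k ∈ N.A) → (N.Q d ![x] → N.Q d ![z 0] → N.Q d ![z 1] →
        N.Q l ![x, z 0] → N.Q l ![z 0, z 1] → N.Q l ![x, z 1]) := by
    intro x y
    refine (BTF_U hb N 2 _ x y).trans (forall_congr' fun z => forall_congr' fun _ => ?_)
    simp only [Qf.Tr]
    rw [BTF_D hb N (Sum.elim N.c (Sum.elim ![x] z)) Sum.inl (fun p => rfl),
      BTF_D hb N (Sum.elim N.c (Sum.elim ![x] z)) Sum.inl (fun p => rfl),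
      BTF_D hb N (Sum.elim N.c (Sum.elim ![x] z)) Sum.inl (fun p => rfl),
      BTF_L hb N (Sum.elim N.c (Sum.elim ![x] z)) Sum.inl (fun p => rfl),
      BTF_L hb N (Sum.elim N.c (Sum.elim ![x] z)) Sum.inl (fun p => rfl),
      BTF_L hb N (Sum.elim N.c (Sum.elim ![x] z)) Sum.inl (fun p => rfl)]
    rfl
  have h2 : ∀ (x : M) (y : Fin 0 → M), (T.lin d l v).Wit N (Sum.inr 2) x y ↔
      ∀ z : Fin 1 → M, (∀ k, z k ∈ N.A) → (N.Q d ![x] → N.Q d ![z 0] →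
        (x = z 0 ∨ N.Q l ![x, z 0] ∨ N.Q l ![z 0, x])) := by
    intro x y
    refine (BTF_U hb N 1 _ x y).trans (forall_congr' fun z => forall_congr' fun _ => ?_)
    simp only [Qf.Tr, hb.qor]
    rw [BTF_D hb N (Sum.elim N.c (Sum.elim ![x] z)) Sum.inl (fun p => rfl),
      BTF_D hb N (Sum.elim N.c (Sum.elim ![x] z)) Sum.inl (fun p => rfl),
      BTF_L hb N (Sum.elim N.c (Sum.elim ![x] z)) Sum.inl (fun p => rfl),
      BTF_L hb N (Sum.elim N.c (Sum.elim ![x] z)) Sum.inl (fun p => rfl)]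
    rfl
  have h3 : ∀ (x : M) (y : Fin 0 → M), (T.lin d l v).Wit N (Sum.inr 3) x y ↔
      N.Q d ![N.c v] := by
    intro x y
    refine (BTF_U hb N 0 _ x y).trans ?_
    have h : ∀ z : Fin 0 → M, (Qf.map (Sum.elim Sum.inl fun _ => Sum.inl v) d :
        Qf L (P ⊕ (Fin 1 ⊕ Fin 0))).Tr N.S (Sum.elim N.c (Sum.elim ![x] z)) ↔
        N.Q d ![N.c v] := by
      intro z
      rw [BTF_D hb N (Sum.elim N.c (Sum.elim ![x] z)) Sum.inl (fun p => rfl)]
      rfl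
    constructor
    · intro h1
      exact (h Fin.elim0).1 (h1 Fin.elim0 fun k => k.elim0)
    · intro h1 z _
      exact (h z).2 h1
  constructor
  · intro h
    obtain ⟨x₀, hx₀⟩ := h.ne
    refine ⟨⟨h.ne, h.cst, fun x hx k => h.wit x hx (Sum.inl k)⟩, ?_, ?_, ?_, ?_⟩
    · intro x hx
      obtain ⟨y, _, hy⟩ := h.wit x hx (Sum.inr 0)
      exact (h0 x y).1 hy
    · intro x hx y hy z hz
      obtain ⟨y', _, hy'⟩ := h.wit x hx (Sum.inr 1)
      exact (h1 x y').1 hy' ![y, z] (by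
        intro k
        fin_cases k
        · exact hy
        · exact hz)
    · intro x hx y hy
      obtain ⟨y', _, hy'⟩ := h.wit x hx (Sum.inr 2)
      exact (h2 x y').1 hy' ![y] (by
        intro k
        fin_cases k
        exact hy)
    · obtain ⟨y', _, hy'⟩ := h.wit x₀ hx₀ (Sum.inr 3)
      exact (h3 x₀ y').1 hy'
  · rintro ⟨hT, g0, g1, g2, g3⟩
    refine ⟨hT.ne, hT.cst, fun x hx k => ?_⟩
    rcases k with k | k
    · exact hT.wit x hx k
    · have hk : k = 0 ∨ k = 1 ∨ k = 2 ∨ k = 3 := by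
        fin_cases k <;> simp
      rcases hk with rfl | rfl | rfl | rfl
      · exact ⟨Fin.elim0, fun i => i.elim0, (h0 x _).2 (g0 x hx)⟩
      · exact ⟨Fin.elim0, fun i => i.elim0, (h1 x _).2 fun z hz =>
          g1 x hx (z 0) (hz 0) (z 1) (hz 1)⟩
      · exact ⟨Fin.elim0, fun i => i.elim0, (h2 x _).2 fun z hz => g2 x hx (z 0) (hz 0)⟩
      · exact ⟨Fin.elim0, fun i => i.elim0, (h3 x _).2 g3⟩

private theorem BTF_sp {L : Lg} {P M : Type} (T : Th L P) (d : Qf L (P ⊕ Fin 1))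
    (l : Qf L (P ⊕ Fin 2)) (N : Mo L P M) : Md (T.sp d l) N ↔
    (Md T N ∧ (∀ x ∈ N.A, ∃ y ∈ N.A, N.Tr (ORD.scf d l) ![x, y]) ∧
      ∀ x ∈ N.A, ∃ y ∈ N.A, N.Tr (ORD.scf d (ORD.swp l)) ![x, y]) := by
  have hc : ∀ (x : M) (y : Fin 1 → M), (Fin.cons x y : Fin (1 + 1) → M) = ![x, y 0] := by
    intro x y
    funext i
    fin_cases i <;> rfl
  have h0 : ∀ (x : M) (y : Fin 1 → M), (T.sp d l).Wit N (Sum.inr true) x y ↔
      N.Tr (ORD.scf d l) ![x, y 0] := by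
    intro x y
    rw [← hc x y]
    exact Iff.rfl
  have h1 : ∀ (x : M) (y : Fin 1 → M), (T.sp d l).Wit N (Sum.inr false) x y ↔
      N.Tr (ORD.scf d (ORD.swp l)) ![x, y 0] := by
    intro x y
    rw [← hc x y]
    exact Iff.rfl
  constructor
  · intro h
    refine ⟨⟨h.ne, h.cst, fun x hx k => h.wit x hx (Sum.inl k)⟩, ?_, ?_⟩
    · intro x hx
      obtain ⟨y, hy, hw⟩ := h.wit x hx (Sum.inr true)
      exact ⟨y (0 : Fin 1), hy (0 : Fin 1), (h0 x y).1 hw⟩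
    · intro x hx
      obtain ⟨y, hy, hw⟩ := h.wit x hx (Sum.inr false)
      exact ⟨y (0 : Fin 1), hy (0 : Fin 1), (h1 x y).1 hw⟩
  · rintro ⟨hT, g0, g1⟩
    refine ⟨hT.ne, hT.cst, fun x hx k => ?_⟩
    rcases k with k | k
    · exact hT.wit x hx k
    · cases k
      · obtain ⟨y, hy, hw⟩ := g1 x hx
        exact ⟨fun _ => y, fun _ => hy, (h1 x fun _ => y).2 hw⟩
      · obtain ⟨y, hy, hw⟩ := g0 x hx
        exact ⟨fun _ => y, fun _ => hy, (h0 x fun _ => y).2 hw⟩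

theorem thm_BTF (hb : BAS) : BTF where
  btf d l N n x y := BTF_btf hb d l N n x y
  scf d l N x y _ := BTF_scf hb d l N x y
  swp l N x y := BTF_swp hb l N x y
  lin T d l v N := BTF_lin hb T d l v N
  sp T d l N := BTF_sp T d l N

end ORD
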