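import Pool.Agent.ORD.StB

/-!
# ORD: upper bounds of chains of approximations
-/

set_option autoImplicit false
set_option linter.unusedVariables false

namespace ORD

open Set FirstOrder Cardinal

variable {L : Lg} {P M : Type}

private theorem chn_ll (ha : ABS) {F : Fr L P} {N N' : Mo L P M} (h : UE N N' id)
    (hc : ∀ p, N.c p ∈ N.A) {x y : M} (hx : x ∈ N.A) (hy : y ∈ N.A) :
    F.Ll N' x y ↔ F.Ll N x y := by
  have h1 : F.Lt N' x y ↔ F.Lt N x y := ha.ult h x hx y hy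
  have h2 : F.Cl N' x y ↔ F.Cl N x y := ha.ucl h hc x hx y hy
  unfold Fr.Ll
  rw [h1, h2]

private theorem chn_good (ha : ABS) {F : Fr L P} {g : Adr F.T → ℕ} {N N' : Mo L P M}
    (h : UE N N' id) (hc : ∀ p, N.c p ∈ N.A) {y : M} (hy : F.Good g N y) : F.Good g N' y := by
  obtain ⟨u, hu⟩ := hy
  exact ⟨_, ha.lam h hc y u hu⟩

private theorem chn_rd (ha : ABS) {F : Fr L P} {g : Adr F.T → ℕ} {N N' : Mo L P M}
    (h : UE N N' id) {y : M} (hyA : y ∈ N.A) (hy : F.Rd g N y) : F.Rd g N' y := by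
  obtain ⟨ρ, a, h1⟩ := hy
  exact ⟨ρ, _, ha.has h y hyA ρ a h1⟩

theorem thm_CHN (hb : BAS) (he : EMB) (ha : ABS) (ho : ORL) (hu : St_UNI) : St_CHN := by
  classical
  intro L P M F g N₀ a hB c hne hapx hch
  have htot : ∀ s ∈ c, ∀ t ∈ c, Ale F s t ∨ Ale F t s := by
    intro s hs t ht
    by_cases hst : s = t
    · left
      rw [hst]
      exact ⟨he.uid _, subset_refl _, fun x hx hx' => absurd hx hx', fun _ _ => rfl⟩
    · exact hch hs ht hst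
  obtain ⟨N, hNA, hNmd, hNue⟩ := hu L P F.T M (Prod.fst '' c) (hne.image _)
    (by
      rintro _ ⟨t, ht, rfl⟩
      exact (hapx t ht).md)
    (by
      rintro _ ⟨s, hs, rfl⟩ _ ⟨t, ht, rfl⟩
      rcases htot s hs t ht with h | h
      · exact Or.inl h.ue
      · exact Or.inr h.ue)
  have hue : ∀ t ∈ c, UE t.1 N id := fun t ht => hNue t.1 ⟨t, ht, rfl⟩
  have hcst : ∀ t ∈ c, ∀ p, t.1.c p ∈ t.1.A := fun t ht => (hapx t ht).md.cst
  have hcv : ∀ t ∈ c, N.c F.v = t.1.c F.v := fun t ht => ((hue t ht).cst F.v).symm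
  have hmem : ∀ z ∈ N.A, ∃ t ∈ c, z ∈ t.1.A := by
    intro z hz
    rw [hNA, Set.mem_iUnion₂] at hz
    obtain ⟨_, ⟨t, ht, rfl⟩, hz⟩ := hz
    exact ⟨t, ht, hz⟩
  have hxA : ∀ t ∈ c, ∀ x ∈ t.2.1, x ∈ t.1.A := fun t ht x hx => ((hapx t ht).xg x hx).1.1
  have hD : ∀ t ∈ c, ∀ x ∈ t.1.A, (F.D N x ↔ F.D t.1 x) := fun t ht x hx =>
    ha.udd (hue t ht) x hx
  have hLt : ∀ t ∈ c, ∀ x ∈ t.1.A, ∀ y ∈ t.1.A, (F.Lt N x y ↔ F.Lt t.1 x y) :=
    fun t ht x hx y hy => ha.ult (hue t ht) x hx y hy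
  have hCl : ∀ t ∈ c, ∀ x ∈ t.1.A, ∀ y ∈ t.1.A, (F.Cl N x y ↔ F.Cl t.1 x y) :=
    fun t ht x hx y hy => ha.ucl (hue t ht) (hcst t ht) x hx y hy
  have hLl : ∀ t ∈ c, ∀ x ∈ t.1.A, ∀ y ∈ t.1.A, (F.Ll N x y ↔ F.Ll t.1 x y) :=
    fun t ht x hx y hy => chn_ll ha (hue t ht) (hcst t ht) hx hy
  have hCeq : ∀ t ∈ c, ∀ y, (t.2.2 y).Nonempty → {z | ∃ s ∈ c, z ∈ s.2.2 y} = t.2.2 y := by
    intro t ht y hy
    ext z
    constructor
    · rintro ⟨s, hs, hz⟩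
      rcases htot s hs t ht with h | h
      · rw [h.ext y ⟨z, hz⟩]
        exact hz
      · rw [← h.ext y hy]
        exact hz
    · intro hz
      exact ⟨t, ht, hz⟩
  refine ⟨N, {x | ∃ t ∈ c, x ∈ t.2.1}, fun y => {z | ∃ s ∈ c, z ∈ s.2.2 y},
    ⟨⟨hNmd, ?_, ?_, ?_, ?_⟩, ?_, ?_, ?_, ?_⟩, ?_⟩
  · -- xg
    rintro x ⟨t, ht, hx⟩
    obtain ⟨h1, h2, h3⟩ := (hapx t ht).xg x hx
    refine ⟨(hD t ht x h1.1).mpr h1, chn_good ha (hue t ht) (hcst t ht) h2, ?_⟩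
    rw [hcv t ht]
    exact (hLl t ht x h1.1 _ (hcst t ht _)).mpr h3
  · -- xp
    rintro x ⟨t, ht, hx⟩ x' ⟨s, hs, hx'⟩ hcl
    rcases htot s hs t ht with h | h
    · have h1 := h.sub hx'
      exact (hapx t ht).xp x hx x' h1
        ((hCl t ht x (hxA t ht x hx) x' (hxA t ht x' h1)).mp hcl)
    · have h1 := h.sub hx
      exact (hapx s hs).xp x h1 x' hx'
        ((hCl s hs x (hxA s hs x h1) x' (hxA s hs x' hx')).mp hcl)
  · -- wo
    rintro Y hY ⟨y₀, hy₀⟩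
    obtain ⟨t, ht, hy₀'⟩ := hY hy₀
    obtain ⟨m, ⟨hmY, hmt⟩, hm⟩ := (hapx t ht).wo (Y ∩ t.2.1) inter_subset_right
      ⟨y₀, hy₀, hy₀'⟩
    refine ⟨m, hmY, ?_⟩
    intro y hy
    by_cases hyt : y ∈ t.2.1
    · rcases hm y ⟨hy, hyt⟩ with h | h
      · exact Or.inl h
      · exact Or.inr ((hLt t ht y (hxA t ht y hyt) m (hxA t ht m hmt)).mpr h)
    · right
      obtain ⟨s, hs, hys⟩ := hY hy
      rcases htot s hs t ht with h | h
      · exact absurd (h.sub hys) hyt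
      · have h1 := h.blw y hys hyt m hmt
        exact (hLt s hs y (hxA s hs y hys) m (hxA s hs m (h.sub hmt))).mpr h1
  · -- dc
    rintro x ⟨t, ht, hx⟩ y hy hxy hyv
    obtain ⟨s, hs, hys⟩ := hmem y hy.1
    obtain ⟨r, hr, hxr, hyr⟩ : ∃ r ∈ c, x ∈ r.2.1 ∧ y ∈ r.1.A := by
      rcases htot s hs t ht with h | h
      · exact ⟨t, ht, hx, h.ue.uni y hys⟩
      · exact ⟨s, hs, h.sub hx, hys⟩
    rw [hcv r hr] at hyv
    rcases (hapx r hr).dc x hxr y ((hD r hr y hyr).mp hy)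
      ((hLl r hr x (hxA r hr x hxr) y hyr).mp hxy)
      ((hLl r hr y hyr _ (hcst r hr _)).mp hyv) with ⟨h1, x', hx', h2⟩ | h1
    · left
      exact ⟨chn_good ha (hue r hr) (hcst r hr) h1, x', ⟨r, hr, hx'⟩,
        (hCl r hr y hyr x' (hxA r hr x' hx')).mpr h2⟩
    · right
      exact chn_rd ha (hue r hr) hyr h1
  · -- ue
    obtain ⟨t, ht⟩ := hne
    exact he.uco (hapx t ht).ue (hue t ht)
  · -- cc
    intro y
    rcases Set.eq_empty_or_nonempty {z | ∃ s ∈ c, z ∈ s.2.2 y} with h | ⟨z, t, ht, hz⟩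
    · rw [h]
      exact ⟨Set.countable_empty, empty_subset _⟩
    · rw [hCeq t ht y ⟨z, hz⟩]
      exact ⟨((hapx t ht).cc y).1, fun w hw => (hue t ht).uni w (((hapx t ht).cc y).2 hw)⟩
  · -- cg
    rintro y ⟨z, t, ht, hz⟩
    exact chn_good ha (hue t ht) (hcst t ht) ((hapx t ht).cg y ⟨z, hz⟩)
  · -- cr
    intro z hz
    obtain ⟨t, ht, hzt⟩ := hmem z hz
    obtain ⟨b, hb1, hb2⟩ := (hapx t ht).cr z hzt
    refine ⟨b, ?_, ?_⟩
    · rcases hb1 with h | h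
      · exact Or.inl h
      · exact Or.inr ⟨t, ht, h⟩
    · refine Relation.ReflTransGen.mono ?_ b z hb2
      intro s w hw
      exact ⟨t, ht, hw⟩
  · intro t ht
    refine ⟨hue t ht, fun x hx => ⟨t, ht, hx⟩, ?_, ?_⟩
    · rintro x ⟨s, hs, hxs⟩ hxt x' hx'
      rcases htot s hs t ht with h | h
      · exact absurd (h.sub hxs) hxt
      · have h1 := h.blw x hxs hxt x' hx'
        exact (hLt s hs x (hxA s hs x hxs) x' (hxA s hs x' (h.sub hx'))).mpr h1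
    · intro y hy
      exact hCeq t ht y hy

end ORD
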