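import Pool.Agent.ORD.StB

/-!
# ORD: [CON] Compactness for a new good element in a cut
-/

set_option autoImplicit false
set_option linter.unusedVariables false

namespace ORD

open Set FirstOrder

section

variable {L : Lg} {P M M' : Type}

/-- the formula for the witnesses -/
private def CON_wit (F : Fr L P) (V : Type) (p : Adr F.T × F.T.K) : Uf L (P ⊕ (V ⊕ Adr F.T)) :=
  (F.T.ax p.2).map (Sum.map id (Fin.cons (Sum.inr p.1) fun i => Sum.inr (⟨p.2, i⟩ :: p.1)))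

private theorem CON_wit_tr (hb : BAS) (F : Fr L P) {V : Type} (p : Adr F.T × F.T.K)
    (N : Mo L P M) (j : V → M) (u : Adr F.T → M) :
    N.Tr (CON_wit F V p) (Sum.elim j u) ↔
      F.T.Wit N p.2 (u p.1) fun i => u (⟨p.2, i⟩ :: p.1) := by
  unfold Mo.Tr CON_wit Th.Wit Mo.Tr
  rw [hb.umap]
  have h : Sum.elim N.c (Sum.elim j u) ∘ Sum.map id
      (Fin.cons (Sum.inr p.1) fun i => Sum.inr (⟨p.2, i⟩ :: p.1))
      = Sum.elim N.c (Fin.cons (u p.1) fun i => u (⟨p.2, i⟩ :: p.1) :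
          Fin (F.T.n p.2 + 1) → M) := by
    funext x
    rcases x with x | x
    · rfl
    · refine Fin.cases ?_ (fun i => ?_) x <;> rfl
  rw [h]

/-- the formula for the definable set -/
private def CON_d (F : Fr L P) (V : Type) : Uf L (P ⊕ (V ⊕ Adr F.T)) :=
  Uf.qf (F.d.map (Sum.elim Sum.inl ![Sum.inr (Sum.inr [])]))

private theorem CON_d_tr (hb : BAS) (F : Fr L P) {V : Type} (N : Mo L P M) (j : V → M)
    (u : Adr F.T → M) : N.Tr (CON_d F V) (Sum.elim j u) ↔ N.Q F.d ![u [] ] := by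
  unfold Mo.Tr CON_d Mo.Q
  rw [hb.uqf, hb.qmap]
  have h1 : Sum.elim N.c (Sum.elim j u) ∘ Sum.elim Sum.inl ![Sum.inr (Sum.inr [])]
      = Sum.elim N.c ![u [] ] := by
    funext x
    rcases x with x | x
    · rfl
    · fin_cases x; rfl
  rw [h1]

/-- the formula for the order -/
private def CON_l (F : Fr L P) {V : Type} (x y : V ⊕ Adr F.T) : Uf L (P ⊕ (V ⊕ Adr F.T)) :=
  Uf.qf (F.l.map (Sum.elim Sum.inl ![Sum.inr x, Sum.inr y]))

private theorem CON_l_tr (hb : BAS) (F : Fr L P) {V : Type} (N : Mo L P M) (x y : V ⊕ Adr F.T)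
    (j : V → M) (u : Adr F.T → M) :
    N.Tr (CON_l F x y) (Sum.elim j u) ↔ F.Lt N (Sum.elim j u x) (Sum.elim j u y) := by
  unfold Mo.Tr CON_l Fr.Lt Mo.Q
  rw [hb.uqf, hb.qmap]
  have h1 : Sum.elim N.c (Sum.elim j u) ∘ Sum.elim Sum.inl ![Sum.inr x, Sum.inr y]
      = Sum.elim N.c ![Sum.elim j u x, Sum.elim j u y] := by
    funext z
    rcases z with z | z
    · rfl
    · fin_cases z <;> rfl
  rw [h1]

private theorem CON_bd (hb : BAS) (F : Fr L P) (g : Adr F.T → ℕ) (V : Type)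
    (s : Adr F.T) : ∃ χ : Uf L (P ⊕ (V ⊕ Adr F.T)), ∀ (M : Type) (N : Mo L P M) (j : V → M)
      (u : Adr F.T → M), u s ∈ N.A → (N.Tr χ (Sum.elim j u) ↔ F.Bd g N (u []) u s) := by
  let e : P ⊕ Fin 1 → P ⊕ (V ⊕ Adr F.T) := Sum.elim Sum.inl ![Sum.inr (Sum.inr s)]
  let e1 : P ⊕ Fin 2 → P ⊕ (V ⊕ Adr F.T) :=
    Sum.elim Sum.inl ![Sum.inr (Sum.inr []), Sum.inr (Sum.inr s)]
  let e2 : P ⊕ Fin 2 → P ⊕ (V ⊕ Adr F.T) :=
    Sum.elim Sum.inl ![Sum.inr (Sum.inr s), Sum.inl F.v]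
  obtain ⟨χ, hχ⟩ := hb.uimp ((F.d.map e).and ((F.l.map e1).and (F.l.map e2)))
    ((F.E (g s)).map e1)
  refine ⟨χ, fun M N j u hs => ?_⟩
  unfold Mo.Tr
  rw [hχ, hb.qand, hb.qand, hb.qmap, hb.qmap, hb.qmap, hb.umap]
  have h1 : Sum.elim N.c (Sum.elim j u) ∘ e = Sum.elim N.c ![u s] := by
    funext x
    rcases x with x | x
    · rfl
    · fin_cases x; rfl
  have h2 : Sum.elim N.c (Sum.elim j u) ∘ e1 = Sum.elim N.c ![u [], u s] := by
    funext x
    rcases x with x | x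
    · rfl
    · fin_cases x <;> rfl
  have h3 : Sum.elim N.c (Sum.elim j u) ∘ e2 = Sum.elim N.c ![u s, N.c F.v] := by
    funext x
    rcases x with x | x
    · rfl
    · fin_cases x <;> rfl
  rw [h1, h2, h3]
  constructor
  · intro h h4 h5 h6
    exact h ⟨h4.2, h5, h6⟩
  · intro h h4
    exact h ⟨hs, h4.1⟩ h4.2.1 h4.2.2

/-- a finite set contained in a range -/
private theorem CON_fin {I X : Type} (G : I → X) (Δ : Set X) (h : Δ ⊆ range G) (hf : Δ.Finite) :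
    ∃ T : Set I, T.Finite ∧ Δ ⊆ G '' T := by
  have h1 : ∀ x : Δ, ∃ i, G i = x := fun x => h x.2
  choose k hk using h1
  have := hf.to_subtype
  refine ⟨range k, Set.finite_range k, fun x hx => ⟨k ⟨x, hx⟩, ⟨_, rfl⟩, hk ⟨x, hx⟩⟩⟩

/-- a bound of finitely many elements -/
private theorem CON_max (F : Fr L P) (N : Mo L P M) (hOk : F.Ok) (hN : Md F.T N) (R : Set M)
    (hD : ∀ y ∈ R, F.D N y) (hne : R.Nonempty) (S : Set R) (hS : S.Finite) :
    (∃ y₀ ∈ R, ∀ y ∈ S, (y : M) = y₀ ∨ F.Lt N y y₀) ∧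
      ∃ y₀ ∈ R, ∀ y ∈ S, (y : M) = y₀ ∨ F.Lt N y₀ y := by
  induction S, hS using Set.Finite.induction_on with
  | empty =>
    obtain ⟨r, hr⟩ := hne
    exact ⟨⟨r, hr, fun y hy => hy.elim⟩, ⟨r, hr, fun y hy => hy.elim⟩⟩
  | @insert a S _ _ ih =>
    obtain ⟨⟨y₀, hy₀, h0⟩, ⟨y₁, hy₁, h1⟩⟩ := ih
    constructor
    · rcases hOk.tot M N hN y₀ a (hD _ hy₀) (hD _ a.2) with h | h | h
      · refine ⟨y₀, hy₀, ?_⟩
        rintro y (rfl | hy)
        · exact Or.inl h.symm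
        · exact h0 y hy
      · refine ⟨a, a.2, ?_⟩
        rintro y (rfl | hy)
        · exact Or.inl rfl
        · rcases h0 y hy with h2 | h2
          · right; rw [h2]; exact h
          · exact Or.inr (hOk.trs M N hN _ _ _ (hD _ y.2) (hD _ hy₀) (hD _ a.2) h2 h)
      · refine ⟨y₀, hy₀, ?_⟩
        rintro y (rfl | hy)
        · exact Or.inr h
        · exact h0 y hy
    · rcases hOk.tot M N hN y₁ a (hD _ hy₁) (hD _ a.2) with h | h | h
      · refine ⟨y₁, hy₁, ?_⟩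
        rintro y (rfl | hy)
        · exact Or.inl h.symm
        · exact h1 y hy
      · refine ⟨y₁, hy₁, ?_⟩
        rintro y (rfl | hy)
        · exact Or.inr h
        · exact h1 y hy
      · refine ⟨a, a.2, ?_⟩
        rintro y (rfl | hy)
        · exact Or.inl rfl
        · rcases h1 y hy with h2 | h2
          · right; rw [h2]; exact h
          · exact Or.inr (hOk.trs M N hN _ _ _ (hD _ a.2) (hD _ hy₁) (hD _ y.2) h h2)

end

/-- [CON] compactness for a new good element in a cut -/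
theorem thm_CON (hb : BAS) (he : EMB) (ha : ABS) (hc : St_CPE) : St_CON := by
  classical
  intro L P M F g N hOk hN Lo Hi hLo hHi hDLo hDHi hyp
  have hbd := fun s : Adr F.T => CON_bd hb F g N.A s
  choose B hB using hbd
  let I : Type := (Adr F.T × F.T.K) ⊕ (Adr F.T ⊕ (Unit ⊕ (Lo ⊕ Hi)))
  let G : I → Uf L (P ⊕ (N.A ⊕ Adr F.T)) :=
    Sum.elim (CON_wit F N.A) (Sum.elim B (Sum.elim (fun _ => CON_d F N.A)
      (Sum.elim (fun y => CON_l F (Sum.inl ⟨y, (hDLo y y.2).1⟩) (Sum.inr []))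
        fun x => CON_l F (Sum.inr []) (Sum.inl ⟨x, (hDHi x x.2).1⟩))))
  obtain ⟨M', N', j, v, h1, h2, h3, h4⟩ := hc L P F.T M N (Adr F.T) (range G) hN (by
    intro φ₀ hφ₀ Δ hΔ hfin
    obtain ⟨T, hT, hΔT⟩ := CON_fin G Δ hΔ hfin
    have hTlo : {y : Lo | (Sum.inr (Sum.inr (Sum.inr (Sum.inl y))) : I) ∈ T}.Finite :=
      hT.preimage (Function.Injective.injOn (Sum.inr_injective.comp
        (Sum.inr_injective.comp (Sum.inr_injective.comp Sum.inl_injective))))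
    have hThi : {y : Hi | (Sum.inr (Sum.inr (Sum.inr (Sum.inr y))) : I) ∈ T}.Finite :=
      hT.preimage (Function.Injective.injOn (Sum.inr_injective.comp
        (Sum.inr_injective.comp (Sum.inr_injective.comp Sum.inr_injective))))
    obtain ⟨y₀, hy₀, hmax⟩ := (CON_max F N hOk hN Lo hDLo hLo _ hTlo).1
    obtain ⟨x₀, hx₀, hmin⟩ := (CON_max F N hOk hN Hi hDHi hHi _ hThi).2
    obtain ⟨M', N', j, z, hMd, hUE, hDz, ⟨u, hu⟩, hl1, hl2⟩ := hyp y₀ hy₀ x₀ hx₀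
    have htop : u [] = z := hu.top
    refine ⟨M', N', fun a => j a, u, hMd, fun a => hUE.uni _ a.2, hu.uni,
      hUE.tr N.A φ₀ (fun a => (a : M)) (fun a => a.2) hφ₀, ?_⟩
    intro φ hφ
    obtain ⟨i, hi, rfl⟩ := hΔT hφ
    have hD' : ∀ y, F.D N y → F.D N' (j y) := fun y hy => (ha.udd hUE y hy.1).2 hy
    rcases i with p | s | _ | y | x
    · exact (CON_wit_tr hb F p N' _ u).2 (hu.wit p.1 p.2)
    · refine (hB s M' N' _ u (hu.uni s)).2 ?_
      rw [htop]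
      exact hu.bd s
    · refine (CON_d_tr hb F N' _ u).2 ?_
      rw [htop]
      exact hDz.2
    · refine (CON_l_tr hb F N' _ _ _ u).2 ?_
      show F.Lt N' (j y) (u [])
      rw [htop]
      rcases hmax y hi with h5 | h5
      · rw [h5]; exact hl1
      · exact hOk.trs M' N' hMd _ _ _ (hD' _ (hDLo _ y.2)) (hD' _ (hDLo _ hy₀)) hDz
          ((ha.ult hUE _ (hDLo _ y.2).1 _ (hDLo _ hy₀).1).2 h5) hl1
    · refine (CON_l_tr hb F N' _ _ _ u).2 ?_
      show F.Lt N' (u []) (j x)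
      rw [htop]
      rcases hmin x hi with h5 | h5
      · rw [h5]; exact hl2
      · exact hOk.trs M' N' hMd _ _ _ hDz (hD' _ (hDHi _ hx₀)) (hD' _ (hDHi _ x.2))
          hl2 ((ha.ult hUE _ (hDHi _ hx₀).1 _ (hDHi _ x.2).1).2 h5))
  have hu : ∀ x, x ∈ N'.A := fun x => by rw [h2]; exact mem_univ x
  refine ⟨M', N', j, v [], h1, h3, ⟨hu _, ?_⟩, ⟨v, ⟨⟨fun s => hu _, rfl, ?_⟩, ?_⟩⟩, ?_, ?_⟩
  · exact (CON_d_tr hb F N' _ v).1 (h4 _ ⟨Sum.inr (Sum.inr (Sum.inl ())), rfl⟩)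
  · intro s k
    exact (CON_wit_tr hb F (s, k) N' _ v).1 (h4 _ ⟨Sum.inl (s, k), rfl⟩)
  · intro s
    exact (hB s M' N' _ v (hu _)).1 (h4 _ ⟨Sum.inr (Sum.inl s), rfl⟩)
  · intro y hy
    exact (CON_l_tr hb F N' _ _ _ v).1
      (h4 _ ⟨Sum.inr (Sum.inr (Sum.inr (Sum.inl ⟨y, hy⟩))), rfl⟩)
  · intro x hx
    exact (CON_l_tr hb F N' _ _ _ v).1
      (h4 _ ⟨Sum.inr (Sum.inr (Sum.inr (Sum.inr ⟨x, hx⟩))), rfl⟩)

end ORD
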