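import Pool.Agent.ORD.StD

/-!
# ORD: `St_THA` with a model contained in all `X f`
-/

set_option autoImplicit false
set_option linter.unusedVariables false

namespace ORD

open Set FirstOrder

/-- [THA'] `St_THA` with one more set `E`, a model contained in all `X f`, which contains the two
points `k i`. -/
def St_THA' : Prop := ∀ (L : Lg) (P M : Type) (F : Fr L P) (g : Adr F.T → ℕ) (N₀ : Mo L P M)
  (a : ℕ → M), (∀ n, Countable (L.Relations n)) → Countable P → Bse F g N₀ a →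
  ∃ (M' : Type) (N' : Mo L P M') (e : M → M') (X : (ℕ → Bool) → Set M') (k : Fin 2 → M')
    (E : Set M'),
    (⋃ f, X f).Countable ∧ (∀ x, IsClopen {f | x ∈ X f}) ∧ (∀ f, Md F.T (N'.sub (X f))) ∧
    (∀ f, UE N₀ (N'.sub (X f)) e) ∧ Md F.T (N'.sub E) ∧ (∀ f, E ⊆ X f) ∧ (∀ i, k i ∈ E) ∧
    ∀ f f', (∃ h : M' → M', Is (N'.sub (X f)) (N'.sub (X f')) h ∧ ∀ i, h (k i) = k i) → f = f'

end ORD
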