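import Pool.Agent.ORD.StB

/-!
# ORD: statements, part S (section 4: the supply of good elements)

Final statement `St_SUP`: from a model `N` with an infinite linear order one gets a frame with the
starting data `Bse` of the section 5. There is no saturation: `DIC` distinguishes two cases by
finite trees in `N` itself, `SYN` finds the bounds `g` in the second case, and one compactness
argument `SPC` gives the infinite sequence in both cases.
-/

set_option autoImplicit false
set_option linter.unusedVariables false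

namespace ORD

open Set FirstOrder

/-! ## Definitions -/

variable {L : Lg} {Q Q' M ι : Type}

/-- one more constant, with the value `b` -/
def Mo.ext (N : Mo L Q M) (b : M) : Mo L (Option Q) M where
  S := N.S
  A := N.A
  c := fun o => o.elim b N.c

/-- a formula as a formula for one more constant (the new constant does not occur) -/
def Qf.ex (φ : Qf L (Q ⊕ ι)) : Qf L (Option Q ⊕ ι) := φ.map (Sum.map some id)

/-- the frame of the first kind, where `v` is the new constant `none` -/
def F1 (T : Th L Q) (d : Qf L (Q ⊕ Fin 1)) (l : Qf L (Q ⊕ Fin 2)) : Fr L (Option Q) :=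
  Fr1 (T.map some) d.ex l.ex none

/-- the frame of the second kind, where `v` is the new constant `none` -/
def F2 (T : Th L Q) (d : Qf L (Q ⊕ Fin 1)) (l : Qf L (Q ⊕ Fin 2)) : Fr L (Option Q) :=
  Fr2 (T.map some) d.ex l.ex none

/-- `l` is a strict linear order on `d` -/
structure Lo (N : Mo L Q M) (d : Qf L (Q ⊕ Fin 1)) (l : Qf L (Q ⊕ Fin 2)) : Prop where
  irr : ∀ x ∈ N.A, N.Q d ![x] → ¬ N.Q l ![x, x]
  trs : ∀ x ∈ N.A, ∀ y ∈ N.A, ∀ z ∈ N.A, N.Q d ![x] → N.Q d ![y] → N.Q d ![z] →
    N.Q l ![x, y] → N.Q l ![y, z] → N.Q l ![x, z]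
  tot : ∀ x ∈ N.A, ∀ y ∈ N.A, N.Q d ![x] → N.Q d ![y] → x = y ∨ N.Q l ![x, y] ∨ N.Q l ![y, x]

/-- every element of `d` which is not maximal has an immediate successor -/
def Suc (N : Mo L Q M) (d : Qf L (Q ⊕ Fin 1)) (l : Qf L (Q ⊕ Fin 2)) : Prop :=
  ∀ x ∈ N.A, N.Q d ![x] → (∃ y ∈ N.A, N.Q d ![y] ∧ N.Q l ![x, y]) →
    ∃ y ∈ N.A, N.Q d ![y] ∧ N.Q l ![x, y] ∧ ∀ z ∈ N.A, N.Q d ![z] → N.Q l ![x, z] → ¬ N.Q l ![z, y]

/-- Finite satisfiability in `N`: there are finitely many elements `x 0 < x 1 < .. < v` of the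
definable set, with trees of witnesses which satisfy finitely many of the bounds, and with many
elements between `x i` and `x (i + 1)`. The value `b` of the constant `v` is arbitrary. -/
def Fsa (F : Fr L (Option Q)) (g : Adr F.T → ℕ) (N : Mo L Q M) : Prop :=
  ∀ (m n : ℕ) (H : Finset (Adr F.T)), ∃ (b : M) (x : ℕ → M) (u : ℕ → Adr F.T → M),
    Md F.T (N.ext b) ∧
    (∀ i < m, F.D (N.ext b) (x i) ∧ F.Lt (N.ext b) (x i) ((N.ext b).c F.v) ∧
      Tre F.T (N.ext b) (x i) (u i) ∧ ∀ s ∈ H, F.Bd g (N.ext b) (x i) (u i) s) ∧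
    ∀ i, i + 1 < m → F.Lt (N.ext b) (x i) (x (i + 1)) ∧
      ∃ z : Fin n → M, Function.Injective z ∧ ∀ j, Btw F.d F.l (N.ext b) (x i) (x (i + 1)) (z j)

/-- The supply for the model `N` of `T` and the set `W`: a frame `F` with more constants and axioms
which imply `T`, and the starting data of the section 5 in a countable model `N₀`, which contains
copies `w x` of the elements `x ∈ W` with the same U-formulas -/
def Sup (T : Th L Q) (N : Mo L Q M) (W : Set M) : Prop :=
  ∃ (P : Type) (i : Q → P) (F : Fr L P) (g : Adr F.T → ℕ) (M₀ : Type) (N₀ : Mo L P M₀)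
    (w : W → M₀) (a : ℕ → M₀), Finite P ∧ Bse F g N₀ a ∧
    (∀ (M' : Type) (N' : Mo L P M'), Md F.T N' → Md T (N'.res i)) ∧ (∀ x, w x ∈ N₀.A) ∧
    ∀ φ : Uf L (Q ⊕ W), N.Tr φ (fun x => (x : M)) → (N₀.res i).Tr φ w

/-! ## Statements -/

/-- [EXT] (1.2 h; uses `BAS`, `EMB`, `BTF`) The new constant; trees.

Proofs. `exq`: `BAS.qmap`, `Sum.elim (N.ext b).c v ∘ Sum.map some id = Sum.elim N.c v`.
`tre`: choose witnesses: `∀ x ∈ N.A, ∀ k, ∃ y` (`Md.wit`), define `u` by recursion on the list
(`u [] = y`, `u (⟨k, i⟩ :: s)` = the `i`-th component of the chosen `k`-witness of `u s`), with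
values in the subtype `N.A`.
`md1`: `BTF.lin` with `EMB.rmd` (`(N.ext b).res some = N`, by `rfl` or structure eta) and `exq`.
`md2`: `BTF.sp`, `BTF.scf`, `BTF.swp`: for `x ∈ N.A` not in `d` or without greater elements any `y`
(for example `x`) is good for `scf`; otherwise the immediate successor from `Suc`. For the second
part `Suc N d (swp l)`; note `swp l.ex = (swp l).ex` semantically (`BTF.swp` and `exq`).
`dn1`, `dn2`: `BTF.sp`, `BTF.lin`, `EMB.rmd`.
`tr1`: `(F1 T d l).T.K = T.K ⊕ Fin 4`, and the axioms with the index `Sum.inr j` have no witnesses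
(`Fin 0`). `π [] = []`, `π (⟨inl k, i⟩ :: s) = ⟨k, i⟩ :: π s`, `π (⟨inr j, i⟩ :: s) = i.elim0`.
For `k = inl k'` the witness condition is `BAS.umap` for `T.ax k'`; for `k = inr j` use `Md.wit` and
that all functions on `Fin 0` are equal.
`tr2`: for `k = inl (inl k')` the formulas do not contain the new constant (`BAS.umap`); for
`k = inl (inr j)` as in `tr1`; for `k = inr true` by `BTF.scf` and `exq` (the truth of
`scf d.ex l.ex` does not depend on `b`), for `k = inr false` also `BTF.swp`. -/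
structure EXT : Prop where
  exq : ∀ {L : Lg} {Q M ι : Type} (N : Mo L Q M) (b : M) (φ : Qf L (Q ⊕ ι)) (v : ι → M),
    (N.ext b).Q φ.ex v ↔ N.Q φ v
  tre : ∀ {L : Lg} {P M : Type} {T : Th L P} {N : Mo L P M}, Md T N → ∀ y ∈ N.A,
    ∃ u, Tre T N y u
  md1 : ∀ {L : Lg} {Q M : Type} (T : Th L Q) (N : Mo L Q M) (d : Qf L (Q ⊕ Fin 1))
    (l : Qf L (Q ⊕ Fin 2)) (b : M), Md T N → Lo N d l → b ∈ N.A → N.Q d ![b] →
    Md (F1 T d l).T (N.ext b)
  md2 : ∀ {L : Lg} {Q M : Type} (T : Th L Q) (N : Mo L Q M) (d : Qf L (Q ⊕ Fin 1))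
    (l : Qf L (Q ⊕ Fin 2)) (b : M), Md T N → Lo N d l → Suc N d l → Suc N d (swp l) →
    b ∈ N.A → N.Q d ![b] → Md (F2 T d l).T (N.ext b)
  dn1 : ∀ {L : Lg} {Q M : Type} (T : Th L Q) (N : Mo L (Option Q) M) (d : Qf L (Q ⊕ Fin 1))
    (l : Qf L (Q ⊕ Fin 2)), Md (F1 T d l).T N → Md T (N.res some)
  dn2 : ∀ {L : Lg} {Q M : Type} (T : Th L Q) (N : Mo L (Option Q) M) (d : Qf L (Q ⊕ Fin 1))
    (l : Qf L (Q ⊕ Fin 2)), Md (F2 T d l).T N → Md T (N.res some)
  tr1 : ∀ {L : Lg} {Q : Type} (T : Th L Q) (d : Qf L (Q ⊕ Fin 1)) (l : Qf L (Q ⊕ Fin 2)),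
    ∃ π : Adr (F1 T d l).T → Adr T, ∀ (M : Type) (N : Mo L Q M) (b y : M) (u : Adr T → M),
      Md (F1 T d l).T (N.ext b) → Tre T N y u → Tre (F1 T d l).T (N.ext b) y (u ∘ π)
  tr2 : ∀ {L : Lg} {Q M : Type} (T : Th L Q) (d : Qf L (Q ⊕ Fin 1)) (l : Qf L (Q ⊕ Fin 2))
    (N : Mo L Q M) (b b' y : M) (u : Adr (F2 T d l).T → M), Md (F2 T d l).T (N.ext b) →
    Md (F2 T d l).T (N.ext b') → Tre (F2 T d l).T (N.ext b) y u →
    Tre (F2 T d l).T (N.ext b') y u

/-- [DIC] (1 h; no other module) (3.0) The two cases, in a linear order `D` where `r y s z` says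
that `z` is the element of the tree of `y` at the address `s`.

Proof. (A) For all `m`, `H` and all infinite `I` which are order connected (`Set.OrdConnected`):
either there are `x : ℕ → D` and `b ∈ I` with `x i ∈ I` for `i < m` and the properties of the first
alternative for `m`, `H`, or there is an infinite `I' ⊆ I` with `I' = I` or `I' = Ioo x b` for some
`x`, `b`, such that every `x ∈ I'` with some `y ∈ I'`, `x < y` has a `y ∈ I'` with `x ⋖ y`.
Induction on `m`. `m = 0`: any `b ∈ I`. Step: if `I` itself is not good for the second alternative,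
there are `x, y ∈ I`, `x < y`, and no `z ∈ I` with `x ⋖ z`. Let `b'` be the minimum of the finite
set consisting of `y` and of the `z > x` with `r x s z` for some `s ∈ H` (finite by uniqueness).
`x < b' ≤ y`, so `b' ∈ I`. `Ioo x b' ⊆ I` is infinite: if it is finite and empty then `x ⋖ b'`, if it
is finite and nonempty then `x ⋖` its minimum. Apply the induction hypothesis to `Ioo x b'`; in the
first case prepend `x` to the sequence (`b < b'`, so no `z > x` with `r x s z`, `s ∈ H`, is `< b`);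
the second case is passed on (`I' = Ioo x b'` or `I' = Ioo ..`).
(B) If the first alternative fails for `(m, H)`, (A) for `I = univ` gives `I'` with immediate
successors. If the second alternative fails for `(m', H')`, (A) for the dual order `Dᵒᵈ` (or the
same proof) and `I'` gives `I'' ⊆ I'` with immediate predecessors. Successors in `I''`: let
`x, y ∈ I''`, `x < y`; there is `z` with `x ⋖ z`, so `z ≤ y` and `z ∈ I''`. -/
def St_DIC : Prop := ∀ (D A : Type) [LinearOrder D] [Infinite D] (r : D → A → D → Prop),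
  (∀ y s z z', r y s z → r y s z' → z = z') →
  (∀ (m : ℕ) (H : Finset A), ∃ (x : ℕ → D) (b : D), (∀ i j, i < j → j < m → x i < x j) ∧
    ∀ i < m, x i < b ∧ ∀ s ∈ H, ∀ z, r (x i) s z → x i < z → ¬ z < b) ∨
  (∀ (m : ℕ) (H : Finset A), ∃ (x : ℕ → D) (b : D), (∀ i j, i < j → j < m → x j < x i) ∧
    ∀ i < m, b < x i ∧ ∀ s ∈ H, ∀ z, r (x i) s z → z < x i → ¬ b < z) ∨
  ∃ I : Set D, (I = univ ∨ ∃ x b, I = Ioo x b) ∧ I.Infinite ∧
    (∀ x ∈ I, (∃ y ∈ I, x < y) → ∃ y ∈ I, x ⋖ y) ∧
    ∀ x ∈ I, (∃ y ∈ I, y < x) → ∃ y ∈ I, y ⋖ x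

/-- [SYN] (2 h; no other module) The bounds in the second case (this replaces 4.1 to 4.4).

Proof. A chain of length `l` is `c : ℕ → D` with `c k ⋖ c (k + 1)` for `k < l`; it is in `Z` if
`c k ∈ Z` for `k ≤ l`. For a chain `Ioo (c k) (c (k + j + 1))` is the set of `c (k + 1)`, ..,
`c (k + j)` for `k + j < l` (induction on `j`), so its `encard` is `j`. `Z` is THICK, if for all
`l` there is a chain of length `l` in `Z`. `Syn l Z X`: every chain `c` of length `l` in `Z` has a
`k ≤ l` with `c k ∈ X`.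
(1) `univ` is thick: choose `x₀`; if there is no chain of length `l` starting in `x₀`, then the
iterated immediate successor of `x₀` ends in a maximal element after less than `l` steps, so
`Ici x₀` is finite; if in addition there is no chain of length `l'` which ends in `x₀`, then
`Iic x₀` is finite: contradiction to `Infinite D`. (So: for all `l` a chain from `x₀` upwards, or
for all `l` a chain which ends in `x₀`.)
(2) For countably many sets `X j`, `j : ℕ`, there are thick `Z 0 ⊇ Z 1 ⊇ ..` such that for all `j`: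
`Z (j + 1) ∩ X j = ∅` or `∃ l, Syn l (Z (j + 1)) (X j)`. `Z 0 = univ`; `Z (j + 1) := Z j ∖ X j` if
this is thick, and `Z (j + 1) := Z j` otherwise: if there is no chain of length `l` in `Z j ∖ X j`,
then `Syn l (Z j) (X j)`.
(3) Let `e : ℕ → A` be a surjection (`A` nonempty; for empty `A` use the constant sequence of the
empty condition, or take `A ⊕ Unit` with `r` false there). For `q : List ℕ`, `n : ℕ` let `X q n` be
the set of the `y : D` such that for all `i < q.length` and all `z` with `r y (e i) z`, `y < z`: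
`(Ioo y z).encard ≤ q[i]` or `n < (Ioo y z).encard`. `X q n` is decreasing in `n`. Take (2) for an
enumeration of the sets `X q n`. `X` is ABSENT if `Z j ∩ X = ∅` for some `j`, SYNDETIC if
`Syn l (Z j) X` for some `j`, `l`. Both persist to larger `j` (also to larger `l`), and not both are
true (`Z j` is thick). Every `X q n` is absent or syndetic.
(4) `X [] n = univ` is syndetic. If `X q n` is syndetic for all `n`, then there is `t` such that
`X (q ++ [t]) n` is syndetic for all `n`. Suppose not: for `t = 0` let `X (q ++ [0]) n₀` be absent,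
for `t = n₀` let `X (q ++ [n₀]) n₁` be absent. `X q (max n₀ n₁)` is syndetic, so for large `j` there
is `y ∈ Z j` in this set but not in the two absent sets. So there is `z` with `r y (e i) z`,
`i = q.length`, `y < z`, `0 < encard ≤ n₀`, and `z'` with `r y (e i) z'`, `n₀ < encard ≤ n₁`;
`z = z'` by uniqueness: contradiction.
(5) So there is `γ : ℕ → ℕ` such that for `q r := List.ofFn fun i : Fin r => γ i` (or
`(List.range r).map γ`) all `X (q r) n` are syndetic. `g s := γ i`, where `i` is chosen with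
`e i = s`.
(6) Let `n`, `H` be given. `H ⊆ {e i | i < r}` for some `r`, with the chosen indices. By induction
on `m` there are `l`, `j` such that every chain `c` of length `l` in `Z j` contains a solution for
`m`: `x i` for `i < m` and `b` are of the form `c k`, `k ≤ l`. `m = 0`: `l = 0`, `b = c 0`.
Step: let `(l, j)` be for `m`, `X (q r) (n + l + 1)` syndetic: every chain of length `l'` in `Z j'`
meets it. Take `l' + n + 1 + l`, `max j j'`: for a chain `c` let `k ≤ l'` with `x 0 := c k` in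
`X (q r) (n + l + 1)`, and take the solution for `m` in the chain `fun i => c (k + n + 1 + i)` of
length `l`. Between `c k` and `x 1 ≥ c (k + n + 1)` there are at least `n` elements. If
`r (x 0) s z`, `s ∈ H`, `x 0 < z < b`, then `(Ioo (x 0) z).encard ≤ (Ioo (x 0) b).encard ≤ n + l`,
so it is not `> n + l + 1`, and it is `≤ g s`. Since `Z j` is thick this gives the claim. -/
def St_SYN : Prop := ∀ (D A : Type) [LinearOrder D] [Infinite D] [Countable A]
  (r : D → A → D → Prop), (∀ y s z z', r y s z → r y s z' → z = z') →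
  (∀ x : D, (∃ y, x < y) → ∃ y, x ⋖ y) → (∀ x : D, (∃ y, y < x) → ∃ y, y ⋖ x) →
  ∃ g : A → ℕ, ∀ (m n : ℕ) (H : Finset A), ∃ (x : ℕ → D) (b : D),
    (∀ i < m, x i < b ∧
      ∀ s ∈ H, ∀ z, r (x i) s z → x i < z → z < b → (Ioo (x i) z).encard ≤ g s) ∧
    ∀ i, i + 1 < m → x i < x (i + 1) ∧ n ≤ (Ioo (x i) (x (i + 1))).encard

/-- [SP1] (1 h; uses `BAS`, `EMB`, `BTF`, `EXT`) The first case of `St_DIC` gives finite
satisfiability for the frame of the first kind and `g = 0`.

Proof. Let `m`, `n`, `H` be given, `π` from `EXT.tr1`. Apply the hypothesis to `m' := m * (n + 1)`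
and `H' := H.image π` (classical): `x`, `b`. Take `x' i := x (i * (n + 1))`,
`u' i := u (x' i) ∘ π`, `z j := x (i * (n + 1) + j + 1)`, `j < n`. `Md`: `EXT.md1`. `F.D`, `F.Lt`:
`EXT.exq` (`F.Lt (N.ext b) x y` is `(N.ext b).Q l.ex ![x, y]`, and `(N.ext b).c F.v = b`). `Tre`:
`EXT.tr1`. `Bd` at `s ∈ H`: the premises contradict the hypothesis for `π s ∈ H'`. `z` is injective
by `Lo.irr`, and between `x' i` and `x' (i + 1)` (`i * (n + 1) + j + 1 < (i + 1) * (n + 1) < m'`). -/
def St_SP1 : Prop := ∀ (L : Lg) (Q M : Type) (T : Th L Q) (N : Mo L Q M)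
  (d : Qf L (Q ⊕ Fin 1)) (l : Qf L (Q ⊕ Fin 2)) (u : M → Adr T → M), Md T N → N.A = univ →
  Lo N d l → (∀ y, Tre T N y (u y)) →
  (∀ (m : ℕ) (H : Finset (Adr T)), ∃ (x : ℕ → M) (b : M), N.Q d ![b] ∧
    (∀ i < m, N.Q d ![x i]) ∧ (∀ i j, i < j → j < m → N.Q l ![x i, x j]) ∧
    ∀ i < m, N.Q l ![x i, b] ∧ ∀ s ∈ H, N.Q d ![u (x i) s] → N.Q l ![x i, u (x i) s] →
      ¬ N.Q l ![u (x i) s, b]) →
  Fsa (F1 T d l) (fun _ => 0) N

/-- [SP2] (1.5 h; uses `BAS`, `EMB`, `BTF`, `EXT`, `St_SYN`) The second case.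

Proof. Let `D := {x | N.Q d ![x]}` (a subtype) with the linear order `x ≤ y ↔ x = y ∨ N.Q l ![x, y]`
(build a `LinearOrder` by `Lo`, classical; `x < y ↔ N.Q l ![x, y]`), `b₀ ∈ D`. By `EXT.md2` and
`EXT.tre` there are trees `u y` of all `y ∈ D` for `(F2 T d l).T` in `N.ext b₀`; by `EXT.tr2` they
are trees in `N.ext b` for all `b ∈ D`. `A := Adr (F2 T d l).T` is countable (`BAS.ctT`; the index
type is `(T.K ⊕ Fin 4) ⊕ Bool`). Apply `St_SYN` to `D`, `A`, `r y s z := ((z : M) = u y s)`
(immediate successors and predecessors by `Suc`): `g`. Given `m`, `n`, `H`: `x`, `b`. `Bd g` at `s`: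
`u (x i) s ∈ D`, so it is some `z : D` with `x i < z < b`, and `(Ioo (x i) z).encard ≤ g s`; this is
the truth of `F.E (g s) = btf ..` by `BTF.btf`: there are no `g s + 1` different elements between
(`Btw` for `d.ex`, `l.ex` in `N.ext b` by `EXT.exq`; the second half of the disjunction in `Btw` is
impossible by `Lo`). `n ≤ encard` gives an injective `z : Fin n → M` with values between. -/
def St_SP2 : Prop := ∀ (L : Lg) (Q M : Type) (T : Th L Q) (N : Mo L Q M)
  (d : Qf L (Q ⊕ Fin 1)) (l : Qf L (Q ⊕ Fin 2)), Countable T.K → Md T N → N.A = univ →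
  Lo N d l → Suc N d l → Suc N d (swp l) → {x | N.Q d ![x]}.Infinite →
  ∃ g, Fsa (F2 T d l) g N

/-- [SPC] (1.5 h; uses `BAS`, `EMB`, `ABS`, `St_CPT`) Compactness for the supply.

Proof. `St_CPT` for `F.T`, the variables `V := W ⊕ ((ℕ × Adr F.T) ⊕ (ℕ × ℕ))` (names for the
elements of `W`; `(n, s)` for the element at `s` of the tree of the `n`-th good element, which is
the variable `(n, [])`; `(n, j)` for elements `z` between) and the set `Γ` of the formulas
(i) `φ.map (Sum.map some Sum.inl)`, `φ : Uf L (Q ⊕ W)` true in `N` for `W`; (ii) `F.d` for `(n, [])`,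
and `F.l` for `(n, [])` and `F.v`; (iii) `F.l` for `(n, [])`, `(n + 1, [])`; (iv) `F.T.ax k` for
`(n, s)` and the `(n, ⟨k, i⟩ :: s)`; (v) `Bd g` at `s` for `(n, [])`: by `BAS.uimp` from the
conjunction of the quantifier free premises and `F.E (g s)`; (vi) the statement `Btw` for `(n, [])`,
`(n + 1, [])` and the variable `(n, j)` (quantifier free, only the first half of the disjunction:
`F.d z`, `F.l x z`, `F.l z y`), and `(n, j) ≠ (n, j')` for `j ≠ j'`.
A finite subset `Δ` contains formulas of (ii) to (vi) only for `n` with `n + 1 < m`, `j, j' < k`,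
`s ∈ H`. `Fsa` for `m`, `k`, `H`: `b`, `x`, `u`, and the `z`; the model `N.ext b` with the values:
the elements of `W` themselves, `u n s`, `z n j` for `n + 1 < m`, `j < k`, and `b` for the others
(for `n ≥ m` the values of `u n s` may be outside of `N.A`, so use `b`). In (vi) the second half of
the disjunction of `Btw` must be excluded: this half says `y < z`, `z < x`, against `x < y` by the
axioms for the order, if `F` has them; to avoid this, (vi) is the full disjunction, as in the
definition of `Btw`. Truth of (i): `N.Tr φ` is the truth in `N.ext b` of the renamed formula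
(`BAS.umap`).
The result: `M'`, `N'`, `N'.A = univ`, `v : V → M'`. Let `C` be a countable closed set which
contains `range v` and the constants (`EMB.cct`; `V` is countable by `BAS.ctT`). `N₀ := N'.sub C`,
`w := v ∘ Sum.inl`, `a n := v (n, [])`. `Md`: `EMB.cmd`. U-formulas: `BAS.down`. Quantifier free
formulas do not depend on the universe. `Good`: the tree `fun s => v (n, s)`: in `N'`, then
`ABS.lsb`. -/
def St_SPC : Prop := ∀ (L : Lg) (Q M : Type) (F : Fr L (Option Q)) (g : Adr F.T → ℕ)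
  (N : Mo L Q M) (W : Set M), Finite Q → Countable F.T.K → N.A = univ → W.Countable → Fsa F g N →
  ∃ (M₀ : Type) (N₀ : Mo L (Option Q) M₀) (w : W → M₀) (a : ℕ → M₀), N₀.A.Countable ∧
    Md F.T N₀ ∧ (∀ x, w x ∈ N₀.A) ∧
    (∀ φ : Uf L (Q ⊕ W), N.Tr φ (fun x => (x : M)) → (N₀.res some).Tr φ w) ∧
    ∀ n, F.D N₀ (a n) ∧ F.Good g N₀ (a n) ∧ F.Lt N₀ (a n) (N₀.c F.v) ∧
      F.Lt N₀ (a n) (a (n + 1)) ∧
      ∃ z : ℕ → M₀, Function.Injective z ∧ ∀ j, Btw F.d F.l N₀ (a n) (a (n + 1)) (z j)

/-- [SPX] (0.8 h; uses `BAS`, `EMB`, `BTF`, `St_FRA`, `St_FRB`, `ORL`, `EXT`, `St_SPC`) From finite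
satisfiability to the supply.

Proofs. `x1`, `x2`: `St_SPC`. `Bse.ok`: `St_FRA`, `St_FRB`. `ctK`: `T.K ⊕ Fin 4`,
`(T.K ⊕ Fin 4) ⊕ Bool` are countable. `ll`: for `F1` `F.Cl N₀ x y ↔ x = y` (`BAS.uqf`), so `Ok.irr`;
for `F2` `F.Cl N₀ x y` gives `n` such that there are no `n + 1` different elements between
(`BTF.btf`), but there are infinitely many. `lv`: `F.Ll (a n) (a (n + 1))` and
`F.Lt (a (n + 1)) v` give `F.Ll (a n) v` (`ORL.lll`, `Ok.vdd`). Axioms: `EXT.dn1`, `EXT.dn2`,
`i := some`. `xr`: compose `i` with `h`; `EMB.rmd` (the constants of `N'` are in `N'.A` by `Md.cst`),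
and the formula `φ.map (Sum.map h id)` (`BAS.umap`). -/
structure SPX : Prop where
  x1 : ∀ {L : Lg} {Q M : Type} (T : Th L Q) (N : Mo L Q M) (d : Qf L (Q ⊕ Fin 1))
    (l : Qf L (Q ⊕ Fin 2)) (W : Set M) (g : Adr (F1 T d l).T → ℕ), Finite Q → Countable T.K →
    N.A = univ → W.Countable → Fsa (F1 T d l) g N → Sup T N W
  x2 : ∀ {L : Lg} {Q M : Type} (T : Th L Q) (N : Mo L Q M) (d : Qf L (Q ⊕ Fin 1))
    (l : Qf L (Q ⊕ Fin 2)) (W : Set M) (g : Adr (F2 T d l).T → ℕ), Finite Q → Countable T.K →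
    N.A = univ → W.Countable → Fsa (F2 T d l) g N → Sup T N W
  xr : ∀ {L : Lg} {Q Q' M : Type} (T : Th L Q) (h : Q → Q') (N : Mo L Q' M) (W : Set M),
    Sup (T.map h) N W → Sup T (N.res h) W

/-- [SUP] (1.2 h; uses `BAS`, `EMB`, `BTF`, `EXT`, `St_DIC`, `St_SP1`, `St_SP2`, `SPX`) The supply.

Proof. `D := {x | N.Q d ![x]}` with the linear order of `l` (as in `St_SP2`), `u` trees for `T` in
`N` (`EXT.tre`), `r y s z := ((z : M) = u y s)`, `A := Adr T`. `St_DIC`. First alternative: `St_SP1`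
and `SPX.x1`. Second alternative: the same for `swp l` (`BTF.swp`; `Lo N d (swp l)`). Third
alternative, `I = univ`: `Suc N d l`, `Suc N d (swp l)`, `St_SP2`, `SPX.x2`. `I = Ioo x b`:
`N' := (N.ext x).ext b`, `l' := l.ex.ex`, `d'` := the conjunction of `d.ex.ex`, of `l.ex.ex` for
(the constant `some none`, the variable), and of `l.ex.ex` for (the variable, the constant `none`):
`N'.Q d' ![z]` says `z ∈ Ioo x b`. `T' := T.map (some ∘ some)`; `Md T' N'` by `EMB.rmd`
(`N'.res (some ∘ some) = N`). `St_SP2` for `N'`, `SPX.x2`, `SPX.xr`. -/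
def St_SUP : Prop := ∀ (L : Lg) (Q M : Type) (T : Th L Q) (N : Mo L Q M)
  (d : Qf L (Q ⊕ Fin 1)) (l : Qf L (Q ⊕ Fin 2)) (W : Set M), Finite Q → Countable T.K →
  Md T N → N.A = univ → Lo N d l → {x | N.Q d ![x]}.Infinite → W.Countable → Sup T N W

end ORD
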