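import Pool.Agent.ORD.StF
import Pool.Agent.ORD.StS
import Pool.Agent.ORD.StD2
import Pool.Agent.ORD.BAS

/-!
# ORD [COR1]: linear orders of elements, from the supply and the decoding
-/

set_option autoImplicit false
set_option linter.unusedVariables false

namespace ORD

open Set FirstOrder

private theorem COR_lt {L : Lg} {P M : Type} {F : Fr L P} {g : Adr F.T → ℕ} {N₀ : Mo L P M}
    {a : ℕ → M} (h : Bse F g N₀ a) (n : ℕ) : ∀ m, F.Lt N₀ (a n) (a (n + m + 1)) := by
  intro m
  induction m with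
  | zero => exact (h.ll n).1
  | succ m ih =>
    exact h.ok.trs M N₀ h.md _ _ _ (h.dd _) (h.dd _) (h.dd _) ih (h.ll (n + m + 1)).1

private theorem COR_inj {L : Lg} {P M : Type} {F : Fr L P} {g : Adr F.T → ℕ} {N₀ : Mo L P M}
    {a : ℕ → M} (h : Bse F g N₀ a) : Function.Injective a := by
  have key : ∀ n m, n < m → a n ≠ a m := by
    intro n m hnm he
    have h1 := COR_lt h n (m - n - 1)
    rw [show n + (m - n - 1) + 1 = m by omega, ← he] at h1
    exact h.ok.irr M N₀ h.md _ (h.dd n) h1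
  intro n m he
  rcases lt_trichotomy n m with h1 | h1 | h1
  · exact absurd he (key n m h1)
  · exact h1
  · exact absurd he.symm (key m n h1)

theorem thm_COR1 (hE : EMB) (hS : St_SUP) (hT : St_THA') : St_COR1 := by
  intro L _ hR P M T N W d l hP hK hA hM hW hirr htrs htot hinf
  obtain ⟨P', i, F, g, M₀, N₀, w, a, hP', hB, hmd, hw, htr⟩ := hS L P M T N d l W hP hK hM hA
    ⟨fun x _ => hirr x, fun x _ y _ z _ => htrs x y z, fun x _ y _ => htot x y⟩ hinf hW
  obtain ⟨M', N', e, X, k, E, h1, h2, h3, h4, h5, h6, h7, h8⟩ := hT L P' M₀ F g N₀ a hR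
    inferInstance hB
  refine ⟨M', N'.res i, e ∘ w, X, E, range N'.c ∪ range k, ?_⟩
  constructor
  case cou => exact h1
  case clo => exact h2
  case inf =>
    intro f
    have h9 : Function.Injective (e ∘ a) := by
      intro n m hnm
      exact COR_inj hB (hE.uin (h4 f) (hB.dd n).1 (hB.dd m).1 hnm)
    refine (infinite_range_of_injective h9).mono ?_
    rintro _ ⟨n, rfl⟩
    exact (h4 f).uni _ (hB.dd n).1
  case mod => exact fun f => hmd M' (N'.sub (X f)) (h3 f)
  case wit => exact fun f x => (h4 f).uni _ (hw x)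
  case tru =>
    intro f φ hφ
    have key : ∀ (M₁ : Type) (N₁ : Mo L P' M₁) (v : W → M₁),
        N₁.Tr (φ.map (Sum.map i id)) v ↔ (N₁.res i).Tr φ v := by
      intro M₁ N₁ v
      show (φ.map (Sum.map i id)).Tr N₁.S N₁.A _ ↔ _
      rw [BAS_umap]
      have h9 : Sum.elim N₁.c v ∘ Sum.map i id = Sum.elim (N₁.res i).c v := by
        funext x
        rcases x with x | x <;> rfl
      rw [h9]
      rfl
    have h9 := (h4 f).tr W _ w hw ((key _ _ _).2 (htr φ hφ))
    exact (key _ _ _).1 h9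
  case mdE => exact hmd M' (N'.sub E) h5
  case sub => exact h6
  case fin => exact (finite_range _).union (finite_range _)
  case gsE =>
    rintro x (⟨p, rfl⟩ | ⟨j, rfl⟩)
    · exact h5.cst p
    · exact h7 j
  case non =>
    rintro f f' ⟨h, h9, h10, h11⟩
    exact h8 f f' ⟨h, ⟨h9, fun p => h10 _ (Or.inl ⟨p, rfl⟩), h11⟩, fun j =>
      h10 _ (Or.inr ⟨j, rfl⟩)⟩

end ORD
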