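import Pool.Agent.ORD.StA

/-!
# ORD, module CPE: compactness over a model (helper87)
-/

set_option autoImplicit false
set_option linter.unusedVariables false

namespace ORD

open Set FirstOrder

section

variable {L : Lg} {P M ι κ : Type}

private lemma CPE_map (hb : BAS) (N : Mo L P M) (h : ι → κ) (v : κ → M) (φ : Uf L (P ⊕ ι)) :
    N.Tr (φ.map (Sum.map id h)) v ↔ N.Tr φ (v ∘ h) := by
  unfold Mo.Tr
  rw [hb.umap]
  have e : Sum.elim N.c v ∘ Sum.map id h = Sum.elim N.c (v ∘ h) := by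
    funext x
    rcases x with x | x <;> rfl
  rw [e]

private lemma CPE_conj (hb : BAS) (N : Mo L P M) (hne : N.A.Nonempty) {V : Type}
    (Δ : Set (Uf L (P ⊕ (N.A ⊕ V)))) (hfin : Δ.Finite)
    (hΔ : ∀ ψ ∈ Δ, ∃ φ : Uf L (P ⊕ N.A), N.Tr φ (fun a => (a : M)) ∧
      ψ = φ.map (Sum.map id Sum.inl)) :
    ∃ φ₀ : Uf L (P ⊕ N.A), N.Tr φ₀ (fun a => (a : M)) ∧
      ∀ (M' : Type) (N' : Mo L P M') (j : N.A → M') (v : V → M'), N'.A.Nonempty →
        N'.Tr φ₀ j → ∀ ψ ∈ Δ, N'.Tr ψ (Sum.elim j v) := by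
  induction Δ, hfin using Set.Finite.induction_on with
  | empty =>
    obtain ⟨χ, hχ⟩ := hb.utop (L := L) (ι := P ⊕ N.A)
    exact ⟨χ, hχ _ _ _ _, fun M' N' j v _ _ ψ h => absurd h (Set.notMem_empty ψ)⟩
  | @insert ψ Δ _ _ ih =>
    obtain ⟨φ₀, h1, h2⟩ := ih fun ψ' h' => hΔ ψ' (Set.mem_insert_of_mem _ h')
    obtain ⟨φ, h3, h4⟩ := hΔ ψ (Set.mem_insert _ _)
    obtain ⟨χ, hχ⟩ := hb.uand φ φ₀
    refine ⟨χ, (hχ _ _ _ _ hne).2 ⟨h3, h1⟩, fun M' N' j v hne' hj ψ' hψ' => ?_⟩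
    obtain ⟨h5, h6⟩ := (hχ _ _ _ _ hne').1 hj
    rcases Set.mem_insert_iff.1 hψ' with rfl | h7
    · rw [h4, CPE_map hb]
      exact h5
    · exact h2 M' N' j v hne' h6 ψ' h7

end

/-- CPE. -/
theorem thm_CPE (hb : BAS) (he : EMB) (hc : St_CPT) : St_CPE := by
  intro L P T M N V Γ hN H
  obtain ⟨a₀, ha₀⟩ := hN.ne
  set B : Set (Uf L (P ⊕ (N.A ⊕ V))) := {ψ | ∃ φ : Uf L (P ⊕ N.A),
    N.Tr φ (fun a => (a : M)) ∧ ψ = φ.map (Sum.map id Sum.inl)} with hB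
  obtain ⟨M', N', v', hM', hA', hΓ⟩ := hc L P T (N.A ⊕ V) (Γ ∪ B) (by
    intro Δ hΔ hfin
    obtain ⟨φ₀, h1, h2⟩ := CPE_conj hb N hN.ne (Δ ∩ B) (hfin.subset Set.inter_subset_left)
      fun ψ hψ => hψ.2
    obtain ⟨M', N', j, v, h3, h4, h5, h6, h7⟩ := H φ₀ h1 (Δ ∩ Γ) Set.inter_subset_right
      (hfin.subset Set.inter_subset_left)
    refine ⟨M', N', Sum.elim j v, h3, ?_, fun φ hφ => ?_⟩
    · rintro (i | i)
      · exact h4 i
      · exact h5 i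
    · rcases hΔ hφ with h | h
      · exact h7 φ ⟨hφ, h⟩
      · exact h2 M' N' j v h3.ne h6 φ ⟨hφ, h⟩)
  classical
  set j : M → M' := fun a => if h : a ∈ N.A then v' (Sum.inl ⟨a, h⟩) else
    v' (Sum.inl ⟨a₀, ha₀⟩) with hj
  have hja : ∀ a : N.A, j a = v' (Sum.inl a) := by
    intro a
    rw [hj]
    simp only [dif_pos a.2]
  have htr : ∀ φ : Uf L (P ⊕ N.A), N.Tr φ (fun a => (a : M)) →
      N'.Tr φ (fun a => j a) := by
    intro φ hφ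
    have h1 := hΓ _ (Or.inr ⟨φ, hφ, rfl⟩)
    rw [CPE_map hb] at h1
    have e : (fun a : N.A => j a) = v' ∘ Sum.inl := funext hja
    rw [e]
    exact h1
  refine ⟨M', N', j, v' ∘ Sum.inr, hM', hA', ⟨fun x _ => ?_, fun p => ?_, ?_⟩,
    fun φ hφ => ?_⟩
  · rw [hA']
    exact Set.mem_univ _
  · have h1 := htr (Uf.qf (Qf.eq (Sum.inl p) (Sum.inr ⟨N.c p, hN.cst p⟩))) (by
      unfold Mo.Tr
      rw [hb.uqf]
      rfl)
    unfold Mo.Tr at h1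
    rw [hb.uqf] at h1
    exact h1.symm
  · intro ι φ v hv hφ
    have h1 := htr (φ.map (Sum.map id fun i => (⟨v i, hv i⟩ : N.A))) (by
      rw [CPE_map hb]
      exact hφ)
    rw [CPE_map hb] at h1
    exact h1
  · have e : Sum.elim (fun a : N.A => j a) (v' ∘ Sum.inr) = v' := by
      funext x
      rcases x with x | x
      · exact hja x
      · rfl
    rw [e]
    exact hΓ φ (Or.inl hφ)

end ORD
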