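import Pool.Agent.ORD.StB

/-!
# ORD, module CRD: cardinalities
-/

set_option autoImplicit false
set_option linter.unusedVariables false

namespace ORD

open Set FirstOrder Cardinal

private def CRD_R {M : Type} (C : M → Set M) (b : M) : ℕ → Set M
  | 0 => {b}
  | n + 1 => ⋃ s ∈ CRD_R C b n, C s

private theorem CRD_ct {M : Type} (C : M → Set M) (hC : ∀ y, (C y).Countable) (b : M) (n : ℕ) :
    (CRD_R C b n).Countable := by
  induction n with
  | zero => exact countable_singleton b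
  | succ n ih => exact ih.biUnion fun s _ => hC s

private theorem CRD_mem {M : Type} (C : M → Set M) (b z : M)
    (h : Relation.ReflTransGen (fun s t => t ∈ C s) b z) : z ∈ ⋃ n, CRD_R C b n := by
  induction h with
  | refl => exact mem_iUnion.2 ⟨0, rfl⟩
  | tail _ h2 ih =>
    obtain ⟨n, hn⟩ := mem_iUnion.1 ih
    exact mem_iUnion.2 ⟨n + 1, mem_iUnion₂.2 ⟨_, hn, h2⟩⟩

/-- [CRD] cardinalities -/
theorem thm_CRD : St_CRD := by
  intro L P M F g N₀ N X C hA h0 hfin hM
  by_contra hX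
  rw [not_lt] at hX
  apply absurd hM
  rw [not_lt]
  have h1 : N.A ⊆ ⋃ b ∈ N₀.A ∪ X, ⋃ n, CRD_R C b n := by
    intro z hz
    obtain ⟨b, hb, hr⟩ := hA.cr z hz
    exact mem_iUnion₂.2 ⟨b, hb, CRD_mem C b z hr⟩
  have h2 : #(N₀.A ∪ X : Set M) ≤ 𝔠 := by
    refine (mk_union_le _ _).trans ?_
    have h3 : #N₀.A ≤ ℵ₀ := h0.le_aleph0
    exact (add_le_add (h3.trans aleph0_le_continuum) hX).trans (by rw [continuum_add_self])
  have h4 : #N.A ≤ 𝔠 := by
    refine (mk_le_mk_of_subset h1).trans ((mk_biUnion_le _ _).trans ?_)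
    have h5 : (⨆ x : (N₀.A ∪ X : Set M), #(⋃ n, CRD_R C (x : M) n : Set M)) ≤ ℵ₀ := by
      apply ciSup_le'
      intro x
      exact (countable_iUnion fun n => CRD_ct C (fun y => (hA.cc y).1) _ n).le_aleph0
    exact (mul_le_mul' h2 h5).trans (by rw [continuum_mul_aleph0])
  rw [← mk_sum_compl N.A]
  have h6 : #(N.Aᶜ : Set M) ≤ 𝔠 := hfin.countable.le_aleph0.trans aleph0_le_continuum
  exact (add_le_add h4 h6).trans (by rw [continuum_add_self])

end ORD
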