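import Pool.Agent.ORD.StB

/-!
# ORD: elements below `v` are decided in a maximal approximation
-/

set_option autoImplicit false
set_option linter.unusedVariables false

namespace ORD

open Set FirstOrder

/-- the identity of `N` as an isomorphism onto the substructure of a U-extension -/
theorem DCD_is {L : Lg} {P M : Type} (he : EMB) {N N₁ : Mo L P M} (h : UE N N₁ id) :
    Is (N₁.sub N.A) N id := by
  refine ⟨bijOn_id _, fun p => (h.cst p).symm, fun n R t ht => ?_⟩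
  have h1 := he.uqi h (Qf.rel n R fun i => (Sum.inr i : P ⊕ Fin n)) t ht
  exact h1.symm

theorem thm_DCD (hb : BAS) (he : EMB) (ha : ABS) (ho : ORL) (hr : St_RSN) (hp : St_PLC) :
    St_DCD := by
  classical
  intro L P M F g N₀ a hB N X C hm hinf y hyD hyv
  by_contra hcon
  push Not at hcon
  obtain ⟨hng, hnr⟩ := hcon
  have hmd := hm.md
  have hyA : y ∈ N.A := hyD.1
  have hvA : N.c F.v ∈ N.A := hmd.cst _
  have hok := hB.ok
  -- no element of `X` is far below `y`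
  have hnx : ∀ x ∈ X, ¬ F.Ll N x y := by
    intro x hx hxy
    rcases hm.dc x hx y hyD hxy hyv with h | h
    · exact hng h.1
    · exact hnr h
  -- the U-extension
  rcases hr L P M F g N hmd y hyA with h | h
  swap
  · exact hnr h
  obtain ⟨M', N', j, hmd', huniv, hue, u, hu⟩ := h
  obtain ⟨hcw, hct⟩ := ha.lcw hB.ctK hu
  obtain ⟨N₁, h, hmd₁, hue₁, hA₁, his, hhj⟩ :=
    hp L P F.T M M' N N' j (range u) hmd hmd' hinf hue hcw hct
  have hsub : N.A ⊆ N₁.A := by
    rw [hA₁]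
    exact subset_union_left
  have hc₁ : ∀ p, N₁.c p = N.c p := fun p => (hue₁.cst p).symm
  have hcN : ∀ p, N.c p ∈ N.A := hmd.cst
  -- the tree in `N₁`
  have hEsub : j '' N.A ∪ range u ⊆ N'.A := by
    rw [huniv]
    exact subset_univ _
  have hcE : ∀ p, (N'.sub (j '' N.A ∪ range u)).c p ∈ (N'.sub (j '' N.A ∪ range u)).A := by
    intro p
    left
    exact ⟨N.c p, hcN p, hue.cst p⟩
  have hlam₁ : F.Lam g N₁ y (h ∘ u) := by
    have h1 := ha.lsb hu hEsub fun s => Or.inr ⟨s, rfl⟩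
    have h2 := ha.lam (he.iue his hcE) hcE _ _ h1
    rwa [hhj y hyA] at h2
  -- persistence
  have hDD : ∀ x ∈ N.A, (F.D N₁ x ↔ F.D N x) := fun x hx => ha.udd hue₁ x hx
  have hLt : ∀ x ∈ N.A, ∀ z ∈ N.A, (F.Lt N₁ x z ↔ F.Lt N x z) := fun x hx z hz =>
    ha.ult hue₁ x hx z hz
  have hCl : ∀ x ∈ N.A, ∀ z ∈ N.A, (F.Cl N₁ x z ↔ F.Cl N x z) := fun x hx z hz =>
    ha.ucl hue₁ hcN x hx z hz
  have hLl : ∀ x ∈ N.A, ∀ z ∈ N.A, (F.Ll N₁ x z ↔ F.Ll N x z) := fun x hx z hz =>
    and_congr (hLt x hx z hz) (not_congr (hCl x hx z hz))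
  have hGd : ∀ x, F.Good g N x → F.Good g N₁ x := by
    rintro x ⟨w, hw⟩
    exact ⟨_, ha.lam hue₁ hcN x w hw⟩
  have hXA : ∀ x ∈ X, x ∈ N.A := fun x hx => (hm.xg x hx).1.1
  have hRd : ∀ z ∈ N.A, F.Rd g N z → F.Rd g N₁ z := by
    rintro z hz ⟨ρ, b, hb'⟩
    exact ⟨ρ, _, ha.has hue₁ z hz ρ b hb'⟩
  -- the new family
  have hCy : C y = ∅ := by
    by_contra hne
    exact hng (hm.cg y (nonempty_iff_ne_empty.2 hne))
  obtain ⟨C₁, hC₁⟩ : ∃ C₁ : M → Set M, C₁ = Function.update C y (range (h ∘ u)) := ⟨_, rfl⟩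
  have hC₁y : C₁ y = range (h ∘ u) := by rw [hC₁, Function.update_self]
  have hC₁z : ∀ z, z ≠ y → C₁ z = C z := fun z hz => by rw [hC₁, Function.update_of_ne hz]
  have hmono : ∀ s, C s ⊆ C₁ s := by
    intro s
    by_cases hs : s = y
    · rw [hs, hCy]
      exact empty_subset _
    · rw [hC₁z s hs]
  have hcw₁ : Cw F.T N₁ N.A := by
    have h1 := he.ucw (T := F.T) hue₁ hmd
    rwa [image_id] at h1
  have hxok : Xok F g N₁ X := by
    refine ⟨hmd₁, ?_, ?_, ?_, ?_⟩
    · intro x hx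
      obtain ⟨h1, h2, h3⟩ := hm.xg x hx
      refine ⟨(hDD x (hXA x hx)).2 h1, hGd x h2, ?_⟩
      rw [hc₁]
      exact (hLl x (hXA x hx) _ hvA).2 h3
    · intro x hx x' hx' h1
      exact hm.xp x hx x' hx' ((hCl x (hXA x hx) x' (hXA x' hx')).1 h1)
    · intro Y hY hne
      obtain ⟨m, hmY, h1⟩ := hm.wo Y hY hne
      refine ⟨m, hmY, fun z hz => (h1 z hz).imp id fun h2 => ?_⟩
      exact (hLt z (hXA z (hY hz)) m (hXA m (hY hmY))).2 h2
    · intro x hx z hzD hxz hzv
      rw [hc₁] at hzv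
      by_cases hz : z ∈ N.A
      · rcases hm.dc x hx z ((hDD z hz).1 hzD) ((hLl x (hXA x hx) z hz).1 hxz)
          ((hLl z hz _ hvA).1 hzv) with ⟨h1, x', hx', h2⟩ | h1
        · left
          exact ⟨hGd z h1, x', hx', (hCl z hz x' (hXA x' hx')).2 h2⟩
        · right
          exact hRd z hz h1
      · exfalso
        have hyD₁ : F.D N₁ y := (hDD y hyA).2 hyD
        have hzr : z ∈ range (h ∘ u) := by
          have h1 := hzD.1
          rw [hA₁] at h1
          rcases h1 with h1 | h1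
          · exact absurd h1 hz
          · rwa [range_comp]
        rcases hok.tot M N₁ hmd₁ y z hyD₁ hzD with h1 | h1 | h1
        · exact hz (h1 ▸ hyA)
        · have h2 : F.Cl N₁ y z := ha.lbt hlam₁ z hzr hzD h1 (by rw [hc₁]; exact hzv.1)
          exact hz (hok.ab1 M N₁ hmd₁ N.A hcw₁ (fun p => by rw [hc₁]; exact hcN p) y hyA hyD₁ z
            hzD h2)
        · have h2 := ho.lll hok hmd₁ x z y ((hDD x (hXA x hx)).2 (hm.xg x hx).1) hzD hyD₁ hxz h1
          exact hnx x hx ((hLl x (hXA x hx) y hyA).1 h2)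
  have hapx : Apx F g N₀ N₁ X C₁ := by
    refine { hxok with ue := ?_, cc := ?_, cg := ?_, cr := ?_ }
    · exact he.uco hm.ue hue₁
    · intro z
      by_cases hz : z = y
      · rw [hz, hC₁y, range_comp, hA₁]
        exact ⟨hct.image h, subset_union_right⟩
      · rw [hC₁z z hz]
        exact ⟨(hm.cc z).1, (hm.cc z).2.trans hsub⟩
    · intro z hne
      by_cases hz : z = y
      · rw [hz]
        exact ⟨_, hlam₁⟩
      · rw [hC₁z z hz] at hne
        exact hGd z (hm.cg z hne)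
    · have hold : ∀ z ∈ N.A, ∃ b, (b ∈ N₀.A ∨ b ∈ X) ∧
          Relation.ReflTransGen (fun s t => t ∈ C₁ s) b z := by
        intro z hz
        obtain ⟨b, hb1, hb2⟩ := hm.cr z hz
        exact ⟨b, hb1, Relation.ReflTransGen.mono (fun s t hst => hmono s hst) _ _ hb2⟩
      intro z hz
      rw [hA₁] at hz
      rcases hz with hz | hz
      · exact hold z hz
      · obtain ⟨b, hb1, hb2⟩ := hold y hyA
        refine ⟨b, hb1, hb2.tail ?_⟩
        show z ∈ C₁ y
        rw [hC₁y, range_comp]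
        exact hz
  have hale : Ale F (N, X, C) (N₁, X, C₁) := by
    refine ⟨hue₁, Subset.rfl, fun x hx hx' => absurd hx hx', ?_⟩
    intro z hz
    show C₁ z = C z
    refine hC₁z z ?_
    rintro rfl
    have hz' : (C z).Nonempty := hz
    rw [hCy] at hz'
    exact not_nonempty_empty hz'
  have hmax := (hm.mx N₁ X C₁ hapx hale).1
  apply hng
  have h1 : F.Lam g (N₁.sub N.A) y (h ∘ u) := by
    refine ha.lsb hlam₁ hsub fun s => hmax ?_
    rw [hA₁]
    right
    exact ⟨u s, ⟨s, rfl⟩, rfl⟩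
  exact (ha.isg (DCD_is he hue₁) (fun p => by
    show N₁.c p ∈ N.A
    rw [hc₁]
    exact hcN p) y hyA).2 ⟨_, h1⟩

end ORD
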