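import Pool.Agent.ORD.StS

/-!
# ORD, DIC: the two cases
-/

set_option autoImplicit false
set_option linter.unusedVariables false

namespace ORD

open Set

/-- immediate successors -/
private def SucIn {D : Type} [LinearOrder D] (I : Set D) : Prop :=
  ∀ x ∈ I, (∃ y ∈ I, x < y) → ∃ y ∈ I, x ⋖ y

/-- immediate predecessors -/
private def PreIn {D : Type} [LinearOrder D] (I : Set D) : Prop :=
  ∀ x ∈ I, (∃ y ∈ I, y < x) → ∃ y ∈ I, y ⋖ x

private theorem up {D A : Type} [LinearOrder D] (r : D → A → D → Prop)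
    (hr : ∀ y s z z', r y s z → r y s z' → z = z') (H : Finset A) (m : ℕ) :
    ∀ I : Set D, I.Infinite → I.OrdConnected →
    (∃ (x : ℕ → D) (b : D), b ∈ I ∧ (∀ i < m, x i ∈ I) ∧
      (∀ i j, i < j → j < m → x i < x j) ∧
      ∀ i < m, x i < b ∧ ∀ s ∈ H, ∀ z, r (x i) s z → x i < z → ¬ z < b) ∨
    ∃ I' : Set D, I' ⊆ I ∧ (I' = I ∨ ∃ x b, I' = Ioo x b) ∧ I'.Infinite ∧ SucIn I' := by
  induction m with
  | zero =>
    intro I hI _
    left
    obtain ⟨b, hb⟩ := hI.nonempty
    exact ⟨fun _ => b, b, hb, fun i hi => absurd hi (Nat.not_lt_zero i),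
      fun i j _ hj => absurd hj (Nat.not_lt_zero j), fun i hi => absurd hi (Nat.not_lt_zero i)⟩
  | succ m ih =>
    intro I hI hc
    by_cases hs : SucIn I
    · exact Or.inr ⟨I, subset_rfl, Or.inl rfl, hI, hs⟩
    obtain ⟨x, hx, y, hy, hxy, hno⟩ : ∃ x ∈ I, ∃ y ∈ I, x < y ∧ ∀ z ∈ I, ¬ x ⋖ z := by
      by_contra hcon
      apply hs
      rintro x hx ⟨y, hy, hxy⟩
      by_contra hcon'
      exact hcon ⟨x, hx, y, hy, hxy, fun z hz hxz => hcon' ⟨z, hz, hxz⟩⟩
    -- the minimum of the elements of the tree above `x`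
    set Z : Set D := {z | x < z ∧ ∃ s ∈ H, r x s z} with hZ
    have hZf : Z.Finite := by
      have h1 : (⋃ s ∈ H, {z | r x s z}).Finite := by
        refine H.finite_toSet.biUnion fun s _ => ?_
        exact Set.Subsingleton.finite fun z hz z' hz' => hr x s z z' hz hz'
      refine h1.subset ?_
      rintro z ⟨-, s, hs, hz⟩
      exact Set.mem_biUnion hs hz
    obtain ⟨b', hb', hmin⟩ := Set.exists_min_image (insert y Z) id (hZf.insert y)
      ⟨y, Set.mem_insert _ _⟩
    have hxb : x < b' := by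
      rcases hb' with h | h
      · rw [h]
        exact hxy
      · exact h.1
    have hby : b' ≤ y := hmin y (Set.mem_insert _ _)
    have hbI : b' ∈ I := hc.out hx hy ⟨hxb.le, hby⟩
    have hsub : Ioo x b' ⊆ I := fun z hz => hc.out hx hbI ⟨hz.1.le, hz.2.le⟩
    have hinf : (Ioo x b').Infinite := by
      intro hfin
      rcases (Ioo x b').eq_empty_or_nonempty with he | hne
      · refine hno b' hbI ⟨hxb, fun z hz1 hz2 => ?_⟩
        have : z ∈ Ioo x b' := ⟨hz1, hz2⟩
        rw [he] at this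
        exact this
      · obtain ⟨w, hw, hwmin⟩ := Set.exists_min_image (Ioo x b') id hfin hne
        refine hno w (hsub hw) ⟨hw.1, fun z hz1 hz2 => ?_⟩
        have := hwmin z ⟨hz1, hz2.trans hw.2⟩
        exact absurd hz2 (not_lt.mpr this)
    rcases ih (Ioo x b') hinf Set.ordConnected_Ioo with
      ⟨x', b, hb, hx'I, hx'c, hx'⟩ | ⟨I', h1, h2, h3, h4⟩
    · left
      refine ⟨fun i => if i = 0 then x else x' (i - 1), b, hsub hb, ?_, ?_, ?_⟩
      · intro i hi
        by_cases h0 : i = 0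
        · simp only [h0, if_true]
          exact hx
        · simp only [h0, if_false]
          exact hsub (hx'I (i - 1) (by omega))
      · intro i j hij hj
        have hj0 : j ≠ 0 := by omega
        by_cases h0 : i = 0
        · simp only [h0, hj0, if_true, if_false]
          exact (hx'I (j - 1) (by omega)).1
        · simp only [h0, hj0, if_false]
          exact hx'c (i - 1) (j - 1) (by omega) (by omega)
      · intro i hi
        by_cases h0 : i = 0
        · simp only [h0, if_true]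
          refine ⟨hb.1, fun s hs z hz hxz hzb => ?_⟩
          have h5 := hmin z (Set.mem_insert_of_mem _ ⟨hxz, s, hs, hz⟩)
          exact absurd (hzb.trans hb.2) (not_lt.mpr h5)
        · simp only [h0, if_false]
          exact hx' (i - 1) (by omega)
    · right
      refine ⟨I', h1.trans hsub, Or.inr ?_, h3, h4⟩
      rcases h2 with h2 | h2
      · exact ⟨x, b', h2⟩
      · exact h2

private theorem dn {D A : Type} [LinearOrder D] (r : D → A → D → Prop)
    (hr : ∀ y s z z', r y s z → r y s z' → z = z') (H : Finset A) (m : ℕ) :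
    ∀ I : Set D, I.Infinite → I.OrdConnected →
    (∃ (x : ℕ → D) (b : D), b ∈ I ∧ (∀ i < m, x i ∈ I) ∧
      (∀ i j, i < j → j < m → x j < x i) ∧
      ∀ i < m, b < x i ∧ ∀ s ∈ H, ∀ z, r (x i) s z → z < x i → ¬ b < z) ∨
    ∃ I' : Set D, I' ⊆ I ∧ (I' = I ∨ ∃ x b, I' = Ioo x b) ∧ I'.Infinite ∧ PreIn I' := by
  induction m with
  | zero =>
    intro I hI _
    left
    obtain ⟨b, hb⟩ := hI.nonempty
    exact ⟨fun _ => b, b, hb, fun i hi => absurd hi (Nat.not_lt_zero i),
      fun i j _ hj => absurd hj (Nat.not_lt_zero j), fun i hi => absurd hi (Nat.not_lt_zero i)⟩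
  | succ m ih =>
    intro I hI hc
    by_cases hs : PreIn I
    · exact Or.inr ⟨I, subset_rfl, Or.inl rfl, hI, hs⟩
    obtain ⟨x, hx, y, hy, hxy, hno⟩ : ∃ x ∈ I, ∃ y ∈ I, y < x ∧ ∀ z ∈ I, ¬ z ⋖ x := by
      by_contra hcon
      apply hs
      rintro x hx ⟨y, hy, hxy⟩
      by_contra hcon'
      exact hcon ⟨x, hx, y, hy, hxy, fun z hz hxz => hcon' ⟨z, hz, hxz⟩⟩
    -- the maximum of the elements of the tree below `x`
    set Z : Set D := {z | z < x ∧ ∃ s ∈ H, r x s z} with hZ
    have hZf : Z.Finite := by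
      have h1 : (⋃ s ∈ H, {z | r x s z}).Finite := by
        refine H.finite_toSet.biUnion fun s _ => ?_
        exact Set.Subsingleton.finite fun z hz z' hz' => hr x s z z' hz hz'
      refine h1.subset ?_
      rintro z ⟨-, s, hs, hz⟩
      exact Set.mem_biUnion hs hz
    obtain ⟨b', hb', hmax⟩ := Set.exists_max_image (insert y Z) id (hZf.insert y)
      ⟨y, Set.mem_insert _ _⟩
    have hxb : b' < x := by
      rcases hb' with h | h
      · rw [h]
        exact hxy
      · exact h.1
    have hby : y ≤ b' := hmax y (Set.mem_insert _ _)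
    have hbI : b' ∈ I := hc.out hy hx ⟨hby, hxb.le⟩
    have hsub : Ioo b' x ⊆ I := fun z hz => hc.out hbI hx ⟨hz.1.le, hz.2.le⟩
    have hinf : (Ioo b' x).Infinite := by
      intro hfin
      rcases (Ioo b' x).eq_empty_or_nonempty with he | hne
      · refine hno b' hbI ⟨hxb, fun z hz1 hz2 => ?_⟩
        have : z ∈ Ioo b' x := ⟨hz1, hz2⟩
        rw [he] at this
        exact this
      · obtain ⟨w, hw, hwmax⟩ := Set.exists_max_image (Ioo b' x) id hfin hne
        refine hno w (hsub hw) ⟨hw.2, fun z hz1 hz2 => ?_⟩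
        have := hwmax z ⟨hw.1.trans hz1, hz2⟩
        exact absurd hz1 (not_lt.mpr this)
    rcases ih (Ioo b' x) hinf Set.ordConnected_Ioo with
      ⟨x', b, hb, hx'I, hx'c, hx'⟩ | ⟨I', h1, h2, h3, h4⟩
    · left
      refine ⟨fun i => if i = 0 then x else x' (i - 1), b, hsub hb, ?_, ?_, ?_⟩
      · intro i hi
        by_cases h0 : i = 0
        · simp only [h0, if_true]
          exact hx
        · simp only [h0, if_false]
          exact hsub (hx'I (i - 1) (by omega))
      · intro i j hij hj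
        have hj0 : j ≠ 0 := by omega
        by_cases h0 : i = 0
        · simp only [h0, hj0, if_true, if_false]
          exact (hx'I (j - 1) (by omega)).2
        · simp only [h0, hj0, if_false]
          exact hx'c (i - 1) (j - 1) (by omega) (by omega)
      · intro i hi
        by_cases h0 : i = 0
        · simp only [h0, if_true]
          refine ⟨hb.2, fun s hs z hz hxz hzb => ?_⟩
          have h5 := hmax z (Set.mem_insert_of_mem _ ⟨hxz, s, hs, hz⟩)
          exact absurd (hb.1.trans hzb) (not_lt.mpr h5)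
        · simp only [h0, if_false]
          exact hx' (i - 1) (by omega)
    · right
      refine ⟨I', h1.trans hsub, Or.inr ?_, h3, h4⟩
      rcases h2 with h2 | h2
      · exact ⟨b', x, h2⟩
      · exact h2

theorem thm_DIC : St_DIC := by
  intro D A _ _ r hr
  by_cases h1 : ∀ (m : ℕ) (H : Finset A), ∃ (x : ℕ → D) (b : D),
      (∀ i j, i < j → j < m → x i < x j) ∧
      ∀ i < m, x i < b ∧ ∀ s ∈ H, ∀ z, r (x i) s z → x i < z → ¬ z < b
  · exact Or.inl h1
  right
  by_cases h2 : ∀ (m : ℕ) (H : Finset A), ∃ (x : ℕ → D) (b : D),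
      (∀ i j, i < j → j < m → x j < x i) ∧
      ∀ i < m, b < x i ∧ ∀ s ∈ H, ∀ z, r (x i) s z → z < x i → ¬ b < z
  · exact Or.inl h2
  right
  rw [not_forall] at h1 h2
  obtain ⟨m, h1⟩ := h1
  rw [not_forall] at h1
  obtain ⟨H, h1⟩ := h1
  obtain ⟨m', h2⟩ := h2
  rw [not_forall] at h2
  obtain ⟨H', h2⟩ := h2
  rcases up r hr H m univ Set.infinite_univ Set.ordConnected_univ with
    ⟨x, b, -, -, h3, h4⟩ | ⟨I, -, h3, h4, h5⟩
  · exact absurd ⟨x, b, h3, h4⟩ h1
  have hIc : I.OrdConnected := by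
    rcases h3 with rfl | ⟨x, b, rfl⟩
    · exact Set.ordConnected_univ
    · exact Set.ordConnected_Ioo
  rcases dn r hr H' m' I h4 hIc with ⟨x, b, -, -, h6, h7⟩ | ⟨J, h6, h7, h8, h9⟩
  · exact absurd ⟨x, b, h6, h7⟩ h2
  have hJc : J.OrdConnected := by
    rcases h7 with rfl | ⟨x, b, rfl⟩
    · exact hIc
    · exact Set.ordConnected_Ioo
  refine ⟨J, ?_, h8, ?_, h9⟩
  · rcases h7 with rfl | h7
    · exact h3
    · exact Or.inr h7
  · rintro x hx ⟨y, hy, hxy⟩
    obtain ⟨z, hz, hxz⟩ := h5 x (h6 hx) ⟨y, h6 hy, hxy⟩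
    have hzy : z ≤ y := by
      by_contra hcon
      rw [not_le] at hcon
      exact hxz.2 hxy hcon
    exact ⟨z, hJc.out hx hy ⟨hxz.1.le, hzy⟩, hxz⟩

end ORD
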