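import Pool.Agent.ORD.StS

/-!
# ORD, module EXT: the new constant, trees of witnesses
-/

set_option autoImplicit false
set_option linter.unusedVariables false

namespace ORD

open Set FirstOrder

section

variable {L : Lg} {Q P M ι : Type}

private theorem EXT_exq (hb : BAS) (N : Mo L Q M) (b : M) (φ : Qf L (Q ⊕ ι)) (v : ι → M) :
    (N.ext b).Q φ.ex v ↔ N.Q φ v := by
  unfold Mo.Q Qf.ex
  rw [hb.qmap]
  have h : Sum.elim (N.ext b).c v ∘ Sum.map some id = Sum.elim N.c v := by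
    funext x
    rcases x with x | x <;> rfl
  rw [h]
  exact Iff.rfl

private theorem EXT_tre {T : Th L P} {N : Mo L P M} (hN : Md T N) (y : M) (hy : y ∈ N.A) :
    ∃ u, Tre T N y u := by
  have h : ∀ (x : N.A) (k : T.K), ∃ z : Fin (T.n k) → N.A,
      T.Wit N k x fun i => (z i : M) := by
    intro x k
    obtain ⟨z, hz, hw⟩ := hN.wit x x.2 k
    exact ⟨fun i => ⟨z i, hz i⟩, hw⟩
  choose c hc using h
  let v : Adr T → N.A := fun s => List.rec ⟨y, hy⟩ (fun a _ r => c r a.1 a.2) s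
  let u : Adr T → M := fun s => (v s).1
  exact ⟨u, { uni := fun s => (v s).2, top := rfl, wit := fun s k => hc (v s) k }⟩

private theorem EXT_cst {T : Th L Q} {N : Mo L Q M} (hN : Md T N) {b : M} (hb : b ∈ N.A) :
    ∀ p, (N.ext b).c p ∈ (N.ext b).A := by
  intro p
  cases p with
  | none => exact hb
  | some p => exact hN.cst p

private theorem EXT_lin (hb : BAS) (he : EMB) (ht : BTF) (T : Th L Q) (N : Mo L Q M)
    (d : Qf L (Q ⊕ Fin 1)) (l : Qf L (Q ⊕ Fin 2)) (b : M) (hN : Md T N) (hlo : Lo N d l)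
    (hbA : b ∈ N.A) (hbd : N.Q d ![b]) :
    Md ((T.map some).lin d.ex l.ex none) (N.ext b) := by
  have hd : ∀ x, (N.ext b).Q d.ex ![x] ↔ N.Q d ![x] := fun x => EXT_exq hb N b d _
  have hl : ∀ x y, (N.ext b).Q l.ex ![x, y] ↔ N.Q l ![x, y] := fun x y => EXT_exq hb N b l _
  rw [ht.lin]
  refine ⟨(he.rmd (N := N.ext b) (T := T) some (EXT_cst hN hbA)).2 hN, ?_, ?_, ?_, ?_⟩
  · intro x hx h1 h2
    exact hlo.irr x hx ((hd x).1 h1) ((hl x x).1 h2)
  · intro x hx y hy z hz h1 h2 h3 h4 h5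
    exact (hl x z).2 (hlo.trs x hx y hy z hz ((hd x).1 h1) ((hd y).1 h2) ((hd z).1 h3)
      ((hl x y).1 h4) ((hl y z).1 h5))
  · intro x hx y hy h1 h2
    rw [hl, hl]
    exact hlo.tot x hx y hy ((hd x).1 h1) ((hd y).1 h2)
  · exact (hd b).2 hbd

private theorem EXT_suc (ht : BTF) (N : Mo L P M) (d : Qf L (P ⊕ Fin 1))
    (l : Qf L (P ⊕ Fin 2)) (hne : N.A.Nonempty) (h : Suc N d l) :
    ∀ x ∈ N.A, ∃ y ∈ N.A, N.Tr (scf d l) ![x, y] := by
  intro x hx
  by_cases h1 : N.Q d ![x] ∧ ∃ y ∈ N.A, N.Q d ![y] ∧ N.Q l ![x, y]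
  · obtain ⟨y, hy, h2, h3, h4⟩ := h x hx h1.1 h1.2
    exact ⟨y, hy, (ht.scf d l N x y hne).2 fun _ => Or.inl ⟨h2, h3, h4⟩⟩
  · refine ⟨x, hx, (ht.scf d l N x x hne).2 fun h2 => Or.inr ?_⟩
    intro z hz h3 h4
    exact h1 ⟨h2, z, hz, h3, h4⟩

private theorem EXT_scf (hb : BAS) (ht : BTF) (N : Mo L Q M) (d : Qf L (Q ⊕ Fin 1))
    (l' : Qf L (Option Q ⊕ Fin 2)) (R : M → M → Prop) (b : M) (hne : N.A.Nonempty)
    (hR : ∀ x y, (N.ext b).Q l' ![x, y] ↔ R x y) (x y : M) :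
    (N.ext b).Tr (scf d.ex l') ![x, y] ↔
      (N.Q d ![x] → ((N.Q d ![y] ∧ R x y ∧ ∀ z ∈ N.A, N.Q d ![z] → R x z → ¬ R z y) ∨
        ∀ z ∈ N.A, N.Q d ![z] → ¬ R x z)) := by
  rw [ht.scf d.ex l' (N.ext b) x y hne]
  simp only [hR, EXT_exq hb N b d]
  exact Iff.rfl

private theorem EXT_w0 {T : Th L P} {N : Mo L P M} (hN : Md T N) {x : M} (hx : x ∈ N.A) (k : T.K)
    (hk : T.n k = 0) (y : Fin (T.n k) → M) : T.Wit N k x y := by
  obtain ⟨z, _, hw⟩ := hN.wit x hx k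
  have : z = y := by
    funext i
    have := i.2
    omega
  rwa [this] at hw

/-- the addresses in the frame of the first kind -/
private def EXT_pi (T : Th L Q) (d : Qf L (Q ⊕ Fin 1)) (l : Qf L (Q ⊕ Fin 2)) :
    List ((k : T.K ⊕ Fin 4) × Fin (Sum.elim T.n (fun _ => 0) k)) → Adr T
  | [] => []
  | ⟨Sum.inl k, i⟩ :: s => ⟨k, i⟩ :: EXT_pi T d l s
  | ⟨Sum.inr _, i⟩ :: _ => Fin.elim0 i

private theorem EXT_map (hb : BAS) (T : Th L Q) (N : Mo L Q M) (b : M) (k : T.K) (x : M)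
    (y : Fin (T.n k) → M) :
    (N.ext b).Tr ((T.ax k).map (Sum.map some id)) (Fin.cons x y : Fin (T.n k + 1) → M) ↔
      T.Wit N k x y := by
  unfold Mo.Tr Th.Wit Mo.Tr
  rw [hb.umap]
  have h : Sum.elim (N.ext b).c (Fin.cons x y : Fin (T.n k + 1) → M) ∘ Sum.map some id
      = Sum.elim N.c (Fin.cons x y : Fin (T.n k + 1) → M) := by
    funext x
    rcases x with x | x <;> rfl
  rw [h]
  exact Iff.rfl

private theorem EXT_c1 (x : M) (y : Fin 1 → M) : (Fin.cons x y : Fin 2 → M) = ![x, y 0] := by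
  funext i
  refine Fin.cases rfl (fun i => ?_) i
  have : i = 0 := Subsingleton.elim _ _
  subst this
  rfl

end

/-- [EXT] the new constant, trees of witnesses -/
theorem thm_EXT (hb : BAS) (he : EMB) (ht : BTF) : EXT where
  exq N b φ v := EXT_exq hb N b φ v
  tre hN y hy := EXT_tre hN y hy
  md1 := by
    intro L Q M T N d l b hN hlo hbA hbd
    exact EXT_lin hb he ht T N d l b hN hlo hbA hbd
  md2 := by
    intro L Q M T N d l b hN hlo hs1 hs2 hbA hbd
    have hd : ∀ x, (N.ext b).Q d.ex ![x] ↔ N.Q d ![x] := fun x => EXT_exq hb N b d _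
    have hl : ∀ x y, (N.ext b).Q l.ex ![x, y] ↔ N.Q l ![x, y] := fun x y => EXT_exq hb N b l _
    have hne : (N.ext b).A.Nonempty := ⟨b, hbA⟩
    refine (ht.sp ((T.map some).lin d.ex l.ex none) d.ex l.ex (N.ext b)).2
      ⟨EXT_lin hb he ht T N d l b hN hlo hbA hbd, EXT_suc ht _ _ _ hne ?_,
        EXT_suc ht _ _ _ hne ?_⟩
    · intro x hx h1 h2
      simp only [hd, hl] at h1 h2 ⊢
      exact hs1 x hx h1 h2
    · intro x hx h1 h2
      have h3 := hs2 x hx
      simp only [ht.swp] at h3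
      simp only [ht.swp, hd, hl] at h1 h2 ⊢
      exact h3 h1 h2
  dn1 := by
    intro L Q M T N d l h
    have h1 := ((ht.lin (T.map some) d.ex l.ex none N).1 h).1
    exact (he.rmd (N := N) (T := T) some h.cst).1 h1
  dn2 := by
    intro L Q M T N d l h
    have h1 := ((ht.sp ((T.map some).lin d.ex l.ex none) d.ex l.ex N).1 h).1
    have h2 := ((ht.lin (T.map some) d.ex l.ex none N).1 h1).1
    exact (he.rmd (N := N) (T := T) some h.cst).1 h2
  tr1 := by
    intro L Q T d l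
    refine ⟨EXT_pi T d l, fun M N b y u hN hu => ⟨fun s => hu.uni _, hu.top, ?_⟩⟩
    intro s k
    rcases k with k | k
    · exact (EXT_map hb T N b k _ _).2 (hu.wit (EXT_pi T d l s) k)
    · exact EXT_w0 hN (hu.uni _) (Sum.inr k) rfl _
  tr2 := by
    intro L Q M T d l N b b' y u hN hN' hu
    refine ⟨hu.uni, hu.top, ?_⟩
    intro s k
    have hne : N.A.Nonempty := ⟨y, by rw [← hu.top]; exact hu.uni []⟩
    have hw := hu.wit s k
    rcases k with (k | k) | k
    · exact (EXT_map hb T N b' k _ _).2 ((EXT_map hb T N b k _ _).1 hw)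
    · exact EXT_w0 hN' (hu.uni _) (Sum.inl (Sum.inr k)) rfl _
    · cases k with
      | true =>
        have h1 := EXT_scf hb ht N d l.ex (fun x y => N.Q l ![x, y]) b hne
          (fun x y => EXT_exq hb N b l _) (u s) (u (⟨Sum.inr true, (0 : Fin 1)⟩ :: s))
        have h2 := EXT_scf hb ht N d l.ex (fun x y => N.Q l ![x, y]) b' hne
          (fun x y => EXT_exq hb N b' l _) (u s) (u (⟨Sum.inr true, (0 : Fin 1)⟩ :: s))
        have e := EXT_c1 (u s) (fun i : Fin 1 => u (⟨Sum.inr true, i⟩ :: s))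
        have hw' : (N.ext b).Tr (scf d.ex l.ex) (Fin.cons (u s)
          (fun i : Fin 1 => u (⟨Sum.inr true, i⟩ :: s)) : Fin 2 → M) := hw
        show (N.ext b').Tr (scf d.ex l.ex) (Fin.cons (u s)
          (fun i : Fin 1 => u (⟨Sum.inr true, i⟩ :: s)) : Fin 2 → M)
        rw [e] at hw' ⊢
        exact h2.2 (h1.1 hw')
      | false =>
        have h1 := EXT_scf hb ht N d (swp l.ex) (fun x y => N.Q l ![y, x]) b hne
          (fun x y => by rw [ht.swp]; exact EXT_exq hb N b l _) (u s)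
          (u (⟨Sum.inr false, (0 : Fin 1)⟩ :: s))
        have h2 := EXT_scf hb ht N d (swp l.ex) (fun x y => N.Q l ![y, x]) b' hne
          (fun x y => by rw [ht.swp]; exact EXT_exq hb N b' l _) (u s)
          (u (⟨Sum.inr false, (0 : Fin 1)⟩ :: s))
        have e := EXT_c1 (u s) (fun i : Fin 1 => u (⟨Sum.inr false, i⟩ :: s))
        have hw' : (N.ext b).Tr (scf d.ex (swp l.ex)) (Fin.cons (u s)
          (fun i : Fin 1 => u (⟨Sum.inr false, i⟩ :: s)) : Fin 2 → M) := hw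
        show (N.ext b').Tr (scf d.ex (swp l.ex)) (Fin.cons (u s)
          (fun i : Fin 1 => u (⟨Sum.inr false, i⟩ :: s)) : Fin 2 → M)
        rw [e] at hw' ⊢
        exact h2.2 (h1.1 hw')

end ORD
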