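import Pool.Agent.ORD.StA

/-!
# ORD, module FRA: frames of the first kind (helper87)
-/

set_option autoImplicit false
set_option linter.unusedVariables false

namespace ORD

open Set FirstOrder

private lemma FRA_cl (hb : BAS) {L : Lg} {P M : Type} (T : Th L P) (d : Qf L (P ⊕ Fin 1))
    (l : Qf L (P ⊕ Fin 2)) (v : P) (N : Mo L P M) (x y : M) :
    (Fr1 T d l v).Cl N x y ↔ x = y := by
  have h : ∀ n : ℕ, N.Tr ((Fr1 T d l v).E n) ![x, y] ↔ x = y := by
    intro n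
    change (Uf.qf (Qf.eq (Sum.inr 0) (Sum.inr 1))).Tr N.S N.A (Sum.elim N.c ![x, y]) ↔ _
    rw [hb.uqf]
    exact Iff.rfl
  exact ⟨fun ⟨n, hn⟩ => (h n).1 hn, fun e => ⟨0, (h 0).2 e⟩⟩

/-- FRA. -/
theorem thm_FRA (hb : BAS) (he : EMB) (ht : BTF) : St_FRA := by
  intro L P T d l v
  have key : ∀ (M : Type) (N : Mo L P M), Md (Fr1 T d l v).T N → _ :=
    fun M N hN => (ht.lin T d l v N).1 hN
  have hirr : ∀ (M : Type) (N : Mo L P M), Md (Fr1 T d l v).T N → ∀ x, (Fr1 T d l v).D N x →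
      ¬ (Fr1 T d l v).Lt N x x := fun M N hN x hx => (key M N hN).2.1 x hx.1 hx.2
  have htrs : ∀ (M : Type) (N : Mo L P M), Md (Fr1 T d l v).T N → ∀ x y z,
      (Fr1 T d l v).D N x → (Fr1 T d l v).D N y → (Fr1 T d l v).D N z →
      (Fr1 T d l v).Lt N x y → (Fr1 T d l v).Lt N y z → (Fr1 T d l v).Lt N x z :=
    fun M N hN x y z hx hy hz => (key M N hN).2.2.1 x hx.1 y hy.1 z hz.1 hx.2 hy.2 hz.2
  refine ⟨hirr, htrs, fun M N hN x y hx hy => ?_, fun M N hN x hx => ?_,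
    fun M N hN x y hx hy h => ?_, fun M N hN x y z hx hy hz h1 h2 => ?_,
    fun M N hN x y z hx hy hz h1 h2 h3 => ?_, fun M N hN C hC hc y hy hy' y' hy'' h => ?_,
    fun M N hN C hC hc x hx y hy hx' hy' h => ?_, fun M N hN => ?_⟩
  · exact (key M N hN).2.2.2.1 x hx.1 y hy.1 hx.2 hy.2
  · exact (FRA_cl hb T d l v N x x).2 rfl
  · exact (FRA_cl hb T d l v N y x).2 ((FRA_cl hb T d l v N x y).1 h).symm
  · exact (FRA_cl hb T d l v N x z).2
      (((FRA_cl hb T d l v N x y).1 h1).trans ((FRA_cl hb T d l v N y z).1 h2))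
  · have e := (FRA_cl hb T d l v N x z).1 h3
    subst e
    exact absurd (htrs M N hN x y x hx hy hx h1 h2) (hirr M N hN x hx)
  · rw [← (FRA_cl hb T d l v N y y').1 h]
    exact hy
  · exact (FRA_cl hb T d l v N x y).2 ((FRA_cl hb T d l v (N.sub C) x y).1 h)
  · exact ⟨hN.cst v, (key M N hN).2.2.2.2⟩

end ORD
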