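import Pool.Agent.ORD.StA

/-!
# ORD: the frames of the second kind satisfy the conditions
-/

set_option autoImplicit false
set_option linter.unusedVariables false

namespace ORD

open Set FirstOrder

private theorem FRB_absA {M : Type} {D : M → Prop} {R : M → M → Prop} {C : Set M}
    (irr : ∀ x, D x → ¬ R x x) (trs : ∀ x y z, D x → D y → D z → R x y → R y z → R x z)
    (tot : ∀ x y, D x → D y → x = y ∨ R x y ∨ R y x)
    (suc : ∀ x ∈ C, D x → (∃ z, D z ∧ R x z) →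
      ∃ y ∈ C, D y ∧ R x y ∧ ∀ z, D z → R x z → ¬ R z y) :
    ∀ (n : ℕ) (x y : M), x ∈ C → D x → D y → R x y → {z | D z ∧ R x z ∧ R z y}.Finite →
      {z | D z ∧ R x z ∧ R z y}.ncard ≤ n → y ∈ C := by
  have key : ∀ (x y : M), x ∈ C → D x → D y → R x y → {z | D z ∧ R x z ∧ R z y}.Finite →
      y ∈ C ∨ ∃ x₁ ∈ C, D x₁ ∧ R x₁ y ∧ {z | D z ∧ R x₁ z ∧ R z y}.Finite ∧
        {z | D z ∧ R x₁ z ∧ R z y}.ncard < {z | D z ∧ R x z ∧ R z y}.ncard := by
    intro x y hx hdx hdy hxy hfin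
    obtain ⟨x₁, hx₁, hd₁, h₁, him⟩ := suc x hx hdx ⟨y, hdy, hxy⟩
    rcases tot x₁ y hd₁ hdy with h | h | h
    · exact Or.inl (h ▸ hx₁)
    · right
      have hss : {z | D z ∧ R x₁ z ∧ R z y} ⊂ {z | D z ∧ R x z ∧ R z y} := by
        refine ⟨fun z hz => ⟨hz.1, trs x x₁ z hdx hd₁ hz.1 h₁ hz.2.1, hz.2.2⟩, fun hsub => ?_⟩
        have := hsub (show x₁ ∈ {z | D z ∧ R x z ∧ R z y} from ⟨hd₁, h₁, h⟩)
        exact irr x₁ hd₁ this.2.1
      exact ⟨x₁, hx₁, hd₁, h, hfin.subset hss.1, Set.ncard_lt_ncard hss hfin⟩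
    · exact absurd h (him y hdy hxy)
  intro n
  induction n with
  | zero =>
    intro x y hx hdx hdy hxy hfin hn
    rcases key x y hx hdx hdy hxy hfin with h | ⟨x₁, hx₁, hd₁, h₁, hf₁, hlt⟩
    · exact h
    · omega
  | succ n ih =>
    intro x y hx hdx hdy hxy hfin hn
    rcases key x y hx hdx hdy hxy hfin with h | ⟨x₁, hx₁, hd₁, h₁, hf₁, hlt⟩
    · exact h
    · exact ih x₁ y hx₁ hd₁ hdy h₁ hf₁ (by omega)

private theorem FRB_absB {M : Type} {D : M → Prop} {R : M → M → Prop} {C : Set M}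
    (irr : ∀ x, D x → ¬ R x x) (trs : ∀ x y z, D x → D y → D z → R x y → R y z → R x z)
    (tot : ∀ x y, D x → D y → x = y ∨ R x y ∨ R y x)
    (suc : ∀ x ∈ C, D x → (∃ z, D z ∧ R x z) →
      ∃ y ∈ C, D y ∧ R x y ∧ ∀ z, D z → R x z → ¬ R z y) :
    ∀ (n : ℕ) (x y : M), x ∈ C → D x → D y → R x y →
      {z | z ∈ C ∧ D z ∧ R x z ∧ R z y}.Finite →
      {z | z ∈ C ∧ D z ∧ R x z ∧ R z y}.ncard ≤ n → {z | D z ∧ R x z ∧ R z y}.Finite := by
  have key : ∀ (x y : M), x ∈ C → D x → D y → R x y →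
      {z | z ∈ C ∧ D z ∧ R x z ∧ R z y}.Finite →
      {z | D z ∧ R x z ∧ R z y}.Finite ∨ ∃ x₁ ∈ C, D x₁ ∧ R x₁ y ∧
        {z | z ∈ C ∧ D z ∧ R x₁ z ∧ R z y}.Finite ∧
        {z | z ∈ C ∧ D z ∧ R x₁ z ∧ R z y}.ncard <
          {z | z ∈ C ∧ D z ∧ R x z ∧ R z y}.ncard ∧
        ({z | D z ∧ R x₁ z ∧ R z y}.Finite → {z | D z ∧ R x z ∧ R z y}.Finite) := by
    intro x y hx hdx hdy hxy hfin
    obtain ⟨x₁, hx₁, hd₁, h₁, him⟩ := suc x hx hdx ⟨y, hdy, hxy⟩
    rcases tot x₁ y hd₁ hdy with h | h | h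
    · left
      have : {z | D z ∧ R x z ∧ R z y} = ∅ := by
        ext z
        simp only [mem_ofPred_eq, mem_empty_iff_false, iff_false]
        rintro ⟨hz, h1, h2⟩
        exact him z hz h1 (h ▸ h2)
      rw [this]
      exact Set.finite_empty
    · right
      have hss : {z | z ∈ C ∧ D z ∧ R x₁ z ∧ R z y} ⊂ {z | z ∈ C ∧ D z ∧ R x z ∧ R z y} := by
        refine ⟨fun z hz => ⟨hz.1, hz.2.1, trs x x₁ z hdx hd₁ hz.2.1 h₁ hz.2.2.1, hz.2.2.2⟩,
          fun hsub => ?_⟩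
        have := hsub (show x₁ ∈ {z | z ∈ C ∧ D z ∧ R x z ∧ R z y} from ⟨hx₁, hd₁, h₁, h⟩)
        exact irr x₁ hd₁ this.2.2.1
      refine ⟨x₁, hx₁, hd₁, h, hfin.subset hss.1, Set.ncard_lt_ncard hss hfin, fun hf => ?_⟩
      refine (hf.union (Set.finite_singleton x₁)).subset ?_
      rintro z ⟨hz, h1, h2⟩
      rcases tot z x₁ hz hd₁ with h3 | h3 | h3
      · exact Or.inr h3
      · exact absurd h3 (him z hz h1)
      · exact Or.inl ⟨hz, h3, h2⟩
    · exact absurd h (him y hdy hxy)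
  intro n
  induction n with
  | zero =>
    intro x y hx hdx hdy hxy hfin hn
    rcases key x y hx hdx hdy hxy hfin with h | ⟨x₁, hx₁, hd₁, h₁, hf₁, hlt, himp⟩
    · exact h
    · omega
  | succ n ih =>
    intro x y hx hdx hdy hxy hfin hn
    rcases key x y hx hdx hdy hxy hfin with h | ⟨x₁, hx₁, hd₁, h₁, hf₁, hlt, himp⟩
    · exact h
    · exact himp (ih x₁ y hx₁ hd₁ hdy h₁ hf₁ (by omega))

private theorem FRB_fin {L : Lg} {P M : Type} (ht : BTF) (T : Th L P) (d : Qf L (P ⊕ Fin 1))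
    (l : Qf L (P ⊕ Fin 2)) (v : P) (N : Mo L P M) (x y : M) :
    (Fr2 T d l v).Cl N x y ↔ {z | Btw d l N x y z}.Finite := by
  constructor
  · rintro ⟨n, hn⟩
    by_contra hinf
    rw [show (Fr2 T d l v).E n = ORD.btf d l n from rfl, ht.btf] at hn
    apply hn
    have e := Set.Infinite.natEmbedding _ (show {z | Btw d l N x y z}.Infinite from hinf)
    exact ⟨fun i => (e i.1).1, fun i j hij => Fin.ext (e.injective (Subtype.ext hij)),
      fun i => (e i.1).2⟩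
  · intro hf
    refine ⟨{z | Btw d l N x y z}.ncard, ?_⟩
    rw [show (Fr2 T d l v).E {z | Btw d l N x y z}.ncard =
      ORD.btf d l {z | Btw d l N x y z}.ncard from rfl, ht.btf]
    rintro ⟨z, hz, hb⟩
    have h1 : (range z).ncard ≤ {z | Btw d l N x y z}.ncard :=
      Set.ncard_le_ncard (by rintro _ ⟨i, rfl⟩; exact hb i) hf
    have h2 : (range z).ncard = {z | Btw d l N x y z}.ncard + 1 := by
      rw [← Set.image_univ, Set.ncard_image_of_injective _ hz, Set.ncard_univ, Nat.card_fin]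
    omega

private theorem FRB_cons {M : Type} (x : M) (y : Fin 1 → M) :
    (Fin.cons x y : Fin (1 + 1) → M) = ![x, y 0] := by
  funext i
  refine Fin.cases rfl (fun j => ?_) i
  rw [Fin.fin_one_eq_zero j]
  rfl

private theorem FRB_wit {L : Lg} {P M : Type} {N : Mo L P M} {C : Set M} {x : M}
    {φ : Uf L (P ⊕ Fin (1 + 1))}
    (h : ∃ y : Fin 1 → M, (∀ i, y i ∈ C) ∧ N.Tr φ (Fin.cons x y : Fin (1 + 1) → M)) :
    ∃ y ∈ C, N.Tr φ ![x, y] := by
  obtain ⟨y, hy, hw⟩ := h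
  rw [FRB_cons] at hw
  exact ⟨y 0, hy 0, hw⟩

theorem thm_FRB (hb : BAS) (he : EMB) (ht : BTF) : St_FRB := by
  intro L P T d l v
  -- the order
  have hL : ∀ (M : Type) (N : Mo L P M), Md (Fr2 T d l v).T N →
      (∀ x, (Fr2 T d l v).D N x → ¬ (Fr2 T d l v).Lt N x x) ∧
      (∀ x y z, (Fr2 T d l v).D N x → (Fr2 T d l v).D N y → (Fr2 T d l v).D N z →
        (Fr2 T d l v).Lt N x y → (Fr2 T d l v).Lt N y z → (Fr2 T d l v).Lt N x z) ∧
      (∀ x y, (Fr2 T d l v).D N x → (Fr2 T d l v).D N y →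
        x = y ∨ (Fr2 T d l v).Lt N x y ∨ (Fr2 T d l v).Lt N y x) ∧
      (Fr2 T d l v).D N (N.c v) := by
    intro M N hM
    have h1 := (ht.sp (T.lin d l v) d l N).1 hM
    have h2 := (ht.lin T d l v N).1 h1.1
    refine ⟨fun x hx => h2.2.1 x hx.1 hx.2, fun x y z hx hy hz => ?_, fun x y hx hy => ?_,
      hM.cst v, h2.2.2.2.2⟩
    · exact h2.2.2.1 x hx.1 y hy.1 z hz.1 hx.2 hy.2 hz.2
    · exact h2.2.2.2.1 x hx.1 y hy.1 hx.2 hy.2
  -- successors and predecessors in closed sets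
  have hsuc : ∀ (M : Type) (N : Mo L P M), Md (Fr2 T d l v).T N → ∀ C,
      Cw (Fr2 T d l v).T N C → ∀ x ∈ C, (Fr2 T d l v).D N x →
      (∃ z, (Fr2 T d l v).D N z ∧ (Fr2 T d l v).Lt N x z) →
      ∃ y ∈ C, (Fr2 T d l v).D N y ∧ (Fr2 T d l v).Lt N x y ∧
        ∀ z, (Fr2 T d l v).D N z → (Fr2 T d l v).Lt N x z → ¬ (Fr2 T d l v).Lt N z y := by
    intro M N hM C hC x hx hdx hex
    obtain ⟨y, hy, hw⟩ := FRB_wit (φ := ORD.scf d l) (hC.wit x hx (Sum.inr true))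
    rw [ht.scf d l N x y hM.ne] at hw
    rcases hw hdx.2 with h | h
    · exact ⟨y, hy, ⟨hC.sub hy, h.1⟩, h.2.1, fun z hz h1 => h.2.2 z hz.1 hz.2 h1⟩
    · obtain ⟨z, hz, hxz⟩ := hex
      exact absurd hxz (h z hz.1 hz.2)
  have hpre : ∀ (M : Type) (N : Mo L P M), Md (Fr2 T d l v).T N → ∀ C,
      Cw (Fr2 T d l v).T N C → ∀ x ∈ C, (Fr2 T d l v).D N x →
      (∃ z, (Fr2 T d l v).D N z ∧ (Fr2 T d l v).Lt N z x) →
      ∃ y ∈ C, (Fr2 T d l v).D N y ∧ (Fr2 T d l v).Lt N y x ∧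
        ∀ z, (Fr2 T d l v).D N z → (Fr2 T d l v).Lt N z x → ¬ (Fr2 T d l v).Lt N y z := by
    intro M N hM C hC x hx hdx hex
    obtain ⟨y, hy, hw⟩ := FRB_wit (φ := ORD.scf d (ORD.swp l)) (hC.wit x hx (Sum.inr false))
    rw [ht.scf d (ORD.swp l) N x y hM.ne] at hw
    rcases hw hdx.2 with h | h
    · exact ⟨y, hy, ⟨hC.sub hy, h.1⟩, (ht.swp l N x y).1 h.2.1,
        fun z hz h1 h2 => h.2.2 z hz.1 hz.2 ((ht.swp l N x z).2 h1)
          ((ht.swp l N z y).2 h2)⟩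
    · obtain ⟨z, hz, hxz⟩ := hex
      exact absurd ((ht.swp l N x z).2 hxz) (h z hz.1 hz.2)
  -- the set of the elements between
  have hset : ∀ (M : Type) (N : Mo L P M), Md (Fr2 T d l v).T N → ∀ (B : Set M), B ⊆ N.A →
      ∀ x y, (Fr2 T d l v).D N x →
      (Fr2 T d l v).D N y → (Fr2 T d l v).Lt N x y →
      {z | Btw d l (N.sub B) x y z} = {z | z ∈ B ∧ (Fr2 T d l v).D N z ∧
        (Fr2 T d l v).Lt N x z ∧ (Fr2 T d l v).Lt N z y} := by
    intro M N hM B hB x y hx hy hxy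
    obtain ⟨irr, trs, tot, _⟩ := hL M N hM
    ext z
    constructor
    · rintro ⟨h1, h2, h3⟩
      have hz : (Fr2 T d l v).D N z := ⟨hB h1, h2⟩
      rcases h3 with h3 | h3
      · exact ⟨h1, hz, h3.1, h3.2⟩
      · exact absurd (trs x y x hx hy hx hxy (trs y z x hy hz hx h3.1 h3.2)) (irr x hx)
    · rintro ⟨h1, h2, h3, h4⟩
      exact ⟨h1, h2.2, Or.inl ⟨h3, h4⟩⟩
  have hset' : ∀ (M : Type) (N : Mo L P M), Md (Fr2 T d l v).T N → ∀ x y,
      (Fr2 T d l v).D N x → (Fr2 T d l v).D N y → (Fr2 T d l v).Lt N x y →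
      {z | Btw d l N x y z} = {z | (Fr2 T d l v).D N z ∧
        (Fr2 T d l v).Lt N x z ∧ (Fr2 T d l v).Lt N z y} := by
    intro M N hM x y hx hy hxy
    have := hset M N hM N.A subset_rfl x y hx hy hxy
    rw [show {z | Btw d l N x y z} = {z | Btw d l (N.sub N.A) x y z} from rfl, this]
    ext z
    exact ⟨fun h => h.2, fun h => ⟨h.1.1, h⟩⟩
  have hsymm : ∀ (M : Type) (N : Mo L P M) (x y : M),
      {z | Btw d l N x y z} = {z | Btw d l N y x z} := by
    intro M N x y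
    ext z
    constructor
    · rintro ⟨h1, h2, h3 | h3⟩
      · exact ⟨h1, h2, Or.inr h3⟩
      · exact ⟨h1, h2, Or.inl h3⟩
    · rintro ⟨h1, h2, h3 | h3⟩
      · exact ⟨h1, h2, Or.inr h3⟩
      · exact ⟨h1, h2, Or.inl h3⟩
  refine
    { irr := fun M N hM => (hL M N hM).1
      trs := fun M N hM => (hL M N hM).2.1
      tot := fun M N hM => (hL M N hM).2.2.1
      crf := ?_
      csm := ?_
      ctr := ?_
      cvx := ?_
      ab1 := ?_
      ab2 := ?_
      vdd := fun M N hM => (hL M N hM).2.2.2 }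
  · intro M N hM x hx
    rw [FRB_fin ht]
    obtain ⟨irr, trs, tot, _⟩ := hL M N hM
    have : {z | Btw d l N x x z} = ∅ := by
      ext z
      simp only [mem_ofPred_eq, mem_empty_iff_false, iff_false]
      rintro ⟨h1, h2, h3⟩
      have hz : (Fr2 T d l v).D N z := ⟨h1, h2⟩
      rcases h3 with h3 | h3
      · exact irr x hx (trs x z x hx hz hx h3.1 h3.2)
      · exact irr x hx (trs x z x hx hz hx h3.1 h3.2)
    rw [this]
    exact Set.finite_empty
  · intro M N hM x y hx hy hxy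
    rw [FRB_fin ht] at hxy ⊢
    rw [hsymm]
    exact hxy
  · intro M N hM x y z hx hy hz hxy hyz
    rw [FRB_fin ht] at hxy hyz ⊢
    obtain ⟨irr, trs, tot, _⟩ := hL M N hM
    refine ((hxy.union hyz).union (Set.finite_singleton y)).subset ?_
    rintro w ⟨h1, h2, h3⟩
    have hw : (Fr2 T d l v).D N w := ⟨h1, h2⟩
    rcases tot w y hw hy with h | h | h
    · exact Or.inr h
    · left
      rcases h3 with h3 | h3
      · exact Or.inl ⟨h1, h2, Or.inl ⟨h3.1, h⟩⟩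
      · exact Or.inr ⟨h1, h2, Or.inr ⟨h3.1, h⟩⟩
    · left
      rcases h3 with h3 | h3
      · exact Or.inr ⟨h1, h2, Or.inl ⟨h, h3.2⟩⟩
      · exact Or.inl ⟨h1, h2, Or.inr ⟨h, h3.2⟩⟩
  · intro M N hM x y z hx hy hz hxy hyz hxz
    rw [FRB_fin ht] at hxz ⊢
    obtain ⟨irr, trs, tot, _⟩ := hL M N hM
    refine hxz.subset ?_
    rw [hset' M N hM x y hx hy hxy,
      hset' M N hM x z hx hz (trs x y z hx hy hz hxy hyz)]
    rintro w ⟨h1, h2, h3⟩
    exact ⟨h1, h2, trs w y z h1 hy hz h3 hyz⟩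
  · intro M N hM C hC hcC y hy hdy y' hdy' hcl
    rw [FRB_fin ht] at hcl
    obtain ⟨irr, trs, tot, _⟩ := hL M N hM
    rcases tot y y' hdy hdy' with h | h | h
    · exact h ▸ hy
    · rw [hset' M N hM y y' hdy hdy' h] at hcl
      exact FRB_absA irr trs tot (hsuc M N hM C hC) _ y y' hy hdy hdy' h hcl le_rfl
    · rw [hsymm, hset' M N hM y' y hdy' hdy h] at hcl
      have hcl' : {z | (Fr2 T d l v).D N z ∧ (Fr2 T d l v).Lt N z y ∧
          (Fr2 T d l v).Lt N y' z}.Finite :=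
        hcl.subset fun z hz => ⟨hz.1, hz.2.2, hz.2.1⟩
      exact FRB_absA (D := (Fr2 T d l v).D N) (R := fun a b => (Fr2 T d l v).Lt N b a)
        irr (fun a b c ha hb hc h1 h2 => trs c b a hc hb ha h2 h1)
        (fun a b ha hb => by
          rcases tot a b ha hb with h | h | h
          · exact Or.inl h
          · exact Or.inr (Or.inr h)
          · exact Or.inr (Or.inl h))
        (hpre M N hM C hC) _ y y' hy hdy hdy' h hcl' le_rfl
  · intro M N hM C hC hcC x hx y hy hdx hdy hcl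
    rw [FRB_fin ht] at hcl ⊢
    obtain ⟨irr, trs, tot, _⟩ := hL M N hM
    have main : ∀ x y, x ∈ C → (Fr2 T d l v).D N x → (Fr2 T d l v).D N y →
        (Fr2 T d l v).Lt N x y → {z | Btw d l (N.sub C) x y z}.Finite →
        {z | Btw d l N x y z}.Finite := by
      intro x y hx hdx hdy hxy hf
      rw [hset M N hM C hC.sub x y hdx hdy hxy] at hf
      rw [hset' M N hM x y hdx hdy hxy]
      exact FRB_absB irr trs tot (hsuc M N hM C hC) _ x y hx hdx hdy hxy hf le_rfl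
    rcases tot x y hdx hdy with h | h | h
    · subst h
      have : {z | Btw d l N x x z} = ∅ := by
        ext z
        simp only [mem_ofPred_eq, mem_empty_iff_false, iff_false]
        rintro ⟨h1, h2, h3⟩
        have hz : (Fr2 T d l v).D N z := ⟨h1, h2⟩
        rcases h3 with h3 | h3
        · exact irr x hdx (trs x z x hdx hz hdx h3.1 h3.2)
        · exact irr x hdx (trs x z x hdx hz hdx h3.1 h3.2)
      rw [this]
      exact Set.finite_empty
    · exact main x y hx hdx hdy h hcl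
    · rw [hsymm] at hcl ⊢
      exact main y x hy hdy hdx h hcl

end ORD
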