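import Pool.Agent.ORD.StC

/-!
# ORD, module GJA: the closed sets `NJ J` (6.1), (6.2)
-/

set_option autoImplicit false
set_option linter.unusedVariables false

namespace ORD

open Set FirstOrder

private def GJA_code {L : Lg} {P I : Type} (F : Fr L P) (g : Adr F.T → ℕ) : Fs F g I →
    ((k : F.T.K) × Fin (F.T.n k)) ⊕ (Adr F.T ⊕ (((ρ : F.Rsn g) × Fin ρ.n) ⊕ I))
  | .wt k i => Sum.inl ⟨k, i⟩
  | .tr s => Sum.inr (Sum.inl s)
  | .rp ρ i => Sum.inr (Sum.inr (Sum.inl ⟨ρ, i⟩))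
  | .cs m => Sum.inr (Sum.inr (Sum.inr m))

private theorem GJA_inj {L : Lg} {P I : Type} (F : Fr L P) (g : Adr F.T → ℕ) :
    Function.Injective (GJA_code F g (I := I)) := by
  intro a b h
  cases a <;> cases b <;> simp only [GJA_code, Sum.inl.injEq, Sum.inr.injEq, reduceCtorEq] at h
  · obtain ⟨rfl, h⟩ := Sigma.mk.inj h
    obtain rfl := eq_of_heq h
    rfl
  · rw [h]
  · obtain ⟨rfl, h⟩ := Sigma.mk.inj h
    obtain rfl := eq_of_heq h
    rfl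
  · rw [h]

private theorem GJA_ct (hb : BAS) {L : Lg} {P I : Type} (F : Fr L P) (g : Adr F.T → ℕ)
    (hL : ∀ n, Countable (L.Relations n)) (hP : Countable P) (hK : Countable F.T.K)
    (hI : Countable I) : Countable (Fs F g I) := by
  have h1 := hb.ctT F.T hK
  have h2 := hb.ctR F g hL hP hK
  exact (GJA_inj F g).countable

variable {L : Lg} {P M₀ : Type} {F : Fr L P} {g : Adr F.T → ℕ} {N₀ : Mo L P M₀}

private theorem GJA_sub (t : Tp F g N₀) (J : Set ℚ) : t.NJ J ⊆ t.N'.A := by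
  rw [t.nu']; exact subset_univ _

private theorem GJA_cw (t : Tp F g N₀) (J : Set ℚ) : Cw F.T t.N' (t.NJ J) := by
  refine ⟨GJA_sub t J, ?_⟩
  rintro _ ⟨j, hj, w, rfl⟩ k
  exact ⟨fun i => t.W (Fs.wt k i :: w) j, fun i => ⟨j, hj, _, rfl⟩, t.sy.wt k (t.W w j)⟩

private theorem GJA_ce (t : Tp F g N₀) (J : Set ℚ) (hJ : J.Nonempty) (m : M₀) (hm : m ∈ N₀.A) :
    t.q (t.e m) ∈ t.NJ J := by
  obtain ⟨j, hj⟩ := hJ
  exact ⟨j, hj, [Fs.cs ⟨m, hm⟩], (t.sy.cs ⟨m, hm⟩ (t.y j)).symm⟩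

private theorem GJA_cp (t : Tp F g N₀) (J : Set ℚ) (hJ : J.Nonempty) (p : P) :
    t.N'.c p ∈ t.NJ J := by
  rw [← t.uq.cst p, ← t.ue.cst p]
  exact GJA_ce t J hJ _ (t.md₀.cst p)

private theorem GJA_md (he : EMB) (t : Tp F g N₀) (J : Set ℚ) (hJ : J.Nonempty) :
    Md F.T (t.N'.sub (t.NJ J)) := by
  have h := hJ
  obtain ⟨j, hj⟩ := hJ
  exact he.cmd (GJA_cw t J) ⟨t.W [] j, j, hj, [], rfl⟩ (GJA_cp t J h)

private theorem GJA_pair (t : Tp F g N₀) (w w' : List (Fs F g N₀.A)) {i j i' j' : ℚ}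
    (h : i < j) (h' : i' < j') : t.W w i = t.W w' j ↔ t.W w i' = t.W w' j' := by
  have hm : ∀ {a b : ℚ}, a < b → StrictMono (![a, b] : Fin 2 → ℚ) := by
    intro a b hab
    intro x y hxy
    fin_cases x <;> fin_cases y
    · exact absurd hxy (lt_irrefl _)
    · exact hab
    · exact absurd hxy (by decide)
    · exact absurd hxy (lt_irrefl _)
  exact t.ind 2 ![i, j] ![i', j'] (hm h) (hm h') (.eq (w, Sum.inr (0, ())) (w', Sum.inr (1, ())))

private theorem GJA_dj (t : Tp F g N₀) (w w' : List (Fs F g N₀.A)) {i j : ℚ} (hij : i < j)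
    (h : t.W w i = t.W w' j) (k : ℚ) : t.W w i = t.W w k := by
  obtain ⟨l, hl⟩ := exists_gt (max i k)
  have h1 := (GJA_pair t w w' hij ((le_max_left i k).trans_lt hl)).1 h
  have h2 := (GJA_pair t w w' hij ((le_max_right i k).trans_lt hl)).1 h
  rw [h1, h2]

private theorem GJA_dj' (t : Tp F g N₀) (w w' : List (Fs F g N₀.A)) {i j : ℚ} (hij : i ≠ j)
    (h : t.W w i = t.W w' j) (k : ℚ) : t.W w i ∈ t.NJ {k} := by
  rcases lt_or_gt_of_ne hij with h1 | h1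
  · exact ⟨k, rfl, w, GJA_dj t w w' h1 h k⟩
  · exact ⟨k, rfl, w', h.trans (GJA_dj t w' w h1 h.symm k)⟩

/-- [GJA] (6.1), (6.2) the closed sets `NJ J` -/
theorem thm_GJA (hb : BAS) (he : EMB) (ha : ABS) : GJA where
  cw t J := GJA_cw t J
  cc := by
    intro L P M₀ F g N₀ t J hL hP hK hA
    have h1 : Countable (Fs F g N₀.A) := GJA_ct hb F g hL hP hK hA.to_subtype
    refine (countable_range fun p : ℚ × List (Fs F g N₀.A) => t.W p.2 p.1).mono ?_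
    rintro _ ⟨j, _, w, rfl⟩
    exact ⟨(j, w), rfl⟩
  ce t J hJ m hm := GJA_ce t J hJ m hm
  cp t J hJ p := GJA_cp t J hJ p
  md t J hJ := GJA_md he t J hJ
  ue := by
    intro L P M₀ F g N₀ t J hJ
    exact he.usb (he.uco t.ue t.uq) _ (GJA_sub t J) fun x hx => GJA_ce t J hJ x hx
  gd := by
    intro L P M₀ F g N₀ t J w j hj h
    exact ⟨_, ha.lsb (t.sy.tr _ h) (GJA_sub t J) fun s => ⟨j, hj, Fs.tr s :: w, rfl⟩⟩
  rs := by
    intro L P M₀ F g N₀ t J w j ρ hj h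
    have h1 := ha.hsb ρ _ (GJA_sub t J) (fun i => ⟨j, hj, Fs.rp ρ i :: w, rfl⟩) (t.sy.rs ρ _ h)
    exact ha.rgd (GJA_md he t J ⟨j, hj⟩) _ ⟨j, hj, w, rfl⟩ ⟨ρ, _, h1⟩
  dj := by
    rintro L P M₀ F g N₀ t i j z hij ⟨_, rfl, w, rfl⟩ ⟨_, rfl, w', h⟩ k
    exact GJA_dj' t w w' hij h k

end ORD
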