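import Pool.Agent.ORD.StC

/-!
# ORD / INN: good words

Main result `thm_INN : INN`.
-/

set_option autoImplicit false
set_option linter.unusedVariables false

namespace ORD

open Set FirstOrder Filter

section INN

variable {L : Lg} {P M₀ : Type} {F : Fr L P} {g : Adr F.T → ℕ} {N₀ : Mo L P M₀}

private theorem INN_W (t : Tp F g N₀) (j : ℚ) : t.W [] j = t.y j := rfl

private theorem INN_a (ho : ORL) (hw : WRD) (t : Tp F g N₀) (w : List (Fs F g N₀.A))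
    (h : t.GW w) (j : ℚ) : gdR t.S' (t.W w j) ∧ F.D t.N' (t.W w j) ∧
    (∀ i < j, F.Ll t.N' (t.W w j) (t.y i)) ∧ (∀ i, j < i → F.Ll t.N' (t.y i) (t.W w j)) ∧
    F.Ll t.N' (t.W w j) (t.N'.c F.v) := by
  have h1 : gdR t.S' (t.W w j) := (hw.g t w j 0).2 ((hw.g t w 0 0).1 h.g)
  have h2 : F.D t.N' (t.W w j) := (hw.d t w j 0).2 ((hw.d t w 0 0).1 h.d)
  have h3 : ∀ i < j, F.Ll t.N' (t.W w j) (t.y i) := fun i hi =>
    ⟨(hw.i2 t w [] (-1) 0 i j (by norm_num) hi).1 h.l, (hw.nc t w j i hi.ne' h2).1⟩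
  have h4 : ∀ i, j < i → F.Ll t.N' (t.y i) (t.W w j) := fun i hi =>
    ⟨(hw.i2 t [] w 0 1 j i (by norm_num) hi).1 h.r, (hw.nc t w j i hi.ne h2).2⟩
  have h5 := hw.yd t (j - 1)
  exact ⟨h1, h2, h3, h4, ho.trn t.ok t.md' _ _ _ h2 h5.1 (t.ok.vdd _ _ t.md')
    (h3 (j - 1) (by linarith)) h5.2⟩

private theorem INN_b (ho : ORL) (hw : WRD) (hg : GJA) (t : Tp F g N₀)
    (w : List (Fs F g N₀.A)) (i j k : ℚ) (hD : F.D t.N' (t.W w j))
    (hG : ∃ J : Set ℚ, j ∈ J ∧ F.Good g (t.N'.sub (t.NJ J)) (t.W w j))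
    (hi : F.Ll t.N' (t.W w j) (t.y i)) (hk : F.Ll t.N' (t.y k) (t.W w j)) :
    i ≤ j ∧ j ≤ k ∧ t.GW w := by
  have hyi := hw.yd t i
  have hyk := hw.yd t k
  have h0 : F.Ll t.N' (t.y k) (t.y i) := ho.trn t.ok t.md' _ _ _ hyk.1 hD hyi.1 hk hi
  have h1 : i < k := by
    by_contra h
    rcases (not_lt.1 h).lt_or_eq with h' | h'
    · exact ho.asy t.ok t.md' _ _ hyk.1 hyi.1 h0.1 (hw.yl t k i h').1
    · rw [h'] at h0
      exact t.ok.irr _ _ t.md' _ hyi.1 h0.1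
  have h2 : i ≤ j := by
    by_contra h
    have h' : j < i := not_le.1 h
    have h3 : F.Lt t.N' (t.W w j) (t.y k) := (hw.i1 t w [] j i j k h' (h'.trans h1)).1 hi.1
    exact ho.asy t.ok t.md' _ _ hD hyk.1 h3 hk.1
  have h3 : j ≤ k := by
    by_contra h
    have h' : k < j := not_le.1 h
    have h3 : F.Lt t.N' (t.y i) (t.W w j) := (hw.i1 t [] w k j i j h' (h1.trans h')).1 hk.1
    exact ho.asy t.ok t.md' _ _ hyi.1 hD h3 hi.1
  have h4 : F.Ll t.N' (t.W w j) (t.N'.c F.v) :=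
    ho.trn t.ok t.md' _ _ _ hD hyi.1 (t.ok.vdd _ _ t.md') hi hyi.2
  obtain ⟨J, hJ, hgood⟩ := hG
  obtain ⟨n, m, hnm⟩ := hw.ex t w j k hD hk
  have h5 : F.Good g t.N (t.V w n) := by
    rcases t.xo.dc (t.x m) (t.xX m) (t.V w n) ((hw.d t w j n).1 hD) hnm
      ((hw.lv t w j n).1 h4) with h | h
    · exact h.1
    · obtain ⟨ρ, hρ⟩ := t.sz.rd _ h
      exact absurd hgood (hg.rs t J w j ρ hJ ((hw.r t w ρ j n).2 hρ))
  refine ⟨h2, h3, ⟨(hw.g t w 0 n).2 h5, (hw.d t w 0 n).2 ((hw.d t w j n).1 hD), ?_, ?_⟩⟩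
  · rcases h2.lt_or_eq with h | h
    · exact (hw.i2 t w [] i j (-1) 0 h (by norm_num)).1 hi.1
    · subst h
      have h6 := hw.yd t (i - 1)
      have h7 : F.Lt t.N' (t.W w i) (t.y (i - 1)) :=
        t.ok.trs _ _ t.md' _ _ _ hD hyi.1 h6.1 hi.1 (hw.yl t (i - 1) i (by linarith)).1
      exact (hw.i2 t w [] (i - 1) i (-1) 0 (by linarith) (by norm_num)).1 h7
  · rcases h3.lt_or_eq with h | h
    · exact (hw.i2 t [] w j k 0 1 h (by norm_num)).1 hk.1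
    · subst h
      have h6 := hw.yd t (j + 1)
      have h7 : F.Lt t.N' (t.y (j + 1)) (t.W w j) :=
        t.ok.trs _ _ t.md' _ _ _ h6.1 hyk.1 hD (hw.yl t j (j + 1) (by linarith)).1 hk.1
      exact (hw.i2 t [] w j (j + 1) 0 1 (by linarith) (by norm_num)).1 h7

private theorem INN_c (hw : WRD) (t : Tp F g N₀) : t.GW [] where
  g := (hw.g t [] 0 0).2 (t.xo.xg _ (t.xX 0)).2.1
  d := (hw.yd t 0).1
  l := (hw.yl t (-1) 0 (by norm_num)).1
  r := (hw.yl t 0 1 (by norm_num)).1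

end INN

/-- (6.3) good words -/
theorem thm_INN (ha : ABS) (ho : ORL) (hw : WRD) (hg : GJA) : INN where
  a t w h j := INN_a ho hw t w h j
  b t w i j k h1 h2 h3 h4 := INN_b ho hw hg t w i j k h1 h2 h3 h4
  c t := INN_c hw t

end ORD
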