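import Pool.Agent.ORD.StB

/-!
# ORD: the long sequence (assembly of section 5)
-/

set_option autoImplicit false
set_option linter.unusedVariables false

namespace ORD

open Set FirstOrder Cardinal

private theorem LNG_card : 𝔠 < #(Set (Set ℕ)) := by
  rw [Cardinal.mk_set, Cardinal.mk_set, Cardinal.mk_nat]
  exact Cardinal.cantor _

/-- isomorphic images of the starting data -/
private theorem LNG_bse (he : EMB) (ha : ABS) {L : Lg} {P M M₁ : Type} {F : Fr L P}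
    {g : Adr F.T → ℕ} {N₀ : Mo L P M} {a : ℕ → M} (h₀ : Bse F g N₀ a) {N₁ : Mo L P M₁}
    {h : M → M₁} (hi : Is N₀ N₁ h) : Bse F g N₁ (h ∘ a) where
  ok := h₀.ok
  ctK := h₀.ctK
  md := he.imd hi h₀.md
  ct := by rw [← hi.bij.image_eq]; exact h₀.ct.image _
  dd n := (ha.isd hi h₀.md.cst (a n) (h₀.dd n).1).2 (h₀.dd n)
  gd n := (ha.isg hi h₀.md.cst (a n) (h₀.dd n).1).2 (h₀.gd n)
  ll n := ⟨(ha.isl hi h₀.md.cst (a n) (h₀.dd n).1 (a (n + 1)) (h₀.dd _).1).2 (h₀.ll n).1,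
    fun hc => (h₀.ll n).2
      ((ha.isc hi h₀.md.cst (a n) (h₀.dd n).1 (a (n + 1)) (h₀.dd _).1).1 hc)⟩
  lv n := by
    rw [← hi.cst]
    exact ⟨(ha.isl hi h₀.md.cst (a n) (h₀.dd n).1 _ (h₀.md.cst _)).2 (h₀.lv n).1,
      fun hc => (h₀.lv n).2 ((ha.isc hi h₀.md.cst (a n) (h₀.dd n).1 _ (h₀.md.cst _)).1 hc)⟩

/-- `Xok` for the isomorphic model on the subtype -/
private theorem LNG_xok (he : EMB) (ha : ABS) {L : Lg} {P M : Type} {F : Fr L P}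
    {g : Adr F.T → ℕ} {N : Mo L P M} {X : Set M} (hX : Xok F g N X) {N' : Mo L P N.A}
    (hA : N'.A = Set.univ) (hi : Is N' N Subtype.val) {h' : M → N.A} (hi' : Is N N' h')
    (hh : ∀ x ∈ N'.A, h' (x : M) = x) : Xok F g N' (Subtype.val ⁻¹' X) := by
  have hu : ∀ x : N.A, x ∈ N'.A := fun x => by rw [hA]; exact mem_univ _
  have hcs : ∀ p, N'.c p ∈ N'.A := fun p => hu _
  have eD : ∀ x : N.A, F.D N (x : M) ↔ F.D N' x := fun x => ha.isd hi hcs x (hu x)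
  have eG : ∀ x : N.A, F.Good g N (x : M) ↔ F.Good g N' x := fun x => ha.isg hi hcs x (hu x)
  have eL : ∀ x y : N.A, F.Lt N (x : M) (y : M) ↔ F.Lt N' x y := fun x y =>
    ha.isl hi hcs x (hu x) y (hu y)
  have eC : ∀ x y : N.A, F.Cl N (x : M) (y : M) ↔ F.Cl N' x y := fun x y =>
    ha.isc hi hcs x (hu x) y (hu y)
  have eLl : ∀ x y : N.A, F.Ll N (x : M) (y : M) ↔ F.Ll N' x y := fun x y =>
    and_congr (eL x y) (not_congr (eC x y))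
  have ev : ((N'.c F.v : N.A) : M) = N.c F.v := hi.cst _
  refine ⟨he.imd hi' hX.md, ?_, ?_, ?_, ?_⟩
  · intro x hx
    obtain ⟨h1, h2, h3⟩ := hX.xg x hx
    refine ⟨(eD x).1 h1, (eG x).1 h2, ?_⟩
    rw [← eLl, ev]
    exact h3
  · intro x hx x' hx' hc
    exact Subtype.ext (hX.xp x hx x' hx' ((eC x x').2 hc))
  · intro Y hY hne
    obtain ⟨m, ⟨m', hm', rfl⟩, h2⟩ := hX.wo (Subtype.val '' Y) (by
      rintro _ ⟨y, hy, rfl⟩
      exact hY hy) (hne.image _)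
    refine ⟨m', hm', fun y hy => ?_⟩
    rcases h2 y ⟨y, hy, rfl⟩ with h3 | h3
    · exact Or.inl (Subtype.ext h3)
    · exact Or.inr ((eL _ _).1 h3)
  · intro x hx y hy hxy hyv
    have hyv' : F.Ll N (y : M) (N.c F.v) := by
      rw [← ev, eLl]
      exact hyv
    rcases hX.dc x hx y ((eD y).2 hy) ((eLl x y).2 hxy) hyv' with ⟨h1, x', hx', hc⟩ | ⟨ρ, b, hb⟩
    · left
      have hx'A : x' ∈ N.A := (hX.xg x' hx').1.1
      exact ⟨(eG y).1 h1, ⟨x', hx'A⟩, hx', (eC y ⟨x', hx'A⟩).1 hc⟩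
    · right
      have h1 := ha.has (he.iue hi' hX.md.cst) (y : M) y.2 ρ b hb
      rw [hh y (hu y)] at h1
      exact ⟨ρ, h' ∘ b, h1⟩

theorem thm_LNG (hb : BAS) (he : EMB) (ha : ABS) (ho : ORL) (hz : St_ZRN) (hy : St_YNE)
    (hd : St_DCD) (hc : St_CON) (hn : St_NEW) (hl : St_OLD) (hr : St_CRD) (hp : St_PLM) :
    St_LNG := by
  intro L P M F g N₀ a h₀
  obtain ⟨N₁, h, hi⟩ := hp.1 L P M (Set (Set ℕ)) N₀ inferInstance h₀.ct h₀.md.cst h₀.md.ne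
  have h₁ := LNG_bse he ha h₀ hi
  obtain ⟨N, X, C, hM⟩ := hz L P _ F g N₁ (h ∘ a) h₁
  have hfin : N.Aᶜ.Finite := by
    by_contra hinf
    have hinf' : N.Aᶜ.Infinite := hinf
    have hdc := hd L P _ F g N₁ (h ∘ a) h₁ N X C hM hinf'
    obtain ⟨y₀, hy₀⟩ := hy L P _ F g N₁ (h ∘ a) h₁ N X C hM.toApx
    have hmd : Md F.T N := hM.toApx.toXok.md
    obtain ⟨M', N', j, z, h1, h2, h3, h4, h5, h6⟩ := hc L P _ F g N h₁.ok hmd
      {y' | F.D N y' ∧ ∃ y, Blw F g N X y ∧ F.Cl N y y'}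
      {x' | F.D N x' ∧ ∃ x₁, (x₁ ∈ X ∨ x₁ = N.c F.v) ∧ F.Cl N x₁ x'}
      ⟨y₀, hy₀.d, y₀, hy₀, h₁.ok.crf _ N hmd y₀ hy₀.d⟩
      ⟨N.c F.v, h₁.ok.vdd _ N hmd, N.c F.v, Or.inr rfl,
        h₁.ok.crf _ N hmd _ (h₁.ok.vdd _ N hmd)⟩
      (fun y h => h.1) (fun y h => h.1) (by
        rintro y' ⟨hy'd, y, hyb, hyc⟩ x' ⟨hx'd, x₁, hx₁, hxc⟩
        exact hl L P _ F g N₁ (h ∘ a) h₁ N X C hM hdc y hyb y' hy'd hyc x₁ hx₁ x' hx'd hxc)
    exact hn L P _ F g N₁ (h ∘ a) h₁ N X C hM hinf' hdc ⟨M', N', j, z, h1, h2, h3, h4,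
      fun y hyb y' hy'd hyc => h5 y' ⟨hy'd, y, hyb, hyc⟩,
      fun x₁ hx₁ x' hx'd hxc => h6 x' ⟨hx'd, x₁, hx₁, hxc⟩⟩
  have hcard := hr L P _ F g N₁ N X C hM.toApx h₁.ct hfin LNG_card
  have hX : Xok F g N X := hM.toApx.toXok
  obtain ⟨N', hA, hi2⟩ := hp.2 L P _ N hX.md.cst hX.md.ne
  have hcs : ∀ p, N'.c p ∈ N'.A := fun p => by rw [hA]; exact mem_univ _
  obtain ⟨h', hi3, hh1, hh2⟩ := he.isi hi2 hcs (by
    rw [hA]
    exact ⟨⟨_, hX.md.ne.some_mem⟩, mem_univ _⟩)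
  refine ⟨N.A, N', h' ∘ (id ∘ h), Subtype.val ⁻¹' X, hA, ?_, LNG_xok he ha hX hA hi2 hi3 hh1, ?_⟩
  · exact he.uco (he.uco (he.iue hi h₀.md.cst) hM.toApx.ue) (he.iue hi3 hX.md.cst)
  · have e : #(Subtype.val ⁻¹' X : Set N.A) = #X := by
      rw [Cardinal.mk_preimage_of_injective_of_subset_range _ _ Subtype.val_injective]
      intro x hx
      exact ⟨⟨x, (hX.xg x hx).1.1⟩, rfl⟩
    rw [e]
    exact hcard

end ORD
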