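import Pool.Agent.ORD.StC

set_option autoImplicit false
set_option linter.unusedVariables false

namespace ORD

open Set FirstOrder Filter

variable {L : Lg} {P M M' I X ι : Type} {F : Fr L P} {g : Adr F.T → ℕ}

section

variable {N : Mo L P M} {S : UN.Sys (SG F g I) M} {e : I → M} {u : Ultrafilter X}
  {S' : UN.Sys (SG F g I) M'} {qq : (X → M) → M'}

/-- Los for the symbols -/
def MOX_L (u : Ultrafilter X) (S : UN.Sys (SG F g I) M) (S' : UN.Sys (SG F g I) M')
    (qq : (X → M) → M') : Prop :=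
  ∀ (κ : Type) (v : κ → X → M) (a : UN.At (SG F g I) κ), UN.Tr S' (fun i => qq (v i)) a ↔
    ∀ᶠ t in (u : Filter X), UN.Tr S (fun i => v i t) a

private theorem MOX_eq (h : MOX_L u S S' qq) (v w : X → M) :
    qq v = qq w ↔ ∀ᶠ t in (u : Filter X), v t = w t := by
  exact h Bool (fun b => cond b v w) (.eq ([], true) ([], false))

private theorem MOX_fn (h : MOX_L u S S' qq) (f : Fs F g I) (v : X → M) :
    S'.fn f (qq v) = qq fun t => S.fn f (v t) := by
  have h1 := h Bool (fun b => cond b v fun t => S.fn f (v t)) (.eq ([f], true) ([], false))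
  exact h1.2 (Eventually.of_forall fun t => rfl)

private theorem MOX_uf (h : MOX_L u S S' qq) {r : ℕ} (φ : Uf L (P ⊕ Fin r)) (v : Fin r → X → M) :
    ufR S' φ (fun i => qq (v i)) ↔ ∀ᶠ t in (u : Filter X), ufR S φ fun i => v i t :=
  h (Fin r) v (.rel (Rs.uf r φ) fun i => ([], i))

private theorem MOX_gd (h : MOX_L u S S' qq) (v : X → M) :
    gdR S' (qq v) ↔ ∀ᶠ t in (u : Filter X), gdR S (v t) :=
  h Unit (fun _ => v) (.rel Rs.gd fun _ => ([], ()))

private theorem MOX_rs (h : MOX_L u S S' qq) (ρ : F.Rsn g) (v : X → M) :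
    rsR S' ρ (qq v) ↔ ∀ᶠ t in (u : Filter X), rsR S ρ (v t) :=
  h Unit (fun _ => v) (.rel (Rs.rs ρ) fun _ => ([], ()))

private theorem MOX_cl (h : MOX_L u S S' qq) (v w : X → M) :
    clR S' (qq v) (qq w) ↔ ∀ᶠ t in (u : Filter X), clR S (v t) (w t) := by
  have h1 := h (Fin 2) ![v, w] (.rel Rs.cl fun i => ([], (i : Fin 2)))
  have h2 : clR S' (qq v) (qq w) ↔ UN.Tr S' (fun i => qq ((![v, w] : Fin 2 → X → M) i))
      (.rel Rs.cl fun i => ([], (i : Fin 2))) := by
    show S'.rel Rs.cl (![qq v, qq w] : Fin 2 → M') ↔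
      S'.rel Rs.cl (fun k : Fin 2 => qq ((![v, w] : Fin 2 → X → M) k))
    have : (![qq v, qq w] : Fin 2 → M') = fun k : Fin 2 => qq ((![v, w] : Fin 2 → X → M) k) := by
      funext k
      fin_cases k <;> rfl
    rw [this]
  refine h2.trans (h1.trans (eventually_congr (Eventually.of_forall fun t => ?_)))
  show S.rel Rs.cl (fun k : Fin 2 => (![v, w] : Fin 2 → X → M) k t) ↔
    S.rel Rs.cl (![v t, w t] : Fin 2 → M)
  have : (![v t, w t] : Fin 2 → M) = fun k : Fin 2 => (![v, w] : Fin 2 → X → M) k t := by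
    funext k
    fin_cases k <;> rfl
  rw [this]

/-- the ultrapower -/
def MOX_N (N : Mo L P M) (S' : UN.Sys (SG F g I) M') (qq : (X → M) → M') (m₀ : M') : Mo L P M' where
  S := { funMap := fun _ _ => m₀
         RelMap := fun {n} R w => ufR S' (Uf.qf (Qf.rel n R (Sum.inr : Fin n → P ⊕ Fin n))) w }
  A := univ
  c := fun p => qq fun _ => N.c p

private theorem MOX_qf (hb : BAS) (hs : Sy F g N S e) (h : MOX_L u S S' qq) (m₀ : M')
    (φ : Qf L (P ⊕ ι)) (v : ι → X → M) :
    (MOX_N N S' qq m₀).Q φ (fun i => qq (v i)) ↔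
      ∀ᶠ t in (u : Filter X), N.Q φ fun i => v i t := by
  -- all values
  let w : P ⊕ ι → X → M := Sum.elim (fun p _ => N.c p) v
  have hw' : (Sum.elim (MOX_N N S' qq m₀).c fun i => qq (v i)) = fun x => qq (w x) := by
    funext x
    rcases x with x | x <;> rfl
  have hw : ∀ t, (Sum.elim N.c fun i => v i t) = fun x => w x t := by
    intro t
    funext x
    rcases x with x | x <;> rfl
  unfold Mo.Q
  simp only [hw, hw']
  induction φ with
  | eq i j => exact MOX_eq h _ _
  | rel n R t =>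
    show ufR S' _ (fun k => qq (w (t k))) ↔ _
    rw [MOX_uf h]
    refine eventually_congr (Eventually.of_forall fun s => ?_)
    rw [hs.uf]
    show (Uf.qf _).Tr N.S N.A _ ↔ _
    rw [hb.uqf]
    exact Iff.rfl
  | bot =>
    show False ↔ ∀ᶠ _ in (u : Filter X), False
    rw [eventually_false_iff_eq_bot]
    exact ⟨False.elim, fun h => u.neBot.ne h⟩
  | imp φ ψ ih1 ih2 =>
    exact (imp_congr ih1 ih2).trans Ultrafilter.eventually_imp.symm

private theorem MOX_tr (hb : BAS) (hA : N.A = univ) (hs : Sy F g N S e)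
    (hq : Function.Surjective qq) (h : MOX_L u S S' qq) (m₀ : M') (φ : Uf L (P ⊕ ι))
    (v : ι → X → M) :
    (MOX_N N S' qq m₀).Tr φ (fun i => qq (v i)) ↔
      ∀ᶠ t in (u : Filter X), N.Tr φ fun i => v i t := by
  have key : ∀ z : Fin φ.m → X → M,
      (φ.q.Tr (MOX_N N S' qq m₀).S (Sum.elim (Sum.elim (MOX_N N S' qq m₀).c fun i => qq (v i))
        fun k => qq (z k)) ↔ ∀ᶠ t in (u : Filter X), φ.q.Tr N.S
          (Sum.elim (Sum.elim N.c fun i => v i t) fun k => z k t)) := by
    intro z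
    have h1 := MOX_qf hb hs h m₀ (φ.q.map (Sum.elim (Sum.elim Sum.inl fun i => Sum.inr (Sum.inl i))
      fun k => Sum.inr (Sum.inr k))) (Sum.elim v z)
    unfold Mo.Q at h1
    rw [hb.qmap] at h1
    simp only [hb.qmap] at h1
    have h2 : (Sum.elim (MOX_N N S' qq m₀).c (fun i => qq (Sum.elim v z i))) ∘
        (Sum.elim (Sum.elim Sum.inl fun i => Sum.inr (Sum.inl i)) fun k => Sum.inr (Sum.inr k)) =
        Sum.elim (Sum.elim (MOX_N N S' qq m₀).c fun i => qq (v i)) fun k => qq (z k) := by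
      funext x
      rcases x with (x | x) | x <;> rfl
    have h3 : ∀ t, (Sum.elim N.c (fun i => Sum.elim v z i t)) ∘
        (Sum.elim (Sum.elim Sum.inl fun i => Sum.inr (Sum.inl i)) fun k => Sum.inr (Sum.inr k)) =
        Sum.elim (Sum.elim N.c fun i => v i t) fun k => z k t := by
      intro t
      funext x
      rcases x with (x | x) | x <;> rfl
    rw [h2] at h1
    simp only [h3] at h1
    exact h1
  constructor
  · intro h1
    by_contra h2
    rw [← Ultrafilter.eventually_not] at h2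
    have h3 : ∀ t, ∃ z : Fin φ.m → M, (¬ N.Tr φ fun i => v i t) → ¬ φ.q.Tr N.S
        (Sum.elim (Sum.elim N.c fun i => v i t) z) := by
      intro t
      by_cases h4 : N.Tr φ fun i => v i t
      · have : Nonempty (Fin φ.m → M) := by
          obtain ⟨s⟩ : Nonempty X := u.neBot.nonempty
          by_contra hcon
          have h5 : ∀ z : Fin φ.m → M, False := fun z => hcon ⟨z⟩
          rw [eventually_iff_exists_mem] at h2
          obtain ⟨A, hA', h6⟩ := h2
          obtain ⟨s', hs'⟩ := u.nonempty_of_mem hA'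
          refine h6 s' hs' fun z hz => (h5 z).elim
        exact ⟨this.some, fun h5 => absurd h4 h5⟩
      · have h5 := h4
        simp only [Mo.Tr, Uf.Tr, hA, mem_univ, implies_true, true_imp_iff, not_forall] at h5
        obtain ⟨z, hz⟩ := h5
        exact ⟨z, fun _ => hz⟩
    choose z hz using h3
    have h4 := (key fun k t => z t k).1 (h1 (fun k => qq fun t => z t k) fun _ => mem_univ _)
    obtain ⟨t, ht, ht'⟩ := (h2.and h4).exists
    exact hz t ht ht'
  · intro h1 z _
    choose z' hz' using fun k => hq (z k)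
    obtain rfl : (fun k => qq (z' k)) = z := funext hz'
    refine (key z').2 (h1.mono fun t ht => ?_)
    exact ht _ fun k => by rw [hA]; exact mem_univ _

end

theorem thm_MOX (hb : BAS) (he : EMB) : St_MOX := by
  intro L P M M' I X F g N S e u S' qq hA hM hs hq h
  obtain ⟨a₀, ha₀⟩ := hM.ne
  let m₀ : M' := qq fun _ => a₀
  have hN : ∀ {ι : Type} (φ : Uf L (P ⊕ ι)) (v : ι → X → M),
      (MOX_N N S' qq m₀).Tr φ (fun i => qq (v i)) ↔
        ∀ᶠ t in (u : Filter X), N.Tr φ fun i => v i t := fun φ v =>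
    MOX_tr hb hA hs hq h m₀ φ v
  have hQ : ∀ {ι : Type} (φ : Qf L (P ⊕ ι)) (v : ι → X → M),
      (MOX_N N S' qq m₀).Q φ (fun i => qq (v i)) ↔
        ∀ᶠ t in (u : Filter X), N.Q φ fun i => v i t := fun φ v =>
    MOX_qf hb hs h m₀ φ v
  have hcons : ∀ (n : ℕ) (y : X → M) (z : Fin n → X → M),
      (fun i => qq ((Fin.cons y z : Fin (n + 1) → X → M) i)) =
        (Fin.cons (qq y) (fun i => qq (z i)) : Fin (n + 1) → M') := by
    intro n y z
    funext i
    refine Fin.cases ?_ (fun i => ?_) i <;> rfl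
  have hcons' : ∀ (n : ℕ) (y : X → M) (z : Fin n → X → M) (t : X),
      (fun i => (Fin.cons y z : Fin (n + 1) → X → M) i t) =
        (Fin.cons (y t) (fun i => z i t) : Fin (n + 1) → M) := by
    intro n y z t
    funext i
    refine Fin.cases ?_ (fun i => ?_) i <;> rfl
  have hC : ∀ {n : ℕ} (φ : Uf L (P ⊕ Fin (n + 1))) (y : X → M) (z : Fin n → X → M),
      (MOX_N N S' qq m₀).Tr φ (Fin.cons (qq y) (fun i => qq (z i)) : Fin (n + 1) → M') ↔
        ∀ᶠ t in (u : Filter X), N.Tr φ (Fin.cons (y t) (fun i => z i t) : Fin (n + 1) → M) := by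
    intro n φ y z
    rw [← hcons, hN]
    simp only [hcons']
  have h1 : ∀ {φ : Qf L (P ⊕ Fin 1)} (y : X → M), (MOX_N N S' qq m₀).Q φ ![qq y] ↔
      ∀ᶠ t in (u : Filter X), N.Q φ ![y t] := by
    intro φ y
    have h2 := hQ φ (fun _ : Fin 1 => y)
    have h3 : (![qq y] : Fin 1 → M') = fun _ => qq y := by funext i; fin_cases i; rfl
    have h4 : ∀ t, (![y t] : Fin 1 → M) = fun _ => y t := by
      intro t; funext i; fin_cases i; rfl
    rw [h3, h2]
    simp only [h4]
  have e2 : ∀ (y z : X → M), (![qq y, qq z] : Fin 2 → M') =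
      fun i => qq ((![y, z] : Fin 2 → X → M) i) := by
    intro y z; funext i; fin_cases i <;> rfl
  have e2' : ∀ (y z : X → M) (t : X), (![y t, z t] : Fin 2 → M) =
      fun i => (![y, z] : Fin 2 → X → M) i t := by
    intro y z t; funext i; fin_cases i <;> rfl
  have h2 : ∀ {φ : Qf L (P ⊕ Fin 2)} (y z : X → M), (MOX_N N S' qq m₀).Q φ ![qq y, qq z] ↔
      ∀ᶠ t in (u : Filter X), N.Q φ ![y t, z t] := by
    intro φ y z
    rw [e2, hQ]
    simp only [e2']
  have h3 : ∀ {φ : Uf L (P ⊕ Fin 2)} (y z : X → M), (MOX_N N S' qq m₀).Tr φ ![qq y, qq z] ↔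
      ∀ᶠ t in (u : Filter X), N.Tr φ ![y t, z t] := by
    intro φ y z
    rw [e2, hN]
    simp only [e2']
  refine ⟨MOX_N N S' qq m₀, rfl, ⟨⟨m₀, mem_univ _⟩, fun p => mem_univ _, ?_⟩, ?_, ?_⟩
  · intro x _ k
    obtain ⟨x', rfl⟩ := hq x
    have h4 : ∀ t, ∃ y : Fin (F.T.n k) → M, F.T.Wit N k (x' t) y := by
      intro t
      obtain ⟨y, -, hy⟩ := hM.wit (x' t) (by rw [hA]; exact mem_univ _) k
      exact ⟨y, hy⟩
    choose y hy using h4
    refine ⟨fun i => qq fun t => y t i, fun i => mem_univ _, ?_⟩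
    exact (hC (F.T.ax k) x' fun i t => y t i).2 (Eventually.of_forall hy)
  · constructor
    · intro k y
      obtain ⟨y', rfl⟩ := hq y
      have h4 : (fun i => S'.fn (Fs.wt k i) (qq y')) =
          fun i => qq fun t => S.fn (Fs.wt k i) (y' t) := by
        funext i
        exact MOX_fn h _ _
      rw [h4]
      exact (hC (F.T.ax k) y' fun i t => S.fn (Fs.wt k i) (y' t)).2
        (Eventually.of_forall fun t => hs.wt k (y' t))
    · intro y hy
      obtain ⟨y', rfl⟩ := hq y
      have h4 := (MOX_gd h y').1 hy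
      have h5 : ∀ s, S'.fn (Fs.tr s) (qq y') = qq fun t => S.fn (Fs.tr s) (y' t) := fun s =>
        MOX_fn h _ _
      constructor
      · constructor
        · exact fun s => mem_univ _
        · show S'.fn (Fs.tr []) (qq y') = qq y'
          rw [h5, MOX_eq h]
          exact h4.mono fun t ht => (hs.tr _ ht).top
        · intro s k
          simp only [h5]
          exact (hC (F.T.ax k) _ fun i t => S.fn (Fs.tr (⟨k, i⟩ :: s)) (y' t)).2
            (h4.mono fun t ht => (hs.tr _ ht).wit s k)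
      · intro s hD hL1 hL2
        simp only [h5] at hD hL1 hL2 ⊢
        have h6 := (h1 _).1 hD.2
        have h7 := (h2 _ _).1 hL1
        have h8 := (h2 _ (fun _ => N.c F.v)).1 hL2
        refine (h3 _ _).2 ?_
        filter_upwards [h4, h6, h7, h8] with t ht h6 h7 h8
        exact (hs.tr _ ht).bd s ⟨by rw [hA]; exact mem_univ _, h6⟩ h7 h8
    · intro ρ y hy
      obtain ⟨y', rfl⟩ := hq y
      have h4 := (MOX_rs h ρ y').1 hy
      refine ⟨fun i => mem_univ _, ?_⟩
      have h5 : (fun i => S'.fn (Fs.rp ρ i) (qq y')) =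
          fun i => qq fun t => S.fn (Fs.rp ρ i) (y' t) := by
        funext i
        exact MOX_fn h _ _
      rw [h5]
      exact (hC ρ.θ y' fun i t => S.fn (Fs.rp ρ i) (y' t)).2
        (h4.mono fun t ht => (hs.rs _ _ ht).2)
    · intro m y
      obtain ⟨y', rfl⟩ := hq y
      rw [MOX_fn h, MOX_eq h]
      exact Eventually.of_forall fun t => hs.cs m (y' t)
    · intro r φ v
      choose v' hv' using fun i => hq (v i)
      obtain rfl : (fun i => qq (v' i)) = v := funext hv'
      rw [MOX_uf h, hN]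
      exact eventually_congr (Eventually.of_forall fun t => hs.uf r φ _)
    · rintro x y ⟨n, hn⟩
      obtain ⟨x', rfl⟩ := hq x
      obtain ⟨y', rfl⟩ := hq y
      rw [MOX_cl h]
      exact ((h3 _ _).1 hn).mono fun t ht => hs.cl _ _ ⟨n, ht⟩
  · constructor
    · exact fun x _ => mem_univ _
    · exact fun p => rfl
    · intro ι φ v _ hφ
      exact (hN φ fun i _ => v i).2 (Eventually.of_forall fun _ => hφ)

end ORD
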