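import Pool.Agent.ORD.StD

/-!
# ORD, module OCL: the classes of the order `GS` and their order types
-/

set_option autoImplicit false
set_option linter.unusedVariables false

namespace ORD

open Set FirstOrder

section

variable {B : Type} [LinearOrder B]

/-- a well-order isomorphic to `E` -/
private theorem OCL_otp {E : Set (ℚ × B)} {W : Type} (r : W → W → Prop) [IsWellOrder W r]
    (e : E ≃ W) (he : ∀ x y : E, Lx x.1 y.1 ↔ r (e x) (e y)) : Otp E (Ordinal.type r) := by
  refine ⟨fun x => Ordinal.typein r (e x), fun x y => ?_, ?_⟩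
  · rw [he, Ordinal.typein_lt_typein]
  · ext o
    constructor
    · rintro ⟨x, rfl⟩
      exact Ordinal.typein_lt_type r _
    · intro ho
      obtain ⟨w, hw⟩ := Ordinal.typein_surj r ho
      refine ⟨e.symm w, ?_⟩
      simp only [Equiv.apply_symm_apply]
      exact hw

/-- decreasing sequences have infinitely many first coordinates -/
private theorem OCL_fin [WellFoundedLT B] (K : Set ℚ) (hK : K.Finite) (s : ℕ → ℚ × B)
    (hs : ∀ n, (s n).1 ∈ K) : ¬ ∀ n, Lx (s (n + 1)) (s n) := by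
  intro h
  have := hK.to_subtype
  let u : ℕ → K ×ₗ B := fun n => toLex (⟨(s n).1, hs n⟩, (s n).2)
  refine not_strictAnti_of_wellFoundedLT u (strictAnti_nat_of_succ_lt fun n => ?_)
  rw [Prod.Lex.lt_iff]
  rcases h n with h | ⟨h1, h2⟩
  · exact Or.inl h
  · exact Or.inr ⟨Subtype.ext h1, h2⟩

private theorem OCL_symm {G : Set (ℚ × B)} {z z' : ℚ × B} (h : Nds G z z') : Nds G z' z := by
  rintro ⟨s, h1, h2, h3⟩
  exact h ⟨s, h1, h2, fun n => (h3 n).symm⟩

private theorem OCL_nds [WellFoundedLT B] {G : Set (ℚ × B)} {z z' : ℚ × B} (K : Set ℚ)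
    (hK : K.Finite)
    (h : ∀ y ∈ G, (z.1 ≤ y.1 ∧ y.1 ≤ z'.1) ∨ (z'.1 ≤ y.1 ∧ y.1 ≤ z.1) → y.1 ∈ K) : Nds G z z' := by
  rintro ⟨s, h1, h2, h3⟩
  refine OCL_fin K hK s (fun n => h _ (h1 n) ?_) h2
  have hle : ∀ {x y : ℚ × B}, Lx x y → x.1 ≤ y.1 := by
    rintro x y (h | h)
    · exact h.le
    · exact h.1.le
  rcases h3 n with h | h
  · exact Or.inl ⟨hle h.1, hle h.2⟩
  · exact Or.inr ⟨hle h.1, hle h.2⟩

variable {a c : ℚ} {J : (ℕ → Bool) → Set ℚ} {β : (n : ℕ) → Fin (n + 2) → ℚ}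

/-- a limit point from the right gives a decreasing sequence -/
private theorem OCL_A (hI : Idx a c J β) (T₁ T₂ : Set B) (f : ℕ → Bool) {z z' : ℚ × B}
    (hz' : z'.1 ∈ J f) {q : ℚ} (hq : q ∈ J f) (hzq : z.1 ≤ q) (hqz : q < z'.1)
    (hl : ∀ n i, q = β n i → i = Fin.last (n + 1)) : ¬ Nds (GS a c T₁ T₂ (J f)) z z' := by
  have hqc : q < c := hqz.trans_le (hI.bd f _ hz').2
  have hr : ∀ r, q < r → ∃ s, s ∈ J f ∧ q < s ∧ s < r := by
    intro r hr
    obtain ⟨s, h1, h2, h3, -⟩ := hI.rgt f q hq hqc hl r hr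
    exact ⟨s, h1, h2, h3⟩
  choose! g hg1 hg2 hg3 using hr
  let x : ℕ → ℚ := fun n => Nat.rec (g z'.1) (fun _ y => g y) n
  have hx0 : ∀ n, q < x n := by
    intro n
    induction n with
    | zero => exact hg2 _ hqz
    | succ n ih => exact hg2 _ ih
  have hxJ : ∀ n, x n ∈ J f := by
    intro n
    cases n with
    | zero => exact hg1 _ hqz
    | succ n => exact hg1 _ (hx0 n)
  have hxs : ∀ n, x (n + 1) < x n := fun n => hg3 _ (hx0 n)
  have hxz : ∀ n, x n < z'.1 := by
    intro n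
    induction n with
    | zero => exact hg3 _ hqz
    | succ n ih => exact (hxs n).trans ih
  intro hN
  refine hN ⟨fun n => (x n, z.2), fun n => ⟨hxJ n, ?_, ?_⟩, fun n => Or.inl (hxs n), fun n =>
    Or.inl ⟨Or.inl (hzq.trans_lt (hx0 n)), Or.inl (hxz n)⟩⟩
  · intro h
    have h1 := (hI.bd f q hq).1
    have h2 := hx0 n
    have h3 : x n = a := h
    linarith
  · intro h
    have h1 := (hI.bd f _ hz').2
    have h2 := hxz n
    have h3 : x n = c := h
    linarith

private theorem OCL_blk (hI : Idx a c J β) {n m : ℕ} {i : Fin (n + 2)} {j : Fin (m + 2)}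
    (h : β n i = β m j) : n = m := by
  rcases lt_trichotomy n m with h1 | h1 | h1
  · exact absurd h (hI.dis n m i j h1).ne
  · exact h1
  · exact absurd h (hI.dis m n j i h1).ne'

/-- points with different first coordinates in one class are in one block -/
private theorem OCL_B (hI : Idx a c J β) (T₁ T₂ : Set B) (f : ℕ → Bool) {z z' : ℚ × B}
    (hz : z.1 ∈ J f) (hz' : z'.1 ∈ J f) (hlt : z.1 < z'.1)
    (hN : Nds (GS a c T₁ T₂ (J f)) z z') :
    ∃ n i i', f n = true ∧ z.1 = β n i ∧ z'.1 = β n i' := by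
  by_cases h : ∀ n i, z.1 = β n i → i = Fin.last (n + 1)
  · exact absurd hN (OCL_A hI T₁ T₂ f hz' hz le_rfl hlt h)
  · push Not at h
    obtain ⟨n, i, h1, h2⟩ := h
    have hf : f n = true := by rw [h1] at hz; exact (hI.mem f n i).1 hz
    have hle : z.1 ≤ β n (Fin.last (n + 1)) := by
      rw [h1]; exact (hI.mon n).monotone (Fin.le_last i)
    rcases lt_or_ge (β n (Fin.last (n + 1))) z'.1 with h3 | h3
    · refine absurd hN (OCL_A hI T₁ T₂ f hz' ((hI.mem f n _).2 hf) hle h3 ?_)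
      intro m j hj
      obtain rfl := OCL_blk hI hj
      exact (hI.mon n).injective hj.symm
    · obtain ⟨i', hi'⟩ := hI.btw f n hf z'.1 hz' (by
        have : β n 0 ≤ z.1 := by rw [h1]; exact (hI.mon n).monotone (Fin.zero_le i)
        linarith) h3
      exact ⟨n, i, i', hf, h1, hi'⟩

/-- points with different first coordinates in one class are in one block -/
private theorem OCL_C (hI : Idx a c J β) (T₁ T₂ : Set B) (f : ℕ → Bool) {z z' : ℚ × B}
    (hz : z.1 ∈ J f) (hz' : z'.1 ∈ J f) (hne : z.1 ≠ z'.1)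
    (hN : Nds (GS a c T₁ T₂ (J f)) z z') :
    ∃ n i i', f n = true ∧ z.1 = β n i ∧ z'.1 = β n i' := by
  rcases lt_or_gt_of_ne hne with h | h
  · exact OCL_B hI T₁ T₂ f hz hz' h hN
  · obtain ⟨n, i, i', h1, h2, h3⟩ := OCL_B hI T₁ T₂ f hz' hz h (OCL_symm hN)
    exact ⟨n, i', i, h1, h3, h2⟩

end

/-- [OCL] the classes -/
theorem thm_OCL : St_OCL := by
  classical
  intro a c J β hI B _ _ _ T₁ T₂ f
  refine ⟨?_, ?_, ?_⟩
  · intro z hz hnb
    -- the class is the fibre
    have hcl : Ncl (GS a c T₁ T₂ (J f)) z = {z' | z' ∈ GS a c T₁ T₂ (J f) ∧ z'.1 = z.1} := by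
      ext z'
      constructor
      · rintro ⟨h1, h2⟩
        refine ⟨h1, ?_⟩
        by_contra hne
        obtain ⟨n, i, i', h3, h4, -⟩ := OCL_C hI T₁ T₂ f hz.1 h1.1 (fun h => hne h.symm) h2
        exact hnb ⟨n, i, h3, h4⟩
      · rintro ⟨h1, h2⟩
        refine ⟨h1, OCL_nds {z.1} (finite_singleton _) ?_⟩
        rintro y - (h | h)
        · rw [h2] at h; exact le_antisymm h.2 h.1
        · rw [h2] at h; exact le_antisymm h.2 h.1
    rw [hcl]
    let T : Set B := {b | (z.1, b) ∈ GS a c T₁ T₂ (J f)}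
    let r : T → T → Prop := fun x y => (x : B) < y
    let emb : r ↪r ((· < ·) : B → B → Prop) := ⟨⟨Subtype.val, Subtype.val_injective⟩, Iff.rfl⟩
    have : IsWellOrder T r := emb.isWellOrder
    let e : ({z' | z' ∈ GS a c T₁ T₂ (J f) ∧ z'.1 = z.1} : Set (ℚ × B)) ≃ T :=
      { toFun := fun x => ⟨x.1.2, by
          have h := x.2.1
          have h2 : x.1.1 = z.1 := x.2.2
          have h3 : (z.1, x.1.2) = x.1 := Prod.ext h2.symm rfl
          show (z.1, x.1.2) ∈ GS a c T₁ T₂ (J f)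
          rw [h3]; exact h⟩
        invFun := fun b => ⟨(z.1, b.1), b.2, rfl⟩
        left_inv := by
          rintro ⟨⟨q, b⟩, h1, h2⟩
          simp only at h2
          subst h2
          rfl
        right_inv := fun b => rfl }
    refine ⟨Ordinal.type r, Ordinal.type_le_iff'.2 ⟨emb⟩, OCL_otp r e ?_⟩
    rintro ⟨⟨q, b⟩, h1, h2⟩ ⟨⟨q', b'⟩, h3, h4⟩
    simp only at h2 h4
    subst h2
    subst h4
    constructor
    · rintro (h | h)
      · exact absurd h (lt_irrefl _)
      · exact h.2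
    · intro h
      exact Or.inr ⟨rfl, h⟩
  · intro z hz n i hf hzi
    have hmem : ∀ (j : Fin (n + 2)) (b : B), (β n j, b) ∈ GS a c T₁ T₂ (J f) := by
      intro j b
      refine ⟨(hI.mem f n j).2 hf, fun h => ?_, fun h => ?_⟩
      · exact absurd h (hI.bac n j).1.ne'
      · exact absurd h (hI.bac n j).2.ne
    have hcl : Ncl (GS a c T₁ T₂ (J f)) z = {z' | ∃ j, z'.1 = β n j} := by
      ext z'
      constructor
      · rintro ⟨h1, h2⟩
        by_cases hne : z.1 = z'.1
        · exact ⟨i, by rw [← hne, hzi]⟩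
        · obtain ⟨m, j, j', h3, h4, h5⟩ := OCL_C hI T₁ T₂ f hz.1 h1.1 hne h2
          rw [hzi] at h4
          obtain rfl := OCL_blk hI h4
          exact ⟨j', h5⟩
      · rintro ⟨j, hj⟩
        refine ⟨by have := hmem j z'.2; rwa [← hj] at this, OCL_nds (range (β n))
          (finite_range _) ?_⟩
        intro y hy h
        have hb : ∀ k, β n 0 ≤ β n k ∧ β n k ≤ β n (Fin.last (n + 1)) := fun k =>
          ⟨(hI.mon n).monotone (Fin.zero_le k), (hI.mon n).monotone (Fin.le_last k)⟩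
        have h1 := hb i
        have h2 := hb j
        rw [← hzi] at h1
        rw [← hj] at h2
        obtain ⟨k, hk⟩ := hI.btw f n hf y.1 hy.1 (by rcases h with h | h <;> linarith [h.1, h.2])
          (by rcases h with h | h <;> linarith [h.1, h.2])
        exact ⟨k, hk.symm⟩
    rw [hcl]
    have htype : Ordinal.type (α := B) (· < ·) * (n + 2 : ℕ)
        = Ordinal.type (Prod.Lex ((· < ·) : Fin (n + 2) → Fin (n + 2) → Prop)
          ((· < ·) : B → B → Prop)) := by
      rw [Ordinal.type_prod_lex, Ordinal.type_fin]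
    rw [htype]
    let e : ({z' | ∃ j, z'.1 = β n j} : Set (ℚ × B)) ≃ Fin (n + 2) × B :=
      { toFun := fun x => (x.2.choose, x.1.2)
        invFun := fun y => ⟨(β n y.1, y.2), y.1, rfl⟩
        left_inv := fun x => by
          apply Subtype.ext
          exact Prod.ext x.2.choose_spec.symm rfl
        right_inv := fun y => by
          have h : ∃ j, β n y.1 = β n j := ⟨y.1, rfl⟩
          have h2 : h.choose = y.1 := ((hI.mon n).injective h.choose_spec).symm
          exact Prod.ext h2 rfl }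
    refine OCL_otp _ e ?_
    intro x y
    have hx : x.1.1 = β n (e x).1 := x.2.choose_spec
    have hy : y.1.1 = β n (e y).1 := y.2.choose_spec
    have hx2 : x.1.2 = (e x).2 := rfl
    have hy2 : y.1.2 = (e y).2 := rfl
    rw [Prod.lex_def]
    unfold Lx
    rw [hx, hy, hx2, hy2, (hI.mon n).lt_iff_lt, (hI.mon n).injective.eq_iff]
  · intro n hf
    obtain ⟨b⟩ := ‹Nonempty B›
    exact ⟨(β n 0, b), ⟨(hI.mem f n 0).2 hf, fun h => absurd h (hI.bac n 0).1.ne',
      fun h => absurd h (hI.bac n 0).2.ne⟩, rfl⟩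

end ORD
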