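import Pool.Agent.ORD.StD

/-!
# ORD: the order lemma
-/

set_option autoImplicit false
set_option linter.unusedVariables false

namespace ORD

open Set FirstOrder

section

variable {B : Type} [LinearOrder B]

private theorem ODC_lex (z z' : ℚ × B) : Lx z z' ↔ toLex z < toLex z' :=
  (Prod.Lex.toLex_lt_toLex).symm

private theorem ODC_asy {z z' : ℚ × B} (h : Lx z z') : ¬ Lx z' z := by
  rw [ODC_lex] at h ⊢
  exact lt_asymm h

private theorem ODC_irr (z : ℚ × B) : ¬ Lx z z := by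
  rw [ODC_lex]
  exact lt_irrefl _

private theorem ODC_tri (z z' : ℚ × B) : Lx z z' ∨ z = z' ∨ Lx z' z := by
  rw [ODC_lex, ODC_lex]
  rcases lt_trichotomy (toLex z) (toLex z') with h | h | h
  · exact Or.inl h
  · exact Or.inr (Or.inl (toLex.injective h))
  · exact Or.inr (Or.inr h)

private theorem ODC_iff {G : Set (ℚ × B)} {h : ℚ × B → ℚ × B}
    (hm : ∀ z ∈ G, ∀ z' ∈ G, Lx z z' → Lx (h z) (h z')) {z z' : ℚ × B} (hz : z ∈ G)
    (hz' : z' ∈ G) : Lx z z' ↔ Lx (h z) (h z') := by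
  refine ⟨hm z hz z' hz', fun h1 => ?_⟩
  rcases ODC_tri z z' with h2 | h2 | h2
  · exact h2
  · rw [h2] at h1
    exact absurd h1 (ODC_irr _)
  · exact absurd h1 (ODC_asy (hm z' hz' z hz h2))

private theorem ODC_symm [Nonempty B] {G G' : Set (ℚ × B)} (hs : Sim G G') : Sim G' G := by
  obtain ⟨h, hb, hm⟩ := hs
  have hi : InvOn (Function.invFunOn h G) h G G' := hb.invOn_invFunOn
  have hb' : BijOn (Function.invFunOn h G) G' G := hb.symm hi.symm
  refine ⟨Function.invFunOn h G, hb', ?_⟩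
  intro z hz z' hz' hzz
  rw [ODC_iff hm (hb'.mapsTo hz) (hb'.mapsTo hz'), hi.2 hz, hi.2 hz']
  exact hzz

private theorem ODC_uniq {E : Set (ℚ × B)} {τ τ' : Ordinal.{0}} (h : Otp E τ) (h' : Otp E τ') :
    τ = τ' := by
  obtain ⟨f, hf, hr⟩ := h
  obtain ⟨f', hf', hr'⟩ := h'
  have key : ∀ (o : Ordinal.{0}) (x : E), f x = o → f' x = o := by
    intro o
    induction o using WellFoundedLT.induction with
    | ind o ih =>
      intro x hx
      subst hx
      apply le_antisymm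
      · refine le_of_forall_lt fun o' ho' => ?_
        have h1 : o' ∈ range f' := by
          rw [hr']
          have h2 : f' x ∈ Iio τ' := by
            rw [← hr']
            exact ⟨x, rfl⟩
          exact lt_trans ho' h2
        obtain ⟨y, rfl⟩ := h1
        have h3 : f y < f x := (hf y x).1 ((hf' y x).2 ho')
        rw [ih (f y) h3 y rfl]
        exact h3
      · refine le_of_forall_lt fun o' ho' => ?_
        have h1 : o' ∈ range f := by
          rw [hr]
          have h2 : f x ∈ Iio τ := by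
            rw [← hr]
            exact ⟨x, rfl⟩
          exact lt_trans ho' h2
        obtain ⟨y, rfl⟩ := h1
        rw [← ih (f y) ho' y rfl]
        exact (hf' y x).1 ((hf y x).2 ho')
  have hff : f' = f := funext fun x => key (f x) x rfl
  rw [hff, hr] at hr'
  exact Iio_injective hr'

private theorem ODC_otp {G G' : Set (ℚ × B)} {h : ℚ × B → ℚ × B} (hb : BijOn h G G')
    (hm : ∀ z ∈ G, ∀ z' ∈ G, Lx z z' → Lx (h z) (h z')) {z : ℚ × B} (hz : z ∈ G)
    {τ : Ordinal.{0}} (ho : Otp (Ncl G z) τ) : Otp (Ncl G' (h z)) τ := by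
  have hn : ∀ z' ∈ G, (Nds G z z' ↔ Nds G' (h z) (h z')) := by
    intro z' hz'
    rw [Nds, Nds, not_iff_not]
    constructor
    · rintro ⟨s, h1, h2, h3⟩
      refine ⟨fun n => h (s n), fun n => hb.mapsTo (h1 n), fun n => hm _ (h1 _) _ (h1 _) (h2 n),
        fun n => ?_⟩
      rcases h3 n with ⟨h4, h5⟩ | ⟨h4, h5⟩
      · exact Or.inl ⟨hm _ hz _ (h1 n) h4, hm _ (h1 n) _ hz' h5⟩
      · exact Or.inr ⟨hm _ hz' _ (h1 n) h4, hm _ (h1 n) _ hz h5⟩
    · rintro ⟨s, h1, h2, h3⟩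
      have h4 : ∀ n, ∃ v ∈ G, h v = s n := fun n => hb.surjOn (h1 n)
      choose v hv hvs using h4
      refine ⟨v, hv, fun n => ?_, fun n => ?_⟩
      · rw [ODC_iff hm (hv _) (hv _), hvs, hvs]
        exact h2 n
      · rw [ODC_iff hm hz (hv n), ODC_iff hm (hv n) hz', ODC_iff hm hz' (hv n),
          ODC_iff hm (hv n) hz, hvs]
        exact h3 n
  obtain ⟨f, hf, hr⟩ := ho
  have h1 : ∀ w : Ncl G' (h z), ∃ v : Ncl G z, h v.1 = w.1 := by
    rintro ⟨w, hw, hw'⟩
    obtain ⟨v, hv, rfl⟩ := hb.surjOn hw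
    exact ⟨⟨v, hv, (hn v hv).2 hw'⟩, rfl⟩
  choose v hv using h1
  refine ⟨fun w => f (v w), ?_, ?_⟩
  · intro x y
    rw [← hf, ← hv, ← hv, ODC_iff hm (v x).2.1 (v y).2.1]
  · apply Subset.antisymm
    · rintro _ ⟨w, rfl⟩
      rw [← hr]
      exact ⟨_, rfl⟩
    · intro o hoo
      rw [← hr] at hoo
      obtain ⟨x, rfl⟩ := hoo
      refine ⟨⟨h x.1, hb.mapsTo x.2.1, (hn x.1 x.2.1).1 x.2.2⟩, ?_⟩
      have h2 : v ⟨h x.1, hb.mapsTo x.2.1, (hn x.1 x.2.1).1 x.2.2⟩ = x := by
        apply Subtype.ext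
        exact hb.injOn (v _).2.1 x.2.1 (hv _)
      show f (v _) = f x
      rw [h2]

end

theorem thm_ODC (hx : St_ODX) (hc : St_OCL) : St_ODC := by
  obtain ⟨a, c, J, β, hi⟩ := hx
  refine ⟨a, c, J, hi.ac, fun f => ⟨hi.ma f, hi.mc f, hi.bd f⟩, hi.clo, ?_⟩
  intro B _ _ _ T₁ T₂
  have hσ : 0 < Ordinal.type (α := B) (· < ·) := by
    rw [pos_iff_ne_zero, Ne, Ordinal.type_eq_zero_iff_isEmpty, not_isEmpty_iff]
    infer_instance
  have key : ∀ f f' : ℕ → Bool, Sim (GS a c T₁ T₂ (J f)) (GS a c T₁ T₂ (J f')) →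
      ∀ n, f n = true → f' n = true := by
    intro f f' hs n hn
    obtain ⟨h, hb, hm⟩ := hs
    obtain ⟨z, hz, hz1⟩ := (hc a c J β hi B T₁ T₂ f).2.2 n hn
    have h1 := (hc a c J β hi B T₁ T₂ f).2.1 z hz n 0 hn hz1
    have h2 := ODC_otp hb hm hz h1
    by_cases h3 : ∃ m i, f' m = true ∧ (h z).1 = β m i
    · obtain ⟨m, i, hm', hmi⟩ := h3
      have h4 := (hc a c J β hi B T₁ T₂ f').2.1 (h z) (hb.mapsTo hz) m i hm' hmi
      have h5 := ODC_uniq h2 h4
      have h6 : ((n + 2 : ℕ) : Ordinal.{0}) = ((m + 2 : ℕ) : Ordinal.{0}) := by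
        rcases lt_trichotomy ((n + 2 : ℕ) : Ordinal.{0}) ((m + 2 : ℕ) : Ordinal.{0}) with h | h | h
        · exact absurd h5 ((mul_lt_mul_of_pos_left h hσ).ne)
        · exact h
        · exact absurd h5 ((mul_lt_mul_of_pos_left h hσ).ne')
      have h7 : n + 2 = m + 2 := by exact_mod_cast h6
      have h8 : n = m := by omega
      rw [h8]
      exact hm'
    · obtain ⟨τ, hτ, h4⟩ := (hc a c J β hi B T₁ T₂ f').1 (h z) (hb.mapsTo hz) h3
      have h5 := ODC_uniq h2 h4
      exfalso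
      have h6 : Ordinal.type (α := B) (· < ·) * 1 <
          Ordinal.type (α := B) (· < ·) * ((n + 2 : ℕ) : Ordinal.{0}) := by
        refine mul_lt_mul_of_pos_left ?_ hσ
        have : (1 : ℕ) < n + 2 := by omega
        exact_mod_cast this
      rw [mul_one] at h6
      exact absurd (h5.trans_le hτ) (not_le.2 h6)
  intro f f' hs
  funext n
  have h1 := key f f' hs n
  have h2 := key f' f (ODC_symm hs) n
  cases hf : f n with
  | true => exact (h1 hf).symm
  | false =>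
    cases hf' : f' n with
    | true => exact absurd (h2 hf') (by simp [hf])
    | false => rfl

end ORD
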