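import Pool.Agent.ORD.StD

/-!
# ORD, module ODX: index sets
-/

set_option autoImplicit false
set_option linter.unusedVariables false

namespace ORD

open Set FirstOrder

private def ODX_p (n : ℕ) : ℚ := n / (n + 1)

private def ODX_m (n : ℕ) : ℚ := (ODX_p n + ODX_p (n + 1)) / 2

private def ODX_b (n : ℕ) (i : Fin (n + 2)) : ℚ :=
  ODX_m n + (ODX_p (n + 1) - ODX_m n) * ((i : ℕ) / (n + 2))

private def ODX_l (n : ℕ) : ℚ := ODX_b n (Fin.last (n + 1))

private theorem ODX_p_lt (n : ℕ) : ODX_p n < ODX_p (n + 1) := by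
  unfold ODX_p
  rw [div_lt_div_iff₀ (by positivity) (by positivity)]
  push_cast
  nlinarith

private theorem ODX_p_mono : StrictMono ODX_p := strictMono_nat_of_lt_succ ODX_p_lt

private theorem ODX_p_le {n k : ℕ} (h : n ≤ k) : ODX_p n ≤ ODX_p k := ODX_p_mono.monotone h

private theorem ODX_p_one (n : ℕ) : ODX_p n < 1 := by
  unfold ODX_p
  rw [div_lt_one (by positivity)]
  linarith

private theorem ODX_p_nonneg (n : ℕ) : 0 ≤ ODX_p n := by unfold ODX_p; positivity

private theorem ODX_p_zero : ODX_p 0 = 0 := by unfold ODX_p; simp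

private theorem ODX_pm (n : ℕ) : ODX_p n < ODX_m n := by
  have := ODX_p_lt n; unfold ODX_m; linarith

private theorem ODX_mp (n : ℕ) : ODX_m n < ODX_p (n + 1) := by
  have := ODX_p_lt n; unfold ODX_m; linarith

private theorem ODX_b_mono (n : ℕ) : StrictMono (ODX_b n) := by
  intro i j hij
  unfold ODX_b
  have h1 := ODX_mp n
  have h2 : ((i : ℕ) : ℚ) < ((j : ℕ) : ℚ) := by exact_mod_cast hij
  have h3 : ((i : ℕ) : ℚ) / (n + 2) < ((j : ℕ) : ℚ) / (n + 2) :=
    div_lt_div_of_pos_right h2 (by positivity)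
  have := mul_lt_mul_of_pos_left h3 (sub_pos.2 h1)
  linarith

private theorem ODX_b0 (n : ℕ) : ODX_b n 0 = ODX_m n := by unfold ODX_b; simp

private theorem ODX_mb (n : ℕ) (i : Fin (n + 2)) : ODX_m n ≤ ODX_b n i := by
  rw [← ODX_b0]; exact (ODX_b_mono n).monotone (Fin.zero_le i)

private theorem ODX_bl (n : ℕ) (i : Fin (n + 2)) : ODX_b n i ≤ ODX_l n :=
  (ODX_b_mono n).monotone (Fin.le_last i)

private theorem ODX_lp (n : ℕ) : ODX_l n < ODX_p (n + 1) := by
  unfold ODX_l ODX_b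
  have h1 := ODX_mp n
  have h2 : (((Fin.last (n + 1) : Fin (n + 2)) : ℕ) : ℚ) / (n + 2) < 1 := by
    rw [div_lt_one (by positivity), Fin.val_last]
    push_cast
    linarith
  have := mul_lt_mul_of_pos_left h2 (sub_pos.2 h1)
  linarith

/-- the piece between `p n` and `p (n + 1)` -/
private def ODX_P (f : ℕ → Bool) (n : ℕ) : Set ℚ :=
  {q | (ODX_p n < q ∧ q < ODX_m n) ∨ (f n = true ∧ ∃ i, q = ODX_b n i) ∨
    (ODX_l n < q ∧ q ≤ ODX_p (n + 1))}

private def ODX_J (f : ℕ → Bool) : Set ℚ := {q | q = 0 ∨ q = 1 ∨ ∃ n, q ∈ ODX_P f n}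

private theorem ODX_in {f : ℕ → Bool} {n : ℕ} {q : ℚ} (h : q ∈ ODX_P f n) :
    ODX_p n < q ∧ q ≤ ODX_p (n + 1) := by
  have h1 := ODX_pm n
  have h2 := ODX_mp n
  have h3 := ODX_lp n
  rcases h with h | ⟨-, i, rfl⟩ | h
  · exact ⟨h.1, by linarith [h.2]⟩
  · exact ⟨h1.trans_le (ODX_mb n i), ((ODX_bl n i).trans_lt h3).le⟩
  · have h5 : ODX_m n ≤ ODX_l n := ODX_mb n (Fin.last (n + 1))
    exact ⟨by linarith [h.1], h.2⟩

private theorem ODX_eq {n k : ℕ} {q : ℚ} (h1 : ODX_p n < q) (h2 : q < ODX_p (n + 1))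
    (h3 : ODX_p k < q) (h4 : q ≤ ODX_p (k + 1)) : k = n := by
  rcases lt_trichotomy k n with h | h | h
  · have := ODX_p_le (show k + 1 ≤ n from h)
    linarith
  · exact h
  · have := ODX_p_le (show n + 1 ≤ k from h)
    linarith

private theorem ODX_b_in (n : ℕ) (i : Fin (n + 2)) : ODX_p n < ODX_b n i ∧
    ODX_b n i < ODX_p (n + 1) :=
  ⟨(ODX_pm n).trans_le (ODX_mb n i), (ODX_bl n i).trans_lt (ODX_lp n)⟩

private theorem ODX_b_eq {n k : ℕ} {i : Fin (n + 2)} {j : Fin (k + 2)} (h : ODX_b n i = ODX_b k j) :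
    n = k := by
  have h1 := ODX_b_in n i
  have h2 := ODX_b_in k j
  rw [h] at h1
  exact ODX_eq h2.1 h2.2 h1.1 h1.2.le

private theorem ODX_mem (f : ℕ → Bool) (n : ℕ) (i : Fin (n + 2)) :
    ODX_b n i ∈ ODX_J f ↔ f n = true := by
  have h1 := ODX_b_in n i
  constructor
  · rintro (h | h | ⟨k, hk⟩)
    · have := ODX_p_nonneg n
      linarith
    · have := ODX_p_one (n + 1)
      linarith
    · have h2 := ODX_in hk
      obtain rfl := ODX_eq h1.1 h1.2 h2.1 h2.2
      have h3 := ODX_mb k i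
      have h4 := ODX_bl k i
      rcases hk with h | h | h
      · linarith [h.2]
      · exact h.1
      · linarith [h.1]
  · intro h
    exact Or.inr (Or.inr ⟨n, Or.inr (Or.inl ⟨h, i, rfl⟩)⟩)

/-- two points of an interval contained in `J` -/
private theorem ODX_two {J : Set ℚ} {q t r : ℚ} (ht : q < t) (h : ∀ x, q < x → x < t → x ∈ J)
    (hr : q < r) : ∃ s ∈ J, q < s ∧ s < r ∧ ∃ s' ∈ J, q < s' ∧ s' < s := by
  obtain ⟨s, hs1, hs2⟩ := exists_between (lt_min ht hr)
  obtain ⟨s', h1, h2⟩ := exists_between hs1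
  exact ⟨s, h s hs1 (hs2.trans_le (min_le_left _ _)), hs1, hs2.trans_le (min_le_right _ _), s',
    h s' h1 (h2.trans (hs2.trans_le (min_le_left _ _))), h1, h2⟩

private theorem ODX_two' {J : Set ℚ} {q t r : ℚ} (ht : t < q) (h : ∀ x, t < x → x < q → x ∈ J)
    (hr : r < q) : ∃ s ∈ J, r < s ∧ s < q ∧ ∃ s' ∈ J, s < s' ∧ s' < q := by
  obtain ⟨s, hs1, hs2⟩ := exists_between (max_lt ht hr)
  obtain ⟨s', h1, h2⟩ := exists_between hs2
  exact ⟨s, h s ((le_max_left _ _).trans_lt hs1) hs2, (le_max_right _ _).trans_lt hs1, hs2, s',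
    h s' ((le_max_left _ _).trans_lt (hs1.trans h1)) h2, h1, h2⟩

/-- [ODX] index sets exist -/
theorem thm_ODX : St_ODX := by
  refine ⟨0, 1, ODX_J, ODX_b, ?_⟩
  refine { ac := one_pos, ma := fun f => Or.inl rfl, mc := fun f => Or.inr (Or.inl rfl),
           bd := ?_, clo := ?_, mon := ODX_b_mono, bac := ?_, mem := ODX_mem, dis := ?_, btw := ?_,
           rgt := ?_, lft := ?_ }
  · rintro f q (rfl | rfl | ⟨n, hn⟩)
    · exact ⟨le_rfl, zero_le_one⟩
    · exact ⟨zero_le_one, le_rfl⟩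
    · have h1 := ODX_in hn
      have h2 := ODX_p_nonneg n
      have h3 := ODX_p_one (n + 1)
      constructor <;> linarith
  · intro q
    by_cases hA : q = 0 ∨ q = 1 ∨ ∃ n, (ODX_p n < q ∧ q < ODX_m n) ∨
        (ODX_l n < q ∧ q ≤ ODX_p (n + 1))
    · have : {f | q ∈ ODX_J f} = univ := by
        apply eq_univ_of_forall
        intro f
        rcases hA with h | h | ⟨n, h | h⟩
        · exact Or.inl h
        · exact Or.inr (Or.inl h)
        · exact Or.inr (Or.inr ⟨n, Or.inl h⟩)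
        · exact Or.inr (Or.inr ⟨n, Or.inr (Or.inr h)⟩)
      rw [this]
      exact isClopen_univ
    · by_cases hB : ∃ n i, q = ODX_b n i
      · obtain ⟨n, i, rfl⟩ := hB
        have : {f | ODX_b n i ∈ ODX_J f} = (fun f : ℕ → Bool => f n) ⁻¹' {true} := by
          ext f
          exact ODX_mem f n i
        rw [this]
        exact (isClopen_discrete _).preimage (continuous_apply n)
      · have : {f | q ∈ ODX_J f} = ∅ := by
          apply eq_empty_of_forall_notMem
          rintro f (h | h | ⟨n, h | h | h⟩)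
          · exact hA (Or.inl h)
          · exact hA (Or.inr (Or.inl h))
          · exact hA (Or.inr (Or.inr ⟨n, Or.inl h⟩))
          · exact hB ⟨n, h.2⟩
          · exact hA (Or.inr (Or.inr ⟨n, Or.inr h⟩))
        rw [this]
        exact isClopen_empty
  · intro n i
    have h1 := ODX_b_in n i
    have h2 := ODX_p_nonneg n
    have h3 := ODX_p_one (n + 1)
    constructor <;> linarith
  · intro n k i j hnk
    have h1 := ODX_b_in n i
    have h2 := ODX_b_in k j
    have h3 := ODX_p_le (show n + 1 ≤ k from hnk)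
    linarith
  · intro f n hf q hq h1 h2
    rw [ODX_b0] at h1
    have h3 := ODX_pm n
    have h4 : q < ODX_p (n + 1) := h2.trans_lt (ODX_lp n)
    rcases hq with rfl | rfl | ⟨k, hk⟩
    · have := ODX_p_nonneg n
      linarith
    · have := ODX_p_one (n + 1)
      linarith
    · have h5 := ODX_in hk
      obtain rfl := ODX_eq (by linarith) h4 h5.1 h5.2
      rcases hk with h | h | h
      · linarith [h.2]
      · exact h.2
      · exact absurd h.1 (not_lt.2 h2)
  · intro f q hq hq1 hb r hr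
    have hJ : ∀ n x, x ∈ ODX_P f n → x ∈ ODX_J f := fun n x h => Or.inr (Or.inr ⟨n, h⟩)
    have hp : ∀ n, ∃ t, ODX_p n < t ∧ ∀ x, ODX_p n < x → x < t → x ∈ ODX_J f := fun n =>
      ⟨ODX_m n, ODX_pm n, fun x h1 h2 => hJ n x (Or.inl ⟨h1, h2⟩)⟩
    have key : ∃ t, q < t ∧ ∀ x, q < x → x < t → x ∈ ODX_J f := by
      rcases hq with rfl | rfl | ⟨n, hn⟩
      · have := hp 0
        rwa [ODX_p_zero] at this
      · exact absurd hq1 (lt_irrefl _)
      · rcases hn with h | ⟨-, i, rfl⟩ | h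
        · exact ⟨ODX_m n, h.2, fun x h1 h2 => hJ n x (Or.inl ⟨h.1.trans h1, h2⟩)⟩
        · obtain rfl := hb n i rfl
          exact ⟨ODX_p (n + 1), ODX_lp n, fun x h1 h2 => hJ n x (Or.inr (Or.inr ⟨h1, h2.le⟩))⟩
        · rcases h.2.lt_or_eq with h3 | rfl
          · exact ⟨ODX_p (n + 1), h3, fun x h1 h2 =>
              hJ n x (Or.inr (Or.inr ⟨h.1.trans h1, h2.le⟩))⟩
          · exact hp (n + 1)
    obtain ⟨t, ht, h⟩ := key
    exact ODX_two ht h hr
  · intro f q hq hq0 hb r hr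
    have hJ : ∀ n x, x ∈ ODX_P f n → x ∈ ODX_J f := fun n x h => Or.inr (Or.inr ⟨n, h⟩)
    rcases hq with rfl | rfl | ⟨n, hn⟩
    · exact absurd hq0 (lt_irrefl _)
    · -- `q = 1`
      have hpJ : ∀ n, ODX_p (n + 1) ∈ ODX_J f := fun n =>
        hJ n _ (Or.inr (Or.inr ⟨ODX_lp n, le_rfl⟩))
      obtain ⟨n, hn⟩ := exists_nat_gt (1 / (1 - r))
      have h1 : 0 < 1 - r := by linarith
      have h2 : r < ODX_p (n + 1) := by
        unfold ODX_p
        rw [div_lt_iff₀ h1] at hn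
        rw [lt_div_iff₀ (by positivity)]
        push_cast
        nlinarith
      exact ⟨ODX_p (n + 1), hpJ n, h2, ODX_p_one _, ODX_p (n + 2), hpJ (n + 1), ODX_p_lt _,
        ODX_p_one _⟩
    · have key : ∃ t, t < q ∧ ∀ x, t < x → x < q → x ∈ ODX_J f := by
        rcases hn with h | ⟨-, i, rfl⟩ | h
        · exact ⟨ODX_p n, h.1, fun x h1 h2 => hJ n x (Or.inl ⟨h1, h2.trans h.2⟩)⟩
        · obtain rfl := hb n i rfl
          refine ⟨ODX_p n, (ODX_b_in n 0).1, fun x h1 h2 => hJ n x (Or.inl ⟨h1, ?_⟩)⟩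
          rwa [ODX_b0] at h2
        · exact ⟨ODX_l n, h.1, fun x h1 h2 => hJ n x (Or.inr (Or.inr ⟨h1, h2.le.trans h.2⟩))⟩
      obtain ⟨t, ht, h⟩ := key
      exact ODX_two' ht h hr

end ORD
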