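import Pool.Agent.ORD.StB

/-!
# ORD, module OLD (5.4)
-/

set_option autoImplicit false
set_option linter.unusedVariables false

namespace ORD

open Set FirstOrder Cardinal

/-- [OLD] (5.4) -/
theorem thm_OLD (hb : BAS) (he : EMB) (ha : ABS) (ho : ORL) : St_OLD := by
  intro L P M F g N₀ a hB N X C hM hdec y hy y' hy'D hCl x₁ hx₁ x' hx'D hClx
  by_contra hno
  have hOk := hB.ok
  have hMd := hM.md
  have hDv : F.D N (N.c F.v) := hOk.vdd M N hMd
  have hDx₁ : F.D N x₁ := by
    rcases hx₁ with h | h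
    · exact (hM.xg x₁ h).1
    · rw [h]; exact hDv
  -- (2)
  have h2 : ∀ z, Blw F g N X z → ¬ F.Ll N y z := by
    intro z hz hll
    apply hno
    refine ⟨M, N, id, z, hMd, he.uid N, hz.d, hz.g, ?_, ?_⟩
    · exact (ho.cll hOk hMd y' y z hy'D hy.d hz.d (hOk.csm M N hMd y y' hy.d hy'D hCl) hll).1
    · have h3 : F.Ll N z x₁ := by
        rcases hx₁ with h | h
        · exact hz.x x₁ h
        · rw [h]; exact hz.v
      exact (ho.llc hOk hMd z x₁ x' hz.d hDx₁ hx'D h3 hClx).1
  -- (3)
  have hApx : Apx F g N₀ N (insert y X) C := by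
    refine { md := hMd, xg := ?_, xp := ?_, wo := ?_, dc := ?_, ue := hM.ue, cc := hM.cc,
             cg := hM.cg, cr := ?_ }
    · rintro x (rfl | hx)
      · exact ⟨hy.d, hy.g, hy.v⟩
      · exact hM.xg x hx
    · rintro x hx z hz hc
      rcases hx with rfl | hx <;> rcases hz with rfl | hz
      · rfl
      · exact absurd hc (hy.x z hz).2
      · exact absurd (hOk.csm M N hMd x z (hM.xg x hx).1 hy.d hc) (hy.x x hx).2
      · exact hM.xp x hx z hz hc
    · intro Y hY hne
      rcases (Y ∩ X).eq_empty_or_nonempty with h0 | h0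
      · obtain ⟨m, hm⟩ := hne
        have hall : ∀ z ∈ Y, z = y := by
          intro z hz
          rcases hY hz with h | h
          · exact h
          · have : z ∈ Y ∩ X := ⟨hz, h⟩
            rw [h0] at this
            exact this.elim
        exact ⟨m, hm, fun z hz => Or.inl ((hall z hz).trans (hall m hm).symm)⟩
      · obtain ⟨m, hm, hmax⟩ := hM.wo (Y ∩ X) inter_subset_right h0
        refine ⟨m, hm.1, fun z hz => ?_⟩
        rcases hY hz with h | h
        · right
          rw [h]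
          exact (hy.x m hm.2).1
        · exact hmax z ⟨hz, h⟩
    · rintro x hx z hDz hxz hzv
      have hX : ∀ x₂ ∈ X, F.Ll N x₂ z → (F.Good g N z ∧ ∃ x' ∈ insert y X, F.Cl N z x')
          ∨ F.Rd g N z := by
        intro x₂ hx₂ hl
        rcases hM.dc x₂ hx₂ z hDz hl hzv with ⟨h3, x₃, hx₃, h4⟩ | h3
        · exact Or.inl ⟨h3, x₃, Or.inr hx₃, h4⟩
        · exact Or.inr h3
      rcases hx with rfl | hx
      · rcases hdec z hDz hzv with hg | hr
        · have h3 : ¬ ∀ x₂ ∈ X, F.Ll N z x₂ := fun h3 => h2 z ⟨hDz, hg, hzv, h3⟩ hxz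
          push Not at h3
          obtain ⟨x₂, hx₂, h4⟩ := h3
          rcases ho.tri hOk hMd z x₂ hDz (hM.xg x₂ hx₂).1 with h5 | h5 | h5
          · exact absurd h5 h4
          · exact Or.inl ⟨hg, x₂, Or.inr hx₂, h5⟩
          · exact hX x₂ hx₂ h5
        · exact Or.inr hr
      · exact hX x hx hxz
    · intro z hz
      obtain ⟨b, hb, hr⟩ := hM.cr z hz
      exact ⟨b, hb.imp_right Or.inr, hr⟩
  -- (4)
  have hAle : Ale F (N, X, C) (N, insert y X, C) := by
    refine ⟨he.uid N, subset_insert y X, ?_, fun _ _ => rfl⟩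
    rintro x hx hxX x₂ hx₂
    rcases hx with rfl | hx
    · exact (hy.x x₂ hx₂).1
    · exact absurd hx hxX
  have h5 := (hM.mx N (insert y X) C hApx hAle).2 (mem_insert y X)
  exact hOk.irr M N hMd y hy.d (hy.x y h5).1

end ORD
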