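import Pool.Agent.ORD.StB

/-!
# ORD, [ORL]: the order and closeness
-/

set_option autoImplicit false

namespace ORD

section

variable {L : Lg} {P M : Type} {F : Fr L P} {N : Mo L P M}

private theorem ORL_lll (hO : F.Ok) (hT : Md F.T N) (x y z : M)
    (hx : F.D N x) (hy : F.D N y) (hz : F.D N z) (h1 : F.Ll N x y) (h2 : F.Lt N y z) :
    F.Ll N x z :=
  ⟨hO.trs M N hT x y z hx hy hz h1.1 h2, fun h3 => h1.2 (hO.cvx M N hT x y z hx hy hz h1.1 h2 h3)⟩

private theorem ORL_asy (hO : F.Ok) (hT : Md F.T N) (x y : M)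
    (hx : F.D N x) (hy : F.D N y) (h1 : F.Lt N x y) : ¬ F.Lt N y x :=
  fun h2 => hO.irr M N hT x hx (hO.trs M N hT x y x hx hy hx h1 h2)

private theorem ORL_tri (hO : F.Ok) (hT : Md F.T N) (x y : M)
    (hx : F.D N x) (hy : F.D N y) : F.Ll N x y ∨ F.Cl N x y ∨ F.Ll N y x := by
  by_cases h : F.Cl N x y
  · exact Or.inr (Or.inl h)
  · rcases hO.tot M N hT x y hx hy with h1 | h1 | h1
    · exact absurd (h1 ▸ hO.crf M N hT x hx) h
    · exact Or.inl ⟨h1, h⟩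
    · exact Or.inr (Or.inr ⟨h1, fun h2 => h (hO.csm M N hT y x hy hx h2)⟩)

private theorem ORL_ltl (hO : F.Ok) (hT : Md F.T N) (x y z : M)
    (hx : F.D N x) (hy : F.D N y) (hz : F.D N z) (h1 : F.Lt N x y) (h2 : F.Ll N y z) :
    F.Ll N x z := by
  refine ⟨hO.trs M N hT x y z hx hy hz h1 h2.1, fun h3 => h2.2 ?_⟩
  have h4 := hO.cvx M N hT x y z hx hy hz h1 h2.1 h3
  exact hO.ctr M N hT y x z hy hx hz (hO.csm M N hT x y hx hy h4) h3

private theorem ORL_cll (hO : F.Ok) (hT : Md F.T N) (x y z : M)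
    (hx : F.D N x) (hy : F.D N y) (hz : F.D N z) (h1 : F.Cl N x y) (h2 : F.Ll N y z) :
    F.Ll N x z := by
  have h1' := hO.csm M N hT x y hx hy h1
  refine ⟨?_, fun h3 => h2.2 (hO.ctr M N hT y x z hy hx hz h1' h3)⟩
  rcases hO.tot M N hT x z hx hz with h3 | h3 | h3
  · exact absurd (h3 ▸ h1') h2.2
  · exact h3
  · exact absurd (hO.cvx M N hT y z x hy hz hx h2.1 h3 h1') h2.2

private theorem ORL_llc (hO : F.Ok) (hT : Md F.T N) (x y z : M)
    (hx : F.D N x) (hy : F.D N y) (hz : F.D N z) (h1 : F.Ll N x y) (h2 : F.Cl N y z) :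
    F.Ll N x z := by
  have h2' := hO.csm M N hT y z hy hz h2
  refine ⟨?_, fun h3 => h1.2 (hO.ctr M N hT x z y hx hz hy h3 h2')⟩
  rcases hO.tot M N hT x z hx hz with h3 | h3 | h3
  · exact absurd (h3 ▸ h2') h1.2
  · exact h3
  · have h4 := hO.cvx M N hT z x y hz hx hy h3 h1.1 h2'
    exact absurd (hO.ctr M N hT x z y hx hz hy (hO.csm M N hT z x hz hx h4) h2') h1.2

end

/-- [ORL] -/
theorem thm_ORL : ORL where
  tri := fun hO hT x y hx hy => ORL_tri hO hT x y hx hy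
  lll := fun hO hT x y z hx hy hz h1 h2 => ORL_lll hO hT x y z hx hy hz h1 h2
  ltl := fun hO hT x y z hx hy hz h1 h2 => ORL_ltl hO hT x y z hx hy hz h1 h2
  cll := fun hO hT x y z hx hy hz h1 h2 => ORL_cll hO hT x y z hx hy hz h1 h2
  llc := fun hO hT x y z hx hy hz h1 h2 => ORL_llc hO hT x y z hx hy hz h1 h2
  trn := fun hO hT x y z hx hy hz h1 h2 => ORL_lll hO hT x y z hx hy hz h1 h2.1
  asy := fun hO hT x y hx hy h1 => ORL_asy hO hT x y hx hy h1

end ORD
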