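import Pool.Agent.ORD.StC

/-!
# ORD / PKG: the good elements between two elements of the indiscernible sequence

Main result `thm_PKG : St_PKG`.
-/

set_option autoImplicit false
set_option linter.unusedVariables false

namespace ORD

open Set FirstOrder Filter

section PKG

variable {L : Lg} {P M₀ : Type} {F : Fr L P} {g : Adr F.T → ℕ} {N₀ : Mo L P M₀}

/-- closeness of good words at the index `0` -/
private def PKG_st (t : Tp F g N₀) : Setoid {w : List (Fs F g N₀.A) // t.GW w} where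
  r w w' := F.Cl t.N' (t.W w.1 0) (t.W w'.1 0)
  iseqv :=
    { refl := fun w => t.ok.crf _ _ t.md' _ w.2.d
      symm := fun {w w'} h => t.ok.csm _ _ t.md' _ _ w.2.d w'.2.d h
      trans := fun {w w' w''} h h' => t.ok.ctr _ _ t.md' _ _ _ w.2.d w'.2.d w''.2.d h h' }

private abbrev PKG_B (t : Tp F g N₀) : Type := Quotient (PKG_st t)

private noncomputable def PKG_rep (t : Tp F g N₀) (s : PKG_B t) : List (Fs F g N₀.A) :=
  s.out.1

private theorem PKG_gw (t : Tp F g N₀) (s : PKG_B t) : t.GW (PKG_rep t s) := s.out.2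

private theorem PKG_cl (t : Tp F g N₀) (w : List (Fs F g N₀.A)) (hw : t.GW w) :
    F.Cl t.N' (t.W w 0) (t.W (PKG_rep t (Quotient.mk (PKG_st t) ⟨w, hw⟩)) 0) := by
  have h : F.Cl t.N' (t.W (PKG_rep t (Quotient.mk (PKG_st t) ⟨w, hw⟩)) 0) (t.W w 0) :=
    Quotient.mk_out (s := PKG_st t) ⟨w, hw⟩
  exact t.ok.csm _ _ t.md' _ _ (PKG_gw t _).d hw.d h

private theorem PKG_eq (t : Tp F g N₀) (s s' : PKG_B t)
    (h : F.Cl t.N' (t.W (PKG_rep t s) 0) (t.W (PKG_rep t s') 0)) : s = s' := by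
  have h' : Quotient.mk (PKG_st t) s.out = Quotient.mk (PKG_st t) s'.out :=
    Quotient.sound (s := PKG_st t) h
  rwa [Quotient.out_eq, Quotient.out_eq] at h'

/-- the order of the classes -/
private def PKG_lt (t : Tp F g N₀) (s s' : PKG_B t) : Prop :=
  F.Ll t.N' (t.W (PKG_rep t s') 0) (t.W (PKG_rep t s) 0)

private theorem PKG_sto (ho : ORL) (t : Tp F g N₀) :
    IsStrictTotalOrder (PKG_B t) (PKG_lt t) where
  trichotomous := by
    intro s s' h h'
    rcases ho.tri t.ok t.md' _ _ (PKG_gw t s).d (PKG_gw t s').d with h1 | h1 | h1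
    · exact absurd h1 h'
    · exact PKG_eq t s s' h1
    · exact absurd h1 h
  irrefl := by
    intro s h
    exact t.ok.irr _ _ t.md' _ (PKG_gw t s).d h.1
  trans := by
    intro s s' s'' h h'
    exact ho.trn t.ok t.md' _ _ _ (PKG_gw t s'').d (PKG_gw t s').d (PKG_gw t s).d h' h

end PKG

/-- (6.5) the package for the decoding -/
theorem thm_PKG (ha : ABS) (ho : ORL) (hw : WRD) (hg : GJA) (hi : INN) (hf : St_WFD) : St_PKG := by
  intro L P M₀ F g N₀ t
  classical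
  have hsto := PKG_sto ho t
  let lo : LinearOrder (PKG_B t) := linearOrderOfSTO (PKG_lt t)
  have hlt : ∀ s s' : PKG_B t, s < s' ↔ PKG_lt t s s' := fun s s' => Iff.rfl
  refine ⟨PKG_B t, lo, fun j s => t.W (PKG_rep t s) j, ?_, ⟨Quotient.mk _ ⟨[], hi.c t⟩⟩,
    ?_, ?_, ?_, ?_⟩
  · refine ⟨?_⟩
    rw [wellFounded_iff_isEmpty_descending_chain]
    refine ⟨fun f => ?_⟩
    exact hf L P M₀ F g N₀ t ⟨fun n => PKG_rep t (f.1 n), fun n => PKG_gw t _,
      fun n => f.2 n⟩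
  · intro j s
    obtain ⟨h1, h2, -⟩ := hi.a t _ (PKG_gw t s) j
    exact ⟨⟨j, rfl, _, rfl⟩, h2, fun J hj => hg.gd t J _ j hj h1⟩
  · intro j s s' h
    exact (hw.ll t _ _ j 0).2 ((hw.ll t _ _ 0 0).1 h)
  · intro i j s h
    exact ⟨(hi.a t _ (PKG_gw t s) j).2.2.1 i h, (hi.a t _ (PKG_gw t s) i).2.2.2.1 j h⟩
  · rintro J i k z ⟨j, hj, w, rfl⟩ hD hG h1 h2
    obtain ⟨h3, h4, h5⟩ := hi.b t w i j k hD ⟨J, hj, hG⟩ h1 h2
    exact ⟨j, hj, h3, h4, Quotient.mk _ ⟨w, h5⟩,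
      (hw.c t _ _ j 0).2 ((hw.c t _ _ 0 0).1 (PKG_cl t w h5))⟩

end ORD
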