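import Pool.Agent.ORD.StB

/-!
# ORD: [PLC] Placing countably many new elements
-/

set_option autoImplicit false
set_option linter.unusedVariables false

namespace ORD

open Set FirstOrder

theorem thm_PLC (hb : BAS) (he : EMB) : St_PLC := by
  classical
  intro L P T M M' N N' j B hN hN' hinf hj hB hBc
  have hjinj : InjOn j N.A := he.uin hj
  obtain ⟨x₀, hx₀⟩ := hN.ne
  let S : Set M' := B \ j '' N.A
  have hSc : Countable S := (hBc.mono Set.sdiff_subset).to_subtype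
  obtain ⟨f, hf⟩ := exists_injective_nat S
  let i : S → M := fun z => (hinf.natEmbedding _ (f z) : M)
  have hi : Function.Injective i := fun z z' hz =>
    hf ((hinf.natEmbedding _).injective (Subtype.ext hz))
  have hiA : ∀ z, i z ∉ N.A := fun z => (hinf.natEmbedding _ (f z)).2
  let h : M' → M := fun z =>
    if hz : ∃ x ∈ N.A, j x = z then hz.choose else if hz2 : z ∈ S then i ⟨z, hz2⟩ else x₀
  have hh1 : ∀ x ∈ N.A, h (j x) = x := by
    intro x hx
    have hz : ∃ x' ∈ N.A, j x' = j x := ⟨x, hx, rfl⟩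
    change (if hz : ∃ x' ∈ N.A, j x' = j x then hz.choose else
      if hz2 : j x ∈ S then i ⟨j x, hz2⟩ else x₀) = x
    rw [dif_pos hz]
    exact hjinj hz.choose_spec.1 hx hz.choose_spec.2
  have hh2 : ∀ z (hz : z ∈ S), h z = i ⟨z, hz⟩ := by
    intro z hz
    have hz1 : ¬ ∃ x ∈ N.A, j x = z := fun hx => hz.2 hx
    change (if hz : ∃ x ∈ N.A, j x = z then hz.choose else
      if hz2 : z ∈ S then i ⟨z, hz2⟩ else x₀) = _
    rw [dif_neg hz1, dif_pos hz]
  let E : Set M' := j '' N.A ∪ B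
  have hEc : ∀ z ∈ E, (∃ x ∈ N.A, j x = z) ∨ z ∈ S := by
    intro z hz
    by_cases h1 : z ∈ j '' N.A
    · exact Or.inl h1
    · exact Or.inr ⟨hz.resolve_left h1, h1⟩
  have hinjE : InjOn h E := by
    intro z hz z' hz' hzz
    rcases hEc z hz with ⟨x, hx, rfl⟩ | h1 <;> rcases hEc z' hz' with ⟨x', hx', rfl⟩ | h2
    · rw [hh1 x hx, hh1 x' hx'] at hzz
      rw [hzz]
    · rw [hh1 x hx, hh2 z' h2] at hzz
      exact absurd (hzz ▸ hx) (hiA _)
    · rw [hh1 x' hx', hh2 z h1] at hzz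
      exact absurd (hzz ▸ hx') (hiA _)
    · rw [hh2 z h1, hh2 z' h2] at hzz
      exact congrArg Subtype.val (hi hzz)
  have : Nonempty M' := ⟨j x₀⟩
  let k : M → M' := Function.invFunOn h E
  have hk : ∀ z ∈ E, k (h z) = z := fun z hz => hinjE.leftInvOn_invFunOn hz
  let N₁ : Mo L P M :=
    { S := ⟨fun f t => N.S.funMap f t, fun R t => N'.S.RelMap R (k ∘ t)⟩
      A := N.A ∪ h '' B
      c := N.c }
  have hcE : ∀ p, N'.c p ∈ E := fun p => Or.inl ⟨N.c p, hN.cst p, hj.cst p⟩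
  have hEsub : E ⊆ N'.A := by
    rintro z (⟨x, hx, rfl⟩ | hz)
    · exact hj.uni x hx
    · exact hB.sub hz
  have hIs : Is (N'.sub E) N₁ h := by
    refine ⟨⟨?_, hinjE, ?_⟩, ?_, ?_⟩
    · rintro z (⟨x, hx, rfl⟩ | hz)
      · exact Or.inl (by rw [hh1 x hx]; exact hx)
      · exact Or.inr ⟨z, hz, rfl⟩
    · rintro y (hy | ⟨z, hz, rfl⟩)
      · exact ⟨j y, Or.inl ⟨y, hy, rfl⟩, hh1 y hy⟩
      · exact ⟨z, Or.inr hz, rfl⟩
    · intro p
      change h (N'.c p) = N.c p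
      rw [← hj.cst p, hh1 _ (hN.cst p)]
    · intro n R t ht
      change N'.S.RelMap R t ↔ N'.S.RelMap R (k ∘ (h ∘ t))
      have h1 : k ∘ (h ∘ t) = t := funext fun l => hk _ (ht l)
      rw [h1]
  have hEcw : Cw T N' E := he.cwu (he.ucw hj hN) hB
  have hEmd : Md T (N'.sub E) := he.cmd hEcw ⟨j x₀, Or.inl ⟨x₀, hx₀, rfl⟩⟩ hcE
  have hUE1 : UE N (N'.sub E) j := he.usb hj E hEsub fun x hx => Or.inl ⟨x, hx, rfl⟩
  have hUE2 : UE (N'.sub E) N₁ h := he.iue hIs hcE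
  have hUE3 : UE N N₁ (h ∘ j) := he.uco hUE1 hUE2
  exact ⟨N₁, h, he.imd hIs hEmd, he.ucg hUE3 hN.cst fun x hx => hh1 x hx, rfl, hIs, hh1⟩

end ORD
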