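import Pool.Agent.ORD.StB

/-!
# ORD: changing the carrier
-/

set_option autoImplicit false
set_option linter.unusedVariables false

namespace ORD

open Set FirstOrder Cardinal

private theorem PLM_one (L : Lg) (P M M' : Type) (N : Mo L P M) (hM : Infinite M')
    (hc : N.A.Countable) (hp : ∀ p, N.c p ∈ N.A) (hne : N.A.Nonempty) :
    ∃ (N' : Mo L P M') (h : M → M'), Is N N' h := by
  classical
  have : Countable N.A := hc.to_subtype
  obtain ⟨f, hf⟩ := exists_injective_nat N.A
  obtain ⟨x₀, hx₀⟩ := hne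
  have : Nonempty M := ⟨x₀⟩
  let e : ℕ ↪ M' := Infinite.natEmbedding M'
  let h : M → M' := fun x => if hx : x ∈ N.A then e (f ⟨x, hx⟩) else e 0
  have hh : InjOn h N.A := by
    intro x hx y hy hxy
    simp only [h, dif_pos hx, dif_pos hy] at hxy
    exact congrArg Subtype.val (hf (e.injective hxy))
  let k : M' → M := Function.invFunOn h N.A
  have hk : ∀ x ∈ N.A, k (h x) = x := fun x hx => hh.leftInvOn_invFunOn hx
  refine ⟨{ S := { funMap := fun {n} _ _ => h x₀, RelMap := fun {n} R t => N.S.RelMap R (k ∘ t) }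
            A := h '' N.A
            c := h ∘ N.c }, h, ⟨hh.bijOn_image, fun p => rfl, ?_⟩⟩
  intro n R t ht
  have h1 : k ∘ (h ∘ t) = t := funext fun i => hk _ (ht i)
  show N.S.RelMap R t ↔ N.S.RelMap R (k ∘ (h ∘ t))
  rw [h1]

private theorem PLM_two (L : Lg) (P M : Type) (N : Mo L P M) (hp : ∀ p, N.c p ∈ N.A)
    (hne : N.A.Nonempty) :
    ∃ N' : Mo L P N.A, N'.A = Set.univ ∧ Is N' N Subtype.val := by
  obtain ⟨x₀, hx₀⟩ := hne
  refine ⟨{ S := { funMap := fun {n} _ _ => ⟨x₀, hx₀⟩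
                   RelMap := fun {n} R t => N.S.RelMap R fun i => (t i : M) }
            A := Set.univ
            c := fun p => ⟨N.c p, hp p⟩ }, rfl, ⟨?_, fun p => rfl, ?_⟩⟩
  · exact ⟨fun x _ => x.2, fun x _ y _ hxy => Subtype.ext hxy,
      fun x hx => ⟨⟨x, hx⟩, trivial, rfl⟩⟩
  · intro n R t ht
    exact Iff.rfl

/-- Changing the carrier. -/
theorem thm_PLM (hb : BAS) (he : EMB) : St_PLM :=
  ⟨PLM_one, PLM_two⟩

end ORD
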