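import Pool.Agent.ORD.StC

/-!
# ORD, module REC: a decreasing sequence with a common record
-/

set_option autoImplicit false
set_option linter.unusedVariables false

namespace ORD

open Set FirstOrder

private def REC_code {L : Lg} {P I : Type} (F : Fr L P) (g : Adr F.T → ℕ) : Fs F g I →
    ((k : F.T.K) × Fin (F.T.n k)) ⊕ (Adr F.T ⊕ (((ρ : F.Rsn g) × Fin ρ.n) ⊕ I))
  | .wt k i => Sum.inl ⟨k, i⟩
  | .tr s => Sum.inr (Sum.inl s)
  | .rp ρ i => Sum.inr (Sum.inr (Sum.inl ⟨ρ, i⟩))
  | .cs m => Sum.inr (Sum.inr (Sum.inr m))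

private theorem REC_inj {L : Lg} {P I : Type} (F : Fr L P) (g : Adr F.T → ℕ) :
    Function.Injective (REC_code F g (I := I)) := by
  intro a b h
  cases a <;> cases b <;> simp only [REC_code, Sum.inl.injEq, Sum.inr.injEq, reduceCtorEq] at h
  · obtain ⟨rfl, h⟩ := Sigma.mk.inj h
    obtain rfl := eq_of_heq h
    rfl
  · rw [h]
  · obtain ⟨rfl, h⟩ := Sigma.mk.inj h
    obtain rfl := eq_of_heq h
    rfl
  · rw [h]

private theorem REC_ct (hb : BAS) {L : Lg} {P I : Type} (F : Fr L P) (g : Adr F.T → ℕ)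
    (hL : ∀ n, Countable (L.Relations n)) (hP : Countable P) (hK : Countable F.T.K)
    (hI : Countable I) : Countable (Fs F g I) := by
  have h1 := hb.ctT F.T hK
  have h2 := hb.ctR F g hL hP hK
  exact (REC_inj F g).countable

private def REC_coder {L : Lg} {P : Type} (F : Fr L P) (g : Adr F.T → ℕ) : Rs F g →
    ((r : ℕ) × Uf L (P ⊕ Fin r)) ⊕ (Bool ⊕ F.Rsn g)
  | .uf r φ => Sum.inl ⟨r, φ⟩
  | .gd => Sum.inr (Sum.inl true)
  | .cl => Sum.inr (Sum.inl false)
  | .rs ρ => Sum.inr (Sum.inr ρ)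

private theorem REC_injr {L : Lg} {P : Type} (F : Fr L P) (g : Adr F.T → ℕ) :
    Function.Injective (REC_coder F g) := by
  intro a b h
  cases a <;> cases b <;>
    simp only [REC_coder, Sum.inl.injEq, Sum.inr.injEq, reduceCtorEq] at h
  · obtain ⟨rfl, h⟩ := Sigma.mk.inj h
    obtain rfl := eq_of_heq h
    rfl
  · rfl
  · rfl
  · rw [h]

private theorem REC_ctr (hb : BAS) {L : Lg} {P : Type} (F : Fr L P) (g : Adr F.T → ℕ)
    (hL : ∀ n, Countable (L.Relations n)) (hP : Countable P) (hK : Countable F.T.K) :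
    Countable (Rs F g) := by
  have h2 := hb.ctR F g hL hP hK
  have h3 : ∀ r : ℕ, Countable (Uf L (P ⊕ Fin r)) := fun r => hb.ctu hL inferInstance
  exact (REC_injr F g).countable

private def REC_codea (G : UN.Sg) (ι : Type) : UN.At G ι →
    ((List G.Fn × ι) × (List G.Fn × ι)) ⊕ ((R : G.Rl) × (Fin (G.ar R) → List G.Fn × ι))
  | .eq s t => Sum.inl (s, t)
  | .rel R t => Sum.inr ⟨R, t⟩

private theorem REC_inja (G : UN.Sg) (ι : Type) : Function.Injective (REC_codea G ι) := by
  intro a b h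
  cases a <;> cases b <;> simp only [REC_codea, Sum.inl.injEq, Sum.inr.injEq, reduceCtorEq] at h
  · obtain ⟨rfl, rfl⟩ := Prod.mk.inj h
    rfl
  · obtain ⟨rfl, h⟩ := Sigma.mk.inj h
    obtain rfl := eq_of_heq h
    rfl

private theorem REC_cta (G : UN.Sg) (ι : Type) (h1 : Countable G.Fn) (h2 : Countable G.Rl)
    (h3 : Countable ι) : Countable (UN.At G ι) := (REC_inja G ι).countable

/-- [REC] a decreasing sequence in `X` with a common record -/
theorem thm_REC (hb : BAS) : St_REC := by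
  classical
  intro L P M I F g N X S hL hP hK hI hOk hX hcard
  have hF : Countable (SG F g I).Fn := REC_ct hb F g hL hP hK hI
  have hR : Countable (SG F g I).Rl := REC_ctr hb F g hL hP hK
  have hA : Countable (UN.At (SG F g I) Unit) := REC_cta _ _ hF hR inferInstance
  let rc : M → Set (UN.At (SG F g I) Unit) := fun z => {a | UN.Tr S (fun _ => z) a}
  -- an infinite fibre
  have hfib : ∃ r, {z | z ∈ X ∧ rc z = r}.Infinite := by
    by_contra hno
    push Not at hno
    apply absurd hcard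
    rw [not_lt]
    have h1 : X ⊆ ⋃ r, {z | z ∈ X ∧ rc z = r} := fun z hz => mem_iUnion.2 ⟨rc z, hz, rfl⟩
    refine (Cardinal.mk_le_mk_of_subset h1).trans ((Cardinal.mk_iUnion_le _).trans ?_)
    have h2 : Cardinal.mk (Set (UN.At (SG F g I) Unit)) ≤ Cardinal.continuum := by
      rw [Cardinal.mk_set]
      rw [← Cardinal.two_power_aleph0]
      exact Cardinal.power_le_power_left two_ne_zero (Cardinal.mk_le_aleph0_iff.2 hA)
    have h3 : (⨆ r, Cardinal.mk ({z | z ∈ X ∧ rc z = r} : Set M)) ≤ Cardinal.aleph0 := by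
      apply ciSup_le'
      intro r
      exact (hno r).countable.le_aleph0
    exact (mul_le_mul' h2 h3).trans (by rw [Cardinal.continuum_mul_aleph0])
  obtain ⟨r, hr⟩ := hfib
  -- maxima
  have hmax : ∀ s : Finset M, ∃ m, (m ∈ X ∧ rc m = r) ∧ m ∉ s ∧
      ∀ y, y ∈ X → rc y = r → y ∉ s → y = m ∨ F.Lt N y m := by
    intro s
    have hne : ({z | z ∈ X ∧ rc z = r} \ (s : Set M)).Nonempty :=
      (hr.sdiff s.finite_toSet).nonempty
    obtain ⟨m, hm, h⟩ := hX.wo _ (fun y hy => hy.1.1) hne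
    exact ⟨m, hm.1, hm.2, fun y h1 h2 h3 => h y ⟨⟨h1, h2⟩, h3⟩⟩
  choose f hf1 hf2 hf3 using hmax
  let s : ℕ → Finset M := fun n => Nat.rec ∅ (fun _ s => insert (f s) s) n
  have hs : ∀ n, s (n + 1) = insert (f (s n)) (s n) := fun n => rfl
  have hmono : ∀ n m, n < m → f (s n) ∈ s m := by
    intro n m hnm
    induction m with
    | zero => omega
    | succ m ih =>
      rw [hs]
      rcases Nat.lt_succ_iff_lt_or_eq.1 hnm with h | rfl
      · exact Finset.mem_insert_of_mem (ih h)
      · exact Finset.mem_insert_self _ _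
  have hsub : ∀ n m, n ≤ m → s n ⊆ s m := by
    intro n m hnm
    induction m, hnm using Nat.le_induction with
    | base => exact Finset.Subset.refl _
    | succ m _ ih => rw [hs]; exact ih.trans (Finset.subset_insert _ _)
  refine ⟨fun n => f (s n), fun n => (hf1 _).1, ?_, ?_⟩
  · intro n m hnm
    have h1 : f (s m) ≠ f (s n) := fun h => hf2 (s m) (by rw [h]; exact hmono n m hnm)
    have h2 : f (s m) ∉ s n := fun h => hf2 (s m) (hsub n m hnm.le h)
    refine ⟨?_, ?_⟩
    · rcases hf3 (s n) _ (hf1 (s m)).1 (hf1 (s m)).2 h2 with h | h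
      · exact absurd h h1
      · exact h
    · intro hc
      exact h1 (hX.xp _ (hf1 (s m)).1 _ (hf1 (s n)).1 hc)
  · intro n m a
    have h1 : rc (f (s n)) = rc (f (s m)) := (hf1 _).2.trans (hf1 _).2.symm
    have h2 := Set.ext_iff.1 h1 a
    exact h2

end ORD
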