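import Pool.Agent.ORD.RDD

/-!
# ORD [RED]: from linear orders of elements to linear preorders of tuples
-/

set_option autoImplicit false
set_option linter.unusedVariables false

namespace ORD

open Set FirstOrder

variable {L : Lg} {P M M' ι : Type} {k : ℕ}

private theorem RED_NR (k n : ℕ) : Countable (NR k n) := by
  let f : NR k n → Fin 3 := fun x => match x with
    | .U => 0
    | .C => 1
    | .O => 2
  have hf : Function.Injective f := by
    intro x y h
    cases x with
    | U => cases y with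
      | U => rfl
      | C => exact absurd h (by simp [f])
    | C => cases y with
      | U => exact absurd h (by simp [f])
      | C => rfl
      | O => exact absurd h (by simp [f])
    | O => cases y with
      | C => exact absurd h (by simp [f])
      | O => rfl
  exact hf.countable

/-- universal sentences in U-extensions -/
private theorem RED_un {N : Mo L P M} {N' : Mo L P M'} {j : M → M'} (h : UE N N' j) [Finite ι]
    (q : Qf L (P ⊕ ι)) (hq : ∀ v : ι → M, (∀ i, v i ∈ N.A) → N.Q q v) :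
    ∀ v : ι → M', (∀ i, v i ∈ N'.A) → N'.Q q v := by
  obtain ⟨m, ⟨e⟩⟩ := Finite.exists_equiv_fin ι
  have h0 : ∀ (M : Type) (N : Mo L P M) (z : Fin m → M),
      N.Q (q.map (Sum.map id fun i => Sum.inr (e i) : P ⊕ ι → P ⊕ (Empty ⊕ Fin m)))
        (Sum.elim Empty.elim z) ↔ N.Q q (z ∘ e) := by
    intro M N z
    show (q.map _).Tr N.S _ ↔ _
    rw [BAS_qmap]
    have h1 : Sum.elim N.c (Sum.elim Empty.elim z) ∘
        (Sum.map id fun i => Sum.inr (e i) : P ⊕ ι → P ⊕ (Empty ⊕ Fin m)) =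
        Sum.elim N.c (z ∘ e) := by
      funext i
      rcases i with i | i <;> rfl
    rw [h1]
    rfl
  intro v hv
  have h1 := h.tr Empty (mkU (q.map (Sum.map id fun i => Sum.inr (e i)))) Empty.elim
    (fun i => i.elim) (by
      rw [mkU_tr]
      intro z hz
      exact (h0 M N z).2 (hq _ fun i => hz _))
  rw [mkU_tr] at h1
  have h2 := h1 (v ∘ e.symm) fun i => hv _
  rw [show (j ∘ Empty.elim : Empty → M') = Empty.elim from funext fun i => i.elim] at h2
  have h3 := (h0 M' N' (v ∘ e.symm)).1 h2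
  rwa [show (v ∘ e.symm) ∘ e = v from by funext i; simp] at h3

/-- bounded fibres -/
private theorem RED_b (hE : EMB) (hC : St_COR1) [∀ n, IsEmpty (L.Functions n)]
    [hR : ∀ n, Countable (L.Relations n)] (T : Th L P) (N : Mo L P M) (W : Set M)
    (d : Qf L (P ⊕ Fin (k + 1))) (l : Qf L (P ⊕ (Fin (k + 1) ⊕ Fin (k + 1)))) (hP : Finite P)
    (hA : N.A = univ) (hM : Md T N) (hW : W.Countable) (hL : Lpo N d l) (n : ℕ)
    (hb : ∀ a : M, ∃ e : Fin n → Fin (k + 1) → M, (∀ i, N.Q d (e i)) ∧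
      ∀ z : Fin (k + 1) → M, N.Q d z → z 0 = a →
        ∃ i, N.Q l (Sum.elim z (e i)) ∧ N.Q l (Sum.elim (e i) z)) : Fam T N W := by
  classical
  have hin : ∀ x, x ∈ N.A := fun x => hA ▸ mem_univ x
  obtain ⟨a, -, ha2, ha3⟩ := hL.inf
  let s : Setoid {z : Fin (k + 1) → M // N.Q d z} :=
    { r := fun z z' => N.Q l (Sum.elim z.1 z'.1) ∧ N.Q l (Sum.elim z'.1 z.1)
      iseqv :=
        { refl := fun z => by
            have h1 := hL.tot z.1 z.1 (fun _ => hin _) (fun _ => hin _) z.2 z.2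
            rw [or_self] at h1
            exact ⟨h1, h1⟩
          symm := fun h => ⟨h.2, h.1⟩
          trans := fun {x y z} h h' => ⟨hL.trs x.1 y.1 z.1 (fun _ => hin _) (fun _ => hin _)
            (fun _ => hin _) x.2 y.2 z.2 h.1 h'.1, hL.trs z.1 y.1 x.1 (fun _ => hin _)
            (fun _ => hin _) (fun _ => hin _) z.2 y.2 x.2 h'.2 h.2⟩ } }
  let Q : Type := Quotient s
  let π : (Fin (k + 1) → M) → Q := fun z => if h : N.Q d z then Quotient.mk s ⟨z, h⟩ else
    Quotient.mk s ⟨a 0, ha2 0⟩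
  have hπ : ∀ z (h : N.Q d z), π z = Quotient.mk s ⟨z, h⟩ := fun z h => dif_pos h
  have h1 : ∀ q, ∃ z, N.Q d z ∧ π z = q := by
    intro q
    obtain ⟨⟨z, hz⟩, rfl⟩ := Quotient.exists_rep q
    exact ⟨z, hz, hπ z hz⟩
  have h2 : ∀ z z' : Fin (k + 1) → M, N.Q d z → N.Q d z' →
      (π z = π z' ↔ (N.Q l (Sum.elim z z') ∧ N.Q l (Sum.elim z' z))) := by
    intro z z' hz hz'
    rw [hπ z hz, hπ z' hz']
    exact Quotient.eq (r := s)
  have hG := plus_gp hE hA hL h1 h2
  have hne : Nonempty Q := ⟨π (a 0)⟩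
  have hB : Bf n d (plus N d l π) := by
    refine plus_bf hE hA hne fun x => ?_
    obtain ⟨e, he1, he2⟩ := hb x
    refine ⟨fun i => π (e i), fun z hz h0 => ?_⟩
    obtain ⟨i, hi⟩ := he2 z hz h0
    exact ⟨i, (h2 z (e i) hz (he1 i)).2 hi⟩
  refine fam_old hE W hA hM hG hB ?_
  have i1 : ∀ n, IsEmpty ((Lp L (k + 1)).Functions n) := fun n =>
    inferInstanceAs (IsEmpty (L.Functions n))
  have i2 : ∀ n, Countable ((Lp L (k + 1)).Relations n) := fun n => by
    have := RED_NR (k + 1) n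
    exact inferInstanceAs (Countable (L.Relations n ⊕ NR (k + 1) n))
  have i3 : Countable P := inferInstance
  have hD : ∀ x, (plus N d l π).Q ((qU (0 : Fin 1)).not) ![x] ↔ ∃ q : Q, x = Sum.inr q := by
    intro x
    rw [Q_not, Q_U]
    show (¬ ∃ y, x = Sum.inl y) ↔ _
    rcases x with x | q
    · simp
    · simp
  have hO : ∀ x y, (plus N d l π).Q (qO (0 : Fin 2) 1) ![x, y] ↔
      ∃ z z' : Fin (k + 1) → M, N.Q d z ∧ N.Q d z' ∧ ¬ N.Q l (Sum.elim z' z) ∧ x = Sum.inr (π z) ∧
      y = Sum.inr (π z') := by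
    intro x y
    rw [Q_O]
    exact plus_O x y
  have tr3 : ∀ x y z : Fin (k + 1) → M, N.Q d x → N.Q d y → N.Q d z →
      N.Q l (Sum.elim x y) → N.Q l (Sum.elim y z) → N.Q l (Sum.elim x z) := fun x y z =>
    hL.trs x y z (fun _ => hin _) (fun _ => hin _) (fun _ => hin _)
  have to2 : ∀ x y : Fin (k + 1) → M, N.Q d x → N.Q d y →
      N.Q l (Sum.elim x y) ∨ N.Q l (Sum.elim y x) := fun x y =>
    hL.tot x y (fun _ => hin _) (fun _ => hin _)
  refine hC (Lp L (k + 1)) P (M ⊕ Q) (Thy (plus N d l π)) (plus N d l π) (Sum.inl '' W)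
    ((qU (0 : Fin 1)).not) (qO (0 : Fin 2) 1) hP (Thy_ct _ i2) rfl
    (Thy_md _ ⟨Sum.inr (π (a 0)), mem_univ _⟩ fun _ => mem_univ _) (hW.image _) ?_ ?_ ?_ ?_
  · intro x _ hxx
    obtain ⟨z, z', hz, hz', h3, rfl, h4⟩ := (hO _ _).1 hxx
    exact h3 ((h2 z z' hz hz').1 (Sum.inr_injective h4)).2
  · intro x y z _ _ _ hxy hyz
    obtain ⟨x1, y1, hx1, hy1, h3, rfl, rfl⟩ := (hO _ _).1 hxy
    obtain ⟨y2, z1, hy2, hz1, h4, h5, rfl⟩ := (hO _ _).1 hyz
    have h6 := (h2 y1 y2 hy1 hy2).1 (Sum.inr_injective h5)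
    refine (hO _ _).2 ⟨x1, z1, hx1, hz1, fun h7 => h4 ?_, rfl, rfl⟩
    have h8 := (to2 x1 y1 hx1 hy1).resolve_right h3
    exact tr3 z1 x1 y2 hz1 hx1 hy2 h7 (tr3 x1 y1 y2 hx1 hy1 hy2 h8 h6.1)
  · intro x y hx hy
    obtain ⟨q, rfl⟩ := (hD x).1 hx
    obtain ⟨q', rfl⟩ := (hD y).1 hy
    obtain ⟨z, hz, rfl⟩ := h1 q
    obtain ⟨z', hz', rfl⟩ := h1 q'
    by_cases h3 : N.Q l (Sum.elim z z')
    · by_cases h4 : N.Q l (Sum.elim z' z)
      · left
        rw [(h2 z z' hz hz').2 ⟨h3, h4⟩]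
      · exact Or.inr (Or.inl ((hO _ _).2 ⟨z, z', hz, hz', h4, rfl, rfl⟩))
    · exact Or.inr (Or.inr ((hO _ _).2 ⟨z', z, hz', hz, h3, rfl, rfl⟩))
  · have h3 : Function.Injective fun n => (Sum.inr (π (a n)) : M ⊕ Q) := by
      intro n m hnm
      have h4 := (h2 (a n) (a m) (ha2 n) (ha2 m)).1 (Sum.inr_injective hnm)
      exact ha3 n m h4.1 h4.2
    refine (infinite_range_of_injective h3).mono ?_
    rintro _ ⟨n, rfl⟩
    exact (hD _).2 ⟨_, rfl⟩

/-- unbounded fibres: many elements in one fibre -/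
private theorem RED_u (N : Mo L P M) (d : Qf L (P ⊕ Fin (k + 1)))
    (l : Qf L (P ⊕ (Fin (k + 1) ⊕ Fin (k + 1)))) (z0 : Fin (k + 1) → M) (hz0 : N.Q d z0) (n : ℕ)
    (a : M) (hb : ∀ e : Fin n → Fin (k + 1) → M, (∀ i, N.Q d (e i)) →
      ∃ z : Fin (k + 1) → M, N.Q d z ∧ z 0 = a ∧
        ∀ i, ¬ (N.Q l (Sum.elim z (e i)) ∧ N.Q l (Sum.elim (e i) z))) : ∀ m ≤ n,
    ∃ z : Fin m → Fin (k + 1) → M, (∀ i, N.Q d (z i) ∧ z i 0 = a) ∧ ∀ i j, i ≠ j →
      ¬ (N.Q l (Sum.elim (z i) (z j)) ∧ N.Q l (Sum.elim (z j) (z i))) := by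
  intro m
  induction m with
  | zero => exact fun _ => ⟨fun i => i.elim0, fun i => i.elim0, fun i => i.elim0⟩
  | succ m ih =>
    intro hm
    obtain ⟨z, hz1, hz2⟩ := ih (by omega)
    obtain ⟨z', h1, h2, h3⟩ := hb (fun i => if h : (i : ℕ) < m then z ⟨i, h⟩ else z0) (by
      intro i
      by_cases h : (i : ℕ) < m
      · simp only [dif_pos h]
        exact (hz1 _).1
      · simp only [dif_neg h]
        exact hz0)
    have h4 : ∀ i : Fin m, ¬ (N.Q l (Sum.elim z' (z i)) ∧ N.Q l (Sum.elim (z i) z')) := by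
      intro i
      have h5 := h3 ⟨i, by omega⟩
      simp only [dif_pos i.2] at h5
      exact h5
    refine ⟨Fin.snoc z z', ?_, ?_⟩
    · intro i
      refine Fin.lastCases ?_ (fun i => ?_) i
      · rw [Fin.snoc_last]
        exact ⟨h1, h2⟩
      · rw [Fin.snoc_castSucc]
        exact hz1 i
    · intro i j
      refine Fin.lastCases ?_ (fun i => ?_) i
      · refine Fin.lastCases ?_ (fun j => ?_) j
        · intro h5
          exact absurd rfl h5
        · intro _
          rw [Fin.snoc_last, Fin.snoc_castSucc]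
          exact h4 j
      · refine Fin.lastCases ?_ (fun j => ?_) j
        · intro _ h5
          rw [Fin.snoc_last, Fin.snoc_castSucc] at h5
          exact h4 i ⟨h5.2, h5.1⟩
        · intro h5
          rw [Fin.snoc_castSucc, Fin.snoc_castSucc]
          exact hz2 i j fun h6 => h5 (by rw [h6])

theorem thm_RED (hE : EMB) (hP : St_CPE) (hC : St_COR1) : St_CORE := by
  classical
  intro L _ hR P M T N W k d l
  induction k generalizing P M with
  | zero =>
    intro _ _ hA _ _ hL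
    obtain ⟨a, ha1, ha2, ha3⟩ := hL.inf
    have h1 : a 0 = a 1 := funext fun i => i.elim0
    have h2 := hL.tot (a 0) (a 0) (ha1 0) (ha1 0) (ha2 0) (ha2 0)
    rw [or_self] at h2
    have h3 := ha3 0 1 (by rw [← h1]; exact h2) (by rw [← h1]; exact h2)
    exact absurd h3 (by decide)
  | succ k ih =>
    intro hPf hK hA hM hW hL
    have hin : ∀ x, x ∈ N.A := fun x => hA ▸ mem_univ x
    by_cases hb : ∃ n : ℕ, ∀ a : M, ∃ e : Fin n → Fin (k + 1) → M, (∀ i, N.Q d (e i)) ∧
      ∀ z : Fin (k + 1) → M, N.Q d z → z 0 = a →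
        ∃ i, N.Q l (Sum.elim z (e i)) ∧ N.Q l (Sum.elim (e i) z)
    · obtain ⟨n, hb⟩ := hb
      exact RED_b hE hC T N W d l hPf hA hM hW hL n hb
    -- unbounded fibres
    push Not at hb
    obtain ⟨a0, -, ha2, -⟩ := hL.inf
    have hz : ∀ n, ∃ (a : M) (z : Fin n → Fin (k + 1) → M), (∀ i, N.Q d (z i) ∧ z i 0 = a) ∧
        ∀ i j, i ≠ j → ¬ (N.Q l (Sum.elim (z i) (z j)) ∧ N.Q l (Sum.elim (z j) (z i))) := by
      intro n
      obtain ⟨a, ha⟩ := hb n
      exact ⟨a, RED_u N d l (a0 0) (ha2 0) n a (fun e he => by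
        obtain ⟨z, h1, h2, h3⟩ := ha e he
        exact ⟨z, h1, h2, fun i h4 => h3 i h4.1 h4.2⟩) n le_rfl⟩
    -- the formulas
    let V : Type := Unit ⊕ (ℕ × Fin (k + 1))
    let aV : N.A ⊕ V := Sum.inr (Sum.inl ())
    let zV : ℕ → Fin (k + 1) → N.A ⊕ V := fun i c => Sum.inr (Sum.inr (i, c))
    let ψ : ℕ → Qf L (P ⊕ (N.A ⊕ V)) := fun n =>
      (qA fun i : Fin n => (d.map (Sum.map id (zV i))).and
        (Qf.eq (Sum.inr (zV i 0)) (Sum.inr aV))).and
      (qA fun i : Fin n => qA fun j : Fin n => if i = j then Qf.not .bot else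
        ((l.map (Sum.map id (Sum.elim (zV i) (zV j)))).and
          (l.map (Sum.map id (Sum.elim (zV j) (zV i))))).not)
    have hψ : ∀ (n : ℕ) (M₁ : Type) (N₁ : Mo L P M₁) (v : N.A ⊕ V → M₁), N₁.Q (ψ n) v ↔
        (∀ i : Fin n, N₁.Q d (fun c => v (zV i c)) ∧ v (zV i 0) = v aV) ∧
        ∀ i j : Fin n, i ≠ j → ¬ (N₁.Q l (Sum.elim (fun c => v (zV i c)) (fun c => v (zV j c))) ∧
          N₁.Q l (Sum.elim (fun c => v (zV j c)) (fun c => v (zV i c)))) := by
      intro n M₁ N₁ v
      have q1 : ∀ i : Fin n, N₁.Q (d.map (Sum.map id (zV i))) v ↔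
          N₁.Q d (fun c => v (zV i c)) := by
        intro i
        show (d.map _).Tr N₁.S _ ↔ _
        rw [BAS_qmap]
        have h1 : Sum.elim N₁.c v ∘ Sum.map id (zV i) = Sum.elim N₁.c fun c => v (zV i c) := by
          funext x
          rcases x with x | x <;> rfl
        rw [h1]
        rfl
      have q2 : ∀ i j : Fin n, N₁.Q (l.map (Sum.map id (Sum.elim (zV i) (zV j)))) v ↔
          N₁.Q l (Sum.elim (fun c => v (zV i c)) (fun c => v (zV j c))) := by
        intro i j
        show (l.map _).Tr N₁.S _ ↔ _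
        rw [BAS_qmap]
        have h1 : Sum.elim N₁.c v ∘ Sum.map id (Sum.elim (zV i) (zV j)) = Sum.elim N₁.c
            (Sum.elim (fun c => v (zV i c)) (fun c => v (zV j c))) := by
          funext x
          rcases x with x | x | x <;> rfl
        rw [h1]
        rfl
      show N₁.Q (Qf.and _ _) v ↔ _
      rw [Q_and, Q_A, Q_A]
      refine and_congr (forall_congr' fun i => ?_) (forall_congr' fun i => ?_)
      · rw [Q_and, q1, Q_eq]
      · rw [Q_A]
        refine forall_congr' fun j => ?_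
        by_cases hij : i = j
        · rw [if_pos hij]
          constructor
          · intro _ h
            exact absurd hij h
          · intro _ h
            exact h
        · rw [if_neg hij, Q_not, Q_and, q2, q2]
          exact ⟨fun h _ => h, fun h => h hij⟩
    obtain ⟨M', N', j, v, hM', hA', hue, hv⟩ := hP L P T M N V
      (range fun n => Uf.qf (ψ n)) hM (by
        intro φ₀ hφ₀ Δ hΔ hfin
        -- a bound for the indices
        have h1 : ∃ n0 : ℕ, ∀ φ ∈ Δ, ∃ n ≤ n0, φ = Uf.qf (ψ n) := by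
          choose! i hi using fun φ (hφ : φ ∈ Δ) => hΔ hφ
          refine ⟨(hfin.toFinset.sup i), fun φ hφ => ⟨i φ, ?_, (hi φ hφ).symm⟩⟩
          exact Finset.le_sup (f := i) (hfin.mem_toFinset.2 hφ)
        obtain ⟨n0, hn0⟩ := h1
        obtain ⟨a, z, hz1, hz2⟩ := hz n0
        refine ⟨M, N, fun x => (x : M), Sum.elim (fun _ => a) (fun p => if h : p.1 < n0 then
          z ⟨p.1, h⟩ p.2 else a), hM, fun _ => hin _, fun _ => hin _, hφ₀, ?_⟩
        intro φ hφ
        obtain ⟨n, hn, rfl⟩ := hn0 φ hφ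
        refine (BAS_uqf _ _ _ _).2 ?_
        refine (hψ n M N _).2 ?_
        have h3 : ∀ i : Fin n, (fun c => (Sum.elim (fun x : N.A => (x : M)) (Sum.elim
            (fun _ => a) (fun p => if h : p.1 < n0 then z ⟨p.1, h⟩ p.2 else a)) :
            N.A ⊕ V → M) (zV i c)) = z ⟨i, by omega⟩ := by
          intro i
          funext c
          have h4 : (i : ℕ) < n0 := by omega
          show (if h : (i : ℕ) < n0 then z ⟨i, h⟩ c else a) = _
          rw [dif_pos h4]
        refine ⟨fun i => ?_, fun i i' hii => ?_⟩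
        · rw [h3]
          exact ⟨(hz1 _).1, (congrFun (h3 i) 0).trans (hz1 _).2⟩
        · rw [h3, h3]
          refine hz2 _ _ fun h5 => hii ?_
          have h6 := congrArg Fin.val h5
          exact Fin.ext h6)
    -- the new model
    have hin' : ∀ x, x ∈ N'.A := fun x => hA' ▸ mem_univ x
    let a' : M' := v (Sum.inl ())
    let z' : ℕ → Fin (k + 1) → M' := fun i c => v (Sum.inr (i, c))
    have hz' : ∀ n, (∀ i : Fin n, N'.Q d (z' i) ∧ z' i 0 = a') ∧
        ∀ i j : Fin n, i ≠ j → ¬ (N'.Q l (Sum.elim (z' i) (z' j)) ∧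
          N'.Q l (Sum.elim (z' j) (z' i))) := by
      intro n
      exact (hψ n M' N' _).1 ((BAS_uqf _ _ _ _).1 (hv _ ⟨n, rfl⟩))
    have hz1 : ∀ n, N'.Q d (z' n) ∧ z' n 0 = a' := fun n =>
      (hz' (n + 1)).1 ⟨n, by omega⟩
    have hz2 : ∀ n m, N'.Q l (Sum.elim (z' n) (z' m)) → N'.Q l (Sum.elim (z' m) (z' n)) →
        n = m := by
      intro n m h1 h2
      by_contra hnm
      exact (hz' (n + m + 1)).2 ⟨n, by omega⟩ ⟨m, by omega⟩
        (fun h3 => hnm (congrArg Fin.val h3)) ⟨h1, h2⟩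
    let N₁ : Mo L (Option P) M' := ⟨N'.S, univ, fun p => p.elim a' N'.c⟩
    have hres : N₁.res some = N' := by
      have h1 : N' = ⟨N'.S, N'.A, N'.c⟩ := rfl
      rw [h1, hA']
      rfl
    let d₁ : Qf L (Option P ⊕ Fin k) := d.map (Sum.elim (fun p => Sum.inl (some p))
      (Fin.cons (Sum.inl none) fun i => Sum.inr i))
    let l₁ : Qf L (Option P ⊕ (Fin k ⊕ Fin k)) := l.map (Sum.elim (fun p => Sum.inl (some p))
      (Sum.elim (Fin.cons (Sum.inl none) fun i => Sum.inr (Sum.inl i))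
        (Fin.cons (Sum.inl none) fun i => Sum.inr (Sum.inr i))))
    have hd₁ : ∀ x : Fin k → M', N₁.Q d₁ x ↔ N'.Q d (Fin.cons a' x : Fin (k + 1) → M') := by
      intro x
      show (d.map _).Tr N'.S _ ↔ _
      rw [BAS_qmap]
      have h1 : Sum.elim N₁.c x ∘ (Sum.elim (fun p => Sum.inl (some p))
          (Fin.cons (Sum.inl none) fun i => Sum.inr i)) =
          Sum.elim N'.c (Fin.cons a' x : Fin (k + 1) → M') := by
        funext i
        rcases i with i | i
        · rfl
        · exact Fin.cases rfl (fun _ => rfl) i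
      rw [h1]
      rfl
    have hl₁ : ∀ x y : Fin k → M', N₁.Q l₁ (Sum.elim x y) ↔
        N'.Q l (Sum.elim (Fin.cons a' x : Fin (k + 1) → M')
          (Fin.cons a' y : Fin (k + 1) → M')) := by
      intro x y
      show (l.map _).Tr N'.S _ ↔ _
      rw [BAS_qmap]
      have h1 : Sum.elim N₁.c (Sum.elim x y) ∘ (Sum.elim (fun p => Sum.inl (some p))
          (Sum.elim (Fin.cons (Sum.inl none) fun i => Sum.inr (Sum.inl i))
          (Fin.cons (Sum.inl none) fun i => Sum.inr (Sum.inr i)))) =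
          Sum.elim N'.c (Sum.elim (Fin.cons a' x : Fin (k + 1) → M')
            (Fin.cons a' y : Fin (k + 1) → M')) := by
        funext i
        rcases i with i | i | i
        · rfl
        · exact Fin.cases rfl (fun _ => rfl) i
        · exact Fin.cases rfl (fun _ => rfl) i
      rw [h1]
      rfl
    have htrs : ∀ x y z : Fin (k + 1) → M', N'.Q d x → N'.Q d y → N'.Q d z →
        N'.Q l (Sum.elim x y) → N'.Q l (Sum.elim y z) → N'.Q l (Sum.elim x z) := by
      have key : ∀ (M₁ : Type) (N₁ : Mo L P M₁) (v : Fin (k + 1) ⊕ (Fin (k + 1) ⊕ Fin (k + 1)) → M₁),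
          N₁.Q ((d.map (Sum.map id Sum.inl)).imp ((d.map (Sum.map id fun i =>
            Sum.inr (Sum.inl i))).imp ((d.map (Sum.map id fun i => Sum.inr (Sum.inr i))).imp
            ((l.map (Sum.map id (Sum.elim Sum.inl fun i => Sum.inr (Sum.inl i)))).imp
            ((l.map (Sum.map id Sum.inr)).imp
            (l.map (Sum.map id (Sum.elim Sum.inl fun i => Sum.inr (Sum.inr i))))))))) v ↔
          (N₁.Q d (fun i => v (Sum.inl i)) → N₁.Q d (fun i => v (Sum.inr (Sum.inl i))) →
            N₁.Q d (fun i => v (Sum.inr (Sum.inr i))) →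
            N₁.Q l (Sum.elim (fun i => v (Sum.inl i)) fun i => v (Sum.inr (Sum.inl i))) →
            N₁.Q l (Sum.elim (fun i => v (Sum.inr (Sum.inl i))) fun i => v (Sum.inr (Sum.inr i))) →
            N₁.Q l (Sum.elim (fun i => v (Sum.inl i)) fun i => v (Sum.inr (Sum.inr i)))) := by
        intro M₁ N₁ v
        have q1 : ∀ {κ : Type} (q : Qf L (P ⊕ κ))
            (h : κ → Fin (k + 1) ⊕ (Fin (k + 1) ⊕ Fin (k + 1))) (v' : κ → M₁), v ∘ h = v' →
            (N₁.Q (q.map (Sum.map id h)) v ↔ N₁.Q q v') := by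
          intro κ q h v' hv'
          subst hv'
          show (q.map _).Tr N₁.S _ ↔ _
          rw [BAS_qmap]
          have h1 : Sum.elim N₁.c v ∘ Sum.map id h = Sum.elim N₁.c (v ∘ h) := by
            funext x
            rcases x with x | x <;> rfl
          rw [h1]
          rfl
        rw [Q_imp, Q_imp, Q_imp, Q_imp, Q_imp]
        refine imp_congr (q1 _ _ _ rfl) (imp_congr (q1 _ _ _ rfl) (imp_congr (q1 _ _ _ rfl)
          (imp_congr (q1 _ _ _ ?_) (imp_congr (q1 _ _ _ ?_) (q1 _ _ _ ?_)))))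
        · funext i
          rcases i with i | i <;> rfl
        · funext i
          rcases i with i | i <;> rfl
        · funext i
          rcases i with i | i <;> rfl
      intro x y z
      have h1 := RED_un hue _ (fun v hv => (key M N v).2 fun h1 h2 h3 h4 h5 =>
        hL.trs _ _ _ (fun _ => hin _) (fun _ => hin _) (fun _ => hin _) h1 h2 h3 h4 h5)
        (Sum.elim x (Sum.elim y z)) fun _ => hin' _
      exact (key M' N' _).1 h1
    have htot : ∀ x y : Fin (k + 1) → M', N'.Q d x → N'.Q d y →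
        N'.Q l (Sum.elim x y) ∨ N'.Q l (Sum.elim y x) := by
      have key : ∀ (M₁ : Type) (N₁ : Mo L P M₁) (v : Fin (k + 1) ⊕ Fin (k + 1) → M₁),
          N₁.Q ((d.map (Sum.map id Sum.inl)).imp ((d.map (Sum.map id Sum.inr)).imp
            ((l.map (Sum.map id id)).or (l.map (Sum.map id Sum.swap))))) v ↔
          (N₁.Q d (fun i => v (Sum.inl i)) → N₁.Q d (fun i => v (Sum.inr i)) →
            (N₁.Q l (Sum.elim (fun i => v (Sum.inl i)) fun i => v (Sum.inr i)) ∨
            N₁.Q l (Sum.elim (fun i => v (Sum.inr i)) fun i => v (Sum.inl i)))) := by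
        intro M₁ N₁ v
        have q1 : ∀ {κ : Type} (q : Qf L (P ⊕ κ)) (h : κ → Fin (k + 1) ⊕ Fin (k + 1))
            (v' : κ → M₁), v ∘ h = v' → (N₁.Q (q.map (Sum.map id h)) v ↔ N₁.Q q v') := by
          intro κ q h v' hv'
          subst hv'
          show (q.map _).Tr N₁.S _ ↔ _
          rw [BAS_qmap]
          have h1 : Sum.elim N₁.c v ∘ Sum.map id h = Sum.elim N₁.c (v ∘ h) := by
            funext x
            rcases x with x | x <;> rfl
          rw [h1]
          rfl
        rw [Q_imp, Q_imp, Q_or]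
        refine imp_congr (q1 _ _ _ rfl) (imp_congr (q1 _ _ _ rfl) (or_congr (q1 _ _ _ ?_)
          (q1 _ _ _ ?_)))
        · funext i
          rcases i with i | i <;> rfl
        · funext i
          rcases i with i | i <;> rfl
      intro x y
      have h1 := RED_un hue _ (fun v hv => (key M N v).2 fun h1 h2 =>
        hL.tot _ _ (fun _ => hin _) (fun _ => hin _) h1 h2)
        (Sum.elim x y) fun _ => hin' _
      exact (key M' N' _).1 h1
    have hcons : ∀ n, (Fin.cons a' (fun i => z' n (Fin.succ i)) : Fin (k + 1) → M') = z' n := by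
      intro n
      funext i
      exact Fin.cases (hz1 n).2.symm (fun _ => rfl) i
    have hL₁ : Lpo N₁ d₁ l₁ := by
      refine ⟨?_, ?_, fun n i => z' n i.succ, fun _ _ => mem_univ _, fun n => ?_, fun n m => ?_⟩
      · intro x y z _ _ _ h1 h2 h3 h4 h5
        rw [hd₁] at h1 h2 h3
        rw [hl₁] at h4 h5 ⊢
        exact htrs _ _ _ h1 h2 h3 h4 h5
      · intro x y _ _ h1 h2
        rw [hd₁] at h1 h2
        rw [hl₁, hl₁]
        exact htot _ _ h1 h2
      · rw [hd₁, hcons]
        exact (hz1 n).1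
      · rw [hl₁, hl₁, hcons, hcons]
        exact hz2 n m
    have hM₁ : Md (T.map some) N₁ := by
      rw [hE.rmd some fun _ => mem_univ _, hres]
      exact hM'
    obtain ⟨M₂, N₂, w, X, E, G, h⟩ := ih (Option P) M' (T.map some) N₁ (j '' W) d₁ l₁
      inferInstance hK rfl hM₁ (hW.image j) hL₁
    let r : W → (j '' W : Set M') := fun x => ⟨j x, x, x.2, rfl⟩
    refine ⟨M₂, N₂.res some, w ∘ r, X, E, G, ?_⟩
    constructor
    case cou => exact h.cou
    case clo => exact h.clo
    case inf => exact h.inf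
    case mod =>
      intro f
      exact (hE.rmd some (h.mod f).cst).1 (h.mod f)
    case wit => exact fun f x => h.wit f _
    case tru =>
      intro f φ hφ
      have key : ∀ (M₁ : Type) (N₁ : Mo L (Option P) M₁) (v : (j '' W : Set M') → M₁),
          N₁.Tr (φ.map (Sum.map some r)) v ↔ (N₁.res some).Tr φ (v ∘ r) := by
        intro M₁ N₁ v
        show (φ.map (Sum.map some r)).Tr N₁.S N₁.A _ ↔ _
        rw [BAS_umap]
        have h3 : Sum.elim N₁.c v ∘ Sum.map some r = Sum.elim (N₁.res some).c (v ∘ r) := by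
          funext i
          rcases i with i | i <;> rfl
        rw [h3]
        rfl
      have h1 : N'.Tr φ (j ∘ fun x : W => (x : M)) := hue.tr W φ _ (fun _ => hin _) hφ
      have h2 : N₁.Tr (φ.map (Sum.map some r)) fun x => (x : M') := by
        rw [key, hres]
        exact h1
      exact (key _ _ _).1 (h.tru f _ h2)
    case mdE => exact (hE.rmd some h.mdE.cst).1 h.mdE
    case sub => exact h.sub
    case fin => exact h.fin
    case gsE => exact h.gsE
    case non => exact h.non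

end ORD
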