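import Pool.Agent.ORD.StA

/-!
# ORD: [RSN] A point of a model becomes good in a U-extension, or it has a reason
-/

set_option autoImplicit false
set_option linter.unusedVariables false

namespace ORD

open Set FirstOrder

section

variable {L : Lg} {P M M' : Type}

/-- the formula for the top -/
private def RSN_top (F : Fr L P) {V : Type} (y : V) : Uf L (P ⊕ (V ⊕ Adr F.T)) :=
  Uf.qf (Qf.eq (Sum.inr (Sum.inr [])) (Sum.inr (Sum.inl y)))

/-- the formula for the witnesses -/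
private def RSN_wit (F : Fr L P) (V : Type) (p : Adr F.T × F.T.K) : Uf L (P ⊕ (V ⊕ Adr F.T)) :=
  (F.T.ax p.2).map (Sum.map id (Fin.cons (Sum.inr p.1) fun i => Sum.inr (⟨p.2, i⟩ :: p.1)))

private theorem RSN_top_tr (hb : BAS) (F : Fr L P) {V : Type} (y : V) (N : Mo L P M)
    (j : V → M) (u : Adr F.T → M) :
    N.Tr (RSN_top F y) (Sum.elim j u) ↔ u [] = j y := by
  unfold Mo.Tr RSN_top
  rw [hb.uqf]
  exact Iff.rfl

private theorem RSN_wit_tr (hb : BAS) (F : Fr L P) {V : Type} (p : Adr F.T × F.T.K)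
    (N : Mo L P M) (j : V → M) (u : Adr F.T → M) :
    N.Tr (RSN_wit F V p) (Sum.elim j u) ↔
      F.T.Wit N p.2 (u p.1) fun i => u (⟨p.2, i⟩ :: p.1) := by
  unfold Mo.Tr RSN_wit Th.Wit Mo.Tr
  rw [hb.umap]
  have h : Sum.elim N.c (Sum.elim j u) ∘ Sum.map id
      (Fin.cons (Sum.inr p.1) fun i => Sum.inr (⟨p.2, i⟩ :: p.1))
      = Sum.elim N.c (Fin.cons (u p.1) fun i => u (⟨p.2, i⟩ :: p.1) :
          Fin (F.T.n p.2 + 1) → M) := by
    funext x
    rcases x with x | x
    · rfl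
    · refine Fin.cases ?_ (fun i => ?_) x <;> rfl
  rw [h]

private theorem RSN_bd (hb : BAS) (F : Fr L P) (g : Adr F.T → ℕ) {V : Type} (y : V)
    (s : Adr F.T) : ∃ χ : Uf L (P ⊕ (V ⊕ Adr F.T)), ∀ (M : Type) (N : Mo L P M) (j : V → M)
      (u : Adr F.T → M), u s ∈ N.A → (N.Tr χ (Sum.elim j u) ↔ F.Bd g N (j y) u s) := by
  let e : P ⊕ Fin 1 → P ⊕ (V ⊕ Adr F.T) := Sum.elim Sum.inl ![Sum.inr (Sum.inr s)]
  let e1 : P ⊕ Fin 2 → P ⊕ (V ⊕ Adr F.T) :=
    Sum.elim Sum.inl ![Sum.inr (Sum.inl y), Sum.inr (Sum.inr s)]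
  let e2 : P ⊕ Fin 2 → P ⊕ (V ⊕ Adr F.T) :=
    Sum.elim Sum.inl ![Sum.inr (Sum.inr s), Sum.inl F.v]
  obtain ⟨χ, hχ⟩ := hb.uimp ((F.d.map e).and ((F.l.map e1).and (F.l.map e2)))
    ((F.E (g s)).map e1)
  refine ⟨χ, fun M N j u hs => ?_⟩
  unfold Mo.Tr
  rw [hχ, hb.qand, hb.qand, hb.qmap, hb.qmap, hb.qmap, hb.umap]
  have h1 : Sum.elim N.c (Sum.elim j u) ∘ e = Sum.elim N.c ![u s] := by
    funext x
    rcases x with x | x
    · rfl
    · fin_cases x; rfl
  have h2 : Sum.elim N.c (Sum.elim j u) ∘ e1 = Sum.elim N.c ![j y, u s] := by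
    funext x
    rcases x with x | x
    · rfl
    · fin_cases x <;> rfl
  have h3 : Sum.elim N.c (Sum.elim j u) ∘ e2 = Sum.elim N.c ![u s, N.c F.v] := by
    funext x
    rcases x with x | x
    · rfl
    · fin_cases x <;> rfl
  rw [h1, h2, h3]
  constructor
  · intro h h4 h5 h6
    exact h ⟨h4.2, h5, h6⟩
  · intro h h4
    exact h ⟨hs, h4.1⟩ h4.2.1 h4.2.2

/-- a finite set contained in a range -/
private theorem RSN_fin {I X : Type} (G : I → X) (Δ : Set X) (h : Δ ⊆ range G) (hf : Δ.Finite) :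
    ∃ T : Set I, T.Finite ∧ Δ ⊆ G '' T := by
  have h1 : ∀ x : Δ, ∃ i, G i = x := fun x => h x.2
  choose k hk using h1
  have := hf.to_subtype
  refine ⟨range k, Set.finite_range k, fun x hx => ⟨k ⟨x, hx⟩, ⟨_, rfl⟩, hk ⟨x, hx⟩⟩⟩

end

theorem thm_RSN (hb : BAS) (he : EMB) (hc : St_CPE) : St_RSN := by
  classical
  intro L P M F g N hN y hy
  have hbd := fun s : Adr F.T => RSN_bd hb F g (⟨y, hy⟩ : N.A) s
  choose B hB using hbd
  let I : Type := Unit ⊕ ((Adr F.T × F.T.K) ⊕ Adr F.T)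
  let G : I → Uf L (P ⊕ (N.A ⊕ Adr F.T)) :=
    Sum.elim (fun _ => RSN_top F ⟨y, hy⟩) (Sum.elim (RSN_wit F N.A) B)
  by_cases hyp : (∀ φ₀ : Uf L (P ⊕ N.A), N.Tr φ₀ (fun a => (a : M)) → ∀ Δ ⊆ range G,
      Δ.Finite → ∃ (M' : Type) (N' : Mo L P M') (j : N.A → M') (v : Adr F.T → M'), Md F.T N' ∧
      (∀ a, j a ∈ N'.A) ∧ (∀ i, v i ∈ N'.A) ∧ N'.Tr φ₀ j ∧ ∀ φ ∈ Δ, N'.Tr φ (Sum.elim j v))
  · left
    obtain ⟨M', N', j, v, h1, h2, h3, h4⟩ := hc L P F.T M N (Adr F.T) (range G) hN hyp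
    have hu : ∀ x, x ∈ N'.A := fun x => by rw [h2]; exact mem_univ x
    refine ⟨M', N', j, h1, h2, h3, v, ⟨⟨fun s => hu _, ?_, ?_⟩, ?_⟩⟩
    · have h5 := h4 _ ⟨Sum.inl (), rfl⟩
      exact (RSN_top_tr hb F _ N' _ v).1 h5
    · intro s k
      have h5 := h4 _ ⟨Sum.inr (Sum.inl (s, k)), rfl⟩
      exact (RSN_wit_tr hb F (s, k) N' _ v).1 h5
    · intro s
      have h5 := h4 _ ⟨Sum.inr (Sum.inr s), rfl⟩
      exact (hB s M' N' _ v (hu _)).1 h5
  · right
    simp only [not_forall, not_exists, not_and] at hyp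
    obtain ⟨φ₀, hφ₀, Δ, hΔ, hfin, hno⟩ := hyp
    obtain ⟨T, hT, hΔT⟩ := RSN_fin G Δ hΔ hfin
    have hJ : {x : Adr F.T × F.T.K | (Sum.inr (Sum.inl x) : I) ∈ T}.Finite :=
      hT.preimage (Function.Injective.injOn (Sum.inr_injective.comp Sum.inl_injective))
    have hH : {x : Adr F.T | (Sum.inr (Sum.inr x) : I) ∈ T}.Finite :=
      hT.preimage (Function.Injective.injOn (Sum.inr_injective.comp Sum.inr_injective))
    obtain ⟨n, a, θ₀, hθ₀⟩ := hb.ufin φ₀
    let b : Fin (n + 1) → N.A := Fin.cons ⟨y, hy⟩ a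
    let ls : List (Fin (n + 1) × Fin (n + 1)) :=
      (List.finRange (n + 1) ×ˢ List.finRange (n + 1)).filter fun p => decide (b p.1 = b p.2)
    have hls : ∀ p, p ∈ ls ↔ b p.1 = b p.2 := by
      intro p
      rw [List.mem_filter, decide_eq_true_iff]
      refine ⟨fun h => h.2, fun h => ⟨?_, h⟩⟩
      rw [List.mem_product]
      exact ⟨List.mem_finRange _, List.mem_finRange _⟩
    let E : Qf L (P ⊕ Fin (n + 1)) := Qf.all (ls.map fun p => Qf.eq (Sum.inr p.1) (Sum.inr p.2))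
    have hE : ∀ (M' : Type) (N' : Mo L P M') (w : Fin (n + 1) → M'),
        N'.Tr (Uf.qf E) w ↔ ∀ i k, b i = b k → w i = w k := by
      intro M' N' w
      unfold Mo.Tr
      rw [hb.uqf, hb.qall]
      constructor
      · intro h i k hik
        exact h _ (List.mem_map.2 ⟨(i, k), (hls _).2 hik, rfl⟩)
      · intro h φ hφ
        obtain ⟨p, hp, rfl⟩ := List.mem_map.1 hφ
        exact h _ _ ((hls _).1 hp)
    obtain ⟨θ, hθ⟩ := hb.uand (θ₀.map (Sum.map id Fin.succ)) (Uf.qf E)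
    have hsucc : ∀ (M' : Type) (N' : Mo L P M') (y' : M') (a' : Fin n → M'),
        (θ₀.map (Sum.map id Fin.succ)).Tr N'.S N'.A
          (Sum.elim N'.c (Fin.cons y' a' : Fin (n + 1) → M')) ↔
        θ₀.Tr N'.S N'.A (Sum.elim N'.c a') := by
      intro M' N' y' a'
      rw [hb.umap]
      have h : Sum.elim N'.c (Fin.cons y' a' : Fin (n + 1) → M') ∘ Sum.map id Fin.succ
          = Sum.elim N'.c a' := by
        funext x
        rcases x with x | x <;> rfl
      rw [h]
    refine ⟨⟨n, θ, hJ.toFinset, hH.toFinset, ?_⟩, fun i => (a i : M), fun i => (a i).2, ?_⟩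
    · intro M' N' hN' y' a' hy' ha' htr
      rintro ⟨u, hu⟩
      have htr' := (hθ M' N'.S N'.A _ hN'.ne).1 htr
      have ht1 := (hsucc M' N' y' a').1 htr'.1
      have ht2 : ∀ i k, b i = b k → (Fin.cons y' a' : Fin (n + 1) → M') i
          = (Fin.cons y' a' : Fin (n + 1) → M') k := (hE M' N' _).1 htr'.2
      let b' : Fin (n + 1) → M' := Fin.cons y' a'
      have hb'A : ∀ i, b' i ∈ N'.A := by
        intro i
        refine Fin.cases ?_ (fun k => ?_) i
        · exact hy'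
        · exact ha' k
      let j : N.A → M' := fun x => if h : ∃ i, b i = x then b' h.choose else y'
      have hj : ∀ i, j (b i) = b' i := by
        intro i
        have h : ∃ k, b k = b i := ⟨i, rfl⟩
        change (if h : ∃ k, b k = b i then b' h.choose else y') = b' i
        rw [dif_pos h]
        exact ht2 _ _ h.choose_spec
      have hjA : ∀ x, j x ∈ N'.A := by
        intro x
        change (if h : ∃ i, b i = x then b' h.choose else y') ∈ N'.A
        split
        · exact hb'A _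
        · exact hy'
      have hjy : j ⟨y, hy⟩ = y' := hj 0
      have hja : ∀ i, j (a i) = a' i := fun i => hj i.succ
      have hφ : N'.Tr φ₀ j := by
        unfold Mo.Tr
        rw [hθ₀, hb.umap]
        have h : Sum.elim N'.c j ∘ Sum.map id a = Sum.elim N'.c a' := by
          funext x
          rcases x with x | x
          · rfl
          · exact hja x
        rw [h]
        exact ht1
      obtain ⟨φ, hφΔ, hφn⟩ := hno M' N' j u hN' hjA hu.uni hφ
      apply hφn
      obtain ⟨i, hi, rfl⟩ := hΔT hφΔ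
      rcases i with i | i | i
      · exact (RSN_top_tr hb F _ N' j u).2 (hu.top.trans hjy.symm)
      · exact (RSN_wit_tr hb F i N' j u).2 (hu.wit i (hJ.mem_toFinset.2 hi))
      · refine (hB i M' N' j u (hu.uni _)).2 ?_
        rw [hjy]
        exact hu.bd i (hH.mem_toFinset.2 hi)
    · refine (hθ M N.S N.A _ hN.ne).2 ⟨(hsucc M N y _).2 ?_, (hE M N _).2 ?_⟩
      · have h1 := hφ₀
        unfold Mo.Tr at h1
        rw [hθ₀, hb.umap] at h1
        have h : Sum.elim N.c (fun a : N.A => (a : M)) ∘ Sum.map id a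
            = Sum.elim N.c fun i => (a i : M) := by
          funext x
          rcases x with x | x <;> rfl
        rwa [h] at h1
      · intro i k hik
        have h2 : ∀ i, (Fin.cons y (fun i => (a i : M)) : Fin (n + 1) → M) i = (b i : M) := by
          intro i
          refine Fin.cases rfl (fun k => rfl) i
        rw [h2, h2, hik]

end ORD
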