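import Pool.Agent.ORD.StS

/-!
# ORD: finite satisfiability, first case
-/

set_option autoImplicit false
set_option linter.unusedVariables false

namespace ORD

open Set FirstOrder

/-- The first case of `St_DIC` gives finite satisfiability for the frame of the first kind. -/
theorem thm_SP1 (hb : BAS) (he : EMB) (ht : BTF) (hx : EXT) : St_SP1 := by
  classical
  intro L Q M T N d l u hmd hA hlo hu hyp m n H
  obtain ⟨π, hπ⟩ := hx.tr1 T d l
  obtain ⟨x, b, hbd, hxd, hxx, hxb⟩ := hyp (m * (n + 1)) (H.image π)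
  have hbA : b ∈ N.A := by rw [hA]; trivial
  have hmd1 : Md (F1 T d l).T (N.ext b) := hx.md1 T N d l b hmd hlo hbA hbd
  have hlt : ∀ y z : M, (F1 T d l).Lt (N.ext b) y z ↔ N.Q l ![y, z] := fun y z =>
    hx.exq N b l ![y, z]
  have hdd : ∀ y : M, N.Q d ![y] → (F1 T d l).D (N.ext b) y := by
    intro y hy
    refine ⟨?_, (hx.exq N b d ![y]).2 hy⟩
    show y ∈ N.A
    rw [hA]
    trivial
  have hm : ∀ i, i < m → i * (n + 1) < m * (n + 1) := fun i hi =>
    Nat.mul_lt_mul_of_pos_right hi (Nat.succ_pos n)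
  refine ⟨b, fun i => x (i * (n + 1)), fun i => u (x (i * (n + 1))) ∘ π, hmd1, ?_, ?_⟩
  · intro i hi
    obtain ⟨h1, h2⟩ := hxb (i * (n + 1)) (hm i hi)
    refine ⟨hdd _ (hxd _ (hm i hi)), (hlt _ _).2 h1, hπ M N b _ _ hmd1 (hu _), ?_⟩
    intro s hs hD hL hLb
    exact absurd ((hlt _ _).1 hLb) (h2 (π s) (Finset.mem_image_of_mem π hs)
      ((hx.exq N b d ![u (x (i * (n + 1))) (π s)]).1 hD.2) ((hlt _ _).1 hL))
  · intro i hi
    have h0 : (i + 1) * (n + 1) = i * (n + 1) + (n + 1) := by ring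
    have h1 := hm (i + 1) hi
    refine ⟨(hlt _ _).2 (hxx _ _ (by show i * (n + 1) < (i + 1) * (n + 1); omega) h1),
      fun j => x (i * (n + 1) + j + 1), ?_, ?_⟩
    · intro j j' hjj
      by_contra hne
      have hj : i * (n + 1) + (j : ℕ) + 1 < m * (n + 1) := by omega
      have hj' : i * (n + 1) + (j' : ℕ) + 1 < m * (n + 1) := by omega
      have hjj' : x (i * (n + 1) + j + 1) = x (i * (n + 1) + j' + 1) := hjj
      have hne' : (j : ℕ) ≠ (j' : ℕ) := fun h => hne (Fin.ext h)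
      rcases lt_or_gt_of_ne hne' with h | h
      · have h2 := hxx (i * (n + 1) + j + 1) (i * (n + 1) + j' + 1) (by omega) hj'
        rw [← hjj'] at h2
        exact hlo.irr _ (by rw [hA]; trivial) (hxd _ hj) h2
      · have h2 := hxx (i * (n + 1) + j' + 1) (i * (n + 1) + j + 1) (by omega) hj
        rw [← hjj'] at h2
        exact hlo.irr _ (by rw [hA]; trivial) (hxd _ hj) h2
    · intro j
      have hj : i * (n + 1) + (j : ℕ) + 1 < m * (n + 1) := by omega
      have h2 := hdd _ (hxd _ hj)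
      refine ⟨h2.1, h2.2, Or.inl ⟨(hlt _ _).2 ?_, (hlt _ _).2 ?_⟩⟩
      · exact hxx _ _ (by omega) hj
      · exact hxx _ _ (by show i * (n + 1) + (j : ℕ) + 1 < (i + 1) * (n + 1); omega) h1

end ORD
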