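import Pool.Agent.ORD.StS

/-!
# ORD: finite satisfiability, second case
-/

set_option autoImplicit false
set_option linter.unusedVariables false

namespace ORD

open Set FirstOrder

/-- the linear order on the definable set -/
@[reducible] private noncomputable def SP2_ord {L : Lg} {Q M : Type} (N : Mo L Q M) (d : Qf L (Q ⊕ Fin 1))
    (l : Qf L (Q ⊕ Fin 2)) (hm : ∀ x : M, x ∈ N.A) (hlo : Lo N d l) :
    LinearOrder {x : M // N.Q d ![x]} where
  le x y := x = y ∨ N.Q l ![(x : M), (y : M)]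
  lt x y := N.Q l ![(x : M), (y : M)]
  le_refl x := Or.inl rfl
  le_trans x y z h1 h2 := by
    rcases h1 with rfl | h1
    · exact h2
    · rcases h2 with rfl | h2
      · exact Or.inr h1
      · exact Or.inr (hlo.trs _ (hm _) _ (hm _) _ (hm _) x.2 y.2 z.2 h1 h2)
  lt_iff_le_not_ge x y := by
    constructor
    · intro h
      refine ⟨Or.inr h, ?_⟩
      rintro (h1 | h1)
      · subst h1
        exact hlo.irr _ (hm _) y.2 h
      · exact hlo.irr _ (hm _) x.2 (hlo.trs _ (hm _) _ (hm _) _ (hm _) x.2 y.2 x.2 h h1)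
    · rintro ⟨h1 | h1, h2⟩
      · exact absurd (Or.inl h1.symm) h2
      · exact h1
  le_antisymm x y h1 h2 := by
    rcases h1 with h1 | h1
    · exact h1
    · rcases h2 with h2 | h2
      · exact h2.symm
      · exact absurd (hlo.trs _ (hm _) _ (hm _) _ (hm _) x.2 y.2 x.2 h1 h2)
          (hlo.irr _ (hm _) x.2)
  le_total x y := by
    rcases hlo.tot _ (hm _) _ (hm _) x.2 y.2 with h | h | h
    · exact Or.inl (Or.inl (Subtype.ext h))
    · exact Or.inl (Or.inr h)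
    · exact Or.inr (Or.inr h)
  toDecidableLE := Classical.decRel _

/-- The second case of `St_DIC` and `St_SYN` give finite satisfiability for the frame of the second
kind. -/
theorem thm_SP2 (hb : BAS) (he : EMB) (ht : BTF) (hx : EXT) (hs : St_SYN) : St_SP2 := by
  classical
  intro L Q M T N d l hK hmd hA hlo hs1 hs2 hinf
  have hmem : ∀ x : M, x ∈ N.A := fun x => by rw [hA]; trivial
  let D : Type := {x : M // N.Q d ![x]}
  let _ : LinearOrder D := SP2_ord N d l hmem hlo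
  have hltD : ∀ x y : D, x < y ↔ N.Q l ![(x : M), (y : M)] := fun x y => Iff.rfl
  have : Infinite D := hinf.to_subtype
  have hmdb : ∀ b : D, Md (F2 T d l).T (N.ext b.1) := fun b =>
    hx.md2 T N d l b.1 hmd hlo hs1 hs2 (hmem _) b.2
  obtain ⟨b₀⟩ : Nonempty D := inferInstance
  have htre : ∀ y : D, ∃ u, Tre (F2 T d l).T (N.ext b₀.1) y.1 u := fun y =>
    hx.tre (hmdb b₀) y.1 (hmem _)
  choose u hu using htre
  have hub : ∀ b y : D, Tre (F2 T d l).T (N.ext b.1) y.1 (u y) := fun b y =>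
    hx.tr2 T d l N b₀.1 b.1 y.1 (u y) (hmdb b₀) (hmdb b) (hu y)
  have hK2 : Countable (F2 T d l).T.K := (inferInstance : Countable ((T.K ⊕ Fin 4) ⊕ Bool))
  have : Countable (Adr (F2 T d l).T) := hb.ctT _ hK2
  have hsu : ∀ x : D, (∃ y, x < y) → ∃ y, x ⋖ y := by
    rintro x ⟨y, hxy⟩
    obtain ⟨z, _, h2, h3, h4⟩ := hs1 x.1 (hmem _) x.2 ⟨y.1, hmem _, y.2, (hltD x y).1 hxy⟩
    exact ⟨⟨z, h2⟩, h3, fun w h5 h6 => h4 w.1 (hmem _) w.2 h5 h6⟩
  have hpr : ∀ x : D, (∃ y, y < x) → ∃ y, y ⋖ x := by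
    rintro x ⟨y, hxy⟩
    have h0 := hs2 x.1 (hmem _) x.2
    simp only [ht.swp] at h0
    obtain ⟨z, _, h2, h3, h4⟩ := h0 ⟨y.1, hmem _, y.2, (hltD y x).1 hxy⟩
    exact ⟨⟨z, h2⟩, h3, fun w h5 h6 => h4 w.1 (hmem _) w.2 h6 h5⟩
  obtain ⟨g, hg⟩ := hs D (Adr (F2 T d l).T) (fun y s z => z.1 = u y s)
    (fun y s z z' h h' => Subtype.ext (h.trans h'.symm)) hsu hpr
  refine ⟨g, fun m n H => ?_⟩
  obtain ⟨x, b, h1, h2⟩ := hg m n H
  have hlt : ∀ y z : M, (F2 T d l).Lt (N.ext b.1) y z ↔ N.Q l ![y, z] := fun y z =>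
    hx.exq N b.1 l ![y, z]
  have hdd : ∀ y : M, N.Q d ![y] → (F2 T d l).D (N.ext b.1) y := fun y hy =>
    ⟨hmem y, (hx.exq N b.1 d ![y]).2 hy⟩
  refine ⟨b.1, fun i => (x i).1, fun i => u (x i), hmdb b, ?_, ?_⟩
  · intro i hi
    obtain ⟨h3, h4⟩ := h1 i hi
    refine ⟨hdd _ (x i).2, (hlt _ _).2 ((hltD _ _).1 h3), hub b (x i), ?_⟩
    intro s hs' hD hL hLb
    have hd' : N.Q d ![u (x i) s] := (hx.exq N b.1 d _).1 hD.2
    have hL1 : N.Q l ![(x i).1, u (x i) s] := (hlt _ _).1 hL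
    have hL2 : N.Q l ![u (x i) s, b.1] := (hlt _ _).1 hLb
    have h5 := h4 s hs' ⟨u (x i) s, hd'⟩ rfl hL1 hL2
    show (N.ext b.1).Tr (btf d.ex l.ex (g s)) ![(x i).1, u (x i) s]
    rw [ht.btf]
    rintro ⟨z, hz, hzb⟩
    have h6 : ∀ j, ∃ w : D, w.1 = z j ∧ w ∈ Ioo (x i) ⟨u (x i) s, hd'⟩ := by
      intro j
      obtain ⟨h7, h8, h9⟩ := hzb j
      rw [hx.exq] at h8
      rw [hx.exq, hx.exq, hx.exq, hx.exq] at h9
      refine ⟨⟨z j, h8⟩, rfl, ?_⟩
      rcases h9 with h9 | h9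
      · exact ⟨h9.1, h9.2⟩
      · exfalso
        have h10 := hlo.trs _ (hmem _) _ (hmem _) _ (hmem _) hd' h8 (x i).2 h9.1 h9.2
        exact hlo.irr _ (hmem _) (x i).2
          (hlo.trs _ (hmem _) _ (hmem _) _ (hmem _) (x i).2 hd' (x i).2 hL1 h10)
    choose w hw hwI using h6
    have hwinj : Function.Injective w := fun a c hac => hz (by rw [← hw a, ← hw c, hac])
    have h7 : (range w).encard ≤ g s :=
      (encard_le_encard (range_subset_iff.2 hwI)).trans h5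
    have h7' := hwinj.encard_range.trans h7
    simp only [ENat.card_eq_coe_fintype_card, Fintype.card_fin] at h7'
    have h8 : g s + 1 ≤ g s := by exact_mod_cast h7'
    omega
  · intro i hi
    obtain ⟨h3, h4⟩ := h2 i hi
    refine ⟨(hlt _ _).2 ((hltD _ _).1 h3), ?_⟩
    obtain ⟨t, ht1, ht2⟩ := exists_subset_encard_eq h4
    have hfin : t.Finite := finite_of_encard_eq_coe ht2
    have hcard : hfin.toFinset.card = n := by
      rw [hfin.encard_eq_coe_toFinset_card] at ht2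
      exact_mod_cast ht2
    let e := (hfin.toFinset.equivFinOfCardEq hcard).symm
    have he1 : ∀ j, (e j).1 ∈ t := fun j => hfin.mem_toFinset.1 (e j).2
    refine ⟨fun j => ((e j).1 : D).1, ?_, ?_⟩
    · intro j j' hjj
      exact e.injective (Subtype.ext (Subtype.ext hjj))
    · intro j
      obtain ⟨h5, h6⟩ := ht1 (he1 j)
      exact ⟨hmem _, (hx.exq N b.1 d _).2 ((e j).1 : D).2,
        Or.inl ⟨(hx.exq N b.1 l _).2 h5, (hx.exq N b.1 l _).2 h6⟩⟩

end ORD
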