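import Pool.Agent.ORD.StS

/-!
# ORD: compactness for the supply
-/

set_option autoImplicit false
set_option linter.unusedVariables false

namespace ORD

open Set FirstOrder

section

variable {L : Lg} {P V M : Type}

/-- the formula for the witnesses -/
private def SPC_w (F : Fr L P) (nm : Adr F.T → V) (s : Adr F.T) (k : F.T.K) : Uf L (P ⊕ V) :=
  (F.T.ax k).map (Sum.map id (Fin.cons (nm s) fun i => nm (⟨k, i⟩ :: s)))

private theorem SPC_w_tr (hb : BAS) (F : Fr L P) (nm : Adr F.T → V) (s : Adr F.T) (k : F.T.K)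
    (N : Mo L P M) (v : V → M) :
    N.Tr (SPC_w F nm s k) v ↔ F.T.Wit N k (v (nm s)) fun i => v (nm (⟨k, i⟩ :: s)) := by
  unfold Mo.Tr SPC_w Th.Wit Mo.Tr
  rw [hb.umap]
  have h : Sum.elim N.c v ∘ Sum.map id (Fin.cons (nm s) fun i => nm (⟨k, i⟩ :: s))
      = Sum.elim N.c (Fin.cons (v (nm s)) fun i => v (nm (⟨k, i⟩ :: s)) :
          Fin (F.T.n k + 1) → M) := by
    funext x
    rcases x with x | x
    · rfl
    · refine Fin.cases ?_ (fun i => ?_) x <;> rfl
  rw [h]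

/-- the formula for the definable set -/
private def SPC_d (F : Fr L P) (x : V) : Uf L (P ⊕ V) :=
  Uf.qf (F.d.map (Sum.elim Sum.inl ![Sum.inr x]))

private theorem SPC_d_tr (hb : BAS) (F : Fr L P) (x : V) (N : Mo L P M) (v : V → M) :
    N.Tr (SPC_d F x) v ↔ N.Q F.d ![v x] := by
  unfold Mo.Tr SPC_d Mo.Q
  rw [hb.uqf, hb.qmap]
  have h1 : Sum.elim N.c v ∘ Sum.elim Sum.inl ![Sum.inr x] = Sum.elim N.c ![v x] := by
    funext z
    rcases z with z | z
    · rfl
    · fin_cases z; rfl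
  rw [h1]

/-- the formula for the order -/
private def SPC_l (F : Fr L P) (x y : P ⊕ V) : Uf L (P ⊕ V) :=
  Uf.qf (F.l.map (Sum.elim Sum.inl ![x, y]))

private theorem SPC_l_tr (hb : BAS) (F : Fr L P) (x y : P ⊕ V) (N : Mo L P M) (v : V → M) :
    N.Tr (SPC_l F x y) v ↔ F.Lt N (Sum.elim N.c v x) (Sum.elim N.c v y) := by
  unfold Mo.Tr SPC_l Fr.Lt Mo.Q
  rw [hb.uqf, hb.qmap]
  have h1 : Sum.elim N.c v ∘ Sum.elim Sum.inl ![x, y]
      = Sum.elim N.c ![Sum.elim N.c v x, Sum.elim N.c v y] := by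
    funext z
    rcases z with z | z
    · rfl
    · fin_cases z <;> rfl
  rw [h1]

/-- the formula for different elements -/
private def SPC_n (x y : V) : Uf L (P ⊕ V) := Uf.qf (Qf.not (Qf.eq (Sum.inr x) (Sum.inr y)))

private theorem SPC_n_tr (hb : BAS) (x y : V) (N : Mo L P M) (v : V → M) :
    N.Tr (SPC_n x y) v ↔ v x ≠ v y := by
  unfold Mo.Tr SPC_n
  rw [hb.uqf, hb.qnot]
  exact Iff.rfl

private theorem SPC_bd (hb : BAS) (F : Fr L P) (n : ℕ) (y x : V) :
    ∃ χ : Uf L (P ⊕ V), ∀ (M : Type) (N : Mo L P M) (v : V → M), v x ∈ N.A →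
      (N.Tr χ v ↔ (F.D N (v x) → F.Lt N (v y) (v x) → F.Lt N (v x) (N.c F.v) →
        N.Tr (F.E n) ![v y, v x])) := by
  let e : P ⊕ Fin 1 → P ⊕ V := Sum.elim Sum.inl ![Sum.inr x]
  let e1 : P ⊕ Fin 2 → P ⊕ V := Sum.elim Sum.inl ![Sum.inr y, Sum.inr x]
  let e2 : P ⊕ Fin 2 → P ⊕ V := Sum.elim Sum.inl ![Sum.inr x, Sum.inl F.v]
  obtain ⟨χ, hχ⟩ := hb.uimp ((F.d.map e).and ((F.l.map e1).and (F.l.map e2)))
    ((F.E n).map e1)
  refine ⟨χ, fun M N v hs => ?_⟩
  unfold Mo.Tr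
  rw [hχ, hb.qand, hb.qand, hb.qmap, hb.qmap, hb.qmap, hb.umap]
  have h1 : Sum.elim N.c v ∘ e = Sum.elim N.c ![v x] := by
    funext z
    rcases z with z | z
    · rfl
    · fin_cases z; rfl
  have h2 : Sum.elim N.c v ∘ e1 = Sum.elim N.c ![v y, v x] := by
    funext z
    rcases z with z | z
    · rfl
    · fin_cases z <;> rfl
  have h3 : Sum.elim N.c v ∘ e2 = Sum.elim N.c ![v x, N.c F.v] := by
    funext z
    rcases z with z | z
    · rfl
    · fin_cases z <;> rfl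
  rw [h1, h2, h3]
  constructor
  · intro h h4 h5 h6
    exact h ⟨h4.2, h5, h6⟩
  · intro h h4
    exact h ⟨hs, h4.1⟩ h4.2.1 h4.2.2

private theorem SPC_bt (hb : BAS) (F : Fr L P) (x y z : V) :
    ∃ χ : Uf L (P ⊕ V), ∀ (M : Type) (N : Mo L P M) (v : V → M), v z ∈ N.A →
      (N.Tr χ v ↔ Btw F.d F.l N (v x) (v y) (v z)) := by
  let e : P ⊕ Fin 1 → P ⊕ V := Sum.elim Sum.inl ![Sum.inr z]
  let f (a b : V) : P ⊕ Fin 2 → P ⊕ V := Sum.elim Sum.inl ![Sum.inr a, Sum.inr b]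
  refine ⟨Uf.qf ((F.d.map e).and (((F.l.map (f x z)).and (F.l.map (f z y))).or
    ((F.l.map (f y z)).and (F.l.map (f z x))))), fun M N v hs => ?_⟩
  unfold Mo.Tr
  rw [hb.uqf, hb.qand, hb.qor, hb.qand, hb.qand, hb.qmap, hb.qmap, hb.qmap, hb.qmap, hb.qmap]
  have h1 : Sum.elim N.c v ∘ e = Sum.elim N.c ![v z] := by
    funext w
    rcases w with w | w
    · rfl
    · fin_cases w; rfl
  have h2 : ∀ a b, Sum.elim N.c v ∘ f a b = Sum.elim N.c ![v a, v b] := by
    intro a b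
    funext w
    rcases w with w | w
    · rfl
    · fin_cases w <;> rfl
  rw [h1, h2, h2, h2, h2]
  exact ⟨fun h => ⟨hs, h⟩, fun h => h.2⟩

/-- the indices of the formulas -/
private inductive SPC_I (A K J : Type) : Type
  | fm (φ : J)
  | d (n : ℕ)
  | v (n : ℕ)
  | l (n : ℕ)
  | w (n : ℕ) (s : A) (k : K)
  | b (n : ℕ) (s : A)
  | t (n j : ℕ)
  | ne (n j j' : ℕ) (h : j ≠ j')

private def SPC_I.nn {A K J : Type} : SPC_I A K J → ℕ
  | .fm _ => 0
  | .d n => n
  | .v n => n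
  | .l n => n
  | .w n _ _ => n
  | .b n _ => n
  | .t n _ => n
  | .ne n _ _ _ => n

private def SPC_I.kk {A K J : Type} : SPC_I A K J → ℕ
  | .t _ j => j
  | .ne _ j j' _ => max j j'
  | _ => 0

private def SPC_I.hh {A K J : Type} (a : A) : SPC_I A K J → A
  | .b _ s => s
  | _ => a

/-- a finite set contained in a range -/
private theorem SPC_fin {I X : Type} (G : I → X) (Δ : Set X) (h : Δ ⊆ range G) (hf : Δ.Finite) :
    ∃ T : Set I, T.Finite ∧ Δ ⊆ G '' T := by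
  have h1 : ∀ x : Δ, ∃ i, G i = x := fun x => h x.2
  choose k hk using h1
  have := hf.to_subtype
  refine ⟨range k, Set.finite_range k, fun x hx => ⟨k ⟨x, hx⟩, ⟨_, rfl⟩, hk ⟨x, hx⟩⟩⟩

private theorem SPC_bdd {I : Type} (T : Set I) (hT : T.Finite) (f : I → ℕ) :
    ∃ m, ∀ i ∈ T, f i < m := by
  obtain ⟨m, hm⟩ := (hT.image f).bddAbove
  exact ⟨m + 1, fun i hi => Nat.lt_succ_of_le (hm ⟨i, hi, rfl⟩)⟩

end

/-- Compactness for the supply. -/
theorem thm_SPC (hb : BAS) (he : EMB) (ha : ABS) (hc : St_CPT) : St_SPC := by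
  classical
  intro L Q M F g N W hQ hK hA hW hF
  let V : Type := W ⊕ ((ℕ × Adr F.T) ⊕ (ℕ × ℕ))
  let U (n : ℕ) (s : Adr F.T) : V := Sum.inr (Sum.inl (n, s))
  let Z (n j : ℕ) : V := Sum.inr (Sum.inr (n, j))
  have h1 := fun (n : ℕ) (s : Adr F.T) => SPC_bd hb F (g s) (U n []) (U n s)
  choose B hB using h1
  have h2 := fun n j : ℕ => SPC_bt hb F (U n []) (U (n + 1) []) (Z n j)
  choose R hR using h2
  let J : Type := {φ : Uf L (Q ⊕ W) // N.Tr φ (fun x => (x : M))}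
  let G : SPC_I (Adr F.T) F.T.K J → Uf L (Option Q ⊕ V) := fun i => match i with
    | .fm φ => φ.1.map (Sum.map some Sum.inl)
    | .d n => SPC_d F (U n [])
    | .v n => SPC_l F (Sum.inr (U n [])) (Sum.inl F.v)
    | .l n => SPC_l F (Sum.inr (U n [])) (Sum.inr (U (n + 1) []))
    | .w n s k => SPC_w F (U n) s k
    | .b n s => B n s
    | .t n j => R n j
    | .ne n j j' _ => SPC_n (Z n j) (Z n j')
  obtain ⟨M', N', v, hMd, hA', hv⟩ := hc L (Option Q) F.T V (range G) (by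
    intro Δ hΔ hfin
    obtain ⟨T, hT, hΔT⟩ := SPC_fin G Δ hΔ hfin
    obtain ⟨m, hm⟩ := SPC_bdd T hT SPC_I.nn
    obtain ⟨k, hk⟩ := SPC_bdd T hT SPC_I.kk
    obtain ⟨b, x, u, hMd, hx1, hx2⟩ := hF (m + 1) k (hT.toFinset.image (SPC_I.hh []))
    have hz : ∀ n, ∃ z : ℕ → M, n < m →
        (∀ j < k, Btw F.d F.l (N.ext b) (x n) (x (n + 1)) (z j)) ∧
        ∀ j < k, ∀ j' < k, j ≠ j' → z j ≠ z j' := by
      intro n
      by_cases hn : n < m
      · obtain ⟨_, z, hz1, hz2⟩ := hx2 n (by omega)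
        refine ⟨fun j => if h : j < k then z ⟨j, h⟩ else b, fun _ => ⟨?_, ?_⟩⟩
        · intro j hj
          simp only [hj, dite_true]
          exact hz2 _
        · intro j hj j' hj' hne
          simp only [hj, hj', dite_true]
          intro h
          exact hne (congrArg Fin.val (hz1 h))
      · exact ⟨fun _ => b, fun h => absurd h hn⟩
    choose z hz using hz
    let v : V → M := Sum.elim (fun x => (x : M)) (Sum.elim (fun p => u p.1 p.2)
      fun p => z p.1 p.2)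
    have hall : ∀ y : M, y ∈ (N.ext b).A := fun y => by
      show y ∈ N.A
      rw [hA]
      trivial
    refine ⟨M, N.ext b, v, hMd, fun i => hall _, ?_⟩
    intro φ hφ
    obtain ⟨i, hi, rfl⟩ := hΔT hφ
    have hn := hm i hi
    have hkk := hk i hi
    have htop : ∀ n, n < m + 1 → u n [] = x n := fun n hn => (hx1 n hn).2.2.1.top
    rcases i with φ | n | n | n | ⟨n, s, q⟩ | ⟨n, s⟩ | ⟨n, j⟩ | ⟨n, j, j', hne⟩
    · show (N.ext b).Tr (φ.1.map (Sum.map some Sum.inl)) v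
      unfold Mo.Tr
      rw [hb.umap]
      have h3 : Sum.elim (N.ext b).c v ∘ Sum.map some Sum.inl
          = Sum.elim N.c (fun x : W => (x : M)) := by
        funext x
        rcases x with x | x <;> rfl
      rw [h3]
      exact φ.2
    · have hn : n < m := hn
      refine (SPC_d_tr hb F _ _ _).2 ?_
      show (N.ext b).Q F.d ![u n [] ]
      rw [htop n (by omega)]
      exact (hx1 n (by omega)).1.2
    · have hn : n < m := hn
      refine (SPC_l_tr hb F _ _ _ _).2 ?_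
      show F.Lt (N.ext b) (u n []) _
      rw [htop n (by omega)]
      exact (hx1 n (by omega)).2.1
    · have hn : n < m := hn
      refine (SPC_l_tr hb F _ _ _ _).2 ?_
      show F.Lt (N.ext b) (u n []) (u (n + 1) [])
      rw [htop n (by omega), htop (n + 1) (by omega)]
      exact (hx2 n (by omega)).1
    · have hn : n < m := hn
      exact (SPC_w_tr hb F _ _ _ _ _).2 ((hx1 n (by omega)).2.2.1.wit s q)
    · have hn : n < m := hn
      refine (hB n s M (N.ext b) v (hall _)).2 ?_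
      show F.D (N.ext b) (u n s) → F.Lt (N.ext b) (u n []) (u n s) → F.Lt (N.ext b) (u n s) _ →
        (N.ext b).Tr (F.E (g s)) ![u n [], u n s]
      rw [htop n (by omega)]
      exact (hx1 n (by omega)).2.2.2 s (Finset.mem_image.2 ⟨_, hT.mem_toFinset.2 hi, rfl⟩)
    · have hn : n < m := hn
      have hj : j < k := hkk
      refine (hR n j M (N.ext b) v (hall _)).2 ?_
      show Btw F.d F.l (N.ext b) (u n []) (u (n + 1) []) (z n j)
      rw [htop n (by omega), htop (n + 1) (by omega)]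
      exact (hz n hn).1 j hj
    · have hn : n < m := hn
      have hj : max j j' < k := hkk
      refine (SPC_n_tr hb _ _ _ _).2 ?_
      exact (hz n hn).2 j (by omega) j' (by omega) hne)
  have hu : ∀ x, x ∈ N'.A := fun x => by rw [hA']; exact mem_univ x
  have hWc : Countable W := hW.to_subtype
  have hAc : Countable (Adr F.T) := hb.ctT _ hK
  have hVc : Countable V := inferInstance
  have hQc : Countable (Option Q) := inferInstance
  obtain ⟨C, hC1, hC2, hC3⟩ := he.cct hK hMd (range v ∪ range N'.c) (fun x _ => hu x)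
    ((countable_range v).union (countable_range N'.c))
  have hvC : ∀ i, v i ∈ C := fun i => hC1 (Or.inl ⟨i, rfl⟩)
  have hcC : ∀ p, N'.c p ∈ C := fun p => hC1 (Or.inr ⟨p, rfl⟩)
  have hCA : C ⊆ N'.A := fun x _ => hu x
  have hd : ∀ n, N'.Q F.d ![v (U n [])] := fun n =>
    (SPC_d_tr hb F _ _ _).1 (hv _ ⟨.d n, rfl⟩)
  refine ⟨M', N'.sub C, fun x => v (Sum.inl x), fun n => v (U n []), hC2,
    he.cmd hC3 ⟨_, hcC none⟩ hcC, fun x => hvC _, ?_, ?_⟩
  · intro φ hφ
    have h3 : N'.Tr (φ.map (Sum.map some Sum.inl)) v := hv _ ⟨.fm ⟨φ, hφ⟩, rfl⟩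
    unfold Mo.Tr at h3
    rw [hb.umap] at h3
    have h4 : Sum.elim N'.c v ∘ Sum.map some Sum.inl
        = Sum.elim (N'.c ∘ some) (fun x : W => v (Sum.inl x)) := by
      funext x
      rcases x with x | x <;> rfl
    rw [h4] at h3
    exact hb.down _ _ _ _ _ hCA h3
  · intro n
    refine ⟨⟨hvC _, hd n⟩, ⟨fun s => v (U n s), ha.lsb ⟨⟨fun s => hu _, rfl, ?_⟩, ?_⟩ hCA
      fun s => hvC _⟩, ?_, ?_, fun j => v (Z n j), ?_, ?_⟩
    · intro s k
      exact (SPC_w_tr hb F _ _ _ _ _).1 (hv _ ⟨.w n s k, rfl⟩)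
    · intro s
      exact (hB n s M' N' v (hu _)).1 (hv _ ⟨.b n s, rfl⟩)
    · exact (SPC_l_tr hb F _ _ _ _).1 (hv _ ⟨.v n, rfl⟩)
    · exact (SPC_l_tr hb F _ _ _ _).1 (hv _ ⟨.l n, rfl⟩)
    · intro j j' hjj
      by_contra hne
      exact (SPC_n_tr hb _ _ _ _).1 (hv _ ⟨.ne n j j' hne, rfl⟩) hjj
    · intro j
      have h5 := (hR n j M' N' v (hu _)).1 (hv _ ⟨.t n j, rfl⟩)
      exact ⟨hvC _, h5.2.1, h5.2.2⟩

end ORD
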