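import Pool.Agent.ORD.StS

/-!
# ORD, module SPX: from finite satisfiability to the supply
-/

set_option autoImplicit false
set_option linter.unusedVariables false

namespace ORD

open Set FirstOrder

section

variable {L : Lg} {Q Q' P M : Type}

private theorem SPX_bse (ho : ORL) {F : Fr L P} {g : Adr F.T → ℕ} {M₀ : Type} {N₀ : Mo L P M₀}
    {a : ℕ → M₀} (ok : F.Ok) (ctK : Countable F.T.K) (md : Md F.T N₀) (ct : N₀.A.Countable)
    (h : ∀ n, F.D N₀ (a n) ∧ F.Good g N₀ (a n) ∧ F.Lt N₀ (a n) (N₀.c F.v) ∧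
      F.Lt N₀ (a n) (a (n + 1)))
    (hc : ∀ n, ¬ F.Cl N₀ (a n) (a (n + 1))) : Bse F g N₀ a where
  ok := ok
  ctK := ctK
  md := md
  ct := ct
  dd n := (h n).1
  gd n := (h n).2.1
  ll n := ⟨(h n).2.2.2, hc n⟩
  lv n := ho.lll ok md _ _ _ (h n).1 (h (n + 1)).1 (ok.vdd _ _ md) ⟨(h n).2.2.2, hc n⟩
    (h (n + 1)).2.2.1

end

/-- [SPX] from finite satisfiability to the supply -/
theorem thm_SPX (hb : BAS) (he : EMB) (ht : BTF) (h1 : St_FRA) (h2 : St_FRB) (ho : ORL) (hx : EXT)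
    (hc : St_SPC) : SPX where
  x1 := by
    intro L Q M T N d l W g hQ hK hA hW hF
    have ctK : Countable (F1 T d l).T.K := by
      show Countable (T.K ⊕ Fin 4)
      infer_instance
    obtain ⟨M₀, N₀, w, a, hct, hmd, hw, hφ, ha⟩ := hc L Q M (F1 T d l) g N W hQ ctK hA hW hF
    have hok : (F1 T d l).Ok := h1 L (Option Q) (T.map some) d.ex l.ex none
    refine ⟨Option Q, some, F1 T d l, g, M₀, N₀, w, a, inferInstance, ?_, ?_, hw, hφ⟩
    · refine SPX_bse ho hok ctK hmd hct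
        (fun n => ⟨(ha n).1, (ha n).2.1, (ha n).2.2.1, (ha n).2.2.2.1⟩) ?_
      rintro n ⟨k, hk⟩
      have hk' : a n = a (n + 1) := by
        have := (hb.uqf N₀.S N₀.A (Sum.elim N₀.c ![a n, a (n + 1)])
          (Qf.eq (Sum.inr 0) (Sum.inr 1))).1 hk
        exact this
      have := (ha n).2.2.2.1
      rw [← hk'] at this
      exact hok.irr _ _ hmd _ (ha n).1 this
    · intro M' N' hN'
      exact hx.dn1 T N' d l hN'
  x2 := by
    intro L Q M T N d l W g hQ hK hA hW hF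
    have ctK : Countable (F2 T d l).T.K := by
      show Countable ((T.K ⊕ Fin 4) ⊕ Bool)
      infer_instance
    obtain ⟨M₀, N₀, w, a, hct, hmd, hw, hφ, ha⟩ := hc L Q M (F2 T d l) g N W hQ ctK hA hW hF
    have hok : (F2 T d l).Ok := h2 L (Option Q) (T.map some) d.ex l.ex none
    refine ⟨Option Q, some, F2 T d l, g, M₀, N₀, w, a, inferInstance, ?_, ?_, hw, hφ⟩
    · refine SPX_bse ho hok ctK hmd hct
        (fun n => ⟨(ha n).1, (ha n).2.1, (ha n).2.2.1, (ha n).2.2.2.1⟩) ?_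
      rintro n ⟨k, hk⟩
      obtain ⟨z, hz, hz'⟩ := (ha n).2.2.2.2
      refine (ht.btf d.ex l.ex N₀ k (a n) (a (n + 1))).1 hk
        ⟨fun i => z i, fun i j hij => Fin.ext (hz hij), fun i => hz' i⟩
    · intro M' N' hN'
      exact hx.dn2 T N' d l hN'
  xr := by
    rintro L Q Q' M T h N W ⟨P, i, F, g, M₀, N₀, w, a, hP, hB, hax, hw, hφ⟩
    refine ⟨P, i ∘ h, F, g, M₀, N₀, w, a, hP, hB, ?_, hw, ?_⟩
    · intro M' N' hN'
      exact (he.rmd (N := N'.res i) (T := T) h (fun p => hN'.cst (i p))).1 (hax M' N' hN')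
    · intro φ hφ'
      have e1 : ∀ {M₁ : Type} (c : Q' → M₁) (v : W → M₁),
          Sum.elim c v ∘ Sum.map h id = Sum.elim (c ∘ h) v := by
        intro M₁ c v
        funext x
        rcases x with x | x <;> rfl
      have h3 : N.Tr (φ.map (Sum.map h id)) (fun x => (x : M)) := by
        refine (hb.umap N.S N.A (Sum.map h id) _ φ).2 ?_
        rw [e1]
        exact hφ'
      have h4 := (hb.umap N₀.S N₀.A (Sum.map h id) _ φ).1 (hφ _ h3)
      rw [show (Sum.elim (N₀.res i).c w ∘ Sum.map h id : Q ⊕ W → M₀) =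
        Sum.elim ((N₀.res i).c ∘ h) w from e1 _ _] at h4
      exact h4

end ORD
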