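import Pool.Agent.ORD.StS

/-!
# ORD, module SUP: the supply, assembly of the two cases
-/

set_option autoImplicit false
set_option linter.unusedVariables false

namespace ORD

open Set FirstOrder

section

variable {L : Lg} {Q Q' M : Type}

private theorem SUP_sto {N : Mo L Q M} {d : Qf L (Q ⊕ Fin 1)} {l : Qf L (Q ⊕ Fin 2)}
    (hA : N.A = univ) (hLo : Lo N d l) :
    IsStrictTotalOrder {x : M // N.Q d ![x]} (fun x y => N.Q l ![x.1, y.1]) := by
  have hm : ∀ x : M, x ∈ N.A := fun x => by rw [hA]; trivial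
  refine { trichotomous := ?_, irrefl := ?_, trans := ?_ }
  · intro x y h1 h2
    rcases hLo.tot x.1 (hm _) y.1 (hm _) x.2 y.2 with h | h | h
    · exact Subtype.ext h
    · exact absurd h h1
    · exact absurd h h2
  · intro x
    exact hLo.irr x.1 (hm _) x.2
  · intro x y z
    exact hLo.trs x.1 (hm _) y.1 (hm _) z.1 (hm _) x.2 y.2 z.2

@[instance_reducible] private noncomputable def SUP_ord {N : Mo L Q M} {d : Qf L (Q ⊕ Fin 1)} {l : Qf L (Q ⊕ Fin 2)}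
    (hA : N.A = univ) (hLo : Lo N d l) : LinearOrder {x : M // N.Q d ![x]} :=
  @linearOrderOfSTO _ (fun x y => N.Q l ![x.1, y.1]) (SUP_sto hA hLo) (Classical.decRel _)

private theorem SUP_swp (ht : BTF) {N : Mo L Q M} {d : Qf L (Q ⊕ Fin 1)} {l : Qf L (Q ⊕ Fin 2)}
    (hLo : Lo N d l) : Lo N d (swp l) where
  irr x hx dx h := hLo.irr x hx dx ((ht.swp l N x x).1 h)
  trs x hx y hy z hz dx dy dz h h' := (ht.swp l N x z).2
    (hLo.trs z hz y hy x hx dz dy dx ((ht.swp l N y z).1 h') ((ht.swp l N x y).1 h))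
  tot x hx y hy dx dy := by
    rcases hLo.tot x hx y hy dx dy with h | h | h
    · exact Or.inl h
    · exact Or.inr (Or.inr ((ht.swp l N y x).2 h))
    · exact Or.inr (Or.inl ((ht.swp l N x y).2 h))

/-- the second case, for a set `I` of elements which is definable -/
private theorem SUP_gen (ht : BTF) (h2 : St_SP2) (hs : SPX) {T' : Th L Q'} {N' : Mo L Q' M}
    {d' : Qf L (Q' ⊕ Fin 1)} {l' : Qf L (Q' ⊕ Fin 2)} (W : Set M) (hQ : Finite Q')
    (hK : Countable T'.K) (hA : N'.A = univ) (hMd : Md T' N') (hLo : Lo N' d' l')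
    (hinf : {x | N'.Q d' ![x]}.Infinite) (hW : W.Countable)
    (hs1 : ∀ x, N'.Q d' ![x] → (∃ y, N'.Q d' ![y] ∧ N'.Q l' ![x, y]) → ∃ y, N'.Q d' ![y] ∧
      N'.Q l' ![x, y] ∧ ∀ z, N'.Q d' ![z] → N'.Q l' ![x, z] → ¬ N'.Q l' ![z, y])
    (hs2 : ∀ x, N'.Q d' ![x] → (∃ y, N'.Q d' ![y] ∧ N'.Q l' ![y, x]) → ∃ y, N'.Q d' ![y] ∧
      N'.Q l' ![y, x] ∧ ∀ z, N'.Q d' ![z] → N'.Q l' ![z, x] → ¬ N'.Q l' ![y, z]) :
    Sup T' N' W := by
  have hm : ∀ x : M, x ∈ N'.A := fun x => by rw [hA]; trivial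
  have k1 : Suc N' d' l' := by
    rintro x - dx ⟨y, -, dy, hy⟩
    obtain ⟨y', a, b, c⟩ := hs1 x dx ⟨y, dy, hy⟩
    exact ⟨y', hm _, a, b, fun z _ => c z⟩
  have k2 : Suc N' d' (swp l') := by
    rintro x - dx ⟨y, -, dy, hy⟩
    obtain ⟨y', a, b, c⟩ := hs2 x dx ⟨y, dy, (ht.swp l' N' x y).1 hy⟩
    refine ⟨y', hm _, a, (ht.swp l' N' x y').2 b, fun z _ dz hz h => ?_⟩
    exact c z dz ((ht.swp l' N' x z).1 hz) ((ht.swp l' N' z y').1 h)
  obtain ⟨g, hg⟩ := h2 L Q' M T' N' d' l' hK hMd hA hLo k1 k2 hinf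
  exact hs.x2 T' N' d' l' W g hQ hK hA hW hg

end

/-- [SUP] the supply -/
theorem thm_SUP (hb : BAS) (he : EMB) (ht : BTF) (hx : EXT) (hd : St_DIC) (h1 : St_SP1)
    (h2 : St_SP2) (hs : SPX) : St_SUP := by
  intro L Q M T N d l W hQ hK hMd hA hLo hInf hW
  have hm : ∀ x : M, x ∈ N.A := fun x => by rw [hA]; trivial
  choose u hu using fun y : M => hx.tre hMd y (hm y)
  let iD : LinearOrder {x : M // N.Q d ![x]} := SUP_ord hA hLo
  have hlt : ∀ x y : {x : M // N.Q d ![x]}, x < y ↔ N.Q l ![x.1, y.1] := fun x y => Iff.rfl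
  have : Infinite {x : M // N.Q d ![x]} := hInf.to_subtype
  rcases hd {x : M // N.Q d ![x]} (Adr T) (fun y s z => (z : M) = u y s)
    (fun y s z z' h h' => Subtype.ext (h.trans h'.symm)) with h | h | ⟨I, hI, hIi, hI1, hI2⟩
  · refine hs.x1 T N d l W _ hQ hK hA hW (h1 L Q M T N d l u hMd hA hLo hu ?_)
    intro m H
    obtain ⟨x, b, ha, hb'⟩ := h m H
    refine ⟨fun i => (x i : M), (b : M), b.2, fun i _ => (x i).2, fun i j hij hj => ha i j hij hj,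
      fun i hi => ⟨(hb' i hi).1, fun s hs' d1 l1 l2 => ?_⟩⟩
    exact (hb' i hi).2 s hs' ⟨_, d1⟩ rfl l1 l2
  · refine hs.x1 T N d (swp l) W _ hQ hK hA hW
      (h1 L Q M T N d (swp l) u hMd hA (SUP_swp ht hLo) hu ?_)
    intro m H
    obtain ⟨x, b, ha, hb'⟩ := h m H
    refine ⟨fun i => (x i : M), (b : M), b.2, fun i _ => (x i).2,
      fun i j hij hj => (ht.swp l N _ _).2 (ha i j hij hj),
      fun i hi => ⟨(ht.swp l N _ _).2 (hb' i hi).1, fun s hs' d1 l1 l2 => ?_⟩⟩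
    exact (hb' i hi).2 s hs' ⟨_, d1⟩ rfl ((ht.swp l N _ _).1 l1) ((ht.swp l N _ _).1 l2)
  · -- the elements of `I`
    have e1 : ∀ x : {x : M // N.Q d ![x]}, x ∈ I → (∃ y ∈ I, N.Q l ![x.1, (y : M)]) →
        ∃ y ∈ I, N.Q l ![x.1, (y : M)] ∧ ∀ z ∈ I, N.Q l ![x.1, (z : M)] →
          ¬ N.Q l ![(z : M), (y : M)] := by
      rintro x hxI ⟨y, hy, hxy⟩
      obtain ⟨y', hy', hc⟩ := hI1 x hxI ⟨y, hy, hxy⟩
      exact ⟨y', hy', hc.1, fun z hz h3 h4 => hc.2 h3 h4⟩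
    have e2 : ∀ x : {x : M // N.Q d ![x]}, x ∈ I → (∃ y ∈ I, N.Q l ![(y : M), x.1]) →
        ∃ y ∈ I, N.Q l ![(y : M), x.1] ∧ ∀ z ∈ I, N.Q l ![(z : M), x.1] →
          ¬ N.Q l ![(y : M), (z : M)] := by
      rintro x hxI ⟨y, hy, hxy⟩
      obtain ⟨y', hy', hc⟩ := hI2 x hxI ⟨y, hy, hxy⟩
      exact ⟨y', hy', hc.1, fun z hz h3 h4 => hc.2 h4 h3⟩
    rcases hI with rfl | ⟨x₀, b₀, rfl⟩
    · refine SUP_gen ht h2 hs W hQ hK hA hMd hLo hInf hW ?_ ?_
      · rintro x dx ⟨y, dy, hy⟩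
        obtain ⟨y', -, h3, h4⟩ := e1 ⟨x, dx⟩ trivial ⟨⟨y, dy⟩, trivial, hy⟩
        exact ⟨y', y'.2, h3, fun z dz => h4 ⟨z, dz⟩ trivial⟩
      · rintro x dx ⟨y, dy, hy⟩
        obtain ⟨y', -, h3, h4⟩ := e2 ⟨x, dx⟩ trivial ⟨⟨y, dy⟩, trivial, hy⟩
        exact ⟨y', y'.2, h3, fun z dz => h4 ⟨z, dz⟩ trivial⟩
    · -- the interval: two more constants
      obtain ⟨N', hN'⟩ : ∃ N' : Mo L (Option (Option Q)) M, N' = (N.ext x₀).ext b₀ := ⟨_, rfl⟩
      have hl : ∀ y z : M, N'.Q l.ex.ex ![y, z] ↔ N.Q l ![y, z] := by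
        intro y z
        rw [hN', hx.exq, hx.exq]
      obtain ⟨d', hd'⟩ : ∃ d' : Qf L (Option (Option Q) ⊕ Fin 1), ∀ z : M,
          N'.Q d' ![z] ↔ (N.Q d ![z] ∧ N.Q l ![x₀.1, z] ∧ N.Q l ![z, b₀.1]) := by
        refine ⟨d.ex.ex.and ((l.ex.ex.map (Sum.elim Sum.inl
          ![Sum.inl (some none), Sum.inr 0])).and (l.ex.ex.map (Sum.elim Sum.inl
          ![Sum.inr 0, Sum.inl none]))), fun z => ?_⟩
        unfold Mo.Q
        rw [hb.qand, hb.qand, hb.qmap, hb.qmap]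
        have f0 : d.ex.ex.Tr N'.S (Sum.elim N'.c ![z]) ↔ N.Q d ![z] := by
          rw [hN']
          show ((N.ext x₀).ext b₀).Q d.ex.ex ![z] ↔ _
          rw [hx.exq, hx.exq]
        have f1 : (Sum.elim N'.c ![z] ∘ Sum.elim Sum.inl ![Sum.inl (some none), Sum.inr 0] :
            Option (Option Q) ⊕ Fin 2 → M) = Sum.elim N'.c ![x₀.1, z] := by
          funext v
          rcases v with v | v
          · rfl
          · fin_cases v
            · show N'.c (some none) = x₀.1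
              rw [hN']; rfl
            · rfl
        have f2 : (Sum.elim N'.c ![z] ∘ Sum.elim Sum.inl ![Sum.inr 0, Sum.inl none] :
            Option (Option Q) ⊕ Fin 2 → M) = Sum.elim N'.c ![z, b₀.1] := by
          funext v
          rcases v with v | v
          · rfl
          · fin_cases v
            · rfl
            · show N'.c none = b₀.1
              rw [hN']; rfl
        rw [f0, f1, f2]
        exact and_congr Iff.rfl (and_congr (hl _ _) (hl _ _))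
      have hN'A : N'.A = univ := by rw [hN']; exact hA
      have hMd' : Md (T.map (some ∘ some)) N' := by
        refine (he.rmd (N := N') (T := T) (some ∘ some) (fun p => by rw [hN'A]; trivial)).2 ?_
        rw [hN']
        exact hMd
      have key : Sup (T.map (some ∘ some)) N' W := by
        refine SUP_gen ht h2 hs W inferInstance hK hN'A hMd' (d' := d') (l' := l.ex.ex)
          ⟨?_, ?_, ?_⟩ ?_ hW ?_ ?_
        · intro x _ dx h
          exact hLo.irr x (hm _) ((hd' x).1 dx).1 ((hl _ _).1 h)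
        · intro x _ y _ z _ dx dy dz h h'
          exact (hl _ _).2 (hLo.trs x (hm _) y (hm _) z (hm _) ((hd' x).1 dx).1 ((hd' y).1 dy).1
            ((hd' z).1 dz).1 ((hl _ _).1 h) ((hl _ _).1 h'))
        · intro x _ y _ dx dy
          rw [hl, hl]
          exact hLo.tot x (hm _) y (hm _) ((hd' x).1 dx).1 ((hd' y).1 dy).1
        · have : {x | N'.Q d' ![x]} = Subtype.val '' (Ioo x₀ b₀) := by
            ext z
            constructor
            · intro hz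
              obtain ⟨h3, h4, h5⟩ := (hd' z).1 hz
              exact ⟨⟨z, h3⟩, ⟨h4, h5⟩, rfl⟩
            · rintro ⟨⟨z', h3⟩, ⟨h4, h5⟩, rfl⟩
              exact (hd' z').2 ⟨h3, h4, h5⟩
          rw [this]
          exact hIi.image Subtype.val_injective.injOn
        · rintro x dx ⟨y, dy, hy⟩
          obtain ⟨a1, a2, a3⟩ := (hd' x).1 dx
          obtain ⟨b1, b2, b3⟩ := (hd' y).1 dy
          obtain ⟨y', hy', h3, h4⟩ := e1 ⟨x, a1⟩ ⟨a2, a3⟩ ⟨⟨y, b1⟩, ⟨b2, b3⟩, (hl _ _).1 hy⟩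
          refine ⟨y', (hd' _).2 ⟨y'.2, hy'.1, hy'.2⟩, (hl _ _).2 h3, fun z dz h5 h6 => ?_⟩
          obtain ⟨c1, c2, c3⟩ := (hd' z).1 dz
          exact h4 ⟨z, c1⟩ ⟨c2, c3⟩ ((hl _ _).1 h5) ((hl _ _).1 h6)
        · rintro x dx ⟨y, dy, hy⟩
          obtain ⟨a1, a2, a3⟩ := (hd' x).1 dx
          obtain ⟨b1, b2, b3⟩ := (hd' y).1 dy
          obtain ⟨y', hy', h3, h4⟩ := e2 ⟨x, a1⟩ ⟨a2, a3⟩ ⟨⟨y, b1⟩, ⟨b2, b3⟩, (hl _ _).1 hy⟩
          refine ⟨y', (hd' _).2 ⟨y'.2, hy'.1, hy'.2⟩, (hl _ _).2 h3, fun z dz h5 h6 => ?_⟩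
          obtain ⟨c1, c2, c3⟩ := (hd' z).1 dz
          exact h4 ⟨z, c1⟩ ⟨c2, c3⟩ ((hl _ _).1 h5) ((hl _ _).1 h6)
      have := hs.xr T (some ∘ some) N' W key
      rw [hN'] at this
      exact this

end ORD
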