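import Pool.Agent.ORD.StS
import Mathlib.Data.Set.Card
import Mathlib.Order.Cover
import Mathlib.Logic.Encodable.Basic
import Mathlib.Data.Countable.Basic

/-!
# ORD [SYN]: the bounds in the second case
-/

set_option autoImplicit false
set_option linter.unusedVariables false

namespace ORD

open Set

section SYN

variable {D : Type} [LinearOrder D]

/-- `c` is a chain of length `l` -/
private def Ch (c : ℕ → D) (l : ℕ) : Prop := ∀ k < l, c k ⋖ c (k + 1)

private def In (c : ℕ → D) (l : ℕ) (Z : Set D) : Prop := ∀ k ≤ l, c k ∈ Z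

private def Th' (Z : Set D) : Prop := ∀ l, ∃ c : ℕ → D, Ch c l ∧ In c l Z

private def Sy' (l : ℕ) (Z X : Set D) : Prop := ∀ c : ℕ → D, Ch c l → In c l Z → ∃ k ≤ l, c k ∈ X

private theorem Ch_lt {c : ℕ → D} {l : ℕ} (h : Ch c l) (i : ℕ) :
    ∀ j, i + j + 1 ≤ l → c i < c (i + j + 1) := by
  intro j
  induction j with
  | zero => intro hj; exact (h i (by omega)).lt
  | succ j ih =>
    intro hj
    exact (ih (by omega)).trans (h (i + j + 1) (by omega)).lt

private theorem Ch_sub {c : ℕ → D} {l : ℕ} (h : Ch c l) (k : ℕ) : ∀ j, k + j ≤ l →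
    Ioo (c k) (c (k + j)) ⊆ range fun i : Fin j => c (k + i) := by
  intro j
  induction j with
  | zero =>
    intro _ x hx
    exact absurd (hx.1.trans hx.2) (lt_irrefl _)
  | succ j ih =>
    intro hj x hx
    have h1 : ¬ c (k + j) < x := fun h2 => (h (k + j) (by omega)).2 h2 hx.2
    rcases (not_lt.1 h1).lt_or_eq with h2 | h2
    · obtain ⟨i, hi⟩ := ih (by omega) ⟨hx.1, h2⟩
      exact ⟨i.castSucc, hi⟩
    · exact ⟨Fin.last j, h2.symm⟩

private theorem Ch_card {c : ℕ → D} {l : ℕ} (h : Ch c l) (k j : ℕ) (hj : k + j ≤ l) :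
    (Ioo (c k) (c (k + j))).encard ≤ j := by
  refine (encard_le_encard (Ch_sub h k j hj)).trans ?_
  rw [← image_univ]
  refine (encard_image_le _ _).trans ?_
  simp

private theorem Ch_gap {c : ℕ → D} {l : ℕ} (h : Ch c l) (k n : ℕ) (hn : k + n + 1 ≤ l) (y : D)
    (hy : c (k + n + 1) ≤ y) : (n : ℕ∞) ≤ (Ioo (c k) y).encard := by
  have h1 : Function.Injective fun i : Fin n => c (k + i + 1) := by
    intro i j hij
    simp only at hij
    rcases lt_trichotomy (i : ℕ) j with h2 | h2 | h2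
    · exfalso
      have := Ch_lt h (k + i + 1) ((j : ℕ) - i - 1) (by omega)
      have e : k + (i : ℕ) + 1 + ((j : ℕ) - i - 1) + 1 = k + j + 1 := by omega
      rw [e] at this
      exact absurd hij this.ne
    · exact Fin.ext h2
    · exfalso
      have := Ch_lt h (k + j + 1) ((i : ℕ) - j - 1) (by omega)
      have e : k + (j : ℕ) + 1 + ((i : ℕ) - j - 1) + 1 = k + i + 1 := by omega
      rw [e] at this
      exact absurd hij.symm this.ne
  have h2 : range (fun i : Fin n => c (k + i + 1)) ⊆ Ioo (c k) y := by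
    rintro _ ⟨i, rfl⟩
    refine ⟨Ch_lt h k i (by omega), ?_⟩
    have := Ch_lt h (k + i + 1) (n - i - 1) (by omega)
    have e : k + (i : ℕ) + 1 + (n - i - 1) + 1 = k + n + 1 := by omega
    rw [e] at this
    exact this.trans_le hy
  calc (n : ℕ∞) = (range fun i : Fin n => c (k + i + 1)).encard := by
        rw [← image_univ, h1.encard_image]; simp
    _ ≤ _ := encard_le_encard h2

private theorem up (hs : ∀ x : D, (∃ y, x < y) → ∃ y, x ⋖ y) (x₀ : D) (hf : ¬ (Ici x₀).Finite) :
    ∀ l, ∃ c : ℕ → D, Ch c l ∧ c 0 = x₀ := by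
  intro l
  induction l with
  | zero => exact ⟨fun _ => x₀, fun k hk => absurd hk (Nat.not_lt_zero k), rfl⟩
  | succ l ih =>
    obtain ⟨c, hc, h0⟩ := ih
    by_cases hm : ∃ y, c l < y
    · obtain ⟨y, hy⟩ := hs _ hm
      refine ⟨fun k => if k ≤ l then c k else y, ?_, by simp [h0]⟩
      intro k hk
      rcases Nat.lt_or_ge k l with h | h
      · have h1 : k ≤ l := h.le
        have h2 : k + 1 ≤ l := h
        simp only [h1, h2, if_true]
        exact hc k h
      · have h1 : k = l := by omega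
        subst h1
        simp only [le_refl, if_true]
        have h2 : ¬ k + 1 ≤ k := by omega
        simp only [h2, if_false]
        exact hy
    · exfalso
      apply hf
      refine ((finite_range fun i : Fin (l + 1) => c i)).subset ?_
      intro x hx
      have h1 : x ≤ c l := not_lt.1 fun h => hm ⟨x, h⟩
      rcases h1.lt_or_eq with h2 | h2
      · rcases (show x₀ ≤ x from hx).lt_or_eq with h3 | h3
        · obtain ⟨i, hi⟩ := Ch_sub hc 0 l (by omega) ⟨by rw [h0]; exact h3, by simpa using h2⟩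
          exact ⟨i.castSucc, by simpa using hi⟩
        · exact ⟨0, by simp [h0, h3]⟩
      · exact ⟨Fin.last l, by simp [h2]⟩

private theorem thick_univ [Infinite D] (hs : ∀ x : D, (∃ y, x < y) → ∃ y, x ⋖ y)
    (hp : ∀ x : D, (∃ y, y < x) → ∃ y, y ⋖ x) : Th' (univ : Set D) := by
  obtain ⟨x₀⟩ : Nonempty D := inferInstance
  by_cases h1 : (Ici x₀).Finite
  · by_cases h2 : (Iic x₀).Finite
    · exfalso
      have h3 : (univ : Set D).Finite := (h2.union h1).subset fun x _ => le_total x x₀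
      exact Set.infinite_univ h3
    · have hs' : ∀ x : Dᵒᵈ, (∃ y, x < y) → ∃ y, x ⋖ y := by
        intro x hx
        obtain ⟨y, hy⟩ := hx
        obtain ⟨z, hz⟩ := hp (OrderDual.ofDual x) ⟨OrderDual.ofDual y, hy⟩
        exact ⟨OrderDual.toDual z, hz.toDual⟩
      have h3 := up (D := Dᵒᵈ) hs' (OrderDual.toDual x₀) h2
      intro l
      obtain ⟨c, hc, _⟩ := h3 l
      refine ⟨fun k => OrderDual.ofDual (c (l - k)), ?_, fun _ _ => mem_univ _⟩
      intro k hk
      have h4 := hc (l - (k + 1)) (by omega)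
      have e : l - (k + 1) + 1 = l - k := by omega
      rw [e] at h4
      exact h4.ofDual
  · intro l
    obtain ⟨c, hc, _⟩ := up hs x₀ h1 l
    exact ⟨c, hc, fun _ _ => mem_univ _⟩

open Classical in
/-- the decreasing sequence of thick sets -/
private noncomputable def ZZ (X : ℕ → Set D) : ℕ → Set D
  | 0 => univ
  | j + 1 => if Th' (ZZ X j \ X j) then ZZ X j \ X j else ZZ X j

private theorem ZZ_thick (X : ℕ → Set D) (h0 : Th' (univ : Set D)) : ∀ j, Th' (ZZ X j) := by
  intro j
  induction j with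
  | zero => exact h0
  | succ j ih =>
    rw [ZZ]
    split_ifs with h
    · exact h
    · exact ih

private theorem ZZ_anti (X : ℕ → Set D) : Antitone (ZZ X) := by
  refine antitone_nat_of_succ_le fun j => ?_
  rw [ZZ]
  split_ifs with h
  · exact sdiff_subset
  · exact le_rfl

private theorem ZZ_dich (X : ℕ → Set D) (j : ℕ) :
    ZZ X (j + 1) ∩ X j = ∅ ∨ ∃ l, Sy' l (ZZ X (j + 1)) (X j) := by
  by_cases h : Th' (ZZ X j \ X j)
  · left
    rw [ZZ, if_pos h]
    ext x
    simp
  · right
    have e : ZZ X (j + 1) = ZZ X j := by rw [ZZ, if_neg h]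
    rw [e]
    unfold Th' at h
    push Not at h
    obtain ⟨l, hl⟩ := h
    refine ⟨l, fun c hc hi => ?_⟩
    have h1 := hl c hc
    unfold In at h1
    push Not at h1
    obtain ⟨k, hk, hk2⟩ := h1
    refine ⟨k, hk, ?_⟩
    by_contra h3
    exact hk2 ⟨hi k hk, h3⟩

variable {A : Type}

/-- the conditions for the first `R` addresses -/
private def XX (r : D → A → D → Prop) (e : ℕ → Option A) (R : ℕ) (γ : ℕ → ℕ) (n : ℕ) : Set D :=
  {y | ∀ i < R, ∀ s, e i = some s → ∀ z, r y s z → y < z →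
    (Ioo y z).encard ≤ γ i ∨ (n : ℕ∞) < (Ioo y z).encard}

private theorem XX_congr (r : D → A → D → Prop) (e : ℕ → Option A) (R : ℕ) {γ γ' : ℕ → ℕ} (n : ℕ)
    (h : ∀ i < R, γ i = γ' i) : XX r e R γ n = XX r e R γ' n := by
  ext y
  constructor
  · intro hy i hi
    rw [← h i hi]
    exact hy i hi
  · intro hy i hi
    rw [h i hi]
    exact hy i hi

private theorem main [Infinite D] [Countable A] (r : D → A → D → Prop)
    (hu : ∀ y s z z', r y s z → r y s z' → z = z')
    (hs : ∀ x : D, (∃ y, x < y) → ∃ y, x ⋖ y) (hp : ∀ x : D, (∃ y, y < x) → ∃ y, y ⋖ x) :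
    ∃ g : A → ℕ, ∀ (m n : ℕ) (H : Finset A), ∃ (x : ℕ → D) (b : D),
      (∀ i < m, x i < b ∧
        ∀ s ∈ H, ∀ z, r (x i) s z → x i < z → z < b → (Ioo (x i) z).encard ≤ g s) ∧
      ∀ i, i + 1 < m → x i < x (i + 1) ∧ n ≤ (Ioo (x i) (x (i + 1))).encard := by
  classical
  obtain ⟨e, he⟩ := exists_surjective_nat (Option A)
  obtain ⟨w, hw⟩ := exists_surjective_nat (ℕ × List ℕ × ℕ)
  let X : ℕ → Set D := fun j => XX r e (w j).1 (fun i => (w j).2.1.getD i 0) (w j).2.2
  have hT : ∀ j, Th' (ZZ X j) := ZZ_thick X (thick_univ hs hp)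
  -- dichotomy
  have hd : ∀ R γ n, (∃ j, ZZ X j ∩ XX r e R γ n = ∅) ∨
      ∃ j l, Sy' l (ZZ X j) (XX r e R γ n) := by
    intro R γ n
    obtain ⟨j, hj⟩ := hw (R, (List.range R).map γ, n)
    have h1 : X j = XX r e R γ n := by
      show XX r e (w j).1 (fun i => (w j).2.1.getD i 0) (w j).2.2 = _
      rw [hj]
      refine XX_congr r e R n fun i hi => ?_
      simp [List.getD, hi]
    rcases ZZ_dich X j with h2 | ⟨l, h2⟩
    · left
      exact ⟨j + 1, h1 ▸ h2⟩
    · right
      exact ⟨j + 1, l, h1 ▸ h2⟩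
  -- the step
  have hstep : ∀ R γ, (∀ n, ∃ j l, Sy' l (ZZ X j) (XX r e R γ n)) →
      ∃ t, ∀ n, ∃ j l, Sy' l (ZZ X j) (XX r e (R + 1) (Function.update γ R t) n) := by
    intro R γ h
    by_contra hcon
    push Not at hcon
    obtain ⟨n₀, h₀⟩ := hcon 0
    obtain ⟨n₁, h₁⟩ := hcon n₀
    obtain ⟨j₀, hj₀⟩ : ∃ j, ZZ X j ∩ XX r e (R + 1) (Function.update γ R 0) n₀ = ∅ := by
      rcases hd (R + 1) (Function.update γ R 0) n₀ with h2 | ⟨j, l, h2⟩
      · exact h2
      · exact absurd h2 (h₀ j l)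
    obtain ⟨j₁, hj₁⟩ : ∃ j, ZZ X j ∩ XX r e (R + 1) (Function.update γ R n₀) n₁ = ∅ := by
      rcases hd (R + 1) (Function.update γ R n₀) n₁ with h2 | ⟨j, l, h2⟩
      · exact h2
      · exact absurd h2 (h₁ j l)
    obtain ⟨j₂, l₂, h₂⟩ := h (max n₀ n₁)
    obtain ⟨c, hc, hci⟩ := hT (max j₀ (max j₁ j₂)) l₂
    obtain ⟨k, hk, hkX⟩ := h₂ c hc fun k hk =>
      ZZ_anti X ((le_max_right _ _).trans (le_max_right _ _)) (hci k hk)
    have hy := hci k hk
    have e₀ : c k ∉ XX r e (R + 1) (Function.update γ R 0) n₀ := by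
      intro h3
      have : c k ∈ (∅ : Set D) := hj₀ ▸ ⟨ZZ_anti X (le_max_left _ _) hy, h3⟩
      exact this
    have e₁ : c k ∉ XX r e (R + 1) (Function.update γ R n₀) n₁ := by
      intro h3
      have : c k ∈ (∅ : Set D) :=
        hj₁ ▸ ⟨ZZ_anti X ((le_max_left _ _).trans (le_max_right _ _)) hy, h3⟩
      exact this
    have key : ∀ t n, n ≤ max n₀ n₁ → c k ∉ XX r e (R + 1) (Function.update γ R t) n →
        ∃ s, e R = some s ∧ ∃ z, r (c k) s z ∧ ¬ (Ioo (c k) z).encard ≤ t ∧
          ¬ (n : ℕ∞) < (Ioo (c k) z).encard := by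
      intro t n hn hX
      unfold XX at hX
      simp only [mem_ofPred_eq] at hX
      push Not at hX
      obtain ⟨i, hi, s, his, z, hz, hlt, h4, h5⟩ := hX
      rcases Nat.lt_or_ge i R with h6 | h6
      · exfalso
        rcases hkX i h6 s his z hz hlt with h7 | h7
        · rw [Function.update_of_ne h6.ne] at h4
          exact absurd h7 (not_le.2 h4)
        · exact absurd (h7.trans_le h5) (not_lt.2 (by exact_mod_cast hn))
      · have h7 : i = R := by omega
        subst h7
        rw [Function.update_self] at h4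
        exact ⟨s, his, z, hz, not_le.2 h4, not_lt.2 h5⟩
    obtain ⟨s, hs1, z, hz, _, h5⟩ := key 0 n₀ (le_max_left _ _) e₀
    obtain ⟨s', hs2, z', hz', h6, _⟩ := key n₀ n₁ (le_max_right _ _) e₁
    have h7 : s = s' := by
      rw [hs1] at hs2
      exact Option.some.inj hs2
    subst h7
    have h8 : z = z' := hu _ _ _ _ hz hz'
    subst h8
    exact h5 (not_le.1 h6)
  -- the sequence of bounds
  obtain ⟨γ, hγ⟩ : ∃ γ : ℕ → ℕ, ∀ R n, ∃ j l, Sy' l (ZZ X j) (XX r e R γ n) := by
    let St : ℕ → Type := fun R => {γ : ℕ → ℕ // ∀ n, ∃ j l, Sy' l (ZZ X j) (XX r e R γ n)}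
    have h0 : ∀ n, ∃ j l, Sy' l (ZZ X j) (XX r e 0 (fun _ => 0) n) := fun n =>
      ⟨0, 0, fun c hc hi => ⟨0, le_rfl, fun i hi => absurd hi (Nat.not_lt_zero i)⟩⟩
    choose t ht using hstep
    let sq : ∀ R, St R := fun R => Nat.rec (motive := St) ⟨fun _ => 0, h0⟩
      (fun R p => ⟨Function.update p.1 R (t R p.1 p.2), ht R p.1 p.2⟩) R
    have hsq : ∀ R, (sq (R + 1)).1 = Function.update (sq R).1 R (t R (sq R).1 (sq R).2) :=
      fun R => rfl
    have hst : ∀ i k, (sq (i + 1 + k)).1 i = (sq (i + 1)).1 i := by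
      intro i k
      induction k with
      | zero => rfl
      | succ k ih =>
        rw [← ih]
        show (sq (i + 1 + k + 1)).1 i = _
        rw [hsq, Function.update_of_ne (by omega)]
    refine ⟨fun i => (sq (i + 1)).1 i, fun R n => ?_⟩
    have h1 : XX r e R (fun i => (sq (i + 1)).1 i) n = XX r e R (sq R).1 n := by
      refine XX_congr r e R n fun i hi => ?_
      have h2 := hst i (R - (i + 1))
      rw [show i + 1 + (R - (i + 1)) = R by omega] at h2
      exact h2.symm
    rw [h1]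
    exact (sq R).2 n
  -- the function g
  choose ix hix using fun s : A => he (some s)
  refine ⟨fun s => γ (ix s), fun m n H => ?_⟩
  obtain ⟨R, hR⟩ : ∃ R, ∀ s ∈ H, ix s < R := by
    refine ⟨H.sup ix + 1, fun s hs => ?_⟩
    exact Nat.lt_succ_of_le (Finset.le_sup hs)
  have claim : ∀ m : ℕ, ∃ l j : ℕ, ∀ c : ℕ → D, Ch c l → In c l (ZZ X j) →
      ∃ (x : ℕ → D) (b : D), c 0 ≤ b ∧ b ≤ c l ∧ (∀ i < m, c 0 ≤ x i) ∧
      (∀ i < m, x i < b ∧
        ∀ s ∈ H, ∀ z, r (x i) s z → x i < z → z < b → (Ioo (x i) z).encard ≤ γ (ix s)) ∧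
      ∀ i, i + 1 < m → x i < x (i + 1) ∧ n ≤ (Ioo (x i) (x (i + 1))).encard := by
    intro m
    induction m with
    | zero =>
      refine ⟨0, 0, fun c hc hi => ⟨c, c 0, le_rfl, le_rfl, ?_, ?_, ?_⟩⟩
      · intro i hi; omega
      · intro i hi; omega
      · intro i hi; omega
    | succ m ih =>
      obtain ⟨l, j, hlj⟩ := ih
      obtain ⟨j', l', hS⟩ := hγ R (n + l + 1)
      refine ⟨l' + n + 1 + l, max j j', fun c hc hi => ?_⟩
      obtain ⟨k, hk, hkX⟩ := hS c (fun k hk => hc k (by omega)) fun k hk =>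
        ZZ_anti X (le_max_right _ _) (hi k (by omega))
      obtain ⟨x, b, h0b, hbl, h0x, hx1, hx2⟩ := hlj (fun i => c (k + n + 1 + i))
        (fun i hi' => hc (k + n + 1 + i) (by omega))
        (fun i hi' => ZZ_anti X (le_max_left _ _) (hi (k + n + 1 + i) (by omega)))
      simp only [Nat.add_zero] at h0b h0x
      have hkk : c k < c (k + n + 1) := Ch_lt hc k n (by omega)
      have h0k : c 0 ≤ c k := by
        rcases Nat.eq_zero_or_pos k with h | h
        · rw [h]
        · have := Ch_lt hc 0 (k - 1) (by omega)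
          rw [show 0 + (k - 1) + 1 = k by omega] at this
          exact this.le
      have hle : c (k + n + 1 + l) ≤ c (l' + n + 1 + l) := by
        rcases hk.lt_or_eq with h | h
        · have := Ch_lt hc (k + n + 1 + l) (l' - k - 1) (by omega)
          rw [show k + n + 1 + l + (l' - k - 1) + 1 = l' + n + 1 + l by omega] at this
          exact this.le
        · rw [h]
      refine ⟨fun i => Nat.casesOn i (c k) x, b, (h0k.trans hkk.le).trans h0b, hbl.trans hle,
        ?_, ?_, ?_⟩
      · intro i hi'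
        rcases i with _ | i
        · exact h0k
        · exact (h0k.trans hkk.le).trans (h0x i (by omega))
      · intro i hi'
        rcases i with _ | i
        · refine ⟨hkk.trans_le h0b, fun s hs z hz hlt hzb => ?_⟩
          rcases hkX (ix s) (hR s hs) s (hix s) z hz hlt with h1 | h1
          · exact h1
          · exfalso
            have h2 : (Ioo (c k) z).encard ≤ ((n + 1 + l : ℕ) : ℕ∞) := by
              refine (encard_le_encard (Ioo_subset_Ioo_right (hzb.le.trans hbl))).trans ?_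
              have := Ch_card hc k (n + 1 + l) (by omega)
              rwa [show k + (n + 1 + l) = k + n + 1 + l by omega] at this
            have h3 := h1.trans_le h2
            have h4 : n + l + 1 < n + 1 + l := by exact_mod_cast h3
            omega
        · exact hx1 i (by omega)
      · intro i hi'
        rcases i with _ | i
        · have h1 : c (k + n + 1) ≤ x 0 := h0x 0 (by omega)
          exact ⟨hkk.trans_le h1, Ch_gap hc k n (by omega) (x 0) h1⟩
        · exact hx2 i (by omega)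
  obtain ⟨l, j, h⟩ := claim m
  obtain ⟨c, hc, hi⟩ := hT j l
  obtain ⟨x, b, _, _, _, h1, h2⟩ := h c hc hi
  exact ⟨x, b, h1, h2⟩

end SYN

theorem thm_SYN : St_SYN := by
  intro D A _ _ _ r hu hs hp
  exact main r hu hs hp

end ORD
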