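import Pool.Agent.ORD.StC

/-!
# ORD: the standard interpretation of the symbols of the template
-/

set_option autoImplicit false
set_option linter.unusedVariables false

namespace ORD

open Set FirstOrder

theorem thm_SYS (hb : BAS) (he : EMB) : St_SYS := by
  classical
  intro L P M I F g N e hA hmd
  have h1 : ∀ (k : F.T.K) (y : M), ∃ z : Fin (F.T.n k) → M, F.T.Wit N k y z := by
    intro k y
    obtain ⟨z, -, hz⟩ := hmd.wit y (by rw [hA]; trivial) k
    exact ⟨z, hz⟩
  choose wt hwt using h1
  have h2 : ∀ y : M, ∃ u : Adr F.T → M, F.Good g N y → F.Lam g N y u := by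
    intro y
    by_cases h : F.Good g N y
    · obtain ⟨u, hu⟩ := h
      exact ⟨u, fun _ => hu⟩
    · exact ⟨fun _ => y, fun h' => absurd h' h⟩
  choose tr htr using h2
  have h3 : ∀ (ρ : F.Rsn g) (y : M), ∃ a : Fin ρ.n → M,
      (∃ a, Fr.Has N y ρ a) → Fr.Has N y ρ a := by
    intro ρ y
    by_cases h : ∃ a, Fr.Has N y ρ a
    · obtain ⟨a, ha⟩ := h
      exact ⟨a, fun _ => ha⟩
    · exact ⟨fun _ => y, fun h' => absurd h' h⟩
  choose rp hrp using h3
  refine ⟨{ fn := fun s y => match s with
              | .wt k i => wt k y i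
              | .tr s => tr y s
              | .rp ρ i => rp ρ y i
              | .cs m => e m
            rel := fun R => match R with
              | .uf r φ => fun v => N.Tr φ v
              | .gd => fun v : Fin 1 → M => F.Good g N (v 0)
              | .cl => fun v : Fin 2 → M => F.Cl N (v 0) (v 1)
              | .rs ρ => fun v : Fin 1 → M => ∃ a, Fr.Has N (v 0) ρ a }, ?_⟩
  refine ⟨⟨?_, ?_, ?_, ?_, ?_, ?_⟩, ?_, ?_, ?_⟩
  · exact fun k y => hwt k y
  · exact fun y hy => htr y hy
  · exact fun ρ y hy => hrp ρ y hy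
  · exact fun m y => rfl
  · exact fun r φ v => Iff.rfl
  · exact fun x y h => h
  · exact fun y h => h
  · rintro y ⟨ρ, a, h⟩
    exact ⟨ρ, a, h⟩
  · exact fun x y h => h

end ORD
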