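import Pool.Agent.ORD.StD2

/-!
# ORD, module THA (7): decoding
-/

set_option autoImplicit false
set_option linter.unusedVariables false

namespace ORD

open Set FirstOrder

section

variable {L : Lg} {P M₀ : Type} {F : Fr L P} {g : Adr F.T → ℕ} {N₀ : Mo L P M₀}

/-- the conclusions of `St_PKG` -/
private structure THA_C (t : Tp F g N₀) (B : Type) [LinearOrder B] (b : ℚ → B → t.M') : Prop where
  bm : ∀ j s, b j s ∈ t.NJ {j} ∧ F.D t.N' (b j s) ∧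
    ∀ J : Set ℚ, j ∈ J → F.Good g (t.N'.sub (t.NJ J)) (b j s)
  bl : ∀ j s s', s < s' → F.Ll t.N' (b j s') (b j s)
  by' : ∀ i j s, i < j → F.Ll t.N' (b j s) (t.y i) ∧ F.Ll t.N' (t.y j) (b i s)
  al : ∀ (J : Set ℚ) (i k : ℚ) (z : t.M'), z ∈ t.NJ J → F.D t.N' z →
    F.Good g (t.N'.sub (t.NJ J)) z → F.Ll t.N' z (t.y i) → F.Ll t.N' (t.y k) z →
    ∃ j ∈ J, i ≤ j ∧ j ≤ k ∧ ∃ s, F.Cl t.N' z (b j s)

private theorem THA_mem (t : Tp F g N₀) {J : Set ℚ} {j : ℚ} (hj : j ∈ J) : t.y j ∈ t.NJ J :=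
  ⟨j, hj, [], rfl⟩

private theorem THA_mono (t : Tp F g N₀) {J : Set ℚ} {j : ℚ} (hj : j ∈ J) {z : t.M'}
    (hz : z ∈ t.NJ {j}) : z ∈ t.NJ J := by
  obtain ⟨_, rfl, w, rfl⟩ := hz
  exact ⟨_, hj, w, rfl⟩

private theorem THA_sub (t : Tp F g N₀) (J : Set ℚ) : t.NJ J ⊆ t.N'.A := by
  rw [t.nu']; exact subset_univ _

private theorem THA_tri {B : Type} [LinearOrder B] (z z' : ℚ × B) :
    Lx z z' ∨ z = z' ∨ Lx z' z := by
  rcases lt_trichotomy z.1 z'.1 with h | h | h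
  · exact Or.inl (Or.inl h)
  · rcases lt_trichotomy z.2 z'.2 with h' | h' | h'
    · exact Or.inl (Or.inr ⟨h, h'⟩)
    · exact Or.inr (Or.inl (Prod.ext h h'))
    · exact Or.inr (Or.inr (Or.inr ⟨h.symm, h'⟩))
  · exact Or.inr (Or.inr (Or.inl h))

/-- the data of an isomorphism of `NJ (J f)` and `NJ (J f')` -/
private structure THA_I (t : Tp F g N₀) (J J' : Set ℚ) (a c : ℚ) (h : t.M' → t.M') : Prop where
  is : Is (t.N'.sub (t.NJ J)) (t.N'.sub (t.NJ J')) h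
  ya : h (t.y a) = t.y a
  yc : h (t.y c) = t.y c
  aJ : a ∈ J
  cJ : c ∈ J
  aJ' : a ∈ J'
  cJ' : c ∈ J'

private theorem THA_m {t : Tp F g N₀} {J J' : Set ℚ} {a c : ℚ} {h : t.M' → t.M'}
    (hI : THA_I t J J' a c h) {x : t.M'} (hx : x ∈ t.NJ J) : h x ∈ t.NJ J' :=
  hI.is.bij.mapsTo hx

private theorem THA_d (ha : ABS) (hg : GJA) {t : Tp F g N₀} {J J' : Set ℚ} {a c : ℚ}
    {h : t.M' → t.M'} (hI : THA_I t J J' a c h) {x : t.M'} (hx : x ∈ t.NJ J) :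
    F.D t.N' (h x) ↔ F.D t.N' x := by
  have h1 := ha.isd (F := F) hI.is (fun p => hg.cp t J ⟨a, hI.aJ⟩ p) x hx
  rw [ha.sdd (THA_sub t J) x hx, ha.sdd (THA_sub t J') _ (THA_m hI hx)] at h1
  exact h1

private theorem THA_l (ha : ABS) (hg : GJA) {t : Tp F g N₀} {J J' : Set ℚ} {a c : ℚ}
    {h : t.M' → t.M'} (hI : THA_I t J J' a c h) {x y : t.M'} (hx : x ∈ t.NJ J)
    (hy : y ∈ t.NJ J) : F.Lt t.N' (h x) (h y) ↔ F.Lt t.N' x y :=
  ha.isl (F := F) hI.is (fun p => hg.cp t J ⟨a, hI.aJ⟩ p) x hx y hy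

private theorem THA_c (ha : ABS) (hg : GJA) {t : Tp F g N₀} {J J' : Set ℚ} {a c : ℚ}
    {h : t.M' → t.M'} (hI : THA_I t J J' a c h) {x y : t.M'} (hx : x ∈ t.NJ J)
    (hy : y ∈ t.NJ J) (dx : F.D t.N' x) (dy : F.D t.N' y) :
    F.Cl t.N' (h x) (h y) ↔ F.Cl t.N' x y := by
  have h1 := ha.isc (F := F) hI.is (fun p => hg.cp t J ⟨a, hI.aJ⟩ p) x hx y hy
  rw [ha.scl t.ok t.md' (hg.cw t J) (fun p => hg.cp t J ⟨a, hI.aJ⟩ p) x hx y hy dx dy,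
    ha.scl t.ok t.md' (hg.cw t J') (fun p => hg.cp t J' ⟨a, hI.aJ'⟩ p) _ (THA_m hI hx) _
      (THA_m hI hy) ((THA_d ha hg hI hx).2 dx) ((THA_d ha hg hI hy).2 dy)] at h1
  exact h1

private theorem THA_ll (ha : ABS) (hg : GJA) {t : Tp F g N₀} {J J' : Set ℚ} {a c : ℚ}
    {h : t.M' → t.M'} (hI : THA_I t J J' a c h) {x y : t.M'} (hx : x ∈ t.NJ J)
    (hy : y ∈ t.NJ J) (dx : F.D t.N' x) (dy : F.D t.N' y) :
    F.Ll t.N' (h x) (h y) ↔ F.Ll t.N' x y := by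
  unfold Fr.Ll
  rw [THA_l ha hg hI hx hy, THA_c ha hg hI hx hy dx dy]

private theorem THA_inv (hg : GJA) (he : EMB) {t : Tp F g N₀} {J J' : Set ℚ} {a c : ℚ}
    {h : t.M' → t.M'} (hI : THA_I t J J' a c h) :
    ∃ h', THA_I t J' J a c h' ∧ (∀ x ∈ t.NJ J, h' (h x) = x) ∧ ∀ x ∈ t.NJ J', h (h' x) = x := by
  obtain ⟨h', h1, h2, h3⟩ := he.isi hI.is (fun p => hg.cp t J ⟨a, hI.aJ⟩ p)
    ⟨_, THA_mem t hI.aJ⟩
  refine ⟨h', ⟨h1, ?_, ?_, hI.aJ', hI.cJ', hI.aJ, hI.cJ⟩, h2, h3⟩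
  · have := h2 _ (THA_mem t hI.aJ)
    rwa [hI.ya] at this
  · have := h2 _ (THA_mem t hI.cJ)
    rwa [hI.yc] at this

/-- the sets `GS` -/
private abbrev THA_G (t : Tp F g N₀) {B : Type} (b : ℚ → B → t.M') (a c : ℚ) (J : Set ℚ) :
    Set (ℚ × B) :=
  GS a c {s | F.Ll t.N' (b a s) (t.y a)} {s | F.Ll t.N' (t.y c) (b c s)} J

private theorem THA_gs {t : Tp F g N₀} {B : Type} [LinearOrder B] {b : ℚ → B → t.M'}
    (hC : THA_C t B b) {J : Set ℚ} {a c : ℚ} (hJ : ∀ q ∈ J, a ≤ q ∧ q ≤ c) {z : ℚ × B}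
    (hz : z ∈ THA_G t b a c J) :
    b z.1 z.2 ∈ t.NJ J ∧ F.D t.N' (b z.1 z.2) ∧ F.Good g (t.N'.sub (t.NJ J)) (b z.1 z.2) ∧
      F.Ll t.N' (b z.1 z.2) (t.y a) ∧ F.Ll t.N' (t.y c) (b z.1 z.2) := by
  obtain ⟨q, s⟩ := z
  obtain ⟨h1, h2, h3⟩ := hz
  simp only at h1 h2 h3 ⊢
  obtain ⟨m1, m2, m3⟩ := hC.bm q s
  refine ⟨THA_mono t h1 m1, m2, m3 J h1, ?_, ?_⟩
  · rcases (hJ q h1).1.lt_or_eq with h | h
    · exact (hC.by' a q s h).1
    · subst h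
      exact h2 rfl
  · rcases (hJ q h1).2.lt_or_eq with h | h
    · exact (hC.by' q c s h).2
    · subst h
      exact h3 rfl

private theorem THA_back (ho : ORL) {t : Tp F g N₀} {B : Type} [LinearOrder B]
    {b : ℚ → B → t.M'} (hC : THA_C t B b) {J : Set ℚ} {a c : ℚ}
    (da : F.D t.N' (t.y a)) (dc : F.D t.N' (t.y c)) {x : t.M'}
    (hx : x ∈ t.NJ J) (dx : F.D t.N' x) (gx : F.Good g (t.N'.sub (t.NJ J)) x)
    (xa : F.Ll t.N' x (t.y a)) (xc : F.Ll t.N' (t.y c) x) :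
    ∃ z ∈ THA_G t b a c J, F.Cl t.N' x (b z.1 z.2) := by
  obtain ⟨j, hj, -, -, s, hs⟩ := hC.al J a c x hx dx gx xa xc
  have db := (hC.bm j s).2.1
  refine ⟨(j, s), ⟨hj, ?_, ?_⟩, hs⟩
  · intro h
    simp only at h
    subst h
    exact ho.cll t.ok t.md' _ _ _ db dx da (t.ok.csm _ _ t.md' _ _ dx db hs) xa
  · intro h
    simp only at h
    subst h
    exact ho.llc t.ok t.md' _ _ _ dc dx db xc hs

private theorem THA_lx (ho : ORL) (hw : WRD) {t : Tp F g N₀} {B : Type} [LinearOrder B]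
    {b : ℚ → B → t.M'} (hC : THA_C t B b) {z z' : ℚ × B} (hz : Lx z z') :
    F.Ll t.N' (b z'.1 z'.2) (b z.1 z.2) := by
  rcases hz with h | ⟨h, h'⟩
  · obtain ⟨i, hi, hi'⟩ := exists_between h
    exact ho.trn t.ok t.md' _ _ _ (hC.bm _ _).2.1 (hw.yd t i).1 (hC.bm _ _).2.1
      (hC.by' i z'.1 z'.2 hi').1 (hC.by' z.1 i z.2 hi).2
  · rw [← h]
    exact hC.bl _ _ _ h'

private theorem THA_fw (ha : ABS) (ho : ORL) (hw : WRD) (hg : GJA) {t : Tp F g N₀} {B : Type}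
    [LinearOrder B] {b : ℚ → B → t.M'} (hC : THA_C t B b) {J J' : Set ℚ} {a c : ℚ}
    (hJ : ∀ q ∈ J, a ≤ q ∧ q ≤ c) {h : t.M' → t.M'} (hI : THA_I t J J' a c h) {z : ℚ × B}
    (hz : z ∈ THA_G t b a c J) :
    ∃ z' ∈ THA_G t b a c J', F.Cl t.N' (h (b z.1 z.2)) (b z'.1 z'.2) := by
  obtain ⟨m, d, gd, la, lc⟩ := THA_gs hC hJ hz
  have da := (hw.yd t a).1
  have dc := (hw.yd t c).1
  refine THA_back ho hC da dc (THA_m hI m) ((THA_d ha hg hI m).2 d) ?_ ?_ ?_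
  · exact (ha.isg hI.is (fun p => hg.cp t J ⟨a, hI.aJ⟩ p) _ m).2 gd
  · have := (THA_ll ha hg hI m (THA_mem t hI.aJ) d da).2 la
    rwa [hI.ya] at this
  · have := (THA_ll ha hg hI (THA_mem t hI.cJ) m dc d).2 lc
    rwa [hI.yc] at this

private theorem THA_sim (he : EMB) (ha : ABS) (ho : ORL) (hw : WRD) (hg : GJA) {t : Tp F g N₀}
    {B : Type} [LinearOrder B] {b : ℚ → B → t.M'} (hC : THA_C t B b) {J J' : Set ℚ} {a c : ℚ}
    (hJ : ∀ q ∈ J, a ≤ q ∧ q ≤ c) (hJ' : ∀ q ∈ J', a ≤ q ∧ q ≤ c) {h : t.M' → t.M'}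
    (hI : THA_I t J J' a c h) : Sim (THA_G t b a c J) (THA_G t b a c J') := by
  have hOk := t.ok
  have hMd := t.md'
  have key : ∀ z : ℚ × B, ∃ z' : ℚ × B, z ∈ THA_G t b a c J →
      z' ∈ THA_G t b a c J' ∧ F.Cl t.N' (h (b z.1 z.2)) (b z'.1 z'.2) := by
    intro z
    by_cases hz : z ∈ THA_G t b a c J
    · obtain ⟨z', h1, h2⟩ := THA_fw ha ho hw hg hC hJ hI hz
      exact ⟨z', fun _ => ⟨h1, h2⟩⟩
    · exact ⟨z, fun h => absurd h hz⟩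
  choose H hH using key
  have hD : ∀ z : ℚ × B, F.D t.N' (b z.1 z.2) := fun z => (hC.bm _ _).2.1
  have hD' : ∀ z ∈ THA_G t b a c J, F.D t.N' (h (b z.1 z.2)) := fun z hz =>
    (THA_d ha hg hI (THA_gs hC hJ hz).1).2 (hD z)
  have hmon : ∀ z ∈ THA_G t b a c J, ∀ z' ∈ THA_G t b a c J, Lx z z' → Lx (H z) (H z') := by
    intro z hz z' hz' hzz
    have h1 := THA_lx ho hw hC hzz
    have h2 := (THA_ll ha hg hI (THA_gs hC hJ hz').1 (THA_gs hC hJ hz).1 (hD z') (hD z)).2 h1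
    have c1 := (hH z hz).2
    have c2 := hOk.csm _ _ hMd _ _ (hD' z' hz') (hD _) (hH z' hz').2
    have h3 := ho.cll hOk hMd _ _ _ (hD _) (hD' z' hz') (hD' z hz) c2 h2
    have h4 := ho.llc hOk hMd _ _ _ (hD _) (hD' z hz) (hD _) h3 c1
    rcases THA_tri (H z) (H z') with h5 | h5 | h5
    · exact h5
    · rw [h5] at h4
      exact absurd h4.1 (hOk.irr _ _ hMd _ (hD _))
    · have h6 := THA_lx ho hw hC h5
      exact absurd h6.1 (ho.asy hOk hMd _ _ (hD _) (hD _) h4.1)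
  have hirr : ∀ z : ℚ × B, ¬ Lx z z := by
    rintro z (h | ⟨-, h⟩)
    · exact lt_irrefl _ h
    · exact lt_irrefl _ h
  refine ⟨H, ⟨fun z hz => (hH z hz).1, ?_, ?_⟩, hmon⟩
  · intro z hz z' hz' hzz
    rcases THA_tri z z' with h1 | h1 | h1
    · have h2 := hmon z hz z' hz' h1
      rw [hzz] at h2
      exact absurd h2 (hirr _)
    · exact h1
    · have h2 := hmon z' hz' z hz h1
      rw [hzz] at h2
      exact absurd h2 (hirr _)
  · intro z' hz'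
    obtain ⟨h', hI', h1, h2⟩ := THA_inv hg he hI
    obtain ⟨z, hz, hzc⟩ := THA_fw ha ho hw hg hC hJ' hI' hz'
    refine ⟨z, hz, ?_⟩
    obtain ⟨m', d', -⟩ := THA_gs hC hJ' hz'
    obtain ⟨m, d, -⟩ := THA_gs hC hJ hz
    have m2 := THA_m hI' m'
    have d2 := (THA_d ha hg hI' m').2 d'
    have c1 := (THA_c ha hg hI m2 m d2 d).2 hzc
    rw [h2 _ m'] at c1
    have c2 : F.Cl t.N' (b z'.1 z'.2) (b (H z).1 (H z).2) :=
      hOk.ctr _ _ hMd _ _ _ d' (hD' z hz) (hD _) c1 (hH z hz).2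
    rcases THA_tri z' (H z) with h5 | h5 | h5
    · exact absurd (hOk.csm _ _ hMd _ _ d' (hD _) c2) (THA_lx ho hw hC h5).2
    · exact h5.symm
    · exact absurd c2 (THA_lx ho hw hC h5).2

private theorem THA_clo (hg : GJA) (t : Tp F g N₀) {J : (ℕ → Bool) → Set ℚ} {a : ℚ}
    (hJ : ∀ f, a ∈ J f) (hclo : ∀ q, IsClopen {f | q ∈ J f}) (x : t.M') :
    IsClopen {f | x ∈ t.NJ (J f)} := by
  by_cases h1 : ∃ i j, i ≠ j ∧ x ∈ t.NJ {i} ∧ x ∈ t.NJ {j}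
  · obtain ⟨i, j, hij, hi, hj⟩ := h1
    have : {f | x ∈ t.NJ (J f)} = univ :=
      eq_univ_of_forall fun f => THA_mono t (hJ f) (hg.dj t i j x hij hi hj a)
    rw [this]
    exact isClopen_univ
  · push Not at h1
    by_cases h2 : ∃ j, x ∈ t.NJ {j}
    · obtain ⟨j, hj⟩ := h2
      have : {f | x ∈ t.NJ (J f)} = {f | j ∈ J f} := by
        ext f
        constructor
        · rintro ⟨i, hi, w, hw⟩
          have h3 : x ∈ t.NJ {i} := ⟨i, rfl, w, hw⟩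
          have : i = j := by
            by_contra hne
            exact h1 i j hne h3 hj
          rw [← this]
          exact hi
        · intro hf
          exact THA_mono t hf hj
      rw [this]
      exact hclo j
    · have : {f | x ∈ t.NJ (J f)} = ∅ := by
        refine eq_empty_of_forall_notMem ?_
        rintro f ⟨i, hi, w, hw⟩
        exact h2 ⟨i, i, rfl, w, hw⟩
      rw [this]
      exact isClopen_empty

end

/-- [THA'] decoding, with a model contained in all `X f` -/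
theorem thm_THA' (hb : BAS) (he : EMB) (ha : ABS) (ho : ORL) (hw : WRD) (hg : GJA) (hi : INN)
    (ht : St_TPX) (hp : St_PKG) (hc : St_ODC) : St_THA' := by
  intro L P M F g N₀ a hL hP hB
  obtain ⟨t⟩ := ht L P M F g N₀ a hL hP hB
  obtain ⟨B, iB, b, hwf, hne, hbm, hbl, hby, hal⟩ := hp L P M F g N₀ t
  obtain ⟨a', c', J, hac, hJ, hclo, hsim⟩ := hc
  have hC : THA_C t B b := ⟨hbm, hbl, hby, hal⟩
  refine ⟨t.M', t.N', t.q ∘ t.e, fun f => t.NJ (J f), ![t.y a', t.y c'], t.NJ {a', c'},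
    ?_, ?_, ?_, ?_, ?_, ?_, ?_, ?_⟩
  · refine (hg.cc t univ hL hP hB.ctK hB.ct).mono ?_
    refine iUnion_subset fun f => ?_
    rintro _ ⟨j, hj, w, rfl⟩
    exact ⟨j, trivial, w, rfl⟩
  · exact fun x => THA_clo hg t (fun f => (hJ f).1) hclo x
  · exact fun f => hg.md t (J f) ⟨a', (hJ f).1⟩
  · exact fun f => hg.ue t (J f) ⟨a', (hJ f).1⟩
  · exact hg.md t _ ⟨a', Or.inl rfl⟩
  · rintro f _ ⟨j, hj, w, rfl⟩
    rcases hj with rfl | hj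
    · exact ⟨_, (hJ f).1, w, rfl⟩
    · rw [mem_singleton_iff] at hj
      subst hj
      exact ⟨_, (hJ f).2.1, w, rfl⟩
  · intro i
    fin_cases i
    · exact THA_mem t (Or.inl rfl)
    · exact THA_mem t (Or.inr rfl)
  · rintro f f' ⟨h, hIs, hk⟩
    refine hsim B {s | F.Ll t.N' (b a' s) (t.y a')} {s | F.Ll t.N' (t.y c') (b c' s)} f f' ?_
    exact THA_sim he ha ho hw hg hC (hJ f).2.2 (hJ f').2.2
      ⟨hIs, hk 0, hk 1, (hJ f).1, (hJ f).2.1, (hJ f').1, (hJ f').2.1⟩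

/-- [THA] decoding -/
theorem thm_THA (hb : BAS) (he : EMB) (ha : ABS) (ho : ORL) (hw : WRD) (hg : GJA) (hi : INN)
    (ht : St_TPX) (hp : St_PKG) (hc : St_ODC) : St_THA := by
  intro L P M F g N₀ a hL hP hB
  obtain ⟨M', N', e, X, k, E, h1, h2, h3, h4, -, h6, h7, h8⟩ :=
    thm_THA' hb he ha ho hw hg hi ht hp hc L P M F g N₀ a hL hP hB
  exact ⟨M', N', e, X, k, h1, h2, h3, h4, fun f i => h6 f (h7 i), h8⟩

end ORD
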