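import Pool.Agent.ORD.StB

/-!
# ORD: unions of chains of U-extensions
-/

set_option autoImplicit false
set_option linter.unusedVariables false

namespace ORD

open Set FirstOrder

/-- the relations of a U-extension agree on the smaller universe -/
private theorem UNI_rel {L : Lg} {P M : Type} (he : EMB) {N N' : Mo L P M} (h : UE N N' id)
    (n : ℕ) (R : L.Relations n) (t : Fin n → M) (ht : ∀ i, t i ∈ N.A) :
    N.S.RelMap R t ↔ N'.S.RelMap R t :=
  he.uqi h (Qf.rel n R fun k => Sum.inr k) t ht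

/-- finitely many elements of the union of a chain lie in one member -/
private theorem UNI_fin {L : Lg} {P M : Type} (he : EMB) {c : Set (Mo L P M)}
    (hc : ∀ N ∈ c, ∀ N' ∈ c, UE N N' id ∨ UE N' N id) {N : Mo L P M} (hN : N ∈ c) (m : ℕ) :
    ∀ z : Fin m → M, (∀ k, ∃ N₁ ∈ c, z k ∈ N₁.A) →
      ∃ N₁ ∈ c, UE N N₁ id ∧ ∀ k, z k ∈ N₁.A := by
  induction m with
  | zero => exact fun z _ => ⟨N, hN, he.uid N, fun k => k.elim0⟩
  | succ m ih =>
    intro z hz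
    obtain ⟨N₂, h2, h3, h4⟩ := ih (fun k => z k.succ) (fun k => hz k.succ)
    obtain ⟨N₃, h5, h6⟩ := hz 0
    rcases hc N₂ h2 N₃ h5 with h | h
    · refine ⟨N₃, h5, he.uco h3 h, ?_⟩
      intro k
      refine Fin.cases h6 (fun k => h.uni _ (h4 k)) k
    · refine ⟨N₂, h2, h3, ?_⟩
      intro k
      refine Fin.cases (h.uni _ h6) (fun k => h4 k) k

theorem thm_UNI (hb : BAS) (he : EMB) : St_UNI := by
  rintro L P T M c ⟨N₀, h0⟩ hmd hc
  have hcst : ∀ N ∈ c, N.c = N₀.c := by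
    intro N hN
    funext p
    rcases hc N hN N₀ h0 with h | h
    · exact h.cst p
    · exact (h.cst p).symm
  let S' : L.Structure M :=
    { funMap := fun {n} f t => N₀.S.funMap f t
      RelMap := fun {n} R t => ∃ N ∈ c, (∀ i, t i ∈ N.A) ∧ N.S.RelMap R t }
  let N' : Mo L P M := { S := S', A := ⋃ N ∈ c, N.A, c := N₀.c }
  have hA : ∀ x, x ∈ N'.A ↔ ∃ N ∈ c, x ∈ N.A := by
    intro x
    change x ∈ ⋃ N ∈ c, N.A ↔ _
    simp only [mem_iUnion, exists_prop]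
  have h1 : ∀ N ∈ c, ∀ (n : ℕ) (R : L.Relations n) (t : Fin n → M), (∀ i, t i ∈ N.A) →
      (N.S.RelMap R t ↔ N'.S.RelMap R t) := by
    intro N hN n R t ht
    constructor
    · exact fun h => ⟨N, hN, ht, h⟩
    · rintro ⟨N₁, hN1, ht1, h⟩
      rcases hc N hN N₁ hN1 with h2 | h2
      · exact (UNI_rel he h2 n R t ht).mpr h
      · exact (UNI_rel he h2 n R t ht1).mp h
  have h3 : ∀ N ∈ c, UE N N' id := by
    intro N hN
    refine ⟨fun x hx => (hA x).mpr ⟨N, hN, hx⟩, fun p => congrFun (hcst N hN) p, ?_⟩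
    intro ι φ v hv htr z hz
    obtain ⟨N₁, hN1, hue, hz1⟩ := UNI_fin he hc hN φ.m z fun k => (hA _).mp (hz k)
    have h4 := hue.tr ι φ v hv htr z hz1
    have h5 := (hb.qeq N₁.S N'.S N₁.A (Sum.elim (Sum.elim N₁.c (id ∘ v)) z) φ.q
      (h1 N₁ hN1) (by
        rintro ((p | i) | k)
        · exact (hmd N₁ hN1).cst p
        · exact hue.uni _ (hv i)
        · exact hz1 k)).mp h4
    rw [hcst N₁ hN1] at h5
    exact h5
  refine ⟨N', rfl, ⟨?_, ?_, ?_⟩, h3⟩
  · obtain ⟨x, hx⟩ := (hmd N₀ h0).ne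
    exact ⟨x, (hA x).mpr ⟨N₀, h0, hx⟩⟩
  · intro p
    exact (hA _).mpr ⟨N₀, h0, (hmd N₀ h0).cst p⟩
  · intro x hx k
    obtain ⟨N, hN, hxN⟩ := (hA x).mp hx
    obtain ⟨y, hy, hw⟩ := (hmd N hN).wit x hxN k
    refine ⟨y, fun i => (hA _).mpr ⟨N, hN, hy i⟩, ?_⟩
    refine (h3 N hN).tr _ (T.ax k) (Fin.cons x y : Fin (T.n k + 1) → M) ?_ hw
    intro i
    refine Fin.cases hxN (fun i => hy i) i

end ORD
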