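import Pool.Agent.ORD.StC

/-!
# ORD, module WFD (6.4)
-/

set_option autoImplicit false
set_option linter.unusedVariables false

namespace ORD

open Set FirstOrder

/-- [WFD] (6.4) there is no infinite increasing sequence of good words -/
theorem thm_WFD (ha : ABS) (ho : ORL) (hw : WRD) (hi : INN) : St_WFD := by
  rintro L P M₀ F g N₀ t ⟨w, hG, hinc⟩
  have hOk := t.ok
  have hMd : Md F.T t.N := t.xo.md
  obtain ⟨-, hD0, -, hl0, -⟩ := hi.a t (w 0) (hG 0) 0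
  obtain ⟨k, l, hkl⟩ := hw.ex t (w 0) 0 1 hD0 (hl0 1 zero_lt_one)
  have hD : ∀ n, F.D t.N (t.V (w n) k) := fun n =>
    (hw.d t (w n) 0 k).1 (hi.a t (w n) (hG n) 0).2.1
  have hg : ∀ n, F.Good g t.N (t.V (w n) k) := fun n =>
    (hw.g t (w n) 0 k).1 (hi.a t (w n) (hG n) 0).1
  have hv : ∀ n, F.Ll t.N (t.V (w n) k) (t.N.c F.v) := fun n =>
    (hw.lv t (w n) 0 k).1 (hi.a t (w n) (hG n) 0).2.2.2.2
  have hll : ∀ n, F.Ll t.N (t.V (w n) k) (t.V (w (n + 1)) k) := fun n =>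
    (hw.ll t (w n) (w (n + 1)) 0 k).1 (hinc n)
  have hx : F.D t.N (t.x l) := (t.xo.xg _ (t.xX l)).1
  have hxl : ∀ n, F.Ll t.N (t.x l) (t.V (w n) k) := by
    intro n
    induction n with
    | zero => exact hkl
    | succ n ih => exact ho.trn hOk hMd _ _ _ hx (hD n) (hD (n + 1)) ih (hll n)
  have hz : ∀ n, ∃ z ∈ t.X, F.Cl t.N (t.V (w n) k) z := by
    intro n
    rcases t.xo.dc _ (t.xX l) _ (hD n) (hxl n) (hv n) with h | h
    · exact h.2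
    · exact absurd (hg n) (ha.rgd hMd _ (hD n).1 h)
  choose z hzX hzc using hz
  have hDz : ∀ n, F.D t.N (z n) := fun n => (t.xo.xg _ (hzX n)).1
  have hzz : ∀ n, F.Ll t.N (z n) (z (n + 1)) := by
    intro n
    have h1 := hOk.csm _ _ hMd _ _ (hD n) (hDz n) (hzc n)
    have h2 := ho.cll hOk hMd _ _ _ (hDz n) (hD n) (hD (n + 1)) h1 (hll n)
    exact ho.llc hOk hMd _ _ _ (hDz n) (hD (n + 1)) (hDz (n + 1)) h2 (hzc (n + 1))
  obtain ⟨m, ⟨n, rfl⟩, hmax⟩ := t.xo.wo (range z) (by rintro _ ⟨n, rfl⟩; exact hzX n)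
    ⟨z 0, 0, rfl⟩
  rcases hmax (z (n + 1)) ⟨n + 1, rfl⟩ with h | h
  · have h3 := (hzz n).1
    rw [h] at h3
    exact hOk.irr _ _ hMd _ (hDz n) h3
  · exact ho.asy hOk hMd _ _ (hDz n) (hDz (n + 1)) (hzz n).1 h

end ORD
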