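import Pool.Agent.ORD.StC
import Pool.Agent.UN.Bas

/-!
# ORD, module WRD: words at one or two indices
-/

set_option autoImplicit false
set_option linter.unusedVariables false

namespace ORD

open Set FirstOrder Filter

variable {L : Lg} {P M₀ : Type} {F : Fr L P} {g : Adr F.T → ℕ} {N₀ : Mo L P M₀}

/-- atoms in one variable have the same truth value at all indices, in `N'` and in `N` -/
theorem WRD_one (t : Tp F g N₀) (a : UN.At (SG F g N₀.A) Unit) (j : ℚ) (n : ℕ) :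
    UN.Tr t.S' (fun _ => t.y j) a ↔ UN.Tr t.S (fun _ => t.x n) a := by
  have h := t.lim j (j + 1) (by linarith) (a.map fun _ => Sum.inr (Sum.inl ()))
  rw [UN.Tr_map] at h
  have h1 : ∀ k l : ℕ, UN.Tr t.S (Sum.elim id (Sum.elim (fun _ => t.x k) fun _ => t.x l))
      (a.map (fun _ => Sum.inr (Sum.inl ()) : Unit → t.M ⊕ (Unit ⊕ Unit))) ↔
      UN.Tr t.S (fun _ => t.x n) a := by
    intro k l
    rw [UN.Tr_map]
    exact t.xr k n a
  simp only [h1, Filter.eventually_const] at h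
  exact h

theorem WRD_uf (t : Tp F g N₀) (r : ℕ) (φ : Uf L (P ⊕ Fin r)) (ws : Fin r → List (Fs F g N₀.A))
    (j : ℚ) (n : ℕ) :
    t.N'.Tr φ (fun i => t.W (ws i) j) ↔ t.N.Tr φ (fun i => t.V (ws i) n) := by
  rw [← t.sy.uf, ← t.sz.uf]
  exact WRD_one t (.rel (Rs.uf r φ) fun i => (ws i, ())) j n

theorem WRD_two {α β : Type} (f : α → β) (a b : α) : (fun i => f ((![a, b] : Fin 2 → α) i)) =
    (![f a, f b] : Fin 2 → β) := by
  funext i
  fin_cases i <;> rfl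

theorem WRD_fst {α β : Type} (f : α → β) (a : α) : (fun i => f ((![a] : Fin 1 → α) i)) =
    (![f a] : Fin 1 → β) := by
  funext i
  fin_cases i; rfl

theorem WRD_qf (hb : BAS) {M ι : Type} (N : Mo L P M) (φ : Qf L (P ⊕ ι)) (v : ι → M) :
    N.Tr (Uf.qf φ) v ↔ N.Q φ v := hb.uqf _ _ _ _

theorem WRD_d (hb : BAS) (t : Tp F g N₀) (w : List (Fs F g N₀.A)) (j : ℚ) (n : ℕ) :
    F.D t.N' (t.W w j) ↔ F.D t.N (t.V w n) := by
  have h := WRD_uf t 1 (Uf.qf F.d) ![w] j n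
  rw [WRD_fst (fun w => t.W w j), WRD_fst (fun w => t.V w n), WRD_qf hb, WRD_qf hb] at h
  simp only [Fr.D, t.nu, t.nu', mem_univ, true_and]
  exact h

theorem WRD_l (hb : BAS) (t : Tp F g N₀) (w w' : List (Fs F g N₀.A)) (j : ℚ) (n : ℕ) :
    F.Lt t.N' (t.W w j) (t.W w' j) ↔ F.Lt t.N (t.V w n) (t.V w' n) := by
  have h := WRD_uf t 2 (Uf.qf F.l) ![w, w'] j n
  rw [WRD_two (fun w => t.W w j), WRD_two (fun w => t.V w n), WRD_qf hb, WRD_qf hb] at h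
  exact h

theorem WRD_c (t : Tp F g N₀) (w w' : List (Fs F g N₀.A)) (j : ℚ) (n : ℕ) :
    F.Cl t.N' (t.W w j) (t.W w' j) ↔ F.Cl t.N (t.V w n) (t.V w' n) := by
  refine exists_congr fun d => ?_
  have h := WRD_uf t 2 (F.E d) ![w, w'] j n
  rw [WRD_two (fun w => t.W w j), WRD_two (fun w => t.V w n)] at h
  exact h

theorem WRD_ll (hb : BAS) (t : Tp F g N₀) (w w' : List (Fs F g N₀.A)) (j : ℚ) (n : ℕ) :
    F.Ll t.N' (t.W w j) (t.W w' j) ↔ F.Ll t.N (t.V w n) (t.V w' n) :=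
  and_congr (WRD_l hb t w w' j n) (not_congr (WRD_c t w w' j n))

theorem WRD_g (t : Tp F g N₀) (w : List (Fs F g N₀.A)) (j : ℚ) (n : ℕ) :
    gdR t.S' (t.W w j) ↔ F.Good g t.N (t.V w n) := by
  have h : gdR t.S' (t.W w j) ↔ gdR t.S (t.V w n) :=
    WRD_one t (.rel Rs.gd fun _ => (w, ())) j n
  rw [h]
  exact ⟨fun h => ⟨_, t.sz.tr _ h⟩, t.sz.gd _⟩

theorem WRD_cv (t : Tp F g N₀) (j : ℚ) (n : ℕ) :
    t.W [Fs.cs ⟨N₀.c F.v, t.md₀.cst F.v⟩] j = t.N'.c F.v ∧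
    t.V [Fs.cs ⟨N₀.c F.v, t.md₀.cst F.v⟩] n = t.N.c F.v := by
  have h1 : t.e (N₀.c F.v) = t.N.c F.v := t.ue.cst F.v
  have h2 : t.q (t.N.c F.v) = t.N'.c F.v := t.uq.cst F.v
  constructor
  · rw [← h2, ← h1]
    exact t.sy.cs _ _
  · rw [← h1]
    exact t.sz.cs _ _

theorem WRD_lv (hb : BAS) (t : Tp F g N₀) (w : List (Fs F g N₀.A)) (j : ℚ) (n : ℕ) :
    F.Ll t.N' (t.W w j) (t.N'.c F.v) ↔ F.Ll t.N (t.V w n) (t.N.c F.v) := by
  obtain ⟨h1, h2⟩ := WRD_cv t j n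
  have h := WRD_ll hb t w [Fs.cs ⟨N₀.c F.v, t.md₀.cst F.v⟩] j n
  rwa [h1, h2] at h

theorem WRD_yd (hb : BAS) (t : Tp F g N₀) (j : ℚ) :
    F.D t.N' (t.y j) ∧ F.Ll t.N' (t.y j) (t.N'.c F.v) := by
  have h := t.xo.xg (t.x 0) (t.xX 0)
  exact ⟨(WRD_d hb t [] j 0).2 h.1, (WRD_lv hb t [] j 0).2 h.2.2⟩

/-- indiscernibility for pairs -/
theorem WRD_ind (t : Tp F g N₀) (R : Rs F g) (a : Fin R.ar → List (Fs F g N₀.A) × Fin 2)
    (i j i' j' : ℚ) (h : i < j) (h' : i' < j') :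
    t.S'.rel R (fun k => t.W (a k).1 ((![i, j] : Fin 2 → ℚ) (a k).2)) ↔
    t.S'.rel R (fun k => t.W (a k).1 ((![i', j'] : Fin 2 → ℚ) (a k).2)) := by
  have h1 : StrictMono (![i, j] : Fin 2 → ℚ) := by
    intro a b hab
    fin_cases a <;> fin_cases b <;> first | exact h | exact absurd hab (by decide)
  have h2 : StrictMono (![i', j'] : Fin 2 → ℚ) := by
    intro a b hab
    fin_cases a <;> fin_cases b <;> first | exact h' | exact absurd hab (by decide)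
  exact t.ind 2 _ _ h1 h2 (.rel R fun k => ((a k).1, Sum.inr ((a k).2, ())))

theorem WRD_i1 (hb : BAS) (t : Tp F g N₀) (w w' : List (Fs F g N₀.A)) (i j i' j' : ℚ)
    (h : i < j) (h' : i' < j') :
    F.Lt t.N' (t.W w i) (t.W w' j) ↔ F.Lt t.N' (t.W w i') (t.W w' j') := by
  have h1 := WRD_ind t (Rs.uf 2 (Uf.qf F.l)) ![(w, 0), (w', 1)] i j i' j' h h'
  have h2 : ∀ i j : ℚ, (fun k => t.W ((![(w, 0), (w', 1)] : Fin 2 → List (Fs F g N₀.A) × Fin 2) k).1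
      ((![i, j] : Fin 2 → ℚ) ((![(w, 0), (w', 1)] : Fin 2 → List (Fs F g N₀.A) × Fin 2) k).2)) =
      ![t.W w i, t.W w' j] := by
    intro i j
    funext k
    fin_cases k <;> rfl
  have h3 : ∀ i j : ℚ, (t.S'.rel (Rs.uf 2 (Uf.qf F.l)) fun k : Fin 2 =>
      t.W ((![(w, 0), (w', 1)] : Fin 2 → List (Fs F g N₀.A) × Fin 2) k).1
      ((![i, j] : Fin 2 → ℚ) ((![(w, 0), (w', 1)] : Fin 2 → List (Fs F g N₀.A) × Fin 2) k).2)) ↔
      F.Lt t.N' (t.W w i) (t.W w' j) := by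
    intro i j
    rw [h2]
    exact (t.sy.uf 2 (Uf.qf F.l) _).trans (WRD_qf hb _ _ _)
  exact (h3 i j).symm.trans (h1.trans (h3 i' j'))

theorem WRD_i2 (hb : BAS) (t : Tp F g N₀) (w w' : List (Fs F g N₀.A)) (i j i' j' : ℚ)
    (h : i < j) (h' : i' < j') :
    F.Lt t.N' (t.W w j) (t.W w' i) ↔ F.Lt t.N' (t.W w j') (t.W w' i') := by
  have h1 := WRD_ind t (Rs.uf 2 (Uf.qf F.l)) ![(w, 1), (w', 0)] i j i' j' h h'
  have h2 : ∀ i j : ℚ, (fun k => t.W ((![(w, 1), (w', 0)] : Fin 2 → List (Fs F g N₀.A) × Fin 2) k).1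
      ((![i, j] : Fin 2 → ℚ) ((![(w, 1), (w', 0)] : Fin 2 → List (Fs F g N₀.A) × Fin 2) k).2)) =
      ![t.W w j, t.W w' i] := by
    intro i j
    funext k
    fin_cases k <;> rfl
  have h3 : ∀ i j : ℚ, (t.S'.rel (Rs.uf 2 (Uf.qf F.l)) fun k : Fin 2 =>
      t.W ((![(w, 1), (w', 0)] : Fin 2 → List (Fs F g N₀.A) × Fin 2) k).1
      ((![i, j] : Fin 2 → ℚ) ((![(w, 1), (w', 0)] : Fin 2 → List (Fs F g N₀.A) × Fin 2) k).2)) ↔
      F.Lt t.N' (t.W w j) (t.W w' i) := by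
    intro i j
    rw [h2]
    exact (t.sy.uf 2 (Uf.qf F.l) _).trans (WRD_qf hb _ _ _)
  exact (h3 i j).symm.trans (h1.trans (h3 i' j'))

/-- limits for pairs -/
theorem WRD_lim (t : Tp F g N₀) (R : Rs F g) (a : Fin R.ar → List (Fs F g N₀.A) × (Unit ⊕ Unit))
    (i j : ℚ) (h : i < j) :
    t.S'.rel R (fun k => t.S'.w (a k).1 (Sum.elim (fun _ => t.y i) (fun _ => t.y j) (a k).2)) ↔
    ∀ᶠ m in (hyperfilter ℕ : Filter ℕ), ∀ᶠ n in (hyperfilter ℕ : Filter ℕ),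
    t.S.rel R (fun k => t.S.w (a k).1 (Sum.elim (fun _ => t.x m) (fun _ => t.x n) (a k).2)) :=
  t.lim i j h (.rel R fun k => ((a k).1, Sum.inr (a k).2))

/-- words at the first index and `[]` at the second, closeness -/
theorem WRD_c12 (t : Tp F g N₀) (w w' : List (Fs F g N₀.A)) (i j : ℚ) (h : i < j) :
    clR t.S' (t.W w i) (t.W w' j) ↔
    ∀ᶠ m in (hyperfilter ℕ : Filter ℕ), ∀ᶠ n in (hyperfilter ℕ : Filter ℕ),
      clR t.S (t.V w m) (t.V w' n) := by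
  have h1 := WRD_lim t Rs.cl ![(w, Sum.inl ()), (w', Sum.inr ())] i j h
  have h2 : ∀ {M : Type} (S : UN.Sys (SG F g N₀.A) M) (a b : M), (fun k => S.w
      ((![(w, Sum.inl ()), (w', Sum.inr ())] : Fin 2 → List (Fs F g N₀.A) × (Unit ⊕ Unit)) k).1
      (Sum.elim (fun _ => a) (fun _ => b) ((![(w, Sum.inl ()), (w', Sum.inr ())] :
      Fin 2 → List (Fs F g N₀.A) × (Unit ⊕ Unit)) k).2)) = ![S.w w a, S.w w' b] := by
    intro M S a b
    funext k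
    fin_cases k <;> rfl
  have h3 : ∀ {M : Type} (S : UN.Sys (SG F g N₀.A) M) (a b : M), (S.rel Rs.cl fun k : Fin 2 => S.w
      ((![(w, Sum.inl ()), (w', Sum.inr ())] : Fin 2 → List (Fs F g N₀.A) × (Unit ⊕ Unit)) k).1
      (Sum.elim (fun _ => a) (fun _ => b) ((![(w, Sum.inl ()), (w', Sum.inr ())] :
      Fin 2 → List (Fs F g N₀.A) × (Unit ⊕ Unit)) k).2)) ↔ clR S (S.w w a) (S.w w' b) := by
    intro M S a b
    rw [h2]
    exact Iff.rfl
  refine (h3 t.S' (t.y i) (t.y j)).symm.trans (h1.trans ?_)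
  refine Filter.eventually_congr (Filter.Eventually.of_forall fun m => ?_)
  exact Filter.eventually_congr (Filter.Eventually.of_forall fun n => h3 t.S (t.x m) (t.x n))

theorem WRD_c21 (t : Tp F g N₀) (w w' : List (Fs F g N₀.A)) (i j : ℚ) (h : i < j) :
    clR t.S' (t.W w j) (t.W w' i) ↔
    ∀ᶠ m in (hyperfilter ℕ : Filter ℕ), ∀ᶠ n in (hyperfilter ℕ : Filter ℕ),
      clR t.S (t.V w n) (t.V w' m) := by
  have h1 := WRD_lim t Rs.cl ![(w, Sum.inr ()), (w', Sum.inl ())] i j h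
  have h2 : ∀ {M : Type} (S : UN.Sys (SG F g N₀.A) M) (a b : M), (fun k => S.w
      ((![(w, Sum.inr ()), (w', Sum.inl ())] : Fin 2 → List (Fs F g N₀.A) × (Unit ⊕ Unit)) k).1
      (Sum.elim (fun _ => a) (fun _ => b) ((![(w, Sum.inr ()), (w', Sum.inl ())] :
      Fin 2 → List (Fs F g N₀.A) × (Unit ⊕ Unit)) k).2)) = ![S.w w b, S.w w' a] := by
    intro M S a b
    funext k
    fin_cases k <;> rfl
  have h3 : ∀ {M : Type} (S : UN.Sys (SG F g N₀.A) M) (a b : M), (S.rel Rs.cl fun k : Fin 2 => S.w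
      ((![(w, Sum.inr ()), (w', Sum.inl ())] : Fin 2 → List (Fs F g N₀.A) × (Unit ⊕ Unit)) k).1
      (Sum.elim (fun _ => a) (fun _ => b) ((![(w, Sum.inr ()), (w', Sum.inl ())] :
      Fin 2 → List (Fs F g N₀.A) × (Unit ⊕ Unit)) k).2)) ↔ clR S (S.w w b) (S.w w' a) := by
    intro M S a b
    rw [h2]
    exact Iff.rfl
  refine (h3 t.S' (t.y i) (t.y j)).symm.trans (h1.trans ?_)
  refine Filter.eventually_congr (Filter.Eventually.of_forall fun m => ?_)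
  exact Filter.eventually_congr (Filter.Eventually.of_forall fun n => h3 t.S (t.x m) (t.x n))

theorem WRD_l12 (hb : BAS) (t : Tp F g N₀) (w w' : List (Fs F g N₀.A)) (i j : ℚ) (h : i < j) :
    F.Lt t.N' (t.W w i) (t.W w' j) ↔
    ∀ᶠ m in (hyperfilter ℕ : Filter ℕ), ∀ᶠ n in (hyperfilter ℕ : Filter ℕ),
      F.Lt t.N (t.V w m) (t.V w' n) := by
  have h1 := WRD_lim t (Rs.uf 2 (Uf.qf F.l)) ![(w, Sum.inl ()), (w', Sum.inr ())] i j h
  have h2 : ∀ {M : Type} (S : UN.Sys (SG F g N₀.A) M) (a b : M), (fun k => S.w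
      ((![(w, Sum.inl ()), (w', Sum.inr ())] : Fin 2 → List (Fs F g N₀.A) × (Unit ⊕ Unit)) k).1
      (Sum.elim (fun _ => a) (fun _ => b) ((![(w, Sum.inl ()), (w', Sum.inr ())] :
      Fin 2 → List (Fs F g N₀.A) × (Unit ⊕ Unit)) k).2)) = ![S.w w a, S.w w' b] := by
    intro M S a b
    funext k
    fin_cases k <;> rfl
  have h3 : ∀ {M : Type} (S : UN.Sys (SG F g N₀.A) M) (a b : M), (S.rel (Rs.uf 2 (Uf.qf F.l))
      fun k : Fin 2 => S.w
      ((![(w, Sum.inl ()), (w', Sum.inr ())] : Fin 2 → List (Fs F g N₀.A) × (Unit ⊕ Unit)) k).1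
      (Sum.elim (fun _ => a) (fun _ => b) ((![(w, Sum.inl ()), (w', Sum.inr ())] :
      Fin 2 → List (Fs F g N₀.A) × (Unit ⊕ Unit)) k).2)) ↔
      ufR S (Uf.qf F.l) ![S.w w a, S.w w' b] := by
    intro M S a b
    rw [h2]
    exact Iff.rfl
  refine Iff.trans ?_ ((h3 t.S' (t.y i) (t.y j)).symm.trans (h1.trans ?_))
  · exact ((t.sy.uf 2 (Uf.qf F.l) _).trans (WRD_qf hb _ _ _)).symm
  refine Filter.eventually_congr (Filter.Eventually.of_forall fun m => ?_)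
  refine Filter.eventually_congr (Filter.Eventually.of_forall fun n => ?_)
  exact (h3 t.S (t.x m) (t.x n)).trans ((t.sz.uf 2 (Uf.qf F.l) _).trans (WRD_qf hb _ _ _))

theorem WRD_l21 (hb : BAS) (t : Tp F g N₀) (w w' : List (Fs F g N₀.A)) (i j : ℚ) (h : i < j) :
    F.Lt t.N' (t.W w j) (t.W w' i) ↔
    ∀ᶠ m in (hyperfilter ℕ : Filter ℕ), ∀ᶠ n in (hyperfilter ℕ : Filter ℕ),
      F.Lt t.N (t.V w n) (t.V w' m) := by
  have h1 := WRD_lim t (Rs.uf 2 (Uf.qf F.l)) ![(w, Sum.inr ()), (w', Sum.inl ())] i j h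
  have h2 : ∀ {M : Type} (S : UN.Sys (SG F g N₀.A) M) (a b : M), (fun k => S.w
      ((![(w, Sum.inr ()), (w', Sum.inl ())] : Fin 2 → List (Fs F g N₀.A) × (Unit ⊕ Unit)) k).1
      (Sum.elim (fun _ => a) (fun _ => b) ((![(w, Sum.inr ()), (w', Sum.inl ())] :
      Fin 2 → List (Fs F g N₀.A) × (Unit ⊕ Unit)) k).2)) = ![S.w w b, S.w w' a] := by
    intro M S a b
    funext k
    fin_cases k <;> rfl
  have h3 : ∀ {M : Type} (S : UN.Sys (SG F g N₀.A) M) (a b : M), (S.rel (Rs.uf 2 (Uf.qf F.l))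
      fun k : Fin 2 => S.w
      ((![(w, Sum.inr ()), (w', Sum.inl ())] : Fin 2 → List (Fs F g N₀.A) × (Unit ⊕ Unit)) k).1
      (Sum.elim (fun _ => a) (fun _ => b) ((![(w, Sum.inr ()), (w', Sum.inl ())] :
      Fin 2 → List (Fs F g N₀.A) × (Unit ⊕ Unit)) k).2)) ↔
      ufR S (Uf.qf F.l) ![S.w w b, S.w w' a] := by
    intro M S a b
    rw [h2]
    exact Iff.rfl
  refine Iff.trans ?_ ((h3 t.S' (t.y i) (t.y j)).symm.trans (h1.trans ?_))
  · exact ((t.sy.uf 2 (Uf.qf F.l) _).trans (WRD_qf hb _ _ _)).symm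
  refine Filter.eventually_congr (Filter.Eventually.of_forall fun m => ?_)
  refine Filter.eventually_congr (Filter.Eventually.of_forall fun n => ?_)
  exact (h3 t.S (t.x m) (t.x n)).trans ((t.sz.uf 2 (Uf.qf F.l) _).trans (WRD_qf hb _ _ _))

/-- a large set has two elements -/
theorem WRD_pair {p : ℕ → Prop} (h : ∀ᶠ n in (hyperfilter ℕ : Filter ℕ), p n) :
    ∃ n m, n < m ∧ p n ∧ p m := by
  obtain ⟨n, hn⟩ := h.exists
  obtain ⟨m, hm, hm'⟩ := (h.and (Nat.hyperfilter_le_atTop (eventually_gt_atTop n))).exists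
  exact ⟨n, m, hm', hn, hm⟩

/-- two elements `x l`, `x l'` are not close to the same element -/
theorem WRD_ncl (t : Tp F g N₀) (z : t.M) (hz : F.D t.N z) (l l' : ℕ) (hl : l < l')
    (h : F.Cl t.N z (t.x l)) (h' : F.Cl t.N z (t.x l')) : False := by
  have hd : ∀ n, F.D t.N (t.x n) := fun n => (t.xo.xg _ (t.xX n)).1
  have h1 := t.ok.csm _ _ t.xo.md _ _ hz (hd l) h
  have h2 := t.ok.ctr _ _ t.xo.md _ _ _ (hd l) hz (hd l') h1 h'
  have h3 := t.xo.xp _ (t.xX l) _ (t.xX l') h2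
  have h4 := (t.xl l l' hl).1
  rw [← h3] at h4
  exact t.ok.irr _ _ t.xo.md _ (hd l) h4

theorem WRD_nr (hb : BAS) (t : Tp F g N₀) (w : List (Fs F g N₀.A)) (i j : ℚ) (hij : i ≠ j)
    (hd : F.D t.N' (t.W w i)) : ¬ clR t.S' (t.W w i) (t.y j) := by
  have hd' : ∀ n, F.D t.N (t.V w n) := fun n => (WRD_d hb t w i n).1 hd
  intro h
  rcases lt_or_gt_of_ne hij with h' | h'
  · have h1 := (WRD_c12 t w [] i j h').1 h
    obtain ⟨k, hk⟩ := h1.exists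
    obtain ⟨l, l', hl, h2, h3⟩ := WRD_pair hk
    exact WRD_ncl t _ (hd' k) l l' hl (t.sz.lc _ _ h2) (t.sz.lc _ _ h3)
  · have h1 := (WRD_c21 t w [] j i h').1 h
    obtain ⟨l, l', hl, h2, h3⟩ := WRD_pair h1
    obtain ⟨k, hk, hk'⟩ := (h2.and h3).exists
    exact WRD_ncl t _ (hd' k) l l' hl (t.sz.lc _ _ hk) (t.sz.lc _ _ hk')

theorem WRD_nr' (hb : BAS) (t : Tp F g N₀) (w : List (Fs F g N₀.A)) (i j : ℚ) (hij : i ≠ j)
    (hd : F.D t.N' (t.W w i)) : ¬ clR t.S' (t.y j) (t.W w i) := by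
  have hd' : ∀ n, F.D t.N (t.V w n) := fun n => (WRD_d hb t w i n).1 hd
  have hx : ∀ n, F.D t.N (t.x n) := fun n => (t.xo.xg _ (t.xX n)).1
  have hc : ∀ k l, clR t.S (t.x l) (t.V w k) → F.Cl t.N (t.V w k) (t.x l) := fun k l h =>
    t.ok.csm _ _ t.xo.md _ _ (hx l) (hd' k) (t.sz.lc _ _ h)
  intro h
  rcases lt_or_gt_of_ne hij with h' | h'
  · have h1 := (WRD_c21 t [] w i j h').1 h
    obtain ⟨k, hk⟩ := h1.exists
    obtain ⟨l, l', hl, h2, h3⟩ := WRD_pair hk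
    exact WRD_ncl t _ (hd' k) l l' hl (hc _ _ h2) (hc _ _ h3)
  · have h1 := (WRD_c12 t [] w j i h').1 h
    obtain ⟨l, l', hl, h2, h3⟩ := WRD_pair h1
    obtain ⟨k, hk, hk'⟩ := (h2.and h3).exists
    exact WRD_ncl t _ (hd' k) l l' hl (hc _ _ hk) (hc _ _ hk')

theorem WRD_yl (hb : BAS) (t : Tp F g N₀) (i j : ℚ) (hij : i < j) :
    F.Ll t.N' (t.y j) (t.y i) := by
  constructor
  · refine (WRD_l21 hb t [] [] i j hij).2 (Filter.Eventually.of_forall fun m => ?_)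
    filter_upwards [Nat.hyperfilter_le_atTop (eventually_gt_atTop m)] with n hn
    exact (t.xl m n hn).1
  · exact fun h => WRD_nr hb t [] j i (ne_of_gt hij) (WRD_yd hb t j).1 (t.sy.cl _ _ h)

theorem WRD_ex (hb : BAS) (t : Tp F g N₀) (w : List (Fs F g N₀.A)) (j k : ℚ)
    (hd : F.D t.N' (t.W w j)) (h : F.Ll t.N' (t.y k) (t.W w j)) :
    ∃ n m, F.Ll t.N (t.x m) (t.V w n) := by
  rcases lt_trichotomy k j with hkj | rfl | hkj
  · have h1 := (WRD_l12 hb t [] w k j hkj).1 h.1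
    have h2 : ¬ ∀ᶠ m in (hyperfilter ℕ : Filter ℕ), ∀ᶠ n in (hyperfilter ℕ : Filter ℕ),
        clR t.S (t.V [] m) (t.V w n) :=
      fun h' => WRD_nr' hb t w j k (ne_of_gt hkj) hd ((WRD_c12 t [] w k j hkj).2 h')
    rw [← Ultrafilter.eventually_not] at h2
    obtain ⟨m, hm, hm'⟩ := (h1.and h2).exists
    rw [← Ultrafilter.eventually_not] at hm'
    obtain ⟨n, hn, hn'⟩ := (hm.and hm').exists
    exact ⟨n, m, hn, fun h' => hn' (t.sz.cl _ _ h')⟩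
  · exact ⟨0, 0, (WRD_ll hb t [] w k 0).1 h⟩
  · have h1 := (WRD_l21 hb t [] w j k hkj).1 h.1
    have h2 : ¬ ∀ᶠ m in (hyperfilter ℕ : Filter ℕ), ∀ᶠ n in (hyperfilter ℕ : Filter ℕ),
        clR t.S (t.V [] n) (t.V w m) :=
      fun h' => WRD_nr' hb t w j k (ne_of_lt hkj) hd ((WRD_c21 t [] w j k hkj).2 h')
    rw [← Ultrafilter.eventually_not] at h2
    obtain ⟨m, hm, hm'⟩ := (h1.and h2).exists
    rw [← Ultrafilter.eventually_not] at hm'
    obtain ⟨n, hn, hn'⟩ := (hm.and hm').exists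
    exact ⟨m, n, hn, fun h' => hn' (t.sz.cl _ _ h')⟩

theorem thm_WRD (hb : BAS) (he : EMB) (ho : ORL) : WRD where
  d t w j n := WRD_d hb t w j n
  l t w w' j n := WRD_l hb t w w' j n
  c t w w' j n := WRD_c t w w' j n
  ll t w w' j n := WRD_ll hb t w w' j n
  g t w j n := WRD_g t w j n
  r t w ρ j n := WRD_one t (.rel (Rs.rs ρ) fun _ => (w, ())) j n
  lv t w j n := WRD_lv hb t w j n
  i1 t w w' i j i' j' h h' := WRD_i1 hb t w w' i j i' j' h h'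
  i2 t w w' i j i' j' h h' := WRD_i2 hb t w w' i j i' j' h h'
  nr t w i j h hd := WRD_nr hb t w i j h hd
  nr' t w i j h hd := WRD_nr' hb t w i j h hd
  nc t w i j h hd := ⟨fun h' => WRD_nr hb t w i j h hd (t.sy.cl _ _ h'),
    fun h' => WRD_nr' hb t w i j h hd (t.sy.cl _ _ h')⟩
  yd t j := WRD_yd hb t j
  yl t i j h := WRD_yl hb t i j h
  ex t w j k hd h := WRD_ex hb t w j k hd h

end ORD
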