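import Pool.Agent.ORD.StB

/-!
# ORD: good elements far below `X` and `v`
-/

set_option autoImplicit false
set_option linter.unusedVariables false

namespace ORD

open Set FirstOrder

theorem thm_YNE (he : EMB) (ha : ABS) (ho : ORL) : St_YNE := by
  intro L P M F g N₀ a h₀ N X C hA
  have ue := hA.ue
  have hok := h₀.ok
  have hmd : Md F.T N := hA.toXok.md
  have hcs := h₀.md.cst
  have hm : ∀ n, a n ∈ N₀.A := fun n => (h₀.dd n).1
  have hD : ∀ n, F.D N (a n) := fun n => (ha.udd ue (a n) (hm n)).2 (h₀.dd n)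
  have hG : ∀ n, F.Good g N (a n) := by
    intro n
    obtain ⟨u, hu⟩ := h₀.gd n
    exact ⟨_, ha.lam ue hcs (a n) u hu⟩
  have hL : ∀ n, F.Ll N (a n) (a (n + 1)) := fun n =>
    ⟨(ha.ult ue (a n) (hm n) (a (n + 1)) (hm _)).2 (h₀.ll n).1,
      fun hc => (h₀.ll n).2 ((ha.ucl ue hcs (a n) (hm n) (a (n + 1)) (hm _)).1 hc)⟩
  have hV : ∀ n, F.Ll N (a n) (N.c F.v) := by
    intro n
    rw [← ue.cst]
    exact ⟨(ha.ult ue (a n) (hm n) _ (hcs _)).2 (h₀.lv n).1,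
      fun hc => (h₀.lv n).2 ((ha.ucl ue hcs (a n) (hm n) _ (hcs _)).1 hc)⟩
  by_contra hno
  have key : ∀ n, ∃ x ∈ X, F.Cl N (a n) x := by
    intro n
    by_contra hc
    push Not at hc
    have h1 : ∃ x ∈ X, ¬ F.Ll N (a n) x := by
      by_contra h2
      push Not at h2
      exact hno ⟨a n, hD n, hG n, hV n, h2⟩
    obtain ⟨x, hx, hx2⟩ := h1
    have hxD := (hA.toXok.xg x hx).1
    rcases ho.tri hok hmd (a n) x (hD n) hxD with h3 | h3 | h3
    · exact hx2 h3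
    · exact hc x hx h3
    · rcases hA.toXok.dc x hx (a n) (hD n) h3 (hV n) with ⟨_, x', hx', hcl⟩ | hr
      · exact hc x' hx' hcl
      · exact ha.rgd hmd (a n) (hD n).1 hr (hG n)
  choose x hx hxc using key
  have hxD : ∀ n, F.D N (x n) := fun n => (hA.toXok.xg _ (hx n)).1
  have hxL : ∀ n, F.Ll N (x n) (x (n + 1)) := by
    intro n
    have h1 : F.Ll N (x n) (a (n + 1)) :=
      ho.cll hok hmd (x n) (a n) (a (n + 1)) (hxD n) (hD n) (hD _)
        (hok.csm _ N hmd _ _ (hD n) (hxD n) (hxc n)) (hL n)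
    exact ho.llc hok hmd (x n) (a (n + 1)) (x (n + 1)) (hxD n) (hD _) (hxD _) h1 (hxc _)
  obtain ⟨m, ⟨k, rfl⟩, hmax⟩ := hA.toXok.wo (range x) (by
    rintro _ ⟨n, rfl⟩
    exact hx n) ⟨x 0, 0, rfl⟩
  rcases hmax (x (k + 1)) ⟨k + 1, rfl⟩ with h1 | h1
  · have h2 := (hxL k).1
    rw [h1] at h2
    exact hok.irr _ N hmd _ (hxD k) h2
  · exact ho.asy hok hmd _ _ (hxD _) (hxD _) h1 (hxL k).1

end ORD
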