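import Pool.Agent.ORD.StB

/-!
# ORD: maximal approximations exist (Zorn)
-/

set_option autoImplicit false
set_option linter.unusedVariables false

namespace ORD

open Set FirstOrder Cardinal

private theorem ZRN_trans {L : Lg} {P M : Type} (he : EMB) (ha : ABS) {F : Fr L P}
    {g : Adr F.T → ℕ} {N₀ : Mo L P M} {s t r : Mo L P M × Set M × (M → Set M)}
    (ht : Apx F g N₀ t.1 t.2.1 t.2.2) (h1 : Ale F s t) (h2 : Ale F t r) : Ale F s r where
  ue := he.uco h1.ue h2.ue
  sub := h1.sub.trans h2.sub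
  blw := by
    intro x hx hxs x' hx'
    have hx't : x' ∈ t.2.1 := h1.sub hx'
    by_cases hxt : x ∈ t.2.1
    · have h3 := h1.blw x hxt hxs x' hx'
      exact (ha.ult h2.ue x (ht.xg x hxt).1.1 x' (ht.xg x' hx't).1.1).mpr h3
    · exact h2.blw x hx hxt x' hx't
  ext := by
    intro y hy
    have h3 := h1.ext y hy
    have h4 := h2.ext y (by rw [h3]; exact hy)
    rw [h4, h3]

private theorem ZRN_start {L : Lg} {P M : Type} (he : EMB) {F : Fr L P}
    {g : Adr F.T → ℕ} {N₀ : Mo L P M} (hm : Md F.T N₀) :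
    Apx F g N₀ N₀ ∅ (fun _ => ∅) where
  md := hm
  xg := fun x hx => absurd hx (Set.notMem_empty x)
  xp := fun x hx => absurd hx (Set.notMem_empty x)
  wo := by
    rintro Y hY ⟨y, hy⟩
    exact absurd (hY hy) (Set.notMem_empty y)
  dc := fun x hx => absurd hx (Set.notMem_empty x)
  ue := he.uid N₀
  cc := fun y => ⟨Set.countable_empty, Set.empty_subset _⟩
  cg := by
    rintro y ⟨z, hz⟩
    exact absurd hz (Set.notMem_empty z)
  cr := fun z hz => ⟨z, Or.inl hz, Relation.ReflTransGen.refl⟩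

theorem thm_ZRN (hb : BAS) (he : EMB) (ha : ABS) (hc : St_CHN) : St_ZRN := by
  intro L P M F g N₀ a hB
  let A := {t : Mo L P M × Set M × (M → Set M) // Apx F g N₀ t.1 t.2.1 t.2.2}
  have : Nonempty A := ⟨⟨(N₀, ∅, fun _ => ∅), ZRN_start he hB.md⟩⟩
  obtain ⟨m, hm⟩ := exists_maximal_of_nonempty_chains_bounded
    (r := fun s t : A => Ale F s.1 t.1)
    (by
      intro c hchain hne
      obtain ⟨N, X, C, hA, hub⟩ := hc L P M F g N₀ a hB (Subtype.val '' c) (hne.image _)
        (by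
          rintro _ ⟨t, _, rfl⟩
          exact t.2)
        (by
          rintro _ ⟨s, hs, rfl⟩ _ ⟨t, ht, rfl⟩ hst
          exact hchain hs ht fun h => hst (by rw [h]))
      exact ⟨⟨(N, X, C), hA⟩, fun t ht => hub t.1 ⟨t, ht, rfl⟩⟩)
    (fun {s t r} h1 h2 => ZRN_trans he ha t.2 h1 h2)
  obtain ⟨⟨N, X, C⟩, hA⟩ := m
  refine ⟨N, X, C, { hA with mx := ?_ }⟩
  intro N' X' C' hA' hle
  have h := hm ⟨(N', X', C'), hA'⟩ hle
  exact ⟨fun x hx => h.ue.uni x hx, h.sub⟩

end ORD
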