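import Pool.Agent.ORD.FIN
import Pool.Agent.ORD.RED
import Pool.Agent.ORD.COR
import Pool.Agent.ORD.ABS
import Pool.Agent.ORD.BTF
import Pool.Agent.ORD.CHN
import Pool.Agent.ORD.CONX
import Pool.Agent.ORD.CPE
import Pool.Agent.ORD.CPT
import Pool.Agent.ORD.CRD
import Pool.Agent.ORD.DCD
import Pool.Agent.ORD.DIC
import Pool.Agent.ORD.EXT
import Pool.Agent.ORD.FRA
import Pool.Agent.ORD.FRB
import Pool.Agent.ORD.GJA
import Pool.Agent.ORD.INN
import Pool.Agent.ORD.LNG
import Pool.Agent.ORD.MOX
import Pool.Agent.ORD.NEW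
import Pool.Agent.ORD.OCL
import Pool.Agent.ORD.ODC
import Pool.Agent.ORD.ODX
import Pool.Agent.ORD.OLD
import Pool.Agent.ORD.ORL
import Pool.Agent.ORD.PKG
import Pool.Agent.ORD.PLC
import Pool.Agent.ORD.PLM
import Pool.Agent.ORD.REC
import Pool.Agent.ORD.RSN
import Pool.Agent.ORD.SP1
import Pool.Agent.ORD.SP2
import Pool.Agent.ORD.SPC
import Pool.Agent.ORD.SPX
import Pool.Agent.ORD.SUP
import Pool.Agent.ORD.SYN
import Pool.Agent.ORD.SYS
import Pool.Agent.ORD.THA
import Pool.Agent.ORD.TPL
import Pool.Agent.ORD.TPX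
import Pool.Agent.ORD.UNI
import Pool.Agent.ORD.WFD
import Pool.Agent.ORD.WRD
import Pool.Agent.ORD.YNE
import Pool.Agent.ORD.ZRN
import Pool.Agent.UN.QLB
import Pool.Agent.UN.UPR

/-!
# ORD: the whole proof
-/

set_option autoImplicit false
set_option linter.unusedVariables false

namespace ORD

theorem core : St_CORE := by
  have b : BAS := thm_BAS
  have e : EMB := thm_EMB b
  have a : ABS := thm_ABS b e
  have o : ORL := thm_ORL
  have cpt : St_CPT := thm_CPT b
  have cpe : St_CPE := thm_CPE b e cpt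
  have rsn : St_RSN := thm_RSN b e cpe
  have btf : BTF := thm_BTF b
  have fra : St_FRA := thm_FRA b e btf
  have frb : St_FRB := thm_FRB b e btf
  have uni : St_UNI := thm_UNI b e
  have chn : St_CHN := thm_CHN b e a o uni
  have zrn : St_ZRN := thm_ZRN b e a chn
  have plc : St_PLC := thm_PLC b e
  have yne : St_YNE := thm_YNE e a o
  have dcd : St_DCD := thm_DCD b e a o rsn plc
  have con : St_CON := thm_CON b e a cpe
  have new : St_NEW := thm_NEW b e a o plc
  have old : St_OLD := thm_OLD b e a o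
  have plm : St_PLM := thm_PLM b e
  have lng : St_LNG := thm_LNG b e a o zrn yne dcd con new old thm_CRD plm
  have tpl : St_TPL := thm_TPL UN.thm_UPR UN.thm_QLB
  have tpx : St_TPX := thm_TPX lng (thm_SYS b e) (thm_REC b) tpl (thm_MOX b e)
  have wrd : WRD := thm_WRD b e o
  have gja : GJA := thm_GJA b e a
  have inn : INN := thm_INN a o wrd gja
  have wfd : St_WFD := thm_WFD a o wrd inn
  have pkg : St_PKG := thm_PKG a o wrd gja inn wfd
  have odc : St_ODC := thm_ODC thm_ODX thm_OCL
  have tha : St_THA' := thm_THA' b e a o wrd gja inn tpx pkg odc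
  have ext : EXT := thm_EXT b e btf
  have sp1 : St_SP1 := thm_SP1 b e btf ext
  have sp2 : St_SP2 := thm_SP2 b e btf ext thm_SYN
  have spc : St_SPC := thm_SPC b e a cpt
  have spx : SPX := thm_SPX b e btf fra frb o ext spc
  have sup : St_SUP := thm_SUP b e btf ext thm_DIC sp1 sp2 spx
  exact thm_RED e cpe (thm_COR1 e sup tha)

end ORD
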