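import Pool.Agent.ORD.StA

/-!
# ORD [EMB]: closed sets, isomorphisms, U-embeddings
-/

set_option autoImplicit false

namespace ORD

open Set

section iso

variable {L : Lg} {P M M' : Type} {N : Mo L P M} {N' : Mo L P M'} {h : M → M'}

private theorem EMB_q (H : Is N N' h) {κ : Type} (φ : Qf L κ) (w : κ → M)
    (hw : ∀ i, w i ∈ N.A) : φ.Tr N.S w ↔ φ.Tr N'.S (h ∘ w) := by
  induction φ with
  | eq i j =>
    change w i = w j ↔ h (w i) = h (w j)
    exact ⟨fun e => by rw [e], fun e => H.bij.injOn (hw i) (hw j) e⟩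
  | rel n R t =>
    change N.S.RelMap R (fun k => w (t k)) ↔ N'.S.RelMap R (fun k => (h ∘ w) (t k))
    exact H.rel n R _ fun i => hw (t i)
  | bot => exact Iff.rfl
  | imp φ ψ ih1 ih2 =>
    change (φ.Tr N.S w → ψ.Tr N.S w) ↔ (φ.Tr N'.S (h ∘ w) → ψ.Tr N'.S (h ∘ w))
    rw [ih1, ih2]

private theorem EMB_el (H : Is N N' h) {ι : Type} (v : ι → M) :
    Sum.elim N'.c (h ∘ v) = h ∘ Sum.elim N.c v := by
  funext i
  rcases i with p | i
  · exact (H.cst p).symm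
  · rfl

private theorem EMB_mem (hc : ∀ p, N.c p ∈ N.A) {ι : Type} (v : ι → M)
    (hv : ∀ i, v i ∈ N.A) : ∀ i, Sum.elim N.c v i ∈ N.A := by
  rintro (p | i)
  · exact hc p
  · exact hv i

private theorem EMB_isq (H : Is N N' h) (hc : ∀ p, N.c p ∈ N.A) {ι : Type}
    (φ : Qf L (P ⊕ ι)) (v : ι → M) (hv : ∀ i, v i ∈ N.A) :
    (N.Q φ v ↔ N'.Q φ (h ∘ v)) := by
  unfold Mo.Q
  rw [EMB_el H]
  exact EMB_q H φ _ (EMB_mem hc v hv)

private theorem EMB_el2 {κ : Type} {m : ℕ} (w : κ → M) (z : Fin m → M) :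
    Sum.elim (h ∘ w) (h ∘ z) = h ∘ Sum.elim w z := by
  funext i
  rcases i with p | i
  · rfl
  · rfl

private theorem EMB_ist (H : Is N N' h) (hc : ∀ p, N.c p ∈ N.A) {ι : Type}
    (φ : Uf L (P ⊕ ι)) (v : ι → M) (hv : ∀ i, v i ∈ N.A) :
    (N.Tr φ v ↔ N'.Tr φ (h ∘ v)) := by
  unfold Mo.Tr Uf.Tr
  rw [EMB_el H]
  constructor
  · intro h1 z hz
    choose y hy1 hy2 using fun k => H.bij.surjOn (hz k)
    have hzy : z = h ∘ y := by
      funext k
      exact (hy2 k).symm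
    rw [hzy, EMB_el2]
    refine (EMB_q H _ _ ?_).1 (h1 y hy1)
    rintro (i | i)
    · exact EMB_mem hc v hv i
    · exact hy1 i
  · intro h1 z hz
    have h2 := h1 (h ∘ z) fun k => H.bij.mapsTo (hz k)
    rw [EMB_el2] at h2
    refine (EMB_q H _ _ ?_).2 h2
    rintro (i | i)
    · exact EMB_mem hc v hv i
    · exact hz i

private theorem EMB_isi (H : Is N N' h) (hc : ∀ p, N.c p ∈ N.A) (hne : N.A.Nonempty) :
    ∃ h' : M' → M, Is N' N h' ∧ (∀ x ∈ N.A, h' (h x) = x) ∧ ∀ x ∈ N'.A, h (h' x) = x := by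
  classical
  have : Nonempty M := ⟨hne.some⟩
  have h1 : ∀ x ∈ N.A, Function.invFunOn h N.A (h x) = x := fun x hx =>
    H.bij.injOn.leftInvOn_invFunOn hx
  have h2 : ∀ x ∈ N'.A, h (Function.invFunOn h N.A x) = x := fun x hx =>
    H.bij.surjOn.rightInvOn_invFunOn hx
  have h3 : ∀ x ∈ N'.A, Function.invFunOn h N.A x ∈ N.A := fun x hx =>
    H.bij.surjOn.mapsTo_invFunOn hx
  refine ⟨Function.invFunOn h N.A, ⟨⟨h3, ?_, ?_⟩, ?_, ?_⟩, h1, h2⟩
  · intro x hx y hy hxy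
    rw [← h2 x hx, ← h2 y hy, hxy]
  · intro x hx
    exact ⟨h x, H.bij.mapsTo hx, h1 x hx⟩
  · intro p
    rw [← H.cst p]
    exact h1 _ (hc p)
  · intro n R t ht
    rw [H.rel n R (Function.invFunOn h N.A ∘ t) fun i => h3 _ (ht i)]
    have e : h ∘ Function.invFunOn h N.A ∘ t = t := by
      funext i
      exact h2 _ (ht i)
    rw [e]

private theorem EMB_isub (H : Is N N' h) (C : Set M) (hC : C ⊆ N.A) :
    Is (N.sub C) (N'.sub (h '' C)) h := by
  refine ⟨(H.bij.injOn.mono hC).bijOn_image, H.cst, ?_⟩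
  intro n R t ht
  exact H.rel n R t fun i => hC (ht i)

private theorem EMB_wit {T : Th L P} (H : Is N N' h) (hc : ∀ p, N.c p ∈ N.A) (k : T.K)
    (x : M) (y : Fin (T.n k) → M) (hx : x ∈ N.A) (hy : ∀ i, y i ∈ N.A)
    (hw : T.Wit N k x y) : T.Wit N' k (h x) (h ∘ y) := by
  unfold Th.Wit at hw ⊢
  rw [← Fin.comp_cons]
  refine (EMB_ist H hc _ _ ?_).1 hw
  intro i
  refine Fin.cases ?_ ?_ i
  · exact hx
  · intro i
    exact hy i

private theorem EMB_imd {T : Th L P} (H : Is N N' h) (hM : Md T N) : Md T N' := by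
  refine ⟨?_, ?_, ?_⟩
  · obtain ⟨x, hx⟩ := hM.ne
    exact ⟨h x, H.bij.mapsTo hx⟩
  · intro p
    rw [← H.cst p]
    exact H.bij.mapsTo (hM.cst p)
  · intro x' hx' k
    obtain ⟨x, hx, rfl⟩ := H.bij.surjOn hx'
    obtain ⟨y, hy, hw⟩ := hM.wit x hx k
    exact ⟨h ∘ y, fun i => H.bij.mapsTo (hy i), EMB_wit H hM.cst k x y hx hy hw⟩

private theorem EMB_icw {T : Th L P} {C : Set M} (H : Is N N' h) (hc : ∀ p, N.c p ∈ N.A)
    (hC : Cw T N C) : Cw T N' (h '' C) := by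
  refine ⟨?_, ?_⟩
  · rintro _ ⟨x, hx, rfl⟩
    exact H.bij.mapsTo (hC.sub hx)
  · rintro _ ⟨x, hx, rfl⟩ k
    obtain ⟨y, hy, hw⟩ := hC.wit x hx k
    exact ⟨h ∘ y, fun i => ⟨y i, hy i, rfl⟩,
      EMB_wit H hc k x y (hC.sub hx) (fun i => hC.sub (hy i)) hw⟩

private theorem EMB_iue (H : Is N N' h) (hc : ∀ p, N.c p ∈ N.A) : UE N N' h :=
  ⟨fun _ hx => H.bij.mapsTo hx, H.cst, fun _ φ v hv ht => (EMB_ist H hc φ v hv).1 ht⟩

end iso

private theorem EMB_cct {L : Lg} {P M : Type} {N : Mo L P M} {T : Th L P}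
    (hK : Countable T.K) (hM : Md T N) (B : Set M) (hB : B ⊆ N.A) (hBc : B.Countable) :
    ∃ C, B ⊆ C ∧ C.Countable ∧ Cw T N C := by
  classical
  have hw : ∀ x : M, ∃ f : ∀ k, Fin (T.n k) → M, x ∈ N.A →
      ∀ k, (∀ i, f k i ∈ N.A) ∧ T.Wit N k x (f k) := by
    intro x
    by_cases hx : x ∈ N.A
    · choose y hy using hM.wit x hx
      exact ⟨y, fun _ => hy⟩
    · exact ⟨fun _ _ => x, fun h => absurd h hx⟩
  choose f hf using hw
  let S : ℕ → Set M := fun n => Nat.rec (motive := fun _ => Set M) B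
    (fun _ S => S ∪ ⋃ x ∈ S, ⋃ k, range (f x k)) n
  have hS1 : ∀ n, S (n + 1) = S n ∪ ⋃ x ∈ S n, ⋃ k, range (f x k) := fun n => rfl
  have hSA : ∀ n, S n ⊆ N.A := by
    intro n
    induction n with
    | zero => exact hB
    | succ n ih =>
      rw [hS1]
      refine union_subset ih ?_
      refine iUnion₂_subset fun x hx => iUnion_subset fun k => ?_
      rintro _ ⟨i, rfl⟩
      exact (hf x (ih hx) k).1 i
  have hSc : ∀ n, (S n).Countable := by
    intro n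
    induction n with
    | zero => exact hBc
    | succ n ih =>
      rw [hS1]
      refine ih.union ?_
      refine ih.biUnion fun x hx => ?_
      exact countable_iUnion fun k => countable_range _
  refine ⟨⋃ n, S n, subset_iUnion S 0, countable_iUnion hSc, iUnion_subset hSA, ?_⟩
  intro x hx k
  obtain ⟨n, hn⟩ := mem_iUnion.1 hx
  refine ⟨f x k, fun i => mem_iUnion.2 ⟨n + 1, ?_⟩, (hf x (hSA n hn) k).2⟩
  rw [hS1]
  exact Or.inr (mem_iUnion₂.2 ⟨x, hn, mem_iUnion.2 ⟨k, i, rfl⟩⟩)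

private theorem EMB_uqi (hb : BAS) {L : Lg} {P M M' : Type} {N : Mo L P M} {N' : Mo L P M'}
    {j : M → M'} (H : UE N N' j) {ι : Type} (φ : Qf L (P ⊕ ι)) (v : ι → M)
    (hv : ∀ i, v i ∈ N.A) : (N.Q φ v ↔ N'.Q φ (j ∘ v)) := by
  have h1 : ∀ ψ : Qf L (P ⊕ ι), N.Q ψ v → N'.Q ψ (j ∘ v) := by
    intro ψ hψ
    have h2 := H.tr ι (Uf.qf ψ) v hv ((hb.uqf _ _ _ ψ).2 hψ)
    exact (hb.uqf _ _ _ ψ).1 h2
  refine ⟨h1 φ, fun h3 => ?_⟩
  by_contra h4
  exact (hb.qnot _ _ φ).1 (h1 φ.not ((hb.qnot _ _ φ).2 h4)) h3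

private theorem EMB_uin (hb : BAS) {L : Lg} {P M M' : Type} {N : Mo L P M} {N' : Mo L P M'}
    {j : M → M'} (H : UE N N' j) : InjOn j N.A := by
  intro x hx y hy hxy
  have h1 := EMB_uqi hb H (ι := Fin 2) (Qf.eq (Sum.inr 0) (Sum.inr 1)) ![x, y] (by
    intro i
    fin_cases i
    · exact hx
    · exact hy)
  exact h1.2 hxy

theorem thm_EMB (hb : BAS) : EMB where
  isq H hc _ φ v hv := EMB_isq H hc φ v hv
  ist H hc _ φ v hv := EMB_ist H hc φ v hv
  isi H hc hne := EMB_isi H hc hne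
  isub H C hC := EMB_isub H C hC
  imd H hM := EMB_imd H hM
  icw H hc hC := EMB_icw H hc hC
  iue H hc := EMB_iue H hc
  uid N := ⟨fun _ hx => hx, fun _ => rfl, fun _ _ _ _ ht => ht⟩
  uco H H' := ⟨fun x hx => H'.uni _ (H.uni x hx), fun p => by
      rw [← H'.cst p, ← H.cst p]; rfl,
    fun ι φ v hv ht => H'.tr ι φ _ (fun i => H.uni _ (hv i)) (H.tr ι φ v hv ht)⟩
  ucg {L P M M' N N' j j'} H hc hj := by
    refine ⟨fun x hx => ?_, fun p => ?_, fun ι φ v hv ht => ?_⟩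
    · rw [← hj x hx]
      exact H.uni x hx
    · rw [← hj _ (hc p)]
      exact H.cst p
    · have e : j' ∘ v = j ∘ v := by
        funext i
        exact (hj _ (hv i)).symm
      rw [e]
      exact H.tr ι φ v hv ht
  uin H := EMB_uin hb H
  uqi H _ φ v hv := EMB_uqi hb H φ v hv
  ucw {L P M M' N N' j T} H hM := by
    refine ⟨?_, ?_⟩
    · rintro _ ⟨x, hx, rfl⟩
      exact H.uni x hx
    · rintro _ ⟨x, hx, rfl⟩ k
      obtain ⟨y, hy, hw⟩ := hM.wit x hx k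
      refine ⟨j ∘ y, fun i => ⟨y i, hy i, rfl⟩, ?_⟩
      unfold Th.Wit at hw ⊢
      rw [← Fin.comp_cons]
      refine H.tr _ _ _ ?_ hw
      intro i
      refine Fin.cases ?_ ?_ i
      · exact hx
      · intro i
        exact hy i
  cwu {L P M N T C C'} h1 h2 := by
    refine ⟨union_subset h1.sub h2.sub, ?_⟩
    rintro x (hx | hx) k
    · obtain ⟨y, hy, hw⟩ := h1.wit x hx k
      exact ⟨y, fun i => Or.inl (hy i), hw⟩
    · obtain ⟨y, hy, hw⟩ := h2.wit x hx k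
      exact ⟨y, fun i => Or.inr (hy i), hw⟩
  cmd {L P M N T C} h1 hne hc := by
    refine ⟨hne, hc, fun x hx k => ?_⟩
    obtain ⟨y, hy, hw⟩ := h1.wit x hx k
    exact ⟨y, hy, hb.down _ _ _ _ _ h1.sub hw⟩
  usb {L P M M' N N' j} H B hB hj := by
    refine ⟨hj, H.cst, fun ι φ v hv ht => ?_⟩
    exact hb.down _ _ _ _ _ hB (H.tr ι φ v hv ht)
  csb {L P M N T C B} h1 hCB hB := by
    refine ⟨hCB, fun x hx k => ?_⟩
    obtain ⟨y, hy, hw⟩ := h1.wit x hx k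
    exact ⟨y, hy, hb.down _ _ _ _ _ hB hw⟩
  cct hK hM B hB hBc := EMB_cct hK hM B hB hBc
  rmd {L P P' M N T} h hc := by
    have e : ∀ {m : ℕ} (φ : Uf L (P ⊕ Fin m)) (v : Fin m → M),
        N.Tr (φ.map (Sum.map h id)) v ↔ (N.res h).Tr φ v := by
      intro m φ v
      unfold Mo.Tr
      rw [hb.umap]
      have e2 : Sum.elim N.c v ∘ Sum.map h id = Sum.elim (N.res h).c v := by
        funext i
        rcases i with p | i
        · rfl
        · rfl
      rw [e2]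
      rfl
    constructor
    · intro hM
      refine ⟨hM.ne, fun p => hM.cst (h p), fun x hx k => ?_⟩
      obtain ⟨y, hy, hw⟩ := hM.wit x hx k
      exact ⟨y, hy, (e _ _).1 hw⟩
    · intro hM
      refine ⟨hM.ne, hc, fun x hx k => ?_⟩
      obtain ⟨y, hy, hw⟩ := hM.wit x hx k
      exact ⟨y, hy, (e _ _).2 hw⟩

end ORD
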