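import Pool.Agent.ORD.Defs
import Pool.Agent.VPF.Defs

/-!
# ORD, module QFC: prenex first-order sentences as quantifier free formulas and U-formulas

`L` is a relational language. `qfc_qf`: quantifier free Mathlib formulas; `qfc_EA`: sentences with a
prefix `∃^m ∀^l`; `qfc_EAEA`: sentences with a prefix `∃^m ∀ ∃^k ∀^l`. All structures of all
cardinalities.
-/

set_option autoImplicit false
set_option linter.unusedVariables false

namespace ORD

open Set FirstOrder VPF

variable {L : FirstOrder.Language.{0, 0}} {M ι κ : Type}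

theorem qfc_tr_map (S : L.Structure M) (h : ι → κ) (v : κ → M) (φ : Qf L ι) :
    (φ.map h).Tr S v ↔ φ.Tr S (v ∘ h) := by
  induction φ with
  | eq i j => exact Iff.rfl
  | rel n R t => exact Iff.rfl
  | bot => exact Iff.rfl
  | imp φ ψ h1 h2 => exact imp_congr h1 h2

/-- quantifier free formulas of Mathlib -/
theorem qfc_qf [∀ n, IsEmpty (L.Functions n)] {n : ℕ} {φ : L.BoundedFormula Empty n}
    (h : φ.IsQF) : ∃ q : Qf L (Fin n), ∀ (M : Type) (S : L.Structure M) (v : Empty → M)
      (xs : Fin n → M), @Language.BoundedFormula.Realize L M S _ _ φ v xs ↔ q.Tr S xs := by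
  have ht : ∀ t : L.Term (Empty ⊕ Fin n), ∃ i : Fin n, t = Language.Term.var (Sum.inr i) := by
    intro t
    cases t with
    | var x =>
      rcases x with x | i
      · exact x.elim
      · exact ⟨i, rfl⟩
    | func f ts => exact isEmptyElim f
  induction h with
  | falsum => exact ⟨.bot, fun M S v xs => Iff.rfl⟩
  | of_isAtomic h =>
    cases h with
    | equal t₁ t₂ =>
      obtain ⟨i, rfl⟩ := ht t₁
      obtain ⟨j, rfl⟩ := ht t₂
      refine ⟨.eq i j, fun M S v xs => ?_⟩
      let _ := S
      rw [Language.BoundedFormula.realize_bdEqual]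
      exact Iff.rfl
    | rel R ts =>
      choose i hi using fun k => ht (ts k)
      refine ⟨.rel _ R i, fun M S v xs => ?_⟩
      let _ := S
      rw [Language.BoundedFormula.realize_rel]
      have h1 : (fun k => Language.Term.realize (Sum.elim v xs) (ts k)) = fun k => xs (i k) := by
        funext k
        rw [hi k]
        rfl
      rw [h1]
      exact Iff.rfl
  | imp h1 h2 ih1 ih2 =>
    obtain ⟨q1, h1⟩ := ih1
    obtain ⟨q2, h2⟩ := ih2
    exact ⟨.imp q1 q2, fun M S v xs => imp_congr (h1 M S v xs) (h2 M S v xs)⟩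

/-- `Fin (n + 1)` with the last element first in the right part -/
def qfcS (n m : ℕ) : Fin (n + 1) ⊕ Fin m → Fin n ⊕ Fin (m + 1) :=
  Sum.elim (fun i => if h : (i : ℕ) < n then Sum.inl ⟨i, h⟩ else Sum.inr 0)
    (fun j => Sum.inr j.succ)

theorem qfcS_tr (n m : ℕ) (xs : Fin n → M) (a : M) (y : Fin m → M) :
    Sum.elim xs (Fin.cons a y : Fin (m + 1) → M) ∘ qfcS n m =
      Sum.elim (Fin.snoc xs a : Fin (n + 1) → M) y := by
  funext i
  rcases i with i | j
  · by_cases h : (i : ℕ) < n
    · simp [qfcS, h, Fin.snoc]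
      rfl
    · simp [qfcS, h, Fin.snoc]
  · simp [qfcS]

/-- a block of universal quantifiers -/
theorem qfc_A [∀ n, IsEmpty (L.Functions n)] (l : ℕ) : ∀ {n : ℕ} {φ : L.BoundedFormula Empty n},
    Pre (List.replicate l true) φ → ∃ u : Uf L (Fin n), ∀ (M : Type) (S : L.Structure M)
      (v : Empty → M) (xs : Fin n → M),
      @Language.BoundedFormula.Realize L M S _ _ φ v xs ↔ u.Tr S univ xs := by
  suffices H : ∀ {n : ℕ} {φ : L.BoundedFormula Empty n},
      Pre (List.replicate l true) φ → ∃ q : Qf L (Fin n ⊕ Fin l), ∀ (M : Type) (S : L.Structure M)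
        (v : Empty → M) (xs : Fin n → M), @Language.BoundedFormula.Realize L M S _ _ φ v xs ↔
          ∀ z : Fin l → M, q.Tr S (Sum.elim xs z) by
    intro n φ h
    obtain ⟨q, hq⟩ := H h
    refine ⟨⟨l, q⟩, fun M S v xs => (hq M S v xs).trans ?_⟩
    exact ⟨fun h z _ => h z, fun h z => h z fun _ => mem_univ _⟩
  induction l with
  | zero =>
    intro n φ h
    have h' : Pre [] φ := h
    cases h' with
    | qf h1 =>
      obtain ⟨q, hq⟩ := qfc_qf h1
      refine ⟨q.map Sum.inl, fun M S v xs => (hq M S v xs).trans ?_⟩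
      constructor
      · intro h z
        rw [qfc_tr_map]
        exact h
      · intro h
        have h2 := h Fin.elim0
        rw [qfc_tr_map] at h2
        exact h2
  | succ l ih =>
    intro n φ h
    have h' : Pre (true :: List.replicate l true) φ := h
    cases h' with
    | all h1 =>
      obtain ⟨q, hq⟩ := ih h1
      refine ⟨q.map (qfcS n l), fun M S v xs => ?_⟩
      let _ := S
      rw [Language.BoundedFormula.realize_all]
      constructor
      · intro h2 z
        have h3 := (hq M S v (Fin.snoc xs (z 0))).1 (h2 (z 0)) (Fin.tail z)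
        rw [qfc_tr_map]
        have h4 : (Fin.cons (z 0) (Fin.tail z) : Fin (l + 1) → M) = z := Fin.cons_self_tail z
        rw [← h4, qfcS_tr]
        exact h3
      · intro h2 a
        refine (hq M S v (Fin.snoc xs a)).2 fun z => ?_
        have h3 := h2 (Fin.cons a z)
        rw [qfc_tr_map, qfcS_tr] at h3
        exact h3

/-- a block of existential quantifiers -/
theorem qfc_E (m : ℕ) {w : List Bool} : ∀ {n : ℕ} {φ : L.BoundedFormula Empty n},
    Pre (List.replicate m false ++ w) φ → ∃ (N : ℕ) (ψ : L.BoundedFormula Empty N)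
      (h : Fin N → Fin n ⊕ Fin m), Pre w ψ ∧ ∀ (M : Type) (S : L.Structure M) (v : Empty → M)
        (xs : Fin n → M), @Language.BoundedFormula.Realize L M S _ _ φ v xs ↔
          ∃ y : Fin m → M, @Language.BoundedFormula.Realize L M S _ _ ψ v (Sum.elim xs y ∘ h) := by
  induction m with
  | zero =>
    intro n φ h
    refine ⟨n, φ, Sum.inl, h, fun M S v xs => ⟨fun h1 => ⟨Fin.elim0, h1⟩, ?_⟩⟩
    rintro ⟨y, h1⟩
    exact h1
  | succ m ih =>
    intro n φ h
    have h' : Pre (false :: (List.replicate m false ++ w)) φ := h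
    cases h' with
    | ex h1 =>
      obtain ⟨N, ψ, h, hp, hψ⟩ := ih h1
      refine ⟨N, ψ, qfcS n m ∘ h, hp, fun M S v xs => ?_⟩
      let _ := S
      rw [Language.BoundedFormula.realize_ex]
      constructor
      · rintro ⟨a, ha⟩
        obtain ⟨y, hy⟩ := (hψ M S v (Fin.snoc xs a)).1 ha
        refine ⟨Fin.cons a y, ?_⟩
        rw [← Function.comp_assoc, qfcS_tr]
        exact hy
      · rintro ⟨y, hy⟩
        refine ⟨y 0, (hψ M S v (Fin.snoc xs (y 0))).2 ⟨Fin.tail y, ?_⟩⟩
        rw [← qfcS_tr, Function.comp_assoc, Fin.cons_self_tail]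
        exact hy

theorem qfc_utr_map (S : L.Structure M) (A : Set M) (h : ι → κ) (v : κ → M) (φ : Uf L ι) :
    (φ.map h).Tr S A v ↔ φ.Tr S A (v ∘ h) := by
  have key : ∀ z : Fin φ.m → M, (φ.q.map (Sum.map h id)).Tr S (Sum.elim v z) ↔
      φ.q.Tr S (Sum.elim (v ∘ h) z) := by
    intro z
    rw [qfc_tr_map]
    have h1 : Sum.elim v z ∘ Sum.map h id = Sum.elim (v ∘ h) z := by
      funext i
      rcases i with i | i <;> rfl
    rw [h1]
  exact forall_congr' fun z => imp_congr Iff.rfl (key z)

/-- sentences with a prefix `∃^m ∀^l` -/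
theorem qfc_EA [∀ n, IsEmpty (L.Functions n)] {m l : ℕ} {φ : L.Sentence}
    (h : Pre (List.replicate m false ++ List.replicate l true) φ) :
    ∃ u : Uf L (Fin m), ∀ (M : Type) (S : L.Structure M),
      @Language.Sentence.Realize L M S φ ↔ ∃ y : Fin m → M, u.Tr S univ y := by
  obtain ⟨N, ψ, g, h1, h2⟩ := qfc_E m h
  obtain ⟨u, hu⟩ := qfc_A l h1
  refine ⟨u.map (Sum.elim Fin.elim0 id ∘ g), fun M S => ?_⟩
  refine (h2 M S _ _).trans (exists_congr fun y => ?_)
  rw [hu M S, qfc_utr_map]
  have h3 : Sum.elim (default : Fin 0 → M) y ∘ g = y ∘ Sum.elim Fin.elim0 id ∘ g := by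
    funext i
    show Sum.elim (default : Fin 0 → M) y (g i) = y (Sum.elim Fin.elim0 id (g i))
    rcases g i with j | j
    · exact j.elim0
    · rfl
  rw [h3]

/-- sentences with a prefix `∃^m ∀ ∃^k ∀^l` -/
theorem qfc_EAEA [∀ n, IsEmpty (L.Functions n)] {m k l : ℕ} {φ : L.Sentence}
    (h : Pre (List.replicate m false ++ (true :: (List.replicate k false ++
      List.replicate l true))) φ) :
    ∃ u : Uf L (Fin m ⊕ Fin (k + 1)), ∀ (M : Type) (S : L.Structure M),
      @Language.Sentence.Realize L M S φ ↔ ∃ c : Fin m → M, ∀ x : M, ∃ y : Fin k → M,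
        u.Tr S univ (Sum.elim c (Fin.cons x y : Fin (k + 1) → M)) := by
  obtain ⟨N, ψ, g, h1, h2⟩ := qfc_E m h
  cases h1 with
  | @all _ _ χ h1 =>
    obtain ⟨N', ψ', g', h3, h4⟩ := qfc_E k h1
    obtain ⟨u, hu⟩ := qfc_A l h3
    let e : Fin N' → Fin m ⊕ Fin (k + 1) := fun i =>
      Sum.elim (fun j : Fin (N + 1) => if hj : (j : ℕ) < N then
        Sum.map (fun a : Fin m => a) (fun a : Fin 0 => a.elim0) (Sum.swap (g ⟨j, hj⟩))
        else Sum.inr 0) (fun j => Sum.inr j.succ) (g' i)
    refine ⟨u.map e, fun M S => ?_⟩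
    let _ := S
    refine (h2 M S _ _).trans (exists_congr fun c => ?_)
    rw [Language.BoundedFormula.realize_all]
    refine forall_congr' fun x => (h4 M S _ _).trans (exists_congr fun y => ?_)
    rw [hu M S, qfc_utr_map]
    have h5 : Sum.elim (Fin.snoc (Sum.elim (default : Fin 0 → M) c ∘ g) x : Fin (N + 1) → M) y ∘ g'
        = Sum.elim c (Fin.cons x y : Fin (k + 1) → M) ∘ e := by
      funext i
      show Sum.elim (Fin.snoc (Sum.elim (default : Fin 0 → M) c ∘ g) x : Fin (N + 1) → M) y (g' i)
        = Sum.elim c (Fin.cons x y : Fin (k + 1) → M) (e i)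
      simp only [e]
      rcases g' i with j | j
      · simp only [Sum.elim_inl]
        by_cases hj : (j : ℕ) < N
        · rw [dif_pos hj]
          have h6 : (Fin.snoc (Sum.elim (default : Fin 0 → M) c ∘ g) x : Fin (N + 1) → M) j =
              Sum.elim (default : Fin 0 → M) c (g ⟨j, hj⟩) := by
            simp [Fin.snoc, hj]
            rfl
          rw [h6]
          rcases g ⟨j, hj⟩ with a | a
          · exact a.elim0
          · rfl
        · rw [dif_neg hj]
          simp [Fin.snoc, hj]
      · simp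
    rw [h5]

end ORD
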