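import Pool.Agent.ORD.StF
import Pool.Agent.ORD.QFC
import Pool.Agent.ORD.DCN
import Pool.Agent.Helper6.VC.Final

/-!
# ORD [FIN]: from continuous families of closed sets to perfectly many models
-/

set_option autoImplicit false
set_option linter.unusedVariables false

namespace ORD

open Set FirstOrder VPF Pool.Agent.Helper5.DU Pool.Agent.Helper6.Str Pool.Agent.Helper79.VC
  Pool.Agent.Helper97.VC Pool.Agent.Helper97.LO Pool.Agent.Helper5.Multi

variable {L : FirstOrder.Language.{0, 0}} {P M N ι : Type}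

private theorem FIN_qf [∀ n, IsEmpty (L.Functions n)] (S : L.Structure M) {e : N → M}
    (he : Function.Injective e) (φ : Qf L ι) (v : ι → N) :
    φ.Tr (pl S e) v ↔ φ.Tr S (e ∘ v) := by
  induction φ with
  | eq i j => exact he.eq_iff.symm
  | rel n R t => exact Iff.rfl
  | bot => exact Iff.rfl
  | imp φ ψ ih1 ih2 => exact imp_congr ih1 ih2

private theorem FIN_uf [∀ n, IsEmpty (L.Functions n)] (S : L.Structure M) {e : N → M}
    (he : Function.Injective e) (φ : Uf L ι) (v : ι → N) :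
    φ.Tr (pl S e) univ v ↔ φ.Tr S (range e) (e ∘ v) := by
  have h1 : ∀ z : Fin φ.m → N, Sum.elim (e ∘ v) (e ∘ z) = e ∘ Sum.elim v z := by
    intro z
    funext i
    rcases i with i | i <;> rfl
  constructor
  · intro h z hz
    choose z' hz' using hz
    have h2 : e ∘ z' = z := funext hz'
    rw [← h2, h1, ← FIN_qf S he]
    exact h z' fun _ => mem_univ _
  · intro h z _
    rw [FIN_qf S he, ← h1]
    exact h (e ∘ z) fun i => mem_range_self _

/-- prefixes `∃* ∀*` -/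
def PEA (φ : L.Sentence) : Prop :=
  ∃ m l : ℕ, Pre (List.replicate m false ++ List.replicate l true) φ

/-- prefixes `∃^m ∀ ∃* ∀*` -/
def PEAEA (m : ℕ) (φ : L.Sentence) : Prop :=
  ∃ k l : ℕ, Pre (List.replicate m false ++ (true :: (List.replicate k false ++
    List.replicate l true))) φ

theorem fin_perf [∀ n, IsEmpty (L.Functions n)] [∀ n, Countable (L.Relations n)] (T : L.Theory)
    (hT : ∀ φ ∈ T, PEA φ ∨ ∃ m, PEAEA m φ)
    (hfin : {φ | φ ∈ T ∧ ¬ (PEA φ ∨ PEAEA 0 φ)}.Finite)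
    (M : Type) [Nonempty M] (S : L.Structure M)
    (hS : @Language.Theory.Model L M S T) (p : ℕ) (c : Fin p → M) :
    ∃ (P : Type) (i : Fin p → P) (T1 : Th L P) (N : Mo L P M) (W : Set M), Finite P ∧
      N.S = S ∧ N.A = univ ∧ N.c ∘ i = c ∧ Countable T1.K ∧ Md T1 N ∧ W.Countable ∧
      (Fam T1 N W → PerfK (ModF T)) := by
  classical
  have hcs : Countable L.Sentence := by
    have h1 : Countable L.Symbols := by
      have : Countable (Σ l, L.Functions l) := by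
        have : IsEmpty (Σ l, L.Functions l) := ⟨fun x => isEmptyElim x.2⟩
        infer_instance
      exact inferInstanceAs (Countable ((Σ l, L.Functions l) ⊕ (Σ l, L.Relations l)))
    exact inferInstanceAs (Countable (L.Formula Empty))
  have hS' : ∀ φ ∈ T, @Language.Sentence.Realize L M S φ := fun φ hφ =>
    @Language.Theory.realize_sentence_of_mem L M S T hS φ hφ
  -- sentences of the second kind
  have h2 : ∀ φ : {φ // φ ∈ T ∧ ¬ PEA φ}, ∃ (m k : ℕ) (u : Uf L (Fin m ⊕ Fin (k + 1)))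
      (c : Fin m → M), (m ≠ 0 → ¬ (PEA φ.1 ∨ PEAEA 0 φ.1)) ∧
      (∀ (M : Type) (S : L.Structure M), @Language.Sentence.Realize L M S φ.1 ↔
        ∃ c : Fin m → M, ∀ x : M, ∃ y : Fin k → M,
        u.Tr S univ (Sum.elim c (Fin.cons x y : Fin (k + 1) → M))) ∧
      ∀ x : M, ∃ y : Fin k → M, u.Tr S univ (Sum.elim c (Fin.cons x y : Fin (k + 1) → M)) := by
    rintro ⟨φ, h1, h2⟩
    obtain ⟨m, h3⟩ := (hT φ h1).resolve_left h2
    by_cases h4 : PEAEA 0 φ
    · obtain ⟨k, l, h5⟩ := h4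
      obtain ⟨u, hu⟩ := qfc_EAEA (m := 0) h5
      obtain ⟨c, hc⟩ := (hu M S).1 (hS' φ h1)
      exact ⟨0, k, u, c, fun h => absurd rfl h, hu, hc⟩
    · obtain ⟨k, l, h5⟩ := h3
      obtain ⟨u, hu⟩ := qfc_EAEA h5
      obtain ⟨c, hc⟩ := (hu M S).1 (hS' φ h1)
      exact ⟨m, k, u, c, fun _ h => h.elim h2 h4, hu, hc⟩
  choose m k u c2 hm hu hc2 using h2
  -- sentences of the first kind
  have h1 : ∀ φ : {φ // φ ∈ T ∧ PEA φ}, ∃ (m : ℕ) (u : Uf L (Fin m)) (y : Fin m → M),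
      (∀ (M : Type) (S : L.Structure M), @Language.Sentence.Realize L M S φ.1 ↔
        ∃ y : Fin m → M, u.Tr S univ y) ∧ u.Tr S univ y := by
    rintro ⟨φ, h1, m, l, h2⟩
    obtain ⟨u, hu⟩ := qfc_EA h2
    obtain ⟨y, hy⟩ := (hu M S).1 (hS' φ h1)
    exact ⟨m, u, y, hu, hy⟩
  choose m1 u1 y1 hu1 hy1 using h1
  let P : Type := Fin p ⊕ (Σ φ : {φ // φ ∈ T ∧ ¬ PEA φ}, Fin (m φ))
  have hP : Finite P := by
    have h3 : {φ : {φ // φ ∈ T ∧ ¬ PEA φ} | m φ ≠ 0}.Finite := by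
      refine Finite.of_finite_image (f := Subtype.val) (hfin.subset ?_)
        Subtype.val_injective.injOn
      rintro _ ⟨φ, hφ, rfl⟩
      exact ⟨φ.2.1, hm φ hφ⟩
    have h4 : Finite {φ : {φ // φ ∈ T ∧ ¬ PEA φ} // m φ ≠ 0} := h3
    have h5 : Finite (Σ φ : {φ // φ ∈ T ∧ ¬ PEA φ}, Fin (m φ)) := by
      refine Finite.of_injective (β := Σ φ : {φ : {φ // φ ∈ T ∧ ¬ PEA φ} // m φ ≠ 0}, Fin (m φ))
        (fun x => ⟨⟨x.1, fun h => (h ▸ x.2).elim0⟩, x.2⟩) ?_
      rintro ⟨φ, i⟩ ⟨ψ, j⟩ h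
      simp only [Sigma.mk.injEq, Subtype.mk.injEq] at h
      obtain ⟨rfl, h⟩ := h
      rw [eq_of_heq h]
    infer_instance
  let T1 : Th L P :=
    { K := {φ // φ ∈ T ∧ ¬ PEA φ}
      n := k
      ax := fun φ => (u φ).map (Sum.map (fun i => Sum.inr ⟨φ, i⟩) id) }
  let N : Mo L P M := ⟨S, univ, Sum.elim c fun x => c2 x.1 x.2⟩
  let W : Set M := range fun x : Σ φ : {φ // φ ∈ T ∧ PEA φ}, Fin (m1 φ) => y1 x.1 x.2
  have hax : ∀ (M' : Type) (N' : Mo L P M') (φ : {φ // φ ∈ T ∧ ¬ PEA φ}) (x : M')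
      (y : Fin (k φ) → M'), T1.Wit N' φ x y ↔ (u φ).Tr N'.S N'.A
        (Sum.elim (fun i => N'.c (Sum.inr ⟨φ, i⟩)) (Fin.cons x y : Fin (k φ + 1) → M')) := by
    intro M' N' φ x y
    show ((u φ).map (Sum.map (fun i => Sum.inr ⟨φ, i⟩) id)).Tr N'.S N'.A
      (Sum.elim N'.c (Fin.cons x y : Fin (k φ + 1) → M')) ↔ _
    rw [qfc_utr_map]
    have h3 : Sum.elim N'.c (Fin.cons x y : Fin (k φ + 1) → M') ∘
        Sum.map (fun i : Fin (m φ) => (Sum.inr ⟨φ, i⟩ : P)) id =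
        Sum.elim (fun i => N'.c (Sum.inr ⟨φ, i⟩)) (Fin.cons x y : Fin (k φ + 1) → M') := by
      funext i
      rcases i with i | i <;> rfl
    rw [h3]
  refine ⟨P, Sum.inl, T1, N, W, hP, rfl, rfl, rfl, ?_, ?_, ?_, ?_⟩
  · exact inferInstanceAs (Countable {φ // φ ∈ T ∧ ¬ PEA φ})
  · refine ⟨univ_nonempty, fun _ => mem_univ _, fun x _ φ => ?_⟩
    obtain ⟨y, hy⟩ := hc2 φ x
    exact ⟨y, fun _ => mem_univ _, (hax M N φ x y).2 hy⟩
  · exact countable_range _
  · rintro ⟨M', N', w, X, E, G, hct, hcl, hinf, hmd, hw, htr, -, hsub, hG, hGE, hno⟩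
    have hGX : ∀ f, G ⊆ X f := fun f => hGE.trans (hsub f)
    by_contra hP'
    have hc : Countable L.Symbols := by
      have : Countable (Σ l, L.Functions l) := by
        have : IsEmpty (Σ l, L.Functions l) := ⟨fun x => isEmptyElim x.2⟩
        infer_instance
      exact inferInstanceAs (Countable ((Σ l, L.Functions l) ⊕ (Σ l, L.Relations l)))
    obtain ⟨hK, d, hd, hcl'⟩ := exists_level hc T
      (FmI.neg (FmI.ex (FmI.neg (FmI.eq (0 : Fin 1) 0)))) (K := ModF T) (fun S => by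
        constructor
        · intro h
          refine ⟨h, ?_⟩
          rintro ⟨a, ha⟩
          exact ha rfl
        · exact fun h => h.1)
    have hSc := scat_of_not_perf hK hP'
    obtain ⟨f, f', hne, hg⟩ := dcn hSc N'.S X hct hcl hinf G hG hGX (fun f e he1 he2 => by
      refine @Language.Theory.model_iff L ℕ (pl N'.S e) T |>.2 ?_
      intro φ hφ
      by_cases h3 : PEA φ
      · refine (hu1 ⟨φ, hφ, h3⟩ ℕ (pl N'.S e)).2 ?_
        -- the witnesses of `φ`
        let y' : Fin (m1 ⟨φ, hφ, h3⟩) → W := fun i =>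
          ⟨y1 ⟨φ, hφ, h3⟩ i, ⟨⟨φ, hφ, h3⟩, i⟩, rfl⟩
        have h4 : ∀ i, ∃ n, e n = w (y' i) := by
          intro i
          have h5 : w (y' i) ∈ range e := he2 ▸ hw f (y' i)
          exact h5
        choose z hz using h4
        refine ⟨z, (FIN_uf N'.S he1 _ _).2 ?_⟩
        rw [he2, show e ∘ z = w ∘ y' from funext hz]
        have h5 := htr f ((u1 ⟨φ, hφ, h3⟩).map fun i => Sum.inr (y' i)) (by
          show Uf.Tr _ _ _ _
          rw [qfc_utr_map]
          exact hy1 ⟨φ, hφ, h3⟩)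
        have h6 : ((u1 ⟨φ, hφ, h3⟩).map fun i => (Sum.inr (y' i) : P ⊕ W)).Tr N'.S (X f)
          (Sum.elim N'.c w) := h5
        rw [qfc_utr_map] at h6
        exact h6
      · refine (hu ⟨φ, hφ, h3⟩ ℕ (pl N'.S e)).2 ?_
        have h4 : ∀ i : Fin (m ⟨φ, hφ, h3⟩), ∃ n, e n = N'.c (Sum.inr ⟨⟨φ, hφ, h3⟩, i⟩) := by
          intro i
          have h5 : N'.c (Sum.inr ⟨⟨φ, hφ, h3⟩, i⟩) ∈ range e := he2 ▸ (hmd f).cst _
          exact h5
        choose z hz using h4
        refine ⟨z, fun x => ?_⟩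
        have hx : e x ∈ X f := he2 ▸ mem_range_self x
        obtain ⟨y, hy1, hy2⟩ := (hmd f).wit (e x) hx ⟨φ, hφ, h3⟩
        have h5 : ∀ i, ∃ n, e n = y i := by
          intro i
          have h5 : y i ∈ range e := he2 ▸ hy1 i
          exact h5
        choose y' hy' using h5
        refine ⟨y', (FIN_uf N'.S he1 _ _).2 ?_⟩
        rw [hax] at hy2
        have h6 : e ∘ Sum.elim z (Fin.cons x y' : Fin (k ⟨φ, hφ, h3⟩ + 1) → ℕ) =
            Sum.elim (fun i => N'.c (Sum.inr ⟨⟨φ, hφ, h3⟩, i⟩))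
              (Fin.cons (e x) y : Fin (k ⟨φ, hφ, h3⟩ + 1) → M') := by
          funext i
          rcases i with i | i
          · exact hz i
          · refine Fin.cases rfl (fun j => ?_) i
            exact hy' j
        rw [he2, h6]
        exact hy2)
    obtain ⟨g, hg1, hg2⟩ := hg
    refine hne (hno f f' ⟨fun x => if hx : x ∈ X f then (g ⟨x, hx⟩ : M') else x, ⟨?_, ?_, ?_⟩,
      ?_, ?_⟩)
    · intro x hx
      simp only [dif_pos hx]
      exact (g ⟨x, hx⟩).2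
    · intro x hx y hy hxy
      simp only [dif_pos hx, dif_pos hy] at hxy
      exact congrArg Subtype.val (g.injective (Subtype.ext hxy))
    · intro y hy
      refine ⟨(g.symm ⟨y, hy⟩ : M'), (g.symm ⟨y, hy⟩).2, ?_⟩
      simp only [dif_pos (g.symm ⟨y, hy⟩).2]
      rw [show (⟨(g.symm ⟨y, hy⟩ : M'), (g.symm ⟨y, hy⟩).2⟩ : X f) = g.symm ⟨y, hy⟩ from rfl,
        g.apply_symm_apply]
    · intro x hx
      simp only [dif_pos (hGX f hx)]
      exact hg1 ⟨x, hGX f hx⟩ hx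
    · intro n R t ht
      have h3 : (fun x => if hx : x ∈ X f then (g ⟨x, hx⟩ : M') else x) ∘ t =
          fun i => (g ⟨t i, ht i⟩ : M') := by
        funext i
        simp only [Function.comp_apply, dif_pos (ht i)]
      rw [h3]
      exact hg2 n R fun i => ⟨t i, ht i⟩

end ORD
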