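import Pool.Agent.ORD.StB

/-!
# ORD: module NEW

(5.3) A maximal approximation has no U-extension with a new good element between the good elements
below `X`, `v` and the elements of `X` and `v`.
-/

set_option autoImplicit false
set_option linter.unusedVariables false

namespace ORD

open Set FirstOrder Cardinal

/-- (1) the element is new -/
private theorem NEW_old (he : EMB) (ha : ABS) (ho : ORL) {L : Lg} {P M M' : Type} {F : Fr L P}
    {g : Adr F.T → ℕ} {N₀ N : Mo L P M} {X : Set M} {C : M → Set M} (hok : F.Ok)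
    (hA : Apx F g N₀ N X C)
    (hdec : ∀ y, F.D N y → F.Ll N y (N.c F.v) → F.Good g N y ∨ F.Rd g N y)
    {N' : Mo L P M'} {j : M → M'} {z : M'} (hmd' : Md F.T N') (hue : UE N N' j)
    (hzg : F.Good g N' z)
    (hlo : ∀ y, Blw F g N X y → ∀ y', F.D N y' → F.Cl N y y' → F.Lt N' (j y') z)
    (hhi : ∀ x₁, (x₁ ∈ X ∨ x₁ = N.c F.v) → ∀ x', F.D N x' → F.Cl N x₁ x' → F.Lt N' z (j x'))
    (hzD : F.D N' z) (z₀ : M) (hz₀ : z₀ ∈ N.A) : z ≠ j z₀ := by
  intro hz
  subst hz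
  have hmd := hA.md
  have hvD : F.D N (N.c F.v) := hok.vdd M N hmd
  have hD : F.D N z₀ := (ha.udd hue z₀ hz₀).mp hzD
  have hirr : ¬ F.Lt N z₀ z₀ := hok.irr M N hmd z₀ hD
  have hXD : ∀ x₁, (x₁ ∈ X ∨ x₁ = N.c F.v) → F.D N x₁ := by
    rintro x₁ (h | rfl)
    · exact (hA.xg x₁ h).1
    · exact hvD
  have hll : ∀ x₁, (x₁ ∈ X ∨ x₁ = N.c F.v) → F.Ll N z₀ x₁ := by
    intro x₁ hx₁
    have hD₁ := hXD x₁ hx₁
    refine ⟨?_, ?_⟩
    · have h1 := hhi x₁ hx₁ x₁ hD₁ (hok.crf M N hmd x₁ hD₁)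
      exact (ha.ult hue z₀ hz₀ x₁ hD₁.1).mp h1
    · intro hcl
      have h1 := hhi x₁ hx₁ z₀ hD (hok.csm M N hmd z₀ x₁ hD hD₁ hcl)
      exact hirr ((ha.ult hue z₀ hz₀ z₀ hz₀).mp h1)
  have hgood : F.Good g N z₀ := by
    rcases hdec z₀ hD (hll _ (Or.inr rfl)) with h | ⟨ρ, b, h⟩
    · exact h
    · exfalso
      exact ha.rgd hmd' (j z₀) (hue.uni z₀ hz₀) ⟨ρ, j ∘ b, ha.has hue z₀ hz₀ ρ b h⟩ hzg
  have hblw : Blw F g N X z₀ := ⟨hD, hgood, hll _ (Or.inr rfl), fun x hx => hll x (Or.inl hx)⟩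
  have h2 := hlo z₀ hblw z₀ hD (hok.crf M N hmd z₀ hD)
  exact hirr ((ha.ult hue z₀ hz₀ z₀ hz₀).mp h2)

/-- good elements lie in the universe -/
private theorem NEW_mem {L : Lg} {P M : Type} {F : Fr L P} {g : Adr F.T → ℕ} {N : Mo L P M}
    {y : M} (h : F.Good g N y) : y ∈ N.A := by
  obtain ⟨u, hu⟩ := h
  rw [← hu.top]
  exact hu.uni []

theorem thm_NEW (hb : BAS) (he : EMB) (ha : ABS) (ho : ORL) (hp : St_PLC) : St_NEW := by
  classical
  intro L P M F g N₀ a hB N X C hM hinf hdec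
  rintro ⟨M', N', j, z, hmd', hue, hzD, hzg, hlo, hhi⟩
  have hok := hB.ok
  have hA : Apx F g N₀ N X C := hM.toApx
  have hmd : Md F.T N := hA.md
  have hvD : F.D N (N.c F.v) := hok.vdd M N hmd
  have hnew : ∀ z₀ ∈ N.A, z ≠ j z₀ := fun z₀ hz₀ =>
    NEW_old he ha ho hok hA hdec hmd' hue hzg hlo hhi hzD z₀ hz₀
  obtain ⟨u, hu⟩ := hzg
  obtain ⟨hcwB, hctB⟩ := ha.lcw hB.ctK hu
  obtain ⟨N₁, h, hmd₁, hue₁, hA₁, his, hhj⟩ :=
    hp L P F.T M M' N N' j (range u) hmd hmd' hinf hue hcwB hctB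
  -- the set `E`
  set E : Set M' := j '' N.A ∪ range u with hE
  have hEA : E ⊆ N'.A := by
    rintro x (⟨y, hy, rfl⟩ | ⟨s, rfl⟩)
    · exact hue.uni y hy
    · exact hu.uni s
  have huE : ∀ s, u s ∈ E := fun s => Or.inr ⟨s, rfl⟩
  have hzE : z ∈ E := by
    have := huE []
    rwa [hu.top] at this
  have hjE : ∀ x ∈ N.A, j x ∈ E := fun x hx => Or.inl ⟨x, hx, rfl⟩
  have hcE : ∀ p, (N'.sub E).c p ∈ (N'.sub E).A := by
    intro p
    have h1 : N'.c p = j (N.c p) := (hue.cst p).symm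
    have h2 : N'.c p ∈ E := by
      rw [h1]
      exact hjE _ (hmd.cst p)
    exact h2
  have hueE : UE (N'.sub E) N₁ h := he.iue his hcE
  -- the new element
  obtain ⟨xp, hxp⟩ : ∃ xp, xp = h z := ⟨_, rfl⟩
  have hlam : F.Lam g N₁ xp (h ∘ u) := by
    rw [hxp]
    exact ha.lam hueE hcE z u (ha.lsb hu hEA huE)
  have hxpA : xp ∉ N.A := by
    intro h1
    have h2 : h (j xp) = h z := by rw [hhj xp h1, hxp]
    have h3 : j xp = z := his.bij.injOn (hjE xp h1) hzE h2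
    exact hnew xp h1 h3.symm
  have hsub : N.A ⊆ N₁.A := by
    rw [hA₁]
    exact subset_union_left
  have hxpA₁ : xp ∈ N₁.A := by
    have := hlam.uni []
    rwa [hlam.top] at this
  have hlt : ∀ x ∈ E, ∀ y ∈ E, (F.Lt N₁ (h x) (h y) ↔ F.Lt N' x y) := fun x hx y hy =>
    ha.isl his hcE x hx y hy
  have hxpD : F.D N₁ xp := by
    rw [hxp]
    exact (ha.isd his hcE z hzE).mpr ((ha.sdd hEA z hzE).mpr hzD)
  have hcv : N₁.c F.v = N.c F.v := (hue₁.cst F.v).symm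
  -- transfer from `N` to `N₁`
  have tD : ∀ x ∈ N.A, (F.D N₁ x ↔ F.D N x) := fun x hx => ha.udd hue₁ x hx
  have tL : ∀ x ∈ N.A, ∀ y ∈ N.A, (F.Lt N₁ x y ↔ F.Lt N x y) :=
    fun x hx y hy => ha.ult hue₁ x hx y hy
  have tC : ∀ x ∈ N.A, ∀ y ∈ N.A, (F.Cl N₁ x y ↔ F.Cl N x y) :=
    fun x hx y hy => ha.ucl hue₁ hmd.cst x hx y hy
  have tLl : ∀ x ∈ N.A, ∀ y ∈ N.A, (F.Ll N₁ x y ↔ F.Ll N x y) := by
    intro x hx y hy
    unfold Fr.Ll
    rw [tL x hx y hy, tC x hx y hy]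
  have tG : ∀ x, F.Good g N x → F.Good g N₁ x := by
    rintro x ⟨w, hw⟩
    exact ⟨id ∘ w, ha.lam hue₁ hmd.cst x w hw⟩
  have tR : ∀ x ∈ N.A, F.Rd g N x → F.Rd g N₁ x := by
    rintro x hx ⟨ρ, b, hρ⟩
    exact ⟨ρ, id ∘ b, ha.has hue₁ x hx ρ b hρ⟩
  -- position of the new element
  have pa : ∀ y, Blw F g N X y → ∀ y', F.D N y' → F.Cl N y y' → F.Lt N₁ y' xp := by
    intro y hy y' hy' hcl
    have h1 := (hlt (j y') (hjE y' hy'.1) z hzE).mpr (hlo y hy y' hy' hcl)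
    rwa [hhj y' hy'.1, ← hxp] at h1
  have pb : ∀ x₁, (x₁ ∈ X ∨ x₁ = N.c F.v) → ∀ x', F.D N x' → F.Cl N x₁ x' → F.Lt N₁ xp x' := by
    intro x₁ hx₁ x' hx' hcl
    have h1 := (hlt z hzE (j x') (hjE x' hx'.1)).mpr (hhi x₁ hx₁ x' hx' hcl)
    rwa [hhj x' hx'.1, ← hxp] at h1
  have hXD : ∀ x ∈ X, F.D N x := fun x hx => (hA.xg x hx).1
  have pb' : ∀ x ∈ X, F.Lt N₁ xp x := fun x hx =>
    pb x (Or.inl hx) x (hXD x hx) (hok.crf M N hmd x (hXD x hx))
  have pbv : F.Lt N₁ xp (N.c F.v) :=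
    pb _ (Or.inr rfl) _ hvD (hok.crf M N hmd _ hvD)
  have hcwA : Cw F.T N₁ N.A := by
    have h1 := he.ucw hue₁ hmd
    rwa [image_id] at h1
  have hcA : ∀ p, N₁.c p ∈ N.A := by
    intro p
    rw [← hue₁.cst p]
    exact hmd.cst p
  have pc : ∀ w ∈ N.A, F.D N w → ¬ F.Cl N₁ w xp := by
    intro w hw hD hcl
    exact hxpA (hok.ab1 M N₁ hmd₁ N.A hcwA hcA w hw ((tD w hw).mpr hD) xp hxpD hcl)
  have pc' : ∀ w ∈ N.A, F.D N w → ¬ F.Cl N₁ xp w := by
    intro w hw hD hcl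
    exact pc w hw hD (hok.csm M N₁ hmd₁ xp w hxpD ((tD w hw).mpr hD) hcl)
  have hCxp : C xp = ∅ := by
    rw [eq_empty_iff_forall_notMem]
    intro t ht
    exact hxpA (NEW_mem (hA.cg xp ⟨t, ht⟩))
  -- the new approximation
  obtain ⟨C₁, hC₁⟩ : ∃ C₁ : M → Set M, C₁ = fun y => if y = xp then range (h ∘ u) else C y :=
    ⟨_, rfl⟩
  have hC₁x : C₁ xp = range (h ∘ u) := by
    rw [hC₁]
    simp
  have hC₁n : ∀ y, y ≠ xp → C₁ y = C y := by
    intro y hy
    rw [hC₁]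
    simp [hy]
  have hC₁s : ∀ s t, t ∈ C s → t ∈ C₁ s := by
    intro s t hst
    by_cases h1 : s = xp
    · rw [h1, hCxp] at hst
      exact absurd hst (notMem_empty t)
    · rw [hC₁n s h1]
      exact hst
  have hrange : h '' range u = range (h ∘ u) := (range_comp h u).symm
  have hapx : Apx F g N₀ N₁ (insert xp X) C₁ := by
    refine ⟨⟨hmd₁, ?_, ?_, ?_, ?_⟩, ?_, ?_, ?_, ?_⟩
    · rintro x (rfl | hx)
      · refine ⟨hxpD, ⟨_, hlam⟩, ?_, ?_⟩
        · rw [hcv]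
          exact pbv
        · rw [hcv]
          exact pc' _ hvD.1 hvD
      · obtain ⟨h1, h2, h3⟩ := hA.xg x hx
        refine ⟨(tD x h1.1).mpr h1, tG x h2, ?_⟩
        rw [hcv]
        exact (tLl x h1.1 _ hvD.1).mpr h3
    · rintro x (rfl | hx) x' (rfl | hx') hcl
      · rfl
      · exact absurd hcl (pc' x' (hXD x' hx').1 (hXD x' hx'))
      · exact absurd hcl (pc x (hXD x hx).1 (hXD x hx))
      · exact hA.xp x hx x' hx' ((tC x (hXD x hx).1 x' (hXD x' hx').1).mp hcl)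
    · intro Y hY hYn
      by_cases h1 : (Y ∩ X).Nonempty
      · obtain ⟨m, hm, hmax⟩ := hA.wo (Y ∩ X) inter_subset_right h1
        refine ⟨m, hm.1, ?_⟩
        intro y hy
        rcases hY hy with rfl | hyX
        · exact Or.inr (pb' m hm.2)
        · rcases hmax y ⟨hy, hyX⟩ with h2 | h2
          · exact Or.inl h2
          · exact Or.inr ((tL y (hXD y hyX).1 m (hXD m hm.2).1).mpr h2)
      · obtain ⟨m, hm⟩ := hYn
        have h2 : ∀ y ∈ Y, y = xp := by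
          intro y hy
          rcases hY hy with rfl | hyX
          · rfl
          · exact absurd ⟨y, hy, hyX⟩ h1
        refine ⟨m, hm, fun y hy => Or.inl ?_⟩
        rw [h2 y hy, h2 m hm]
    · intro x₁ hx₁ z' hz'D hll hllv
      rw [hcv] at hllv
      have hvD₁ : F.D N₁ (N.c F.v) := (tD _ hvD.1).mpr hvD
      by_cases hz' : z' ∈ N.A
      · have hD : F.D N z' := (tD z' hz').mp hz'D
        have hllv' : F.Ll N z' (N.c F.v) := (tLl z' hz' _ hvD.1).mp hllv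
        have hup : ((F.Good g N z' ∧ ∃ x' ∈ X, F.Cl N z' x') ∨ F.Rd g N z') →
            (F.Good g N₁ z' ∧ ∃ x' ∈ insert xp X, F.Cl N₁ z' x') ∨ F.Rd g N₁ z' := by
          rintro (⟨h1, x', hx', h2⟩ | h1)
          · exact Or.inl ⟨tG z' h1, x', Or.inr hx', (tC z' hz' x' (hXD x' hx').1).mpr h2⟩
          · exact Or.inr (tR z' hz' h1)
        rcases hx₁ with rfl | hx₁
        · rcases hdec z' hD hllv' with hg' | hr
          · have hnb : ¬ Blw F g N X z' := by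
              intro hblw
              have h1 := pa z' hblw z' hD (hok.crf M N hmd z' hD)
              exact ho.asy hok hmd₁ _ _ hz'D hxpD h1 hll.1
            have h2 : ∃ x₂ ∈ X, ¬ F.Ll N z' x₂ := by
              by_contra h3
              push Not at h3
              exact hnb ⟨hD, hg', hllv', h3⟩
            obtain ⟨x₂, hx₂, h3⟩ := h2
            apply hup
            rcases ho.tri hok hmd z' x₂ hD (hXD x₂ hx₂) with h4 | h4 | h4
            · exact absurd h4 h3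
            · exact Or.inl ⟨hg', x₂, hx₂, h4⟩
            · exact hA.dc x₂ hx₂ z' hD h4 hllv'
          · exact hup (Or.inr hr)
        · apply hup
          exact hA.dc x₁ hx₁ z' hD ((tLl x₁ (hXD x₁ hx₁).1 z' hz').mp hll) hllv'
      · exfalso
        have hz'r : z' ∈ range (h ∘ u) := by
          have h1 := hz'D.1
          rw [hA₁, hrange] at h1
          exact h1.resolve_left hz'
        have hltv : F.Lt N₁ z' (N₁.c F.v) := by
          rw [hcv]
          exact hllv.1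
        rcases hx₁ with rfl | hx₁
        · exact hll.2 (ha.lbt hlam z' hz'r hz'D hll.1 hltv)
        · have hx₁D := hXD x₁ hx₁
          have hx₁D₁ := (tD x₁ hx₁D.1).mpr hx₁D
          have h1 := pb' x₁ hx₁
          have h2 := hok.trs M N₁ hmd₁ xp x₁ z' hxpD hx₁D₁ hz'D h1 hll.1
          have h3 := ha.lbt hlam z' hz'r hz'D h2 hltv
          exact pc' x₁ hx₁D.1 hx₁D
            (hok.cvx M N₁ hmd₁ xp x₁ z' hxpD hx₁D₁ hz'D h1 hll.1 h3)
    · exact he.uco hA.ue hue₁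
    · intro y
      by_cases h1 : y = xp
      · rw [h1, hC₁x]
        refine ⟨?_, ?_⟩
        · rw [← hrange]
          exact hctB.image h
        · rintro _ ⟨s, rfl⟩
          exact hlam.uni s
      · rw [hC₁n y h1]
        exact ⟨(hA.cc y).1, (hA.cc y).2.trans hsub⟩
    · intro y hy
      by_cases h1 : y = xp
      · rw [h1]
        exact ⟨_, hlam⟩
      · rw [hC₁n y h1] at hy
        exact tG y (hA.cg y hy)
    · intro w hw
      rw [hA₁, hrange] at hw
      rcases hw with hw | hw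
      · obtain ⟨b, hb', hbw⟩ := hA.cr w hw
        refine ⟨b, ?_, Relation.ReflTransGen.mono hC₁s _ _ hbw⟩
        rcases hb' with h1 | h1
        · exact Or.inl h1
        · exact Or.inr (Or.inr h1)
      · refine ⟨xp, Or.inr (Or.inl rfl), Relation.ReflTransGen.single ?_⟩
        rw [hC₁x]
        exact hw
  have hale : Ale F (N, X, C) (N₁, insert xp X, C₁) := by
    refine ⟨hue₁, subset_insert _ _, ?_, ?_⟩
    · rintro x (rfl | hx) hxX x' hx'
      · exact pb' x' hx'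
      · exact absurd hx hxX
    · intro y hy
      apply hC₁n
      rintro rfl
      have h1 : (C y).Nonempty := hy
      rw [hCxp] at h1
      exact not_nonempty_empty h1
  have hmax := hM.mx N₁ (insert xp X) C₁ hapx hale
  exact hxpA (hmax.1 hxpA₁)

end ORD
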