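import Pool.Agent.ORD.QFC

/-!
# ORD [QFD]: quantifier free formulas with free variables of any kind
-/

set_option autoImplicit false
set_option linter.unusedVariables false

namespace ORD

open Set FirstOrder

variable {L : FirstOrder.Language.{0, 0}} {α : Type}

private theorem QFD_b [∀ n, IsEmpty (L.Functions n)] {n : ℕ} {φ : L.BoundedFormula α n}
    (h : φ.IsQF) : ∃ q : Qf L (α ⊕ Fin n), ∀ (M : Type) (S : L.Structure M) (v : α → M)
      (xs : Fin n → M), @Language.BoundedFormula.Realize L M S _ _ φ v xs ↔
        q.Tr S (Sum.elim v xs) := by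
  have ht : ∀ t : L.Term (α ⊕ Fin n), ∃ i : α ⊕ Fin n, t = Language.Term.var i := by
    intro t
    cases t with
    | var x => exact ⟨x, rfl⟩
    | func f ts => exact isEmptyElim f
  induction h with
  | falsum => exact ⟨.bot, fun M S v xs => Iff.rfl⟩
  | of_isAtomic h =>
    cases h with
    | equal t₁ t₂ =>
      obtain ⟨i, rfl⟩ := ht t₁
      obtain ⟨j, rfl⟩ := ht t₂
      refine ⟨.eq i j, fun M S v xs => ?_⟩
      let _ := S
      rw [Language.BoundedFormula.realize_bdEqual]
      exact Iff.rfl
    | rel R ts =>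
      choose i hi using fun k => ht (ts k)
      refine ⟨.rel _ R i, fun M S v xs => ?_⟩
      let _ := S
      rw [Language.BoundedFormula.realize_rel]
      have h1 : (fun k => Language.Term.realize (Sum.elim v xs) (ts k)) =
          fun k => Sum.elim v xs (i k) := by
        funext k
        rw [hi k]
        rfl
      rw [h1]
      exact Iff.rfl
  | imp h1 h2 ih1 ih2 =>
    obtain ⟨q1, h1⟩ := ih1
    obtain ⟨q2, h2⟩ := ih2
    exact ⟨.imp q1 q2, fun M S v xs => imp_congr (h1 M S v xs) (h2 M S v xs)⟩

/-- quantifier free formulas with free variables in `α` -/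
theorem qfd [∀ n, IsEmpty (L.Functions n)] {φ : L.Formula α}
    (h : Language.BoundedFormula.IsQF φ) : ∃ q : Qf L α, ∀ (M : Type) (S : L.Structure M)
      (v : α → M), @Language.Formula.Realize L M S α φ v ↔ q.Tr S v := by
  obtain ⟨q, hq⟩ := QFD_b h
  refine ⟨q.map (Sum.elim id Fin.elim0), fun M S v => ?_⟩
  rw [qfc_tr_map]
  have h1 : v ∘ Sum.elim id Fin.elim0 = Sum.elim v (default : Fin 0 → M) := by
    funext i
    rcases i with i | i
    · rfl
    · exact i.elim0
  rw [h1]
  exact hq M S v _

end ORD
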