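import Pool.Agent.ORD.StF
import Pool.Agent.ORD.BAS
import Pool.Agent.ORD.EMB

/-!
# ORD [RDA]: adding the classes of a preorder of tuples, language and axioms
-/

set_option autoImplicit false
set_option linter.unusedVariables false

namespace ORD

open Set FirstOrder

variable {L : Lg} {P M M' ι κ : Type} {k : ℕ}

/-- the new relations: old elements, membership in classes, order of classes -/
inductive NR (k : ℕ) : ℕ → Type
  | U : NR k 1
  | C : NR k (k + 1)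
  | O : NR k 2

/-- the language with the new relations -/
def Lp (L : Lg) (k : ℕ) : Lg where
  Functions := L.Functions
  Relations n := L.Relations n ⊕ NR k n

def rU (L : Lg) (k : ℕ) : (Lp L k).Relations 1 := Sum.inr NR.U
def rC (L : Lg) (k : ℕ) : (Lp L k).Relations (k + 1) := Sum.inr NR.C
def rO (L : Lg) (k : ℕ) : (Lp L k).Relations 2 := Sum.inr NR.O

/-- old formulas -/
def up (k : ℕ) : Qf L ι → Qf (Lp L k) ι
  | .eq i j => .eq i j
  | .rel n R t => .rel n (Sum.inl R : (Lp L k).Relations n) t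
  | .bot => .bot
  | .imp φ ψ => .imp (up k φ) (up k ψ)

/-- the reduct -/
@[reducible] def red (S : (Lp L k).Structure M) : L.Structure M where
  funMap {n} f v := S.funMap (f : (Lp L k).Functions n) v
  RelMap {n} R v := S.RelMap (Sum.inl R : (Lp L k).Relations n) v

theorem up_tr (S : (Lp L k).Structure M) (v : ι → M) (φ : Qf L ι) :
    (up k φ).Tr S v ↔ φ.Tr (red S) v := by
  induction φ with
  | eq i j => exact Iff.rfl
  | rel n R t => exact Iff.rfl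
  | bot => exact Iff.rfl
  | imp φ ψ h1 h2 => exact imp_congr h1 h2

/-- old elements -/
def Uo (S : (Lp L k).Structure M) (x : M) : Prop := S.RelMap (rU L k) ![x]
/-- `z` is in the class `e` -/
def Co (S : (Lp L k).Structure M) (e : M) (z : Fin k → M) : Prop :=
  S.RelMap (rC L k) (Fin.cons e z : Fin (k + 1) → M)
/-- order of classes -/
def Oo (S : (Lp L k).Structure M) (e e' : M) : Prop := S.RelMap (rO L k) ![e, e']

/-- the substructure of the old elements, without the new relations -/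
def old (N : Mo (Lp L k) P M) : Mo L P M := ⟨red N.S, {x | x ∈ N.A ∧ Uo N.S x}, N.c⟩

/-! ## formulas -/

def qU (x : ι) : Qf (Lp L k) (P ⊕ ι) := .rel 1 (rU L k) ![Sum.inr x]
def qC (e : ι) (z : Fin k → ι) : Qf (Lp L k) (P ⊕ ι) :=
  .rel (k + 1) (rC L k) (Fin.cons (Sum.inr e) fun i => Sum.inr (z i))
def qO (e e' : ι) : Qf (Lp L k) (P ⊕ ι) := .rel 2 (rO L k) ![Sum.inr e, Sum.inr e']
def lf (h : κ → ι) (q : Qf L (P ⊕ κ)) : Qf (Lp L k) (P ⊕ ι) := up k (q.map (Sum.map id h))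

theorem Q_U (N : Mo (Lp L k) P M) (x : ι) (v : ι → M) : N.Q (qU x) v ↔ Uo N.S (v x) := by
  have h : (fun i : Fin 1 => Sum.elim N.c v (![(Sum.inr x : P ⊕ ι)] i)) = ![v x] := by
    funext i
    fin_cases i
    rfl
  show N.S.RelMap (rU L k) (fun i : Fin 1 => Sum.elim N.c v (![(Sum.inr x : P ⊕ ι)] i)) ↔ _
  rw [h]
  rfl

theorem Q_O (N : Mo (Lp L k) P M) (x y : ι) (v : ι → M) :
    N.Q (qO x y) v ↔ Oo N.S (v x) (v y) := by
  have h : (fun i : Fin 2 => Sum.elim N.c v (![(Sum.inr x : P ⊕ ι), Sum.inr y] i))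
      = ![v x, v y] := by
    funext i
    fin_cases i <;> rfl
  show N.S.RelMap (rO L k) (fun i : Fin 2 => Sum.elim N.c v (![(Sum.inr x : P ⊕ ι), Sum.inr y] i))
    ↔ _
  rw [h]
  rfl

theorem Q_C (N : Mo (Lp L k) P M) (e : ι) (z : Fin k → ι) (v : ι → M) :
    N.Q (qC e z) v ↔ Co N.S (v e) fun i => v (z i) := by
  have h : (fun i : Fin (k + 1) => Sum.elim N.c v
      ((Fin.cons (Sum.inr e) fun i => Sum.inr (z i) : Fin (k + 1) → P ⊕ ι) i))
      = (Fin.cons (v e) fun i => v (z i) : Fin (k + 1) → M) := by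
    funext i
    refine Fin.cases rfl (fun _ => rfl) i
  show N.S.RelMap (rC L k) (fun i : Fin (k + 1) => Sum.elim N.c v
      ((Fin.cons (Sum.inr e) fun i => Sum.inr (z i) : Fin (k + 1) → P ⊕ ι) i)) ↔ _
  rw [h]
  rfl

theorem Q_lf (N : Mo (Lp L k) P M) (h : κ → ι) (q : Qf L (P ⊕ κ)) (v : ι → M) :
    N.Q (lf h q) v ↔ (old N).Q q (v ∘ h) := by
  show (up k (q.map (Sum.map id h))).Tr N.S (Sum.elim N.c v) ↔ _
  rw [up_tr, BAS_qmap]
  have h1 : Sum.elim N.c v ∘ Sum.map id h = Sum.elim N.c (v ∘ h) := by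
    funext i
    rcases i with i | i <;> rfl
  rw [h1]
  rfl

variable {L' : Lg}

theorem Q_imp (N : Mo L' P M) (φ ψ : Qf L' (P ⊕ ι)) (v : ι → M) :
    N.Q (φ.imp ψ) v ↔ (N.Q φ v → N.Q ψ v) := Iff.rfl
theorem Q_and (N : Mo L' P M) (φ ψ : Qf L' (P ⊕ ι)) (v : ι → M) :
    N.Q (φ.and ψ) v ↔ (N.Q φ v ∧ N.Q ψ v) := BAS_qand _ _ _ _
theorem Q_or (N : Mo L' P M) (φ ψ : Qf L' (P ⊕ ι)) (v : ι → M) :
    N.Q (φ.or ψ) v ↔ (N.Q φ v ∨ N.Q ψ v) := BAS_qor _ _ _ _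
theorem Q_not (N : Mo L' P M) (φ : Qf L' (P ⊕ ι)) (v : ι → M) :
    N.Q φ.not v ↔ ¬ N.Q φ v := Iff.rfl

/-- conjunction over `Fin n` -/
def qA {n : ℕ} (φ : Fin n → Qf L' ι) : Qf L' ι := Qf.all ((List.finRange n).map φ)

theorem Q_A (N : Mo L' P M) {n : ℕ} (φ : Fin n → Qf L' (P ⊕ ι)) (v : ι → M) :
    N.Q (qA φ) v ↔ ∀ i, N.Q (φ i) v := by
  show (Qf.all _).Tr _ _ ↔ _
  rw [BAS_qall]
  constructor
  · intro h i
    exact h _ (List.mem_map.2 ⟨i, List.mem_finRange i, rfl⟩)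
  · intro h ψ hψ
    obtain ⟨i, _, rfl⟩ := List.mem_map.1 hψ
    exact h i

theorem Q_eq (N : Mo L' P M) (x y : ι) (v : ι → M) :
    N.Q (Qf.eq (Sum.inr x) (Sum.inr y)) v ↔ v x = v y := Iff.rfl

/-- U-formulas from quantifier free formulas with more variables -/
def mkU {m : ℕ} (q : Qf L' (P ⊕ (ι ⊕ Fin m))) : Uf L' (P ⊕ ι) :=
  ⟨m, q.map (Sum.elim (fun p => Sum.inl (Sum.inl p))
    (Sum.elim (fun i => Sum.inl (Sum.inr i)) Sum.inr))⟩

theorem mkU_tr {m : ℕ} (q : Qf L' (P ⊕ (ι ⊕ Fin m))) (N : Mo L' P M) (v : ι → M) :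
    N.Tr (mkU q) v ↔ ∀ z : Fin m → M, (∀ i, z i ∈ N.A) → N.Q q (Sum.elim v z) := by
  have key : ∀ z : Fin m → M, Qf.Tr N.S (Sum.elim (Sum.elim N.c v) z)
      (q.map (Sum.elim (fun p => Sum.inl (Sum.inl p))
        (Sum.elim (fun i => Sum.inl (Sum.inr i)) Sum.inr))) ↔ N.Q q (Sum.elim v z) := by
    intro z
    rw [BAS_qmap]
    have h : Sum.elim (Sum.elim N.c v) z ∘ (Sum.elim (fun p => Sum.inl (Sum.inl p))
        (Sum.elim (fun i => Sum.inl (Sum.inr i)) Sum.inr)) = Sum.elim N.c (Sum.elim v z) := by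
      funext i
      rcases i with i | i | i <;> rfl
    rw [h]
    rfl
  exact forall_congr' fun z => imp_congr Iff.rfl (key z)

/-- the quantifier free part of a U-formula -/
def unU (φ : Uf L' (P ⊕ ι)) : Qf L' (P ⊕ (ι ⊕ Fin φ.m)) :=
  φ.q.map (Sum.elim (Sum.elim Sum.inl fun i => Sum.inr (Sum.inl i)) fun j => Sum.inr (Sum.inr j))

theorem unU_tr (φ : Uf L' (P ⊕ ι)) (N : Mo L' P M) (v : ι → M) :
    N.Tr φ v ↔ ∀ z : Fin φ.m → M, (∀ i, z i ∈ N.A) → N.Q (unU φ) (Sum.elim v z) := by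
  refine forall_congr' fun z => imp_congr Iff.rfl ?_
  show _ ↔ (φ.q.map _).Tr N.S _
  rw [BAS_qmap]
  have h : Sum.elim N.c (Sum.elim v z) ∘ (Sum.elim (Sum.elim Sum.inl fun i =>
      Sum.inr (Sum.inl i)) fun j => Sum.inr (Sum.inr j)) = Sum.elim (Sum.elim N.c v) z := by
    funext i
    rcases i with (i | i) | i <;> rfl
  rw [h]

/-! ## relativised formulas -/

/-- `φ` in the substructure of the old elements -/
def rlz (φ : Uf L (P ⊕ ι)) : Uf (Lp L k) (P ⊕ ι) :=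
  mkU (m := φ.m) ((qA fun j : Fin φ.m => qU (Sum.inr j)).imp (lf id (unU φ)))

theorem rlz_tr (φ : Uf L (P ⊕ ι)) (N : Mo (Lp L k) P M) (v : ι → M) :
    N.Tr (rlz φ) v ↔ (old N).Tr φ v := by
  rw [rlz, mkU_tr, unU_tr]
  constructor
  · intro h z hz
    have h1 := h z fun i => (hz i).1
    rw [Q_imp, Q_A, Q_lf] at h1
    exact h1 fun i => (Q_U N _ _).2 (hz i).2
  · intro h z hz
    rw [Q_imp, Q_A, Q_lf]
    intro h1
    exact h z fun i => ⟨hz i, (Q_U N (Sum.inr i) (Sum.elim v z)).1 (h1 i)⟩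

/-- relativised condition: if `x` is old, then the `y i` are old and `φ` is true in the old part -/
def rla {n : ℕ} (φ : Uf L (P ⊕ Fin (n + 1))) : Uf (Lp L k) (P ⊕ Fin (n + 1)) :=
  mkU (m := φ.m) ((qU (Sum.inl 0)).imp ((qA fun i : Fin n => qU (Sum.inl i.succ)).and
    ((qA fun j : Fin φ.m => qU (Sum.inr j)).imp (lf id (unU φ)))))

theorem rla_tr {n : ℕ} (φ : Uf L (P ⊕ Fin (n + 1))) (N : Mo (Lp L k) P M) (x : M)
    (y : Fin n → M) (hx : x ∈ N.A) : N.Tr (rla φ) (Fin.cons x y : Fin (n + 1) → M) ↔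
    (Uo N.S x → (∀ i, Uo N.S (y i)) ∧ (old N).Tr φ (Fin.cons x y : Fin (n + 1) → M)) := by
  rw [rla, mkU_tr, unU_tr]
  constructor
  · intro h hU
    refine ⟨?_, fun z hz => ?_⟩
    · have h1 := h (fun _ => x) fun i => hx
      rw [Q_imp, Q_and, Q_A] at h1
      intro i
      exact (Q_U N (Sum.inl i.succ) (Sum.elim (Fin.cons x y : Fin (n + 1) → M) fun _ => x)).1
        ((h1 ((Q_U N (Sum.inl 0) _).2 hU)).1 i)
    · have h1 := h z fun i => (hz i).1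
      rw [Q_imp, Q_and, Q_imp, Q_A, Q_A, Q_lf] at h1
      exact (h1 ((Q_U N _ _).2 hU)).2 fun i => (Q_U N _ _).2 (hz i).2
  · intro h z hz
    rw [Q_imp, Q_and, Q_imp, Q_A, Q_A, Q_lf]
    intro hU
    have h1 := h ((Q_U N (Sum.inl 0) (Sum.elim (Fin.cons x y : Fin (n + 1) → M) z)).1 hU)
    exact ⟨fun i => (Q_U N _ _).2 (h1.1 i), fun h2 => h1.2 z fun i =>
      ⟨hz i, (Q_U N (Sum.inr i) (Sum.elim (Fin.cons x y : Fin (n + 1) → M) z)).1 (h2 i)⟩⟩

/-! ## the full system of axioms of a structure -/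

/-- all axioms which are true in `N` -/
def Thy (N : Mo L' P M) : Th L' P where
  K := {x : Σ n : ℕ, Uf L' (P ⊕ Fin (n + 1)) // ∀ a ∈ N.A, ∃ y : Fin x.1 → M,
    (∀ i, y i ∈ N.A) ∧ N.Tr x.2 (Fin.cons a y : Fin (x.1 + 1) → M)}
  n x := x.1.1
  ax x := x.1.2

theorem Thy_md (N : Mo L' P M) (h : N.A.Nonempty) (hc : ∀ p, N.c p ∈ N.A) : Md (Thy N) N :=
  ⟨h, hc, fun x hx κ => κ.2 x hx⟩

theorem Thy_ct (N : Mo L' P M) (hL : ∀ n, Countable (L'.Relations n)) [Countable P] :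
    Countable (Thy N).K := by
  have h : ∀ n, Countable (Uf L' (P ⊕ Fin (n + 1))) := fun n => BAS_ctu hL inferInstance
  exact inferInstanceAs (Countable {x : Σ n : ℕ, Uf L' (P ⊕ Fin (n + 1)) // _})

theorem Thy_ax {N : Mo L' P M} {N' : Mo L' P M'} (h : Md (Thy N) N') (n : ℕ)
    (φ : Uf L' (P ⊕ Fin (n + 1)))
    (hφ : ∀ a ∈ N.A, ∃ y : Fin n → M, (∀ i, y i ∈ N.A) ∧
      N.Tr φ (Fin.cons a y : Fin (n + 1) → M)) :
    ∀ a ∈ N'.A, ∃ y : Fin n → M', (∀ i, y i ∈ N'.A) ∧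
      N'.Tr φ (Fin.cons a y : Fin (n + 1) → M') :=
  fun a ha => h.wit a ha ⟨⟨n, φ⟩, hφ⟩

/-- universal sentences are preserved -/
theorem Thy_un {N : Mo L' P M} {N' : Mo L' P M'} (h : Md (Thy N) N') [Finite ι]
    (q : Qf L' (P ⊕ ι)) (hq : ∀ v : ι → M, (∀ i, v i ∈ N.A) → N.Q q v) :
    ∀ v : ι → M', (∀ i, v i ∈ N'.A) → N'.Q q v := by
  obtain ⟨m, ⟨e⟩⟩ := Finite.exists_equiv_fin ι
  have h0 : ∀ (M : Type) (N : Mo L' P M) (x : M) (z : Fin m → M),
      N.Q (q.map (Sum.map id fun i => Sum.inr (e i) : P ⊕ ι → P ⊕ (Fin 1 ⊕ Fin m)))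
        (Sum.elim (fun _ => x) z) ↔ N.Q q (z ∘ e) := by
    intro M N x z
    show (q.map _).Tr N.S _ ↔ _
    rw [BAS_qmap]
    have h1 : Sum.elim N.c (Sum.elim (fun _ : Fin 1 => x) z) ∘
        (Sum.map id fun i => Sum.inr (e i) : P ⊕ ι → P ⊕ (Fin 1 ⊕ Fin m)) =
        Sum.elim N.c (z ∘ e) := by
      funext i
      rcases i with i | i <;> rfl
    rw [h1]
    rfl
  intro v hv
  obtain ⟨x, hx⟩ := h.ne
  obtain ⟨y, -, hy⟩ := Thy_ax h 0 (mkU (q.map (Sum.map id fun i => Sum.inr (e i)))) (by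
    intro a ha
    refine ⟨Fin.elim0, fun i => i.elim0, ?_⟩
    rw [mkU_tr]
    intro z hz
    have h2 : (Fin.cons a Fin.elim0 : Fin (0 + 1) → M) = fun _ => a := by
      funext i
      exact Fin.cases rfl (fun j => j.elim0) i
    rw [h2]
    exact (h0 M N a z).2 (hq _ fun i => hz _)) x hx
  rw [mkU_tr] at hy
  have h1 := hy (v ∘ e.symm) fun i => hv _
  have h2 : (Fin.cons x y : Fin (0 + 1) → M') = fun _ => x := by
    funext i
    exact Fin.cases rfl (fun j => j.elim0) i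
  rw [h2] at h1
  have h3 := (h0 M' N' x (v ∘ e.symm)).1 h1
  rwa [show (v ∘ e.symm) ∘ e = v from by funext i; simp] at h3

end ORD
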