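import Pool.Agent.ORD.RDA

/-!
# ORD [RDB]: adding the classes of a preorder of tuples, the axioms
-/

set_option autoImplicit false
set_option linter.unusedVariables false

namespace ORD

open Set FirstOrder

variable {L : Lg} {P M M' ι κ : Type} {k : ℕ}

/-- The properties of structures with classes. -/
structure Gp (d : Qf L (P ⊕ Fin k)) (l : Qf L (P ⊕ (Fin k ⊕ Fin k))) (N : Mo (Lp L k) P M) :
    Prop where
  cA : ∀ p, N.c p ∈ N.A
  cU : ∀ p, Uo N.S (N.c p)
  rl : ∀ (n : ℕ) (R : L.Relations n) (t : Fin n → M), (∀ i, t i ∈ N.A) → (red N.S).RelMap R t →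
    ∀ i, Uo N.S (t i)
  c1 : ∀ (e : M) (z : Fin k → M), e ∈ N.A → (∀ i, z i ∈ N.A) → Co N.S e z →
    ¬ Uo N.S e ∧ (∀ i, Uo N.S (z i)) ∧ (old N).Q d z
  c2 : ∀ (e : M) (z z' : Fin k → M), e ∈ N.A → (∀ i, z i ∈ N.A) → (∀ i, z' i ∈ N.A) →
    Co N.S e z → Co N.S e z' → (old N).Q l (Sum.elim z z')
  c3 : ∀ (e : M) (z z' : Fin k → M), e ∈ N.A → (∀ i, z i ∈ N.A) → (∀ i, z' i ∈ N.A) →
    Co N.S e z → (∀ i, Uo N.S (z' i)) → (old N).Q d z' → (old N).Q l (Sum.elim z z') →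
    (old N).Q l (Sum.elim z' z) → Co N.S e z'
  c4 : ∀ (e e' : M) (z : Fin k → M), e ∈ N.A → e' ∈ N.A → (∀ i, z i ∈ N.A) → Co N.S e z →
    Co N.S e' z → e = e'
  o1 : ∀ e e' : M, e ∈ N.A → e' ∈ N.A → Oo N.S e e' → ¬ Uo N.S e ∧ ¬ Uo N.S e'
  o2 : ∀ (e e' : M) (z z' : Fin k → M), e ∈ N.A → e' ∈ N.A → (∀ i, z i ∈ N.A) →
    (∀ i, z' i ∈ N.A) → Co N.S e z → Co N.S e' z' → (Oo N.S e e' ↔ ¬ (old N).Q l (Sum.elim z' z))
  e1 : ∀ e ∈ N.A, ¬ Uo N.S e → ∃ z : Fin k → M, (∀ i, z i ∈ N.A) ∧ Co N.S e z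

/-- bounded fibres -/
def Bf {k : ℕ} (n : ℕ) (d : Qf L (P ⊕ Fin (k + 1))) (N : Mo (Lp L (k + 1)) P M) : Prop :=
  ∀ x ∈ N.A, ∃ e : Fin n → M, (∀ i, e i ∈ N.A) ∧ ∀ z : Fin (k + 1) → M, (∀ i, z i ∈ N.A) →
    (∀ i, Uo N.S (z i)) → (old N).Q d z → z 0 = x → ∃ i, Co N.S (e i) z

theorem Gp_tr {d : Qf L (P ⊕ Fin k)} {l : Qf L (P ⊕ (Fin k ⊕ Fin k))} {N : Mo (Lp L k) P M}
    {N' : Mo (Lp L k) P M'} (h : Gp d l N) (hN : Md (Thy N) N') : Gp d l N' where
  cA := hN.cst
  cU := by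
    intro p
    -- a universal sentence with the constant `p`
    have h1 : ∀ (M : Type) (N : Mo (Lp L k) P M) (v : Fin 0 → M),
        N.Q (Qf.rel 1 (rU L k) ![(Sum.inl p : P ⊕ Fin 0)]) v ↔ Uo N.S (N.c p) := by
      intro M N v
      have h : (fun i : Fin 1 => Sum.elim N.c v (![(Sum.inl p : P ⊕ Fin 0)] i)) = ![N.c p] := by
        funext i
        fin_cases i
        rfl
      show N.S.RelMap (rU L k) (fun i : Fin 1 => Sum.elim N.c v (![(Sum.inl p : P ⊕ Fin 0)] i)) ↔ _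
      rw [h]
      rfl
    exact (h1 M' N' Fin.elim0).1 (Thy_un hN _ (fun v _ => (h1 M N v).2 (h.cU p)) Fin.elim0
      fun i => i.elim0)
  rl := by
    intro n R t ht hR i
    have h1 := Thy_un hN ((Qf.rel n (Sum.inl R : (Lp L k).Relations n)
      fun j : Fin n => (Sum.inr j : P ⊕ Fin n)).imp (qU i)) (by
        intro v hv
        rw [Q_imp, Q_U]
        intro h2
        exact h.rl n R v hv h2 i) t ht
    rw [Q_imp, Q_U] at h1
    exact h1 hR
  c1 := by
    intro e z he hz hC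
    have h1 := Thy_un hN ((qC (P := P) (L := L) (Sum.inl () : Unit ⊕ Fin k) Sum.inr).imp
      ((qU (Sum.inl ())).not.and ((qA fun i : Fin k => qU (Sum.inr i)).and (lf Sum.inr d)))) (by
        intro v hv
        rw [Q_imp, Q_C, Q_and, Q_not, Q_U, Q_and, Q_A, Q_lf]
        intro h2
        have h3 := h.c1 _ _ (hv _) (fun i => hv _) h2
        exact ⟨h3.1, fun i => (Q_U N _ _).2 (h3.2.1 i), h3.2.2⟩) (Sum.elim (fun _ => e) z) (by
          rintro (i | i)
          · exact he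
          · exact hz i)
    rw [Q_imp, Q_C, Q_and, Q_not, Q_U, Q_and, Q_A, Q_lf] at h1
    have h2 := h1 hC
    exact ⟨h2.1, fun i => (Q_U N' (Sum.inr i) (Sum.elim (fun _ => e) z)).1 (h2.2.1 i), h2.2.2⟩
  c2 := by
    intro e z z' he hz hz' hC hC'
    have h1 := Thy_un hN ((qC (P := P) (L := L) (Sum.inl () : Unit ⊕ (Fin k ⊕ Fin k))
      (fun i => Sum.inr (Sum.inl i))).imp ((qC (Sum.inl ()) (fun i => Sum.inr (Sum.inr i))).imp
        (lf Sum.inr l))) (by
        intro v hv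
        rw [Q_imp, Q_imp, Q_C, Q_C, Q_lf]
        intro h2 h3
        have h4 := h.c2 _ _ _ (hv _) (fun i => hv _) (fun i => hv _) h2 h3
        have h5 : v ∘ Sum.inr = Sum.elim (fun i => v (Sum.inr (Sum.inl i)))
            (fun i => v (Sum.inr (Sum.inr i))) := by
          funext i
          rcases i with i | i <;> rfl
        rw [h5]
        exact h4) (Sum.elim (fun _ => e) (Sum.elim z z')) (by
          rintro (i | i | i)
          · exact he
          · exact hz i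
          · exact hz' i)
    rw [Q_imp, Q_imp, Q_C, Q_C, Q_lf] at h1
    exact h1 hC hC'
  c3 := by
    intro e z z' he hz hz' hC hU hd hl1 hl2
    have h1 := Thy_un hN ((qC (P := P) (L := L) (Sum.inl () : Unit ⊕ (Fin k ⊕ Fin k))
      (fun i => Sum.inr (Sum.inl i))).imp ((qA fun i : Fin k => qU (Sum.inr (Sum.inr i))).imp
        ((lf (fun i => Sum.inr (Sum.inr i)) d).imp ((lf Sum.inr l).imp
          ((lf (fun i => Sum.inr (Sum.swap i)) l).imp
            (qC (Sum.inl ()) (fun i => Sum.inr (Sum.inr i)))))))) (by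
        intro v hv
        rw [Q_imp, Q_imp, Q_imp, Q_imp, Q_imp, Q_C, Q_C, Q_A, Q_lf, Q_lf, Q_lf]
        intro h2 h3 h4 h5 h6
        have h7 : v ∘ Sum.inr = Sum.elim (fun i => v (Sum.inr (Sum.inl i)))
            (fun i => v (Sum.inr (Sum.inr i))) := by
          funext i
          rcases i with i | i <;> rfl
        have h8 : (v ∘ fun i : Fin k ⊕ Fin k => Sum.inr (Sum.swap i)) =
            Sum.elim (fun i => v (Sum.inr (Sum.inr i))) (fun i => v (Sum.inr (Sum.inl i))) := by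
          funext i
          rcases i with i | i <;> rfl
        rw [h7] at h5
        rw [h8] at h6
        exact h.c3 _ _ _ (hv _) (fun i => hv _) (fun i => hv _) h2
          (fun i => (Q_U N _ _).1 (h3 i)) h4 h5 h6)
      (Sum.elim (fun _ => e) (Sum.elim z z')) (by
          rintro (i | i | i)
          · exact he
          · exact hz i
          · exact hz' i)
    rw [Q_imp, Q_imp, Q_imp, Q_imp, Q_imp, Q_C, Q_C, Q_A, Q_lf, Q_lf, Q_lf] at h1
    have h8 : (Sum.elim (fun _ => e) (Sum.elim z z') ∘ fun i : Fin k ⊕ Fin k =>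
        (Sum.inr (Sum.swap i) : Unit ⊕ (Fin k ⊕ Fin k))) = Sum.elim z' z := by
      funext i
      rcases i with i | i <;> rfl
    rw [h8] at h1
    exact h1 hC (fun i => (Q_U N' _ _).2 (hU i)) hd hl1 hl2
  c4 := by
    intro e e' z he he' hz hC hC'
    have h1 := Thy_un hN ((qC (P := P) (L := L) (Sum.inl 0 : Fin 2 ⊕ Fin k) Sum.inr).imp
      ((qC (Sum.inl 1) Sum.inr).imp (Qf.eq (Sum.inr (Sum.inl 0)) (Sum.inr (Sum.inl 1))))) (by
        intro v hv
        rw [Q_imp, Q_imp, Q_C, Q_C, Q_eq]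
        intro h2 h3
        exact h.c4 _ _ _ (hv _) (hv _) (fun i => hv _) h2 h3) (Sum.elim ![e, e'] z) (by
          rintro (i | i)
          · fin_cases i
            · exact he
            · exact he'
          · exact hz i)
    rw [Q_imp, Q_imp, Q_C, Q_C, Q_eq] at h1
    exact h1 hC hC'
  o1 := by
    intro e e' he he' hO
    have h1 := Thy_un hN ((qO (P := P) (L := L) (k := k) (0 : Fin 2) 1).imp
      ((qU 0).not.and (qU 1).not)) (by
        intro v hv
        rw [Q_imp, Q_O, Q_and, Q_not, Q_not, Q_U, Q_U]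
        exact h.o1 _ _ (hv _) (hv _)) ![e, e'] (by
          intro i
          fin_cases i
          · exact he
          · exact he')
    rw [Q_imp, Q_O, Q_and, Q_not, Q_not, Q_U, Q_U] at h1
    exact h1 hO
  o2 := by
    intro e e' z z' he he' hz hz' hC hC'
    have h1 := Thy_un hN ((qC (P := P) (L := L) (Sum.inl 0 : Fin 2 ⊕ (Fin k ⊕ Fin k))
      (fun i => Sum.inr (Sum.inl i))).imp ((qC (Sum.inl 1) (fun i => Sum.inr (Sum.inr i))).imp
        (((qO (Sum.inl 0) (Sum.inl 1)).imp (lf (fun i => Sum.inr (Sum.swap i)) l).not).and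
        ((lf (fun i => Sum.inr (Sum.swap i)) l).not.imp (qO (Sum.inl 0) (Sum.inl 1)))))) (by
        intro v hv
        rw [Q_imp, Q_imp, Q_C, Q_C, Q_and, Q_imp, Q_imp, Q_not, Q_O, Q_lf]
        intro h2 h3
        have h8 : (v ∘ fun i : Fin k ⊕ Fin k => (Sum.inr (Sum.swap i) : Fin 2 ⊕ (Fin k ⊕ Fin k))) =
            Sum.elim (fun i => v (Sum.inr (Sum.inr i))) (fun i => v (Sum.inr (Sum.inl i))) := by
          funext i
          rcases i with i | i <;> rfl
        rw [h8]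
        have h4 := h.o2 _ _ _ _ (hv _) (hv _) (fun i => hv _) (fun i => hv _) h2 h3
        exact ⟨h4.1, h4.2⟩) (Sum.elim ![e, e'] (Sum.elim z z')) (by
          rintro (i | i | i)
          · fin_cases i
            · exact he
            · exact he'
          · exact hz i
          · exact hz' i)
    rw [Q_imp, Q_imp, Q_C, Q_C, Q_and, Q_imp, Q_imp, Q_not, Q_O, Q_lf] at h1
    have h8 : (Sum.elim ![e, e'] (Sum.elim z z') ∘ fun i : Fin k ⊕ Fin k =>
        (Sum.inr (Sum.swap i) : Fin 2 ⊕ (Fin k ⊕ Fin k))) = Sum.elim z' z := by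
      funext i
      rcases i with i | i <;> rfl
    rw [h8] at h1
    have h2 := h1 hC hC'
    exact ⟨h2.1, h2.2⟩
  e1 := by
    intro e he hU
    obtain ⟨y, hy, h1⟩ := Thy_ax hN k (mkU (m := 0) ((qU (Sum.inl 0)).or
      (qC (Sum.inl 0) fun i => Sum.inl i.succ))) (by
        intro a ha
        by_cases hUa : Uo N.S a
        · refine ⟨fun _ => a, fun _ => ha, ?_⟩
          rw [mkU_tr]
          intro z hz
          rw [Q_or, Q_U]
          exact Or.inl hUa
        · obtain ⟨z, hz, hC⟩ := h.e1 a ha hUa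
          refine ⟨z, hz, ?_⟩
          rw [mkU_tr]
          intro z' hz'
          rw [Q_or, Q_C]
          exact Or.inr hC) e he
    rw [mkU_tr] at h1
    have h2 := h1 Fin.elim0 fun i => i.elim0
    rw [Q_or, Q_U, Q_C] at h2
    exact ⟨y, hy, h2.resolve_left hU⟩

theorem Bf_tr {n : ℕ} {d : Qf L (P ⊕ Fin (k + 1))} {N : Mo (Lp L (k + 1)) P M}
    {N' : Mo (Lp L (k + 1)) P M'} (h : Bf n d N) (hN : Md (Thy N) N') : Bf n d N' := by
  intro x hx
  obtain ⟨y, hy, h1⟩ := Thy_ax hN n (mkU (m := k + 1)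
    ((qA fun i : Fin (k + 1) => qU (Sum.inr i)).imp ((lf Sum.inr d).imp
      ((Qf.eq (Sum.inr (Sum.inr 0)) (Sum.inr (Sum.inl 0))).imp
        (qA fun i : Fin n => (qC (Sum.inl i.succ) Sum.inr).not).not)))) (by
      intro a ha
      obtain ⟨e, he, h2⟩ := h a ha
      refine ⟨e, he, ?_⟩
      rw [mkU_tr]
      intro z hz
      rw [Q_imp, Q_imp, Q_imp, Q_A, Q_lf, Q_eq, Q_not, Q_A]
      intro h3 h4 h5 h6
      obtain ⟨i, hi⟩ := h2 z hz
        (fun i => (Q_U N (Sum.inr i) (Sum.elim (Fin.cons a e : Fin (n + 1) → M) z)).1 (h3 i)) h4 h5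
      exact h6 i ((Q_C N _ _ _).2 hi)) x hx
  refine ⟨y, hy, fun z hz hU hd h0 => ?_⟩
  rw [mkU_tr] at h1
  have h2 := h1 z hz
  rw [Q_imp, Q_imp, Q_imp, Q_A, Q_lf, Q_eq, Q_not, Q_A] at h2
  by_contra hcon
  refine h2 (fun i => (Q_U N' _ _).2 (hU i)) hd h0 fun i => ?_
  rw [Q_not, Q_C]
  exact fun h3 => hcon ⟨i, h3⟩

/-- the old part of a model of the theory of `N` is a model of `T` -/
theorem Md_tr {T : Th L P} {N : Mo (Lp L k) P M} {N' : Mo (Lp L k) P M'} (h : Md T (old N))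
    (hg : ∀ p, Uo N'.S (N'.c p)) (hN : Md (Thy N) N')
    (hne : ∃ x ∈ N'.A, Uo N'.S x) : Md T (old N') where
  ne := by
    obtain ⟨x, h1, h2⟩ := hne
    exact ⟨x, h1, h2⟩
  cst := fun p => ⟨hN.cst p, hg p⟩
  wit := by
    intro x hx κ
    obtain ⟨y, hy, h1⟩ := Thy_ax hN (T.n κ) (rla (T.ax κ)) (by
      intro a ha
      by_cases hUa : Uo N.S a
      · obtain ⟨y, hy, h2⟩ := h.wit a ⟨ha, hUa⟩ κ
        refine ⟨y, fun i => (hy i).1, ?_⟩
        rw [rla_tr _ _ _ _ ha]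
        exact fun _ => ⟨fun i => (hy i).2, h2⟩
      · refine ⟨fun _ => a, fun _ => ha, ?_⟩
        rw [rla_tr _ _ _ _ ha]
        exact fun h3 => absurd h3 hUa) x hx.1
    rw [rla_tr _ _ _ _ hx.1] at h1
    have h2 := h1 hx.2
    exact ⟨y, fun i => ⟨hy i, h2.1 i⟩, h2.2⟩

end ORD
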