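import Pool.Agent.ORD.RDB

/-!
# ORD [RDC]: extension of isomorphisms to the classes
-/

set_option autoImplicit false
set_option linter.unusedVariables false

namespace ORD

open Set FirstOrder

variable {L : Lg} {P M : Type} {k : ℕ}

theorem RDC_ext (hE : EMB) {d : Qf L (P ⊕ Fin (k + 1))}
    {l : Qf L (P ⊕ (Fin (k + 1) ⊕ Fin (k + 1)))} {N : Mo (Lp L (k + 1)) P M} {n : ℕ} {X X' : Set M}
    (hX : Gp d l (N.sub X)) (hX' : Gp d l (N.sub X')) (hB : Bf n d (N.sub X))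
    (hB' : Bf n d (N.sub X')) {h : M → M}
    (h1 : BijOn h {x | x ∈ X ∧ Uo N.S x} {x | x ∈ X' ∧ Uo N.S x})
    (h2 : ∀ p, h (N.c p) = N.c p)
    (h3 : ∀ (m : ℕ) (R : L.Relations m) (t : Fin m → M), (∀ i, t i ∈ X ∧ Uo N.S (t i)) →
      ((red N.S).RelMap R t ↔ (red N.S).RelMap R (h ∘ t))) :
    ∃ g : M → M, BijOn g X X' ∧ (∀ x ∈ X, Uo N.S x → g x = h x) ∧
      (∀ (m : ℕ) (R : (Lp L (k + 1)).Relations m) (t : Fin m → M), (∀ i, t i ∈ X) →
        (N.S.RelMap R t ↔ N.S.RelMap R (g ∘ t))) ∧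
      ∀ e ∈ X, e ∈ X' → ∀ z : Fin (k + 1) → M, (∀ i, z i ∈ X) → (∀ i, z i ∈ X') →
        Co N.S e z → (∀ i, h (z i) = z i) → g e = e := by
  classical
  have hI : Is (old (N.sub X)) (old (N.sub X')) h := ⟨h1, h2, h3⟩
  have hc : ∀ p, (old (N.sub X)).c p ∈ (old (N.sub X)).A := fun p => ⟨hX.cA p, hX.cU p⟩
  have hd : ∀ z : Fin (k + 1) → M, (∀ i, z i ∈ X ∧ Uo N.S (z i)) →
      ((old N).Q d z ↔ (old N).Q d (h ∘ z)) := fun z hz => hE.isq hI hc d z hz
  have hl : ∀ z z' : Fin (k + 1) → M, (∀ i, z i ∈ X ∧ Uo N.S (z i)) →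
      (∀ i, z' i ∈ X ∧ Uo N.S (z' i)) →
      ((old N).Q l (Sum.elim z z') ↔ (old N).Q l (Sum.elim (h ∘ z) (h ∘ z'))) := by
    intro z z' hz hz'
    have h4 := hE.isq hI hc l (Sum.elim z z') (by
      rintro (i | i)
      · exact hz i
      · exact hz' i)
    rw [show h ∘ Sum.elim z z' = Sum.elim (h ∘ z) (h ∘ z') from by
      funext i
      rcases i with i | i <;> rfl] at h4
    exact h4
  have hm : ∀ z : Fin (k + 1) → M, (∀ i, z i ∈ X) → (∀ i, Uo N.S (z i)) →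
      (∀ i, (h ∘ z) i ∈ X') ∧ ∀ i, Uo N.S ((h ∘ z) i) := fun z hz hU =>
    ⟨fun i => (h1.mapsTo ⟨hz i, hU i⟩).1, fun i => (h1.mapsTo ⟨hz i, hU i⟩).2⟩
  -- corresponding classes
  let Rl : M → M → Prop := fun e e' => ∃ z : Fin (k + 1) → M, (∀ i, z i ∈ X) ∧ Co N.S e z ∧
    Co N.S e' (h ∘ z)
  have hA : ∀ e ∈ X, ¬ Uo N.S e → ∃ e', e' ∈ X' ∧ Rl e e' := by
    intro e he hU
    obtain ⟨z, hz, hC⟩ := hX.e1 e he hU
    obtain ⟨-, h5, h6⟩ := hX.c1 e z he hz hC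
    obtain ⟨h7, h8⟩ := hm z hz h5
    obtain ⟨e', he', h9⟩ := hB' ((h ∘ z) 0) (h7 0)
    obtain ⟨i, hi⟩ := h9 (h ∘ z) h7 h8 ((hd z fun i => ⟨hz i, h5 i⟩).1 h6) rfl
    exact ⟨e' i, he' i, z, hz, hC, hi⟩
  have hBB : ∀ e ∈ X, ∀ e' ∈ X', Rl e e' → ∀ z : Fin (k + 1) → M, (∀ i, z i ∈ X) →
      Co N.S e z → Co N.S e' (h ∘ z) := by
    rintro e he e' he' ⟨z1, hz1, hC1, hC1'⟩ z hz hC
    obtain ⟨-, h5, h6⟩ := hX.c1 e z he hz hC
    obtain ⟨-, h5', h6'⟩ := hX.c1 e z1 he hz1 hC1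
    have h7 := hX.c2 e z1 z he hz1 hz hC1 hC
    have h8 := hX.c2 e z z1 he hz hz1 hC hC1
    refine hX'.c3 e' (h ∘ z1) (h ∘ z) he' (hm z1 hz1 h5').1 (hm z hz h5).1 hC1' (hm z hz h5).2
      ((hd z fun i => ⟨hz i, h5 i⟩).1 h6) ?_ ?_
    · exact (hl z1 z (fun i => ⟨hz1 i, h5' i⟩) fun i => ⟨hz i, h5 i⟩).1 h7
    · exact (hl z z1 (fun i => ⟨hz i, h5 i⟩) fun i => ⟨hz1 i, h5' i⟩).1 h8
  have hBB' : ∀ e ∈ X, ∀ e' ∈ X', Rl e e' → ∀ z : Fin (k + 1) → M, (∀ i, z i ∈ X) →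
      (∀ i, Uo N.S (z i)) → Co N.S e' (h ∘ z) → Co N.S e z := by
    rintro e he e' he' ⟨z1, hz1, hC1, hC1'⟩ z hz h5 hC
    obtain ⟨-, h5', h6'⟩ := hX.c1 e z1 he hz1 hC1
    have h9 := (hX'.c1 e' (h ∘ z) he' (hm z hz h5).1 hC).2.2
    have h7 := hX'.c2 e' (h ∘ z1) (h ∘ z) he' (hm z1 hz1 h5').1 (hm z hz h5).1 hC1' hC
    have h8 := hX'.c2 e' (h ∘ z) (h ∘ z1) he' (hm z hz h5).1 (hm z1 hz1 h5').1 hC hC1'
    refine hX.c3 e z1 z he hz1 hz hC1 h5 ((hd z fun i => ⟨hz i, h5 i⟩).2 h9) ?_ ?_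
    · exact (hl z1 z (fun i => ⟨hz1 i, h5' i⟩) fun i => ⟨hz i, h5 i⟩).2 h7
    · exact (hl z z1 (fun i => ⟨hz i, h5 i⟩) fun i => ⟨hz1 i, h5' i⟩).2 h8
  -- the map
  let g : M → M := fun x => if Uo N.S x then h x else if hx : ∃ e', e' ∈ X' ∧ Rl x e' then
    Classical.choose hx else x
  have gU : ∀ x, Uo N.S x → g x = h x := fun x hx => if_pos hx
  have gN : ∀ x ∈ X, ¬ Uo N.S x → g x ∈ X' ∧ Rl x (g x) := by
    intro x hx hU
    have h4 : g x = Classical.choose (hA x hx hU) := by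
      simp only [g, if_neg hU, dif_pos (hA x hx hU)]
    rw [h4]
    exact Classical.choose_spec (hA x hx hU)
  have gX : ∀ x ∈ X, g x ∈ X' := by
    intro x hx
    by_cases hU : Uo N.S x
    · rw [gU x hU]
      exact (h1.mapsTo ⟨hx, hU⟩).1
    · exact (gN x hx hU).1
  have gUU : ∀ x ∈ X, (Uo N.S (g x) ↔ Uo N.S x) := by
    intro x hx
    by_cases hU : Uo N.S x
    · rw [gU x hU]
      exact ⟨fun _ => hU, fun _ => (h1.mapsTo ⟨hx, hU⟩).2⟩
    · obtain ⟨h4, z, hz, hC, hC'⟩ := gN x hx hU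
      refine ⟨fun h5 => ?_, fun h5 => absurd h5 hU⟩
      obtain ⟨-, h6, -⟩ := hX.c1 x z hx hz hC
      exact absurd h5 (hX'.c1 _ _ h4 (hm z hz h6).1 hC').1
  have gC : ∀ e ∈ X, ∀ z : Fin (k + 1) → M, (∀ i, z i ∈ X) →
      (Co N.S e z ↔ Co N.S (g e) (g ∘ z)) := by
    intro e he z hz
    constructor
    · intro hC
      obtain ⟨hU, h5, -⟩ := hX.c1 e z he hz hC
      obtain ⟨h6, h7⟩ := gN e he hU
      rw [show g ∘ z = h ∘ z from funext fun i => gU _ (h5 i)]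
      exact hBB e he (g e) h6 h7 z hz hC
    · intro hC
      obtain ⟨hU, h5, -⟩ := hX'.c1 (g e) (g ∘ z) (gX e he) (fun i => gX _ (hz i)) hC
      have hU' : ¬ Uo N.S e := fun h4 => hU ((gUU e he).2 h4)
      have h5' : ∀ i, Uo N.S (z i) := fun i => (gUU _ (hz i)).1 (h5 i)
      obtain ⟨h6, h7⟩ := gN e he hU'
      rw [show g ∘ z = h ∘ z from funext fun i => gU _ (h5' i)] at hC
      exact hBB' e he (g e) h6 h7 z hz h5' hC
  refine ⟨g, ⟨gX, ?_, ?_⟩, fun x _ hU => gU x hU, ?_, ?_⟩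
  · intro x hx y hy hxy
    by_cases hU : Uo N.S x
    · have hV : Uo N.S y := (gUU y hy).1 (hxy ▸ (gUU x hx).2 hU)
      rw [gU x hU, gU y hV] at hxy
      exact h1.injOn ⟨hx, hU⟩ ⟨hy, hV⟩ hxy
    · have hV : ¬ Uo N.S y := fun h4 => hU ((gUU x hx).1 (hxy ▸ (gUU y hy).2 h4))
      obtain ⟨h4, z, hz, hC, hC'⟩ := gN x hx hU
      obtain ⟨h5, h6⟩ := gN y hy hV
      rw [hxy] at hC'
      have h7 := (hX.c1 x z hx hz hC).2.1
      exact hX.c4 x y z hx hy hz hC (hBB' y hy (g y) h5 h6 z hz h7 hC')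
  · intro y hy
    by_cases hU : Uo N.S y
    · obtain ⟨x, hx, hxy⟩ := h1.surjOn ⟨hy, hU⟩
      exact ⟨x, hx.1, (gU x hx.2).trans hxy⟩
    · obtain ⟨z', hz', hC'⟩ := hX'.e1 y hy hU
      obtain ⟨-, h5, h6⟩ := hX'.c1 y z' hy hz' hC'
      have h7 : ∀ i, ∃ x, (x ∈ X ∧ Uo N.S x) ∧ h x = z' i := fun i =>
        h1.surjOn ⟨hz' i, h5 i⟩
      choose z hz hzz using h7
      have h8 : h ∘ z = z' := funext hzz
      subst h8
      obtain ⟨e, he, h9⟩ := hB (z 0) (hz 0).1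
      obtain ⟨i, hi⟩ := h9 z (fun i => (hz i).1) (fun i => (hz i).2) ((hd z hz).2 h6) rfl
      refine ⟨e i, he i, ?_⟩
      have h10 : ¬ Uo N.S (e i) := (hX.c1 _ _ (he i) (fun i => (hz i).1) hi).1
      obtain ⟨h11, h12⟩ := gN (e i) (he i) h10
      exact hX'.c4 _ _ (h ∘ z) h11 hy (fun i => hz' i)
        (hBB (e i) (he i) _ h11 h12 z (fun i => (hz i).1) hi) hC'
  · intro m R t ht
    rcases R with R | R
    · by_cases hU : ∀ i, Uo N.S (t i)
      · rw [show g ∘ t = h ∘ t from funext fun i => gU _ (hU i)]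
        exact h3 m R t fun i => ⟨ht i, hU i⟩
      · constructor
        · intro h4
          exact absurd (hX.rl m R t ht h4) hU
        · intro h4
          have h5 := hX'.rl m R (g ∘ t) (fun i => gX _ (ht i)) h4
          exact absurd (fun i => (gUU _ (ht i)).1 (h5 i)) hU
    · cases R with
      | U =>
        have h4 : t = ![t 0] := by
          funext i
          fin_cases i
          rfl
        have h5 : g ∘ t = ![g (t 0)] := by
          funext i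
          fin_cases i
          rfl
        rw [h5]
        rw [h4]
        exact (gUU (t 0) (ht 0)).symm
      | C =>
        have h4 : t = Fin.cons (t 0) (Fin.tail t) := (Fin.cons_self_tail t).symm
        have h5 : g ∘ t = Fin.cons (g (t 0)) (g ∘ Fin.tail t) := by
          funext i
          refine Fin.cases rfl (fun j => rfl) i
        rw [h5]
        rw [h4]
        exact gC (t 0) (ht 0) (Fin.tail t) fun i => ht i.succ
      | O =>
        have h4 : t = ![t 0, t 1] := by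
          funext i
          fin_cases i <;> rfl
        have h5 : g ∘ t = ![g (t 0), g (t 1)] := by
          funext i
          fin_cases i <;> rfl
        rw [h5]
        rw [h4]
        show Oo N.S (t 0) (t 1) ↔ Oo N.S (g (t 0)) (g (t 1))
        by_cases hU : Uo N.S (t 0) ∨ Uo N.S (t 1)
        · constructor
          · intro h6
            have h7 := hX.o1 _ _ (ht 0) (ht 1) h6
            exact (hU.elim h7.1 h7.2).elim
          · intro h6
            have h7 := hX'.o1 _ _ (gX _ (ht 0)) (gX _ (ht 1)) h6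
            exact (hU.elim (fun h8 => h7.1 ((gUU _ (ht 0)).2 h8))
              (fun h8 => h7.2 ((gUU _ (ht 1)).2 h8))).elim
        · push Not at hU
          obtain ⟨z, hz, hC⟩ := hX.e1 _ (ht 0) hU.1
          obtain ⟨z', hz', hC'⟩ := hX.e1 _ (ht 1) hU.2
          have hz5 := (hX.c1 _ _ (ht 0) hz hC).2.1
          have hz5' := (hX.c1 _ _ (ht 1) hz' hC').2.1
          have h6 := hX.o2 _ _ z z' (ht 0) (ht 1) hz hz' hC hC'
          have h7 := hX'.o2 _ _ (g ∘ z) (g ∘ z') (gX _ (ht 0)) (gX _ (ht 1))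
            (fun i => gX _ (hz i)) (fun i => gX _ (hz' i)) ((gC _ (ht 0) z hz).1 hC)
            ((gC _ (ht 1) z' hz').1 hC')
          have h8 := hl z' z (fun i => ⟨hz' i, hz5' i⟩) fun i => ⟨hz i, hz5 i⟩
          rw [show g ∘ z = h ∘ z from funext fun i => gU _ (hz5 i),
            show g ∘ z' = h ∘ z' from funext fun i => gU _ (hz5' i)] at h7
          exact h6.trans ((not_congr h8).trans h7.symm)
  · intro e he he' z hz hz' hC hhz
    obtain ⟨hU, h5, -⟩ := hX.c1 e z he hz hC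
    obtain ⟨h6, h7⟩ := gN e he hU
    have h8 := hBB e he (g e) h6 h7 z hz hC
    rw [show h ∘ z = z from funext hhz] at h8
    exact hX'.c4 _ _ z h6 he' hz' h8 hC

end ORD
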