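import Pool.Agent.ORD.RDC

/-!
# ORD [RDD]: the case of bounded fibres
-/

set_option autoImplicit false
set_option linter.unusedVariables false

namespace ORD

open Set FirstOrder

variable {L : Lg} {P M Q : Type} {k : ℕ}

/-- the new relations in the structure with classes -/
def NRel (N : Mo L P M) (d : Qf L (P ⊕ Fin k)) (l : Qf L (P ⊕ (Fin k ⊕ Fin k)))
    (π : (Fin k → M) → Q) : ∀ {n : ℕ}, NR k n → (Fin n → M ⊕ Q) → Prop
  | _, .U, t => ∃ x, t 0 = Sum.inl x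
  | _, .C, t => ∃ z : Fin k → M, N.Q d z ∧
      t = (Fin.cons (Sum.inr (π z)) (fun i => Sum.inl (z i)) : Fin (k + 1) → M ⊕ Q)
  | _, .O, t => ∃ z z' : Fin k → M, N.Q d z ∧ N.Q d z' ∧ ¬ N.Q l (Sum.elim z' z) ∧
      t 0 = Sum.inr (π z) ∧ t 1 = Sum.inr (π z')

/-- the structure with classes -/
def plus [∀ n, IsEmpty (L.Functions n)] (N : Mo L P M) (d : Qf L (P ⊕ Fin k))
    (l : Qf L (P ⊕ (Fin k ⊕ Fin k))) (π : (Fin k → M) → Q) : Mo (Lp L k) P (M ⊕ Q) where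
  S :=
    { funMap := fun {n} f _ => isEmptyElim (show L.Functions n from f)
      RelMap := fun {n} R t => Sum.elim
        (fun R : L.Relations n => ∃ t' : Fin n → M, t = Sum.inl ∘ t' ∧ N.S.RelMap R t')
        (fun R : NR k n => NRel N d l π R t) R }
  A := univ
  c p := Sum.inl (N.c p)

section
variable [∀ n, IsEmpty (L.Functions n)] {N : Mo L P M} {d : Qf L (P ⊕ Fin k)}
  {l : Qf L (P ⊕ (Fin k ⊕ Fin k))} {π : (Fin k → M) → Q}

theorem plus_U (x : M ⊕ Q) : Uo (plus N d l π).S x ↔ ∃ y, x = Sum.inl y := Iff.rfl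

theorem plus_C (e : M ⊕ Q) (z : Fin k → M ⊕ Q) : Co (plus N d l π).S e z ↔
    ∃ z' : Fin k → M, N.Q d z' ∧ e = Sum.inr (π z') ∧ z = fun i => Sum.inl (z' i) := by
  show (∃ z' : Fin k → M, N.Q d z' ∧ (Fin.cons e z : Fin (k + 1) → M ⊕ Q) =
    (Fin.cons (Sum.inr (π z')) (fun i => Sum.inl (z' i)) : Fin (k + 1) → M ⊕ Q)) ↔ _
  refine exists_congr fun z' => and_congr Iff.rfl ?_
  exact Fin.cons_inj

theorem plus_O (e e' : M ⊕ Q) : Oo (plus N d l π).S e e' ↔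
    ∃ z z' : Fin k → M, N.Q d z ∧ N.Q d z' ∧ ¬ N.Q l (Sum.elim z' z) ∧ e = Sum.inr (π z) ∧
      e' = Sum.inr (π z') := Iff.rfl

theorem plus_is (hA : N.A = univ) : Is N (old (plus N d l π)) Sum.inl where
  bij := by
    rw [hA]
    refine ⟨fun x _ => ⟨mem_univ _, x, rfl⟩, Sum.inl_injective.injOn, ?_⟩
    rintro _ ⟨-, x, rfl⟩
    exact ⟨x, mem_univ _, rfl⟩
  cst := fun _ => rfl
  rel := by
    intro n R t _
    constructor
    · intro h
      exact ⟨t, rfl, h⟩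
    · rintro ⟨t', h1, h2⟩
      have h3 : t = t' := funext fun i => Sum.inl_injective (congrFun h1 i)
      rw [h3]
      exact h2

theorem plus_gp (hE : EMB) (hA : N.A = univ) (hL : Lpo N d l)
    (h1 : ∀ q, ∃ z, N.Q d z ∧ π z = q)
    (h2 : ∀ z z' : Fin k → M, N.Q d z → N.Q d z' →
      (π z = π z' ↔ (N.Q l (Sum.elim z z') ∧ N.Q l (Sum.elim z' z)))) :
    Gp d l (plus N d l π) := by
  have hin : ∀ x, x ∈ N.A := fun x => hA ▸ mem_univ x
  have hq : ∀ {κ : Type} (q : Qf L (P ⊕ κ)) (v : κ → M),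
      (old (plus N d l π)).Q q (fun i => Sum.inl (v i)) ↔ N.Q q v := fun q v =>
    (hE.isq (plus_is hA) (fun _ => hin _) q v fun _ => hin _).symm
  have hq2 : ∀ z z' : Fin k → M, (old (plus N d l π)).Q l
      (Sum.elim (fun i => Sum.inl (z i)) (fun i => Sum.inl (z' i))) ↔ N.Q l (Sum.elim z z') := by
    intro z z'
    rw [← hq]
    have h3 : (Sum.elim (fun i => Sum.inl (z i)) (fun i => Sum.inl (z' i)) :
        Fin k ⊕ Fin k → M ⊕ Q) = fun i => Sum.inl (Sum.elim z z' i) := by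
      funext i
      rcases i with i | i <;> rfl
    rw [h3]
  constructor
  case cA => exact fun _ => mem_univ _
  case cU => exact fun p => ⟨N.c p, rfl⟩
  case rl =>
    rintro n R t - ⟨t', rfl, -⟩ i
    exact ⟨t' i, rfl⟩
  case c1 =>
    intro e z _ _ hC
    rw [plus_C] at hC
    obtain ⟨z', hz', rfl, rfl⟩ := hC
    refine ⟨?_, fun i => ⟨z' i, rfl⟩, (hq d z').2 hz'⟩
    rintro ⟨y, hy⟩
    exact absurd hy (by simp)
  case c2 =>
    intro e z z' _ _ _ hC hC'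
    rw [plus_C] at hC hC'
    obtain ⟨z1, hz1, rfl, rfl⟩ := hC
    obtain ⟨z2, hz2, h3, rfl⟩ := hC'
    rw [hq2]
    exact ((h2 z1 z2 hz1 hz2).1 (Sum.inr_injective h3)).1
  case c3 =>
    intro e z z' _ _ _ hC hU hd hl1 hl2
    rw [plus_C] at hC
    obtain ⟨z1, hz1, rfl, rfl⟩ := hC
    choose z2 hz2 using hU
    have h3 : z' = fun i => Sum.inl (z2 i) := funext hz2
    subst h3
    rw [hq] at hd
    rw [hq2] at hl1 hl2
    rw [plus_C]
    exact ⟨z2, hd, by rw [(h2 z1 z2 hz1 hd).2 ⟨hl1, hl2⟩], rfl⟩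
  case c4 =>
    intro e e' z _ _ _ hC hC'
    rw [plus_C] at hC hC'
    obtain ⟨z1, hz1, rfl, rfl⟩ := hC
    obtain ⟨z2, hz2, rfl, h3⟩ := hC'
    have h4 : z1 = z2 := funext fun i => Sum.inl_injective (congrFun h3 i)
    rw [h4]
  case o1 =>
    intro e e' _ _ hO
    rw [plus_O] at hO
    obtain ⟨z, z', -, -, -, rfl, rfl⟩ := hO
    constructor
    · rintro ⟨y, hy⟩
      exact absurd hy (by simp)
    · rintro ⟨y, hy⟩
      exact absurd hy (by simp)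
  case o2 =>
    intro e e' z z' _ _ _ _ hC hC'
    rw [plus_C] at hC hC'
    obtain ⟨z1, hz1, rfl, rfl⟩ := hC
    obtain ⟨z2, hz2, rfl, rfl⟩ := hC'
    rw [hq2, plus_O]
    constructor
    · rintro ⟨a, b, ha, hb, h3, h4, h5⟩ h6
      refine h3 ?_
      have h7 := (h2 z1 a hz1 ha).1 (Sum.inr_injective h4)
      have h8 := (h2 z2 b hz2 hb).1 (Sum.inr_injective h5)
      exact hL.trs b z2 a (fun _ => hin _) (fun _ => hin _) (fun _ => hin _) hb hz2 ha h8.2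
        (hL.trs z2 z1 a (fun _ => hin _) (fun _ => hin _) (fun _ => hin _) hz2 hz1 ha h6 h7.1)
    · intro h3
      exact ⟨z1, z2, hz1, hz2, h3, rfl, rfl⟩
  case e1 =>
    intro e _ hU
    rcases e with x | q
    · exact absurd ⟨x, rfl⟩ hU
    · obtain ⟨z, hz, rfl⟩ := h1 q
      refine ⟨fun i => Sum.inl (z i), fun _ => mem_univ _, ?_⟩
      rw [plus_C]
      exact ⟨z, hz, rfl, rfl⟩

end

theorem plus_bf [∀ n, IsEmpty (L.Functions n)] {N : Mo L P M} {d : Qf L (P ⊕ Fin (k + 1))}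
    {l : Qf L (P ⊕ (Fin (k + 1) ⊕ Fin (k + 1)))} {π : (Fin (k + 1) → M) → Q} (hE : EMB)
    (hA : N.A = univ) {n : ℕ} (hne : Nonempty Q)
    (hb : ∀ a : M, ∃ e : Fin n → Q, ∀ z : Fin (k + 1) → M, N.Q d z → z 0 = a → ∃ i, π z = e i) :
    Bf n d (plus N d l π) := by
  have hin : ∀ x, x ∈ N.A := fun x => hA ▸ mem_univ x
  intro x _
  rcases x with a | q
  · obtain ⟨e, he⟩ := hb a
    refine ⟨fun i => Sum.inr (e i), fun _ => mem_univ _, fun z _ hU hd h0 => ?_⟩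
    choose z2 hz2 using hU
    have h3 : z = fun i => Sum.inl (z2 i) := funext hz2
    subst h3
    have h4 : N.Q d z2 := (hE.isq (plus_is (d := d) (l := l) (π := π) hA) (fun _ => hin _) d z2
      fun _ => hin _).2 hd
    obtain ⟨i, hi⟩ := he z2 h4 (Sum.inl_injective h0)
    refine ⟨i, ?_⟩
    rw [plus_C]
    exact ⟨z2, h4, by rw [hi], rfl⟩
  · refine ⟨fun _ => Sum.inr q, fun _ => mem_univ _, fun z _ hU hd h0 => ?_⟩
    obtain ⟨y, hy⟩ := hU 0
    rw [h0] at hy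
    exact absurd hy (by simp)

/-- from the structure with classes to the structure -/
theorem fam_old [∀ n, IsEmpty (L.Functions n)] (hE : EMB) [Finite P] {T : Th L P}
    {N : Mo L P M} {d : Qf L (P ⊕ Fin (k + 1))} {l : Qf L (P ⊕ (Fin (k + 1) ⊕ Fin (k + 1)))}
    {π : (Fin (k + 1) → M) → Q} {n : ℕ} (W : Set M) (hA : N.A = univ) (hM : Md T N)
    (hG : Gp d l (plus N d l π)) (hB : Bf n d (plus N d l π))
    (hF : Fam (Thy (plus N d l π)) (plus N d l π) (Sum.inl '' W)) : Fam T N W := by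
  classical
  have hin : ∀ x, x ∈ N.A := fun x => hA ▸ mem_univ x
  obtain ⟨M', N', w, X, E, G, hF⟩ := hF
  have gX : ∀ f, Gp d l (N'.sub (X f)) := fun f => Gp_tr hG (hF.mod f)
  have bX : ∀ f, Bf n d (N'.sub (X f)) := fun f => Bf_tr hB (hF.mod f)
  have gE : Gp d l (N'.sub E) := Gp_tr hG hF.mdE
  have hmo : Md T (old (plus N d l π)) := hE.imd (plus_is hA) hM
  have hne : ∀ Y : Set M', Md (Thy (plus N d l π)) (N'.sub Y) → ∃ x ∈ Y, Uo N'.S x := by
    intro Y hY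
    have gY := Gp_tr hG hY
    obtain ⟨x, hx⟩ := hY.ne
    by_cases hU : Uo N'.S x
    · exact ⟨x, hx, hU⟩
    · obtain ⟨z, hz, hC⟩ := gY.e1 x hx hU
      exact ⟨z 0, hz 0, (gY.c1 x z hx hz hC).2.1 0⟩
  have hmd : ∀ Y : Set M', Md (Thy (plus N d l π)) (N'.sub Y) → Md T (old (N'.sub Y)) :=
    fun Y hY => Md_tr hmo (Gp_tr hG hY).cU hY (hne Y hY)
  -- representatives
  obtain ⟨x0, -⟩ := hF.mdE.ne
  have hz : ∀ e : M', ∃ z : Fin (k + 1) → M', e ∈ G → ¬ Uo N'.S e →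
      (∀ i, z i ∈ E) ∧ (∀ i, Uo N'.S (z i)) ∧ Co N'.S e z := by
    intro e
    by_cases h : e ∈ G ∧ ¬ Uo N'.S e
    · obtain ⟨z, hz, hC⟩ := gE.e1 e (hF.gsE h.1) h.2
      exact ⟨z, fun _ _ => ⟨hz, (gE.c1 e z (hF.gsE h.1) hz hC).2.1, hC⟩⟩
    · exact ⟨fun _ => x0, fun h1 h2 => absurd ⟨h1, h2⟩ h⟩
  choose z hz using hz
  refine ⟨M', old N', fun x => w ⟨Sum.inl x, x, x.2, rfl⟩,
    fun f => {x | x ∈ X f ∧ Uo N'.S x}, {x | x ∈ E ∧ Uo N'.S x},
    {x | x ∈ G ∧ Uo N'.S x} ∪ range N'.c ∪ ⋃ e ∈ {e | e ∈ G ∧ ¬ Uo N'.S e}, range (z e), ?_⟩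
  constructor
  case cou =>
    refine hF.cou.mono ?_
    exact iUnion_mono fun f x hx => hx.1
  case clo =>
    intro x
    by_cases hU : Uo N'.S x
    · have h1 : {f | x ∈ {x | x ∈ X f ∧ Uo N'.S x}} = {f | x ∈ X f} := by
        ext f
        exact ⟨fun h => h.1, fun h => ⟨h, hU⟩⟩
      rw [h1]
      exact hF.clo x
    · have h1 : {f | x ∈ {x | x ∈ X f ∧ Uo N'.S x}} = ∅ := by
        ext f
        exact ⟨fun h => absurd h.2 hU, fun h => absurd h (notMem_empty _)⟩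
      rw [h1]
      exact isClopen_empty
  case inf =>
    intro f hfin
    refine hF.inf f ?_
    have h1 : {z : Fin (k + 1) → M' | ∀ i, z i ∈ {x | x ∈ X f ∧ Uo N'.S x}}.Finite := by
      have h2 := Set.Finite.pi (t := fun _ : Fin (k + 1) => {x | x ∈ X f ∧ Uo N'.S x})
        fun _ => hfin
      refine h2.subset ?_
      intro z hz i _
      exact hz i
    have h2 : ∀ e : M', ∃ z : Fin (k + 1) → M', e ∈ X f → ¬ Uo N'.S e →
        (∀ i, z i ∈ {x | x ∈ X f ∧ Uo N'.S x}) ∧ Co N'.S e z := by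
      intro e
      by_cases h : e ∈ X f ∧ ¬ Uo N'.S e
      · obtain ⟨z, hz, hC⟩ := (gX f).e1 e h.1 h.2
        exact ⟨z, fun _ _ => ⟨fun i => ⟨hz i, ((gX f).c1 e z h.1 hz hC).2.1 i⟩, hC⟩⟩
      · exact ⟨fun _ => x0, fun h1 h2 => absurd ⟨h1, h2⟩ h⟩
    choose y hy using h2
    have h3 : {e | e ∈ X f ∧ ¬ Uo N'.S e}.Finite := by
      refine Set.Finite.of_finite_image (f := y) (h1.subset ?_) ?_
      · rintro _ ⟨e, he, rfl⟩
        exact (hy e he.1 he.2).1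
      · intro e he e' he' hee
        have h4 := (hy e he.1 he.2)
        have h5 := (hy e' he'.1 he'.2)
        rw [← hee] at h5
        exact (gX f).c4 e e' (y e) he.1 he'.1 (fun i => (h4.1 i).1) h4.2 h5.2
    refine (hfin.union h3).subset ?_
    intro x hx
    by_cases hU : Uo N'.S x
    · exact Or.inl ⟨hx, hU⟩
    · exact Or.inr ⟨hx, hU⟩
  case mod => exact fun f => hmd (X f) (hF.mod f)
  case wit =>
    intro f x
    refine ⟨hF.wit f _, ?_⟩
    have h1 := hF.tru f (Uf.qf (qU ⟨Sum.inl (x : M), x, x.2, rfl⟩)) (by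
      refine (BAS_uqf _ _ _ _).2 ?_
      exact (Q_U (plus N d l π) (⟨Sum.inl (x : M), x, x.2, rfl⟩ :
        (Sum.inl '' W : Set (M ⊕ Q))) (fun x => (x : M ⊕ Q))).2 ⟨(x : M), rfl⟩)
    have h2 := (BAS_uqf _ _ _ _).1 h1
    exact (Q_U (N'.sub (X f)) (⟨Sum.inl (x : M), x, x.2, rfl⟩ :
        (Sum.inl '' W : Set (M ⊕ Q))) w).1 h2
  case tru =>
    intro f φ hφ
    have h1 : (old (plus N d l π)).Tr φ (fun x : W => Sum.inl (x : M)) :=
      (hE.ist (plus_is hA) (fun _ => hin _) φ (fun x : W => (x : M)) fun _ => hin _).1 hφ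
    have h2 := (rlz_tr φ (plus N d l π) _).2 h1
    let r : W → (Sum.inl '' W : Set (M ⊕ Q)) := fun x => ⟨Sum.inl (x : M), x, x.2, rfl⟩
    have key : ∀ (M₁ : Type) (N₁ : Mo (Lp L (k + 1)) P M₁)
        (v : (Sum.inl '' W : Set (M ⊕ Q)) → M₁),
        N₁.Tr ((rlz φ).map (Sum.map id r)) v ↔ N₁.Tr (rlz φ) (v ∘ r) := by
      intro M₁ N₁ v
      show ((rlz φ).map (Sum.map id r)).Tr N₁.S N₁.A _ ↔ _
      rw [BAS_umap]
      have h3 : Sum.elim N₁.c v ∘ Sum.map id r = Sum.elim N₁.c (v ∘ r) := by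
        funext i
        rcases i with i | i <;> rfl
      rw [h3]
      rfl
    have h3 := hF.tru f ((rlz φ).map (Sum.map id r)) ((key _ _ _).2 h2)
    exact (rlz_tr φ (N'.sub (X f)) _).1 ((key _ _ _).1 h3)
  case mdE => exact hmd E hF.mdE
  case sub => exact fun f x hx => ⟨hF.sub f hx.1, hx.2⟩
  case fin =>
    refine ((hF.fin.subset fun x hx => hx.1).union (finite_range _)).union ?_
    exact (hF.fin.subset fun x hx => hx.1).biUnion fun e _ => finite_range _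
  case gsE =>
    rintro x ((hx | ⟨p, rfl⟩) | hx)
    · exact ⟨hF.gsE hx.1, hx.2⟩
    · exact ⟨gE.cA p, gE.cU p⟩
    · simp only [mem_iUnion] at hx
      obtain ⟨e, he, i, rfl⟩ := hx
      have h1 := hz e he.1 he.2
      exact ⟨h1.1 i, h1.2.1 i⟩
  case non =>
    rintro f f' ⟨h, h1, h2, h3⟩
    have hfix : ∀ p, h (N'.c p) = N'.c p := fun p => h2 _ (Or.inl (Or.inr ⟨p, rfl⟩))
    obtain ⟨g, g1, g2, g3, g4⟩ := RDC_ext hE (N := N') (gX f) (gX f') (bX f) (bX f') (h := h) h1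
      hfix (fun m R t ht => h3 m R t ht)
    refine hF.non f f' ⟨g, g1, fun x hx => ?_, g3⟩
    by_cases hU : Uo N'.S x
    · rw [g2 x (hF.sub f (hF.gsE hx)) hU]
      exact h2 x (Or.inl (Or.inl ⟨hx, hU⟩))
    · have h4 := hz x hx hU
      refine g4 x (hF.sub f (hF.gsE hx)) (hF.sub f' (hF.gsE hx)) (z x)
        (fun i => hF.sub f (h4.1 i)) (fun i => hF.sub f' (h4.1 i)) h4.2.2 fun i => h2 _ (Or.inr ?_)
      simp only [mem_iUnion]
      exact ⟨x, ⟨hx, hU⟩, i, rfl⟩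

end ORD
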