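import Pool.Agent.ORD.Defs

/-!
# ORD: statements, part A (basic facts, compactness, reasons, frames)

Every module `XXX` is delivered as `Pool/Agent/ORD/XXX.lean`, namespace `ORD`, with the theorem
`thm_XXX (hypotheses) : St_XXX`; auxiliary lemmas are private or have names starting with `XXX_`.
-/

set_option autoImplicit false
set_option linter.unusedVariables false

namespace ORD

open Set FirstOrder

/-- languages -/
abbrev Lg : Type 1 := FirstOrder.Language.{0, 0}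

/-- [BAS] (1 h; no other module) Formulas.

Proofs. `qmap`: induction on `φ`. `umap`: `qmap` and
`Sum.elim v z ∘ Sum.map h id = Sum.elim (v ∘ h) z`. `uqf`: `qmap`; the only `z : Fin 0 → M`.
`qnot`, `qand`, `qor`, `qall`: unfold (classical). `down`: fewer `z`. `qeq`, `ueq`: truth depends
only on the relations on the elements of `A`: induction on `φ`, for `Uf` the values `z` are in `A`.
`qfin`, `ufin`: finitely many variables occur; prove by induction on `φ : Qf L V'` that there is a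
finite list (or `Finset`) `s` of elements of `V'` such that for all `h h' : V' → κ` which agree on
`s`: `φ.map h = φ.map h'`; for `V' = (P ⊕ V) ⊕ Fin m` take for `a` an enumeration of the elements
`x : V` with `Sum.inl (Sum.inr x) ∈ s`, and `θ := φ.map (Sum.map (Sum.map id h) id)`, `h` a left
inverse of `a` on its range (if the list is empty: `θ` needs a map `V → Fin 0`, so use `n + 1` and
one more dummy element if `V` is nonempty; if `V` is empty, everything is trivial; or define `θ` by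
recursion). `uimp`: `⟨ψ.m, (φ.map Sum.inl).imp ψ.q⟩`. `uand`: `⟨φ.m + ψ.m, ..⟩`, `Fin.append`,
`A` nonempty. `utop`: `Uf.qf (Qf.not .bot)`.
`ctq`, `ctu`: `Qf L ι` is countable: by induction on the depth (the set of the formulas of depth
`≤ n` is countable; `Qf.rel`: `Sigma` over `n`, `Fin n → ι` countable). `ctT`: lists over a
countable type. `ctR`: `Rsn g` injects into a product of countable types (`ok` is a proposition). -/
structure BAS : Prop where
  qmap : ∀ {L : Lg} {ι κ M : Type} (S : L.Structure M) (h : ι → κ) (v : κ → M)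
    (φ : Qf L ι), (φ.map h).Tr S v ↔ φ.Tr S (v ∘ h)
  umap : ∀ {L : Lg} {ι κ M : Type} (S : L.Structure M) (A : Set M) (h : ι → κ)
    (v : κ → M) (φ : Uf L ι), (φ.map h).Tr S A v ↔ φ.Tr S A (v ∘ h)
  uqf : ∀ {L : Lg} {ι M : Type} (S : L.Structure M) (A : Set M) (v : ι → M)
    (φ : Qf L ι), (Uf.qf φ).Tr S A v ↔ φ.Tr S v
  qnot : ∀ {L : Lg} {ι M : Type} (S : L.Structure M) (v : ι → M) (φ : Qf L ι),
    φ.not.Tr S v ↔ ¬ φ.Tr S v
  qand : ∀ {L : Lg} {ι M : Type} (S : L.Structure M) (v : ι → M) (φ ψ : Qf L ι),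
    (φ.and ψ).Tr S v ↔ φ.Tr S v ∧ ψ.Tr S v
  qor : ∀ {L : Lg} {ι M : Type} (S : L.Structure M) (v : ι → M) (φ ψ : Qf L ι),
    (φ.or ψ).Tr S v ↔ φ.Tr S v ∨ ψ.Tr S v
  qall : ∀ {L : Lg} {ι M : Type} (S : L.Structure M) (v : ι → M)
    (l : List (Qf L ι)), (Qf.all l).Tr S v ↔ ∀ φ ∈ l, φ.Tr S v
  down : ∀ {L : Lg} {ι M : Type} (S : L.Structure M) (A B : Set M) (v : ι → M)
    (φ : Uf L ι), B ⊆ A → φ.Tr S A v → φ.Tr S B v
  qeq : ∀ {L : Lg} {ι M : Type} (S S' : L.Structure M) (A : Set M) (v : ι → M)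
    (φ : Qf L ι), (∀ (n : ℕ) (R : L.Relations n) (t : Fin n → M), (∀ i, t i ∈ A) →
      (S.RelMap R t ↔ S'.RelMap R t)) → (∀ i, v i ∈ A) → (φ.Tr S v ↔ φ.Tr S' v)
  ueq : ∀ {L : Lg} {ι M : Type} (S S' : L.Structure M) (A : Set M) (v : ι → M)
    (φ : Uf L ι), (∀ (n : ℕ) (R : L.Relations n) (t : Fin n → M), (∀ i, t i ∈ A) →
      (S.RelMap R t ↔ S'.RelMap R t)) → (∀ i, v i ∈ A) → (φ.Tr S A v ↔ φ.Tr S' A v)
  ufin : ∀ {L : Lg} {P V : Type} (φ : Uf L (P ⊕ V)), ∃ (n : ℕ) (a : Fin n → V)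
    (θ : Uf L (P ⊕ Fin n)), φ = θ.map (Sum.map id a)
  uimp : ∀ {L : Lg} {ι : Type} (φ : Qf L ι) (ψ : Uf L ι), ∃ χ : Uf L ι,
    ∀ (M : Type) (S : L.Structure M) (A : Set M) (v : ι → M),
      χ.Tr S A v ↔ (φ.Tr S v → ψ.Tr S A v)
  uand : ∀ {L : Lg} {ι : Type} (φ ψ : Uf L ι), ∃ χ : Uf L ι,
    ∀ (M : Type) (S : L.Structure M) (A : Set M) (v : ι → M), A.Nonempty →
      (χ.Tr S A v ↔ (φ.Tr S A v ∧ ψ.Tr S A v))
  utop : ∀ {L : Lg} {ι : Type}, ∃ χ : Uf L ι,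
    ∀ (M : Type) (S : L.Structure M) (A : Set M) (v : ι → M), χ.Tr S A v
  ctq : ∀ {L : Lg} {ι : Type}, (∀ n, Countable (L.Relations n)) → Countable ι →
    Countable (Qf L ι)
  ctu : ∀ {L : Lg} {ι : Type}, (∀ n, Countable (L.Relations n)) → Countable ι →
    Countable (Uf L ι)
  ctT : ∀ {L : Lg} {P : Type} (T : Th L P), Countable T.K → Countable (Adr T)
  ctR : ∀ {L : Lg} {P : Type} (F : Fr L P) (g : Adr F.T → ℕ),
    (∀ n, Countable (L.Relations n)) → Countable P → Countable F.T.K → Countable (F.Rsn g)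

/-- [EMB] (1.2 h; uses `BAS`) Closed sets, isomorphisms, U-embeddings.

Proofs. `isq`, `ist`: induction on the formula, for `Uf` the values `z` of `N'.A` come from `N.A`
(surjectivity on `A`). `isi`: `h' := Function.invFunOn h N.A`. `isub`: restrict. `imd`, `icw`: by
`ist`. `iue`: `ist`. `uid`; `uco`: composition. `ucg`: UE depends only on the values on `A` (the
constants are in `A`). `uin`: the U-formula `¬ x = y`. `uqi`: a quantifier free formula and its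
negation are U-formulas. `ucw` (1.1): the images of the witnesses are witnesses. `cwu`: unions.
`cmd` (1.2): witnesses in `N` lying in `C` are witnesses in `N.sub C` (`down`). `usb`: `down`.
`csb`: `down`. `cct`: a countable set is contained in a countable closed set: choose witnesses and
close under countably many functions (iterate `ω` times). `rmd`: `Md` for the renamed system. -/
structure EMB : Prop where
  isq : ∀ {L : Lg} {P M M' : Type} {N : Mo L P M} {N' : Mo L P M'} {h : M → M'},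
    Is N N' h → (∀ p, N.c p ∈ N.A) → ∀ {ι : Type} (φ : Qf L (P ⊕ ι)) (v : ι → M),
    (∀ i, v i ∈ N.A) → (N.Q φ v ↔ N'.Q φ (h ∘ v))
  ist : ∀ {L : Lg} {P M M' : Type} {N : Mo L P M} {N' : Mo L P M'} {h : M → M'},
    Is N N' h → (∀ p, N.c p ∈ N.A) → ∀ {ι : Type} (φ : Uf L (P ⊕ ι)) (v : ι → M),
    (∀ i, v i ∈ N.A) → (N.Tr φ v ↔ N'.Tr φ (h ∘ v))
  isi : ∀ {L : Lg} {P M M' : Type} {N : Mo L P M} {N' : Mo L P M'} {h : M → M'},
    Is N N' h → (∀ p, N.c p ∈ N.A) → N.A.Nonempty →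
    ∃ h' : M' → M, Is N' N h' ∧ (∀ x ∈ N.A, h' (h x) = x) ∧ ∀ x ∈ N'.A, h (h' x) = x
  isub : ∀ {L : Lg} {P M M' : Type} {N : Mo L P M} {N' : Mo L P M'} {h : M → M'},
    Is N N' h → ∀ C ⊆ N.A, Is (N.sub C) (N'.sub (h '' C)) h
  imd : ∀ {L : Lg} {P M M' : Type} {N : Mo L P M} {N' : Mo L P M'} {h : M → M'}
    {T : Th L P}, Is N N' h → Md T N → Md T N'
  icw : ∀ {L : Lg} {P M M' : Type} {N : Mo L P M} {N' : Mo L P M'} {h : M → M'}
    {T : Th L P} {C : Set M}, Is N N' h → (∀ p, N.c p ∈ N.A) → Cw T N C → Cw T N' (h '' C)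
  iue : ∀ {L : Lg} {P M M' : Type} {N : Mo L P M} {N' : Mo L P M'} {h : M → M'},
    Is N N' h → (∀ p, N.c p ∈ N.A) → UE N N' h
  uid : ∀ {L : Lg} {P M : Type} (N : Mo L P M), UE N N id
  uco : ∀ {L : Lg} {P M M' M'' : Type} {N : Mo L P M} {N' : Mo L P M'}
    {N'' : Mo L P M''} {j : M → M'} {j' : M' → M''}, UE N N' j → UE N' N'' j' →
    UE N N'' (j' ∘ j)
  ucg : ∀ {L : Lg} {P M M' : Type} {N : Mo L P M} {N' : Mo L P M'} {j j' : M → M'},
    UE N N' j → (∀ p, N.c p ∈ N.A) → (∀ x ∈ N.A, j x = j' x) → UE N N' j'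
  uin : ∀ {L : Lg} {P M M' : Type} {N : Mo L P M} {N' : Mo L P M'} {j : M → M'},
    UE N N' j → InjOn j N.A
  uqi : ∀ {L : Lg} {P M M' : Type} {N : Mo L P M} {N' : Mo L P M'} {j : M → M'},
    UE N N' j → ∀ {ι : Type} (φ : Qf L (P ⊕ ι)) (v : ι → M), (∀ i, v i ∈ N.A) →
    (N.Q φ v ↔ N'.Q φ (j ∘ v))
  ucw : ∀ {L : Lg} {P M M' : Type} {N : Mo L P M} {N' : Mo L P M'} {j : M → M'}
    {T : Th L P}, UE N N' j → Md T N → Cw T N' (j '' N.A)
  cwu : ∀ {L : Lg} {P M : Type} {N : Mo L P M} {T : Th L P} {C C' : Set M},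
    Cw T N C → Cw T N C' → Cw T N (C ∪ C')
  cmd : ∀ {L : Lg} {P M : Type} {N : Mo L P M} {T : Th L P} {C : Set M},
    Cw T N C → C.Nonempty → (∀ p, N.c p ∈ C) → Md T (N.sub C)
  usb : ∀ {L : Lg} {P M M' : Type} {N : Mo L P M} {N' : Mo L P M'} {j : M → M'},
    UE N N' j → ∀ B ⊆ N'.A, (∀ x ∈ N.A, j x ∈ B) → UE N (N'.sub B) j
  csb : ∀ {L : Lg} {P M : Type} {N : Mo L P M} {T : Th L P} {C B : Set M},
    Cw T N C → C ⊆ B → B ⊆ N.A → Cw T (N.sub B) C
  cct : ∀ {L : Lg} {P M : Type} {N : Mo L P M} {T : Th L P}, Countable T.K →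
    Md T N → ∀ B ⊆ N.A, B.Countable → ∃ C, B ⊆ C ∧ C.Countable ∧ Cw T N C
  rmd : ∀ {L : Lg} {P P' M : Type} {N : Mo L P' M} {T : Th L P} (h : P → P'),
    (∀ p, N.c p ∈ N.A) → (Md (T.map h) N ↔ Md T (N.res h))

/-- [CPT] (1.2 h; uses `BAS`) Compactness for U-formulas over a system of axioms.

Proof. Let `X` be the type of the finite subsets of `Γ` (`Finset Γ`, classical), `u` an ultrafilter
on `X` containing all `{Δ | φ ∈ Δ}`, `φ ∈ Γ` (`Ultrafilter.of Filter.atTop`). Choose `M Δ`, `N Δ`,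
`v Δ` for the finite sets. Let `M' := Quotient` of `∀ Δ : X, (N Δ).A` (subtypes) by
`fun x y => ∀ᶠ Δ in u, x Δ = y Δ`, `N'.A := univ`,
`N'.S.RelMap R t := ∀ᶠ Δ in u, (N Δ).S.RelMap R fun i => ((t i).out Δ : M Δ)` (function symbols:
any value, `M'` is nonempty; take `L.Structure` with `funMap` a constant function), `N'.c p` := the
class of the constants. Los for `Qf`: induction (`imp`: `Ultrafilter.eventually_imp`), for
`Uf`: if `φ` is not true eventually, then it is false eventually, choose `z Δ` in `(N Δ).A`. So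
`N'.Tr φ (classes of w) ↔ ∀ᶠ Δ in u, (N Δ).Tr φ (w Δ)`. `Md`: witnesses coordinatewise. The family
`v'` := the class of `v Δ`; for `φ ∈ Γ` eventually `φ ∈ Δ`. -/
def St_CPT : Prop := ∀ (L : Lg) (P : Type) (T : Th L P) (V : Type)
  (Γ : Set (Uf L (P ⊕ V))),
  (∀ Δ ⊆ Γ, Δ.Finite → ∃ (M : Type) (N : Mo L P M) (v : V → M), Md T N ∧ (∀ i, v i ∈ N.A) ∧
    ∀ φ ∈ Δ, N.Tr φ v) →
  ∃ (M : Type) (N : Mo L P M) (v : V → M), Md T N ∧ N.A = univ ∧ ∀ φ ∈ Γ, N.Tr φ v

/-- [CPE] (0.6 h; uses `BAS`, `EMB`, `St_CPT`) Compactness over a model `N`: the elements of `N.A`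
are names.

Proof. `St_CPT` with `V' := N.A ⊕ V` and `Γ' := Γ ∪ {φ.map (Sum.map id Sum.inl) | φ : Uf L (P ⊕ N.A),
N.Tr φ (fun a => a)}`. A finite subset of `Γ'` consists of a finite subset `Δ` of `Γ` and finitely
many true formulas, which have a conjunction `φ₀` (`BAS.uand`, `N.A`, `N'.A` nonempty; `utop` for
the empty conjunction), so the hypothesis gives a model. Conclusion: `M'`, `N'`, `w : N.A ⊕ V → M'`;
`j a := w (Sum.inl ⟨a, _⟩)` for `a ∈ N.A`, and arbitrary otherwise. `UE N N' j`: `cst`: the formula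
`Uf.qf (Qf.eq (Sum.inl p) (Sum.inr ⟨N.c p, _⟩))`; `tr`: rename the variables by
`Sum.map id fun i => ⟨v i, _⟩`. -/
def St_CPE : Prop := ∀ (L : Lg) (P : Type) (T : Th L P) (M : Type) (N : Mo L P M)
  (V : Type) (Γ : Set (Uf L (P ⊕ (N.A ⊕ V)))), Md T N →
  (∀ φ₀ : Uf L (P ⊕ N.A), N.Tr φ₀ (fun a => (a : M)) → ∀ Δ ⊆ Γ, Δ.Finite →
    ∃ (M' : Type) (N' : Mo L P M') (j : N.A → M') (v : V → M'), Md T N' ∧ (∀ a, j a ∈ N'.A) ∧
      (∀ i, v i ∈ N'.A) ∧ N'.Tr φ₀ j ∧ ∀ φ ∈ Δ, N'.Tr φ (Sum.elim j v)) →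
  ∃ (M' : Type) (N' : Mo L P M') (j : M → M') (v : V → M'), Md T N' ∧ N'.A = univ ∧
    UE N N' j ∧ ∀ φ ∈ Γ, N'.Tr φ (Sum.elim (fun a : N.A => j a) v)

/-- [ABS] (1.2 h; uses `BAS`, `EMB`) Absoluteness and persistence.

Proofs. `udd`, `ult`: `EMB.uqi` (`![j x] = j ∘ ![x]`). `ucl`: from left to right `UE.tr`; from right
to left: `N'.Tr (F.E n) ![j x, j y]` gives truth in `N'.sub (j '' N.A)` (`BAS.down`), and
`Is N (N'.sub (j '' N.A)) j` (`EMB.uin`, `EMB.uqi`), `EMB.ist`. `sdd`: trivial for `C ⊆ N.A`. `scl`: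
`BAS.down` and `Ok.ab2`. `lam`: `UE.tr` for the witnesses; for `Bd`: the premises are reflected
(`udd`, `ult`), the conclusion is a U-formula. `lsb`: `BAS.down`. `lcw`: the range of a tree is
closed; countable by `BAS.ctT`. `lbt` (3.2): an element of the tree between `y` and `v` is close to
`y`. `has`: `UE.tr`, `j ∘ Fin.cons y a = Fin.cons (j y) (j ∘ a)`. `hsb`: `down`. `rgd`: `Lam` gives
`LamP` for all `J`, `H`; `Rsn.ok`. `isd` .. `isg`: isomorphisms preserve the notions (`EMB.isq`,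
`EMB.ist`; for `Good` use the inverse map `EMB.isi` for the other direction). -/
structure ABS : Prop where
  udd : ∀ {L : Lg} {P M M' : Type} {F : Fr L P} {N : Mo L P M} {N' : Mo L P M'}
    {j : M → M'}, UE N N' j → ∀ x ∈ N.A, (F.D N' (j x) ↔ F.D N x)
  ult : ∀ {L : Lg} {P M M' : Type} {F : Fr L P} {N : Mo L P M} {N' : Mo L P M'}
    {j : M → M'}, UE N N' j → ∀ x ∈ N.A, ∀ y ∈ N.A, (F.Lt N' (j x) (j y) ↔ F.Lt N x y)
  ucl : ∀ {L : Lg} {P M M' : Type} {F : Fr L P} {N : Mo L P M} {N' : Mo L P M'}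
    {j : M → M'}, UE N N' j → (∀ p, N.c p ∈ N.A) → ∀ x ∈ N.A, ∀ y ∈ N.A,
    (F.Cl N' (j x) (j y) ↔ F.Cl N x y)
  sdd : ∀ {L : Lg} {P M : Type} {F : Fr L P} {N : Mo L P M} {C : Set M}, C ⊆ N.A →
    ∀ x ∈ C, (F.D (N.sub C) x ↔ F.D N x)
  scl : ∀ {L : Lg} {P M : Type} {F : Fr L P} {N : Mo L P M} {C : Set M}, F.Ok →
    Md F.T N → Cw F.T N C → (∀ p, N.c p ∈ C) → ∀ x ∈ C, ∀ y ∈ C, F.D N x → F.D N y →
    (F.Cl (N.sub C) x y ↔ F.Cl N x y)
  lam : ∀ {L : Lg} {P M M' : Type} {F : Fr L P} {g : Adr F.T → ℕ} {N : Mo L P M}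
    {N' : Mo L P M'} {j : M → M'}, UE N N' j → (∀ p, N.c p ∈ N.A) → ∀ (y : M) (u : Adr F.T → M),
    F.Lam g N y u → F.Lam g N' (j y) (j ∘ u)
  lsb : ∀ {L : Lg} {P M : Type} {F : Fr L P} {g : Adr F.T → ℕ} {N : Mo L P M}
    {C : Set M} {y : M} {u : Adr F.T → M}, F.Lam g N y u → C ⊆ N.A → (∀ s, u s ∈ C) →
    F.Lam g (N.sub C) y u
  lcw : ∀ {L : Lg} {P M : Type} {F : Fr L P} {g : Adr F.T → ℕ} {N : Mo L P M}
    {y : M} {u : Adr F.T → M}, Countable F.T.K → F.Lam g N y u →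
    Cw F.T N (range u) ∧ (range u).Countable
  lbt : ∀ {L : Lg} {P M : Type} {F : Fr L P} {g : Adr F.T → ℕ} {N : Mo L P M}
    {y : M} {u : Adr F.T → M}, F.Lam g N y u → ∀ z ∈ range u, F.D N z → F.Lt N y z →
    F.Lt N z (N.c F.v) → F.Cl N y z
  has : ∀ {L : Lg} {P M M' : Type} {F : Fr L P} {g : Adr F.T → ℕ} {N : Mo L P M}
    {N' : Mo L P M'} {j : M → M'}, UE N N' j → ∀ y ∈ N.A, ∀ (ρ : F.Rsn g) (a : Fin ρ.n → M),
    Fr.Has N y ρ a → Fr.Has N' (j y) ρ (j ∘ a)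
  hsb : ∀ {L : Lg} {P M : Type} {F : Fr L P} {g : Adr F.T → ℕ} {N : Mo L P M}
    {C : Set M} {y : M} (ρ : F.Rsn g) (a : Fin ρ.n → M), C ⊆ N.A → (∀ i, a i ∈ C) →
    Fr.Has N y ρ a → Fr.Has (N.sub C) y ρ a
  rgd : ∀ {L : Lg} {P M : Type} {F : Fr L P} {g : Adr F.T → ℕ} {N : Mo L P M},
    Md F.T N → ∀ y ∈ N.A, F.Rd g N y → ¬ F.Good g N y
  isd : ∀ {L : Lg} {P M M' : Type} {F : Fr L P} {N : Mo L P M} {N' : Mo L P M'}
    {h : M → M'}, Is N N' h → (∀ p, N.c p ∈ N.A) → ∀ x ∈ N.A, (F.D N' (h x) ↔ F.D N x)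
  isl : ∀ {L : Lg} {P M M' : Type} {F : Fr L P} {N : Mo L P M} {N' : Mo L P M'}
    {h : M → M'}, Is N N' h → (∀ p, N.c p ∈ N.A) → ∀ x ∈ N.A, ∀ y ∈ N.A,
    (F.Lt N' (h x) (h y) ↔ F.Lt N x y)
  isc : ∀ {L : Lg} {P M M' : Type} {F : Fr L P} {N : Mo L P M} {N' : Mo L P M'}
    {h : M → M'}, Is N N' h → (∀ p, N.c p ∈ N.A) → ∀ x ∈ N.A, ∀ y ∈ N.A,
    (F.Cl N' (h x) (h y) ↔ F.Cl N x y)
  isg : ∀ {L : Lg} {P M M' : Type} {F : Fr L P} {g : Adr F.T → ℕ} {N : Mo L P M}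
    {N' : Mo L P M'} {h : M → M'}, Is N N' h → (∀ p, N.c p ∈ N.A) → ∀ x ∈ N.A,
    (F.Good g N' (h x) ↔ F.Good g N x)

/-- [RSN] (1.2 h; uses `BAS`, `EMB`, `St_CPE`) (2.3) A point of a model becomes good in a
U-extension, or it has a reason.

Proof. `St_CPE` with `V := Adr F.T` and `Γ` := the formulas: `u [] = y` (`y` is the name
`Sum.inl ⟨y, _⟩`), `(F.T.ax k)` for `u s` and its witnesses `u (⟨k, i⟩ :: s)`, all `s k`, and `Bd g`
at `s` (`BAS.uimp` for the quantifier free premises `D (u s) ∧ y < u s ∧ u s < v`). If the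
hypothesis of `St_CPE` holds: `M'`, `N'`, `j`, `u`, so `F.Lam g N' (j y) u`. Otherwise there are
`φ₀ : Uf L (P ⊕ N.A)` true in `N` and a finite `Δ ⊆ Γ` without a model. `Δ` is contained in the
formulas for `u [] = y`, the witnesses for a finite set `J`, the bounds for a finite set `H`. By
`BAS.ufin` `φ₀ = θ₀.map (Sum.map id a)`, `a : Fin n → N.A`. The reason: `n`, `J`, `H`,
`θ := θ₀.map (Sum.map id Fin.succ)`; `θ` is true for `y`, `a` (`BAS.umap`,
`Fin.cons y a ∘ Fin.succ = a`). `ok`: let `Md F.T N'`, `y'`, `a'`, `θ` true and `LamP g J H N' y' u`.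
Define `j : N.A → M'` by: `j (a i) := a' i`; `j ⟨y, _⟩ := y'`; this may be inconsistent (`a i = a k`,
`a' i ≠ a' k`, or `a i = y`). To avoid this add to `φ₀` equations: take
`θ := θ₀'` where `θ₀'` says in addition `a i = a k` for all `i`, `k` with `a i = a k` in `N`, and
`y = a i` for all `i` with `a i = y` in `N` (conjunction with a quantifier free formula,
`BAS.uand`, `BAS.qall`); all are true in `N`. Then `j` is well defined (other elements of `N.A`: map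
them to `y'`), `N'.Tr φ₀ j`, and `u` realises `Δ`: contradiction. -/
def St_RSN : Prop := ∀ (L : Lg) (P M : Type) (F : Fr L P) (g : Adr F.T → ℕ)
  (N : Mo L P M), Md F.T N → ∀ y ∈ N.A,
  (∃ (M' : Type) (N' : Mo L P M') (j : M → M'), Md F.T N' ∧ N'.A = univ ∧ UE N N' j ∧
    F.Good g N' (j y)) ∨ F.Rd g N y

/-- [FRA] (1 h; uses `BAS`, `EMB`) The frames of the first kind satisfy the conditions.

Proof. `Th.lin`: for `k = Sum.inr i` the witness family is empty (`Fin 0`), so `Md (T.lin d l v) N`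
says that the four U-formulas are true for all `x ∈ N.A` (`N.A` is nonempty): unfold, `BAS.qmap`
etc. So `irr`, `trs`, `tot`, `vdd`. `F.Cl N x y ↔ x = y`. The rest is trivial. -/
def St_FRA : Prop := ∀ (L : Lg) (P : Type) (T : Th L P) (d : Qf L (P ⊕ Fin 1))
  (l : Qf L (P ⊕ Fin 2)) (v : P), (Fr1 T d l v).Ok

/-- [BTF] (1 h; uses `BAS`) The meaning of the formulas `btf` and `scf`, models of `Th.lin`,
`Th.sp`.

Proof. Unfold, `BAS.qmap`, `BAS.qall` and so on. In `scf`: from left to right for a fixed non-maximal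
`x`, test the formula with one `z` above `x`, then with all `z`. `lin`: see `St_FRA`. -/
structure BTF : Prop where
  btf : ∀ {L : Lg} {P M : Type} (d : Qf L (P ⊕ Fin 1)) (l : Qf L (P ⊕ Fin 2))
    (N : Mo L P M) (n : ℕ) (x y : M), N.Tr (btf d l n) ![x, y] ↔
    ¬ ∃ z : Fin (n + 1) → M, Function.Injective z ∧ ∀ i, Btw d l N x y (z i)
  scf : ∀ {L : Lg} {P M : Type} (d : Qf L (P ⊕ Fin 1)) (l : Qf L (P ⊕ Fin 2))
    (N : Mo L P M) (x y : M), N.A.Nonempty → (N.Tr (scf d l) ![x, y] ↔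
    (N.Q d ![x] → ((N.Q d ![y] ∧ N.Q l ![x, y] ∧ ∀ z ∈ N.A, N.Q d ![z] → N.Q l ![x, z] →
      ¬ N.Q l ![z, y]) ∨ ∀ z ∈ N.A, N.Q d ![z] → ¬ N.Q l ![x, z])))
  swp : ∀ {L : Lg} {P M : Type} (l : Qf L (P ⊕ Fin 2)) (N : Mo L P M) (x y : M),
    N.Q (swp l) ![x, y] ↔ N.Q l ![y, x]
  lin : ∀ {L : Lg} {P M : Type} (T : Th L P) (d : Qf L (P ⊕ Fin 1))
    (l : Qf L (P ⊕ Fin 2)) (v : P) (N : Mo L P M), Md (T.lin d l v) N ↔
    (Md T N ∧ (∀ x ∈ N.A, N.Q d ![x] → ¬ N.Q l ![x, x]) ∧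
      (∀ x ∈ N.A, ∀ y ∈ N.A, ∀ z ∈ N.A, N.Q d ![x] → N.Q d ![y] → N.Q d ![z] →
        N.Q l ![x, y] → N.Q l ![y, z] → N.Q l ![x, z]) ∧
      (∀ x ∈ N.A, ∀ y ∈ N.A, N.Q d ![x] → N.Q d ![y] →
        x = y ∨ N.Q l ![x, y] ∨ N.Q l ![y, x]) ∧ N.Q d ![N.c v])
  sp : ∀ {L : Lg} {P M : Type} (T : Th L P) (d : Qf L (P ⊕ Fin 1))
    (l : Qf L (P ⊕ Fin 2)) (N : Mo L P M), Md (T.sp d l) N ↔
    (Md T N ∧ (∀ x ∈ N.A, ∃ y ∈ N.A, N.Tr (ORD.scf d l) ![x, y]) ∧
      ∀ x ∈ N.A, ∃ y ∈ N.A, N.Tr (ORD.scf d (ORD.swp l)) ![x, y])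

/-- [FRB] (1.5 h; uses `BAS`, `EMB`, `BTF`) The frames of the second kind satisfy the conditions.

Proof. Let `F := Fr2 T d l v`. `Md F.T N`: by `BTF.sp`, `BTF.lin` the order on `D` is linear
(`irr`, `trs`, `tot`, `vdd`), and every non-maximal (non-minimal) `x ∈ D` has an immediate successor
(predecessor). `F.Cl N x y` says that the set of the `z ∈ D` between `x`, `y` is finite (`BTF.btf`:
no injection of `Fin (n + 1)`). `crf`: nothing between `x` and `x`. `csm`: symmetric. `ctr`: the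
elements between `x`, `z` are between `x`, `y` or between `y`, `z` or equal to `y`. `cvx`: subset.
`ab1`: `C` closed, `y ∈ C`, `y'` close to `y`; let `y < y'` (the other case is symmetric, with
`swp l`; `y = y'` trivial). Induction on the number of elements between: the witness `y₁ ∈ C` of
`y` for `scf d l` (index `Sum.inr true`) is valid in `N`, and `y` is not maximal, so `y₁` is the
immediate successor of `y` in `N`, `y₁ ≤ y'`; if `y₁ ≠ y'` there are fewer elements between `y₁` and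
`y'`. `ab2`: let `x < y` in `C ∩ D` with finitely many elements of `C ∩ D` between them (truth of
`btf` in `N.sub C`; the conditions `Btw` in `N.sub C` are those in `N` for elements of `C`).
Induction on their number: the successor `x₁` of `x` in `N` is in `C` (as above), `x₁ ≤ y`; if
`x₁ = y` nothing of `N` is between them; otherwise there are fewer elements of `C` between `x₁` and
`y`, and the elements of `N` between `x` and `y` are `x₁` and those between `x₁` and `y`. -/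
def St_FRB : Prop := ∀ (L : Lg) (P : Type) (T : Th L P) (d : Qf L (P ⊕ Fin 1))
  (l : Qf L (P ⊕ Fin 2)) (v : P), (Fr2 T d l v).Ok

end ORD
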