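import Pool.Agent.ORD.StA

/-!
# ORD: statements, part B (section 5: the long sequence)
-/

set_option autoImplicit false
set_option linter.unusedVariables false

namespace ORD

open Set FirstOrder Cardinal

/-! ## Definitions -/

variable {L : Lg} {P M : Type}

/-- the starting data: a countable model with good elements `a 0 << a 1 << .. << v` -/
structure Bse (F : Fr L P) (g : Adr F.T → ℕ) (N₀ : Mo L P M) (a : ℕ → M) : Prop where
  ok : F.Ok
  ctK : Countable F.T.K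
  md : Md F.T N₀
  ct : N₀.A.Countable
  dd : ∀ n, F.D N₀ (a n)
  gd : ∀ n, F.Good g N₀ (a n)
  ll : ∀ n, F.Ll N₀ (a n) (a (n + 1))
  lv : ∀ n, F.Ll N₀ (a n) (N₀.c F.v)

/-- the conditions on the set `X` -/
structure Xok (F : Fr L P) (g : Adr F.T → ℕ) (N : Mo L P M) (X : Set M) : Prop where
  md : Md F.T N
  xg : ∀ x ∈ X, F.D N x ∧ F.Good g N x ∧ F.Ll N x (N.c F.v)
  xp : ∀ x ∈ X, ∀ x' ∈ X, F.Cl N x x' → x = x'
  wo : ∀ Y ⊆ X, Y.Nonempty → ∃ m ∈ Y, ∀ y ∈ Y, y = m ∨ F.Lt N y m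
  dc : ∀ x ∈ X, ∀ y, F.D N y → F.Ll N x y → F.Ll N y (N.c F.v) →
    (F.Good g N y ∧ ∃ x' ∈ X, F.Cl N y x') ∨ F.Rd g N y

/-- approximations -/
structure Apx (F : Fr L P) (g : Adr F.T → ℕ) (N₀ N : Mo L P M) (X : Set M) (C : M → Set M) : Prop
    extends Xok F g N X where
  ue : UE N₀ N id
  cc : ∀ y, (C y).Countable ∧ C y ⊆ N.A
  cg : ∀ y, (C y).Nonempty → F.Good g N y
  cr : ∀ z ∈ N.A, ∃ b, (b ∈ N₀.A ∨ b ∈ X) ∧ Relation.ReflTransGen (fun s t => t ∈ C s) b z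

/-- the order of the approximations -/
structure Ale (F : Fr L P) (s t : Mo L P M × Set M × (M → Set M)) : Prop where
  ue : UE s.1 t.1 id
  sub : s.2.1 ⊆ t.2.1
  blw : ∀ x ∈ t.2.1, x ∉ s.2.1 → ∀ x' ∈ s.2.1, F.Lt t.1 x x'
  ext : ∀ y, (s.2.2 y).Nonempty → t.2.2 y = s.2.2 y

/-- maximal approximations -/
structure Mxm (F : Fr L P) (g : Adr F.T → ℕ) (N₀ N : Mo L P M) (X : Set M) (C : M → Set M) : Prop
    extends Apx F g N₀ N X C where
  mx : ∀ N' X' C', Apx F g N₀ N' X' C' → Ale F (N, X, C) (N', X', C') → N'.A ⊆ N.A ∧ X' ⊆ X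

/-- `y` is good, far below `v` and far below all elements of `X` -/
structure Blw (F : Fr L P) (g : Adr F.T → ℕ) (N : Mo L P M) (X : Set M) (y : M) : Prop where
  d : F.D N y
  g : F.Good g N y
  v : F.Ll N y (N.c F.v)
  x : ∀ x ∈ X, F.Ll N y x

/-! ## Statements -/

/-- [ORL] (0.5 h; no other module) The order and closeness.

Proofs. `tri`: `Ok.tot`; if `x = y`: `Ok.crf`; if `x < y`: `Ll x y` or `Cl x y`; if `y < x`: `Ll y x`
or `Cl y x`, `Ok.csm`. `lll`: `x < z` by `trs`; if `Cl x z`, then `Cl x y` by `cvx`. `ltl`: `x < z`;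
if `Cl x z` then `Cl x y` (`cvx`), so `Cl y x`, `Cl y z`. `cll`: `x < z`: otherwise `x = z`
(`Cl y z` by symmetry) or `z < x`, `y < z < x`, `Cl y x`, so `Cl y z`; `¬ Cl x z`: otherwise
`Cl y x`, `Cl x z`, `Cl y z`. `llc`: similar (if `z < x`: `z < x < y`, `Cl z y`, so `Cl z x`,
`Cl x z`, `Cl z y`, `Cl x y`). `trn`: `lll`. `asy`: `trs`, `irr`. -/
structure ORL : Prop where
  tri : ∀ {L : Lg} {P M : Type} {F : Fr L P} {N : Mo L P M}, F.Ok → Md F.T N → ∀ x y,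
    F.D N x → F.D N y → F.Ll N x y ∨ F.Cl N x y ∨ F.Ll N y x
  lll : ∀ {L : Lg} {P M : Type} {F : Fr L P} {N : Mo L P M}, F.Ok → Md F.T N → ∀ x y z,
    F.D N x → F.D N y → F.D N z → F.Ll N x y → F.Lt N y z → F.Ll N x z
  ltl : ∀ {L : Lg} {P M : Type} {F : Fr L P} {N : Mo L P M}, F.Ok → Md F.T N → ∀ x y z,
    F.D N x → F.D N y → F.D N z → F.Lt N x y → F.Ll N y z → F.Ll N x z
  cll : ∀ {L : Lg} {P M : Type} {F : Fr L P} {N : Mo L P M}, F.Ok → Md F.T N → ∀ x y z,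
    F.D N x → F.D N y → F.D N z → F.Cl N x y → F.Ll N y z → F.Ll N x z
  llc : ∀ {L : Lg} {P M : Type} {F : Fr L P} {N : Mo L P M}, F.Ok → Md F.T N → ∀ x y z,
    F.D N x → F.D N y → F.D N z → F.Ll N x y → F.Cl N y z → F.Ll N x z
  trn : ∀ {L : Lg} {P M : Type} {F : Fr L P} {N : Mo L P M}, F.Ok → Md F.T N → ∀ x y z,
    F.D N x → F.D N y → F.D N z → F.Ll N x y → F.Ll N y z → F.Ll N x z
  asy : ∀ {L : Lg} {P M : Type} {F : Fr L P} {N : Mo L P M}, F.Ok → Md F.T N → ∀ x y,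
    F.D N x → F.D N y → F.Lt N x y → ¬ F.Lt N y x

/-- [UNI] (0.8 h; uses `BAS`, `EMB`) Unions of chains of U-extensions.

Proof. `N'.A := ⋃ N ∈ c, N.A`, `N'.c` := the constants of a member (all members have the same
constants by `UE.cst`), `N'.S.RelMap R t := ∃ N ∈ c, (∀ i, t i ∈ N.A) ∧ N.S.RelMap R t` (function
symbols: those of a member). (1) For `N ∈ c` and `t` in `N.A`:
`N'.S.RelMap R t ↔ N.S.RelMap R t`, because for `N₁, N ∈ c` which contain `t` the relations agree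
(`EMB.uqi` for the formula `Qf.rel` and the identity). (2) Finitely many elements of `N'.A` lie in
one member which contains a given member (chain). (3) `UE N N' id`: let `φ` be true in `N` for `v`
(values in `N.A`, `ι` arbitrary), `z` in `N'.A`: `z` lies in `N₁ ∈ c` with `UE N N₁ id` (if
`UE N₁ N id` take `N₁ := N`), `φ` is true in `N₁`, so `φ.q` is true in `N₁` for `v`, `z`, and in
`N'` by (1) (`BAS.qeq`). (4) `Md T N'` by (3). -/
def St_UNI : Prop := ∀ (L : Lg) (P : Type) (T : Th L P) (M : Type) (c : Set (Mo L P M)),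
  c.Nonempty → (∀ N ∈ c, Md T N) → (∀ N ∈ c, ∀ N' ∈ c, UE N N' id ∨ UE N' N id) →
  ∃ N' : Mo L P M, N'.A = ⋃ N ∈ c, N.A ∧ Md T N' ∧ ∀ N ∈ c, UE N N' id

/-- [CHN] (1.3 h; uses `BAS`, `EMB`, `ABS`, `ORL`, `St_UNI`) Upper bounds of chains.

Proof. `N` from `St_UNI` for the first components; `X := ⋃ t ∈ c, t.2.1`,
`C y := ⋃ t ∈ c, t.2.2 y`. For `s, t ∈ c` with `s.2.2 y`, `t.2.2 y` nonempty they are equal
(`Ale.ext`), so `C y` is empty or equal to `t.2.2 y` for every `t ∈ c` with `t.2.2 y` nonempty.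
All notions are absolute or persist from `t.1` to `N` (`ABS.udd`, `ult`, `ucl`, `lam`, `has`, with
the identity). `xg`, `cc`, `cg`, `cr` (the steps `C s` of a member are steps of `C`) are clear. `xp`,
`dc`: finitely many elements lie in one member `t` (chain): `x ∈ t.2.1`, `y ∈ t.1.A`. `wo`: `Y ⊆ X`
nonempty: let `t ∈ c` with `Y ∩ t.2.1` nonempty, `m` its maximum for `t`; an element `y ∈ Y` not in
`t.2.1` is in `s.2.1`, `s ∈ c`, not `Ale s t`, so `Ale t s`, and `y < m` by `Ale.blw`. `Ale F t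
(N, X, C)`: `blw`: `x ∈ X`, `x ∉ t.2.1`, so `x ∈ s.2.1` with `Ale t s`. -/
def St_CHN : Prop := ∀ (L : Lg) (P M : Type) (F : Fr L P) (g : Adr F.T → ℕ) (N₀ : Mo L P M)
  (a : ℕ → M), Bse F g N₀ a → ∀ c : Set (Mo L P M × Set M × (M → Set M)), c.Nonempty →
  (∀ t ∈ c, Apx F g N₀ t.1 t.2.1 t.2.2) → IsChain (Ale F) c →
  ∃ N X C, Apx F g N₀ N X C ∧ ∀ t ∈ c, Ale F t (N, X, C)

/-- [ZRN] (0.7 h; uses `BAS`, `EMB`, `ABS`, `St_CHN`) Maximal approximations exist.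

Proof. `Ale` is transitive on approximations: `blw` for `s ≤ t ≤ r`, `x ∈ r.2.1 ∖ s.2.1`: if
`x ∈ t.2.1` then `x < x'` in `t.1`, so in `r.1` (`ABS.ult`; `x, x' ∈ t.1.A` by `Xok.xg`), otherwise
`Ale.blw` for `t ≤ r`. Start: `(N₀, ∅, fun _ => ∅)`. `exists_maximal_of_nonempty_chains_bounded`
(for the subtype of the approximations) and `St_CHN`. For the maximal `(N, X, C)` and a larger one
`(N', X', C')`: `Ale` holds in the other direction, so `N'.A ⊆ N.A` and `X' ⊆ X`. -/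
def St_ZRN : Prop := ∀ (L : Lg) (P M : Type) (F : Fr L P) (g : Adr F.T → ℕ) (N₀ : Mo L P M)
  (a : ℕ → M), Bse F g N₀ a → ∃ N X C, Mxm F g N₀ N X C

/-- [PLC] (1.2 h; uses `BAS`, `EMB`) Placing countably many new elements.

Proof. `j` is injective on `N.A` (`EMB.uin`). `B ∖ j '' N.A` is countable and `N.Aᶜ` is infinite, so
there is an injection `i` of `B ∖ j '' N.A` into `N.Aᶜ`. `h (j x) := x` for `x ∈ N.A`, `h := i` on
`B ∖ j '' N.A`, arbitrary otherwise. `h` is injective on `E := j '' N.A ∪ B`; `k` := an inverse on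
`h '' E` (`Function.invFunOn`). `N⁺.A := N.A ∪ h '' B = h '' E`, `N⁺.c := N.c`, `N⁺.S.RelMap R t :=
N'.S.RelMap R (k ∘ t)` (function symbols: those of `N`). So `Is (N'.sub E) N⁺ h`. `E` is closed in
`N'` (`EMB.ucw`, `EMB.cwu`), contains the constants, so `Md T (N'.sub E)` (`EMB.cmd`),
`Md T N⁺` (`EMB.imd`), `UE N (N'.sub E) j` (`EMB.usb`), `UE N N⁺ (h ∘ j)` (`EMB.iue`, `EMB.uco`), and
`h ∘ j` is the identity on `N.A` (`EMB.ucg`). -/
def St_PLC : Prop := ∀ (L : Lg) (P : Type) (T : Th L P) (M M' : Type) (N : Mo L P M)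
  (N' : Mo L P M') (j : M → M') (B : Set M'), Md T N → Md T N' → N.Aᶜ.Infinite → UE N N' j →
  Cw T N' B → B.Countable →
  ∃ (N₁ : Mo L P M) (h : M' → M), Md T N₁ ∧ UE N N₁ id ∧ N₁.A = N.A ∪ h '' B ∧
    Is (N'.sub (j '' N.A ∪ B)) N₁ h ∧ ∀ x ∈ N.A, h (j x) = x

/-- [YNE] (0.7 h; uses `EMB`, `ABS`, `ORL`) (5.1) There are good elements far below `X` and `v`.

Proof. Suppose there are none. The elements `a n` are in `N.A`, in `D`, good, `a n << a (n + 1)`,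
`a n << v` in `N` (`ABS` for `UE N₀ N id`). So for every `n` there is `x ∈ X` with not `a n << x`,
so `Cl (a n) x` or `x << a n` (`ORL.tri`). In the second case `Xok.dc` (`ABS.rgd`: `a n` has no
reason) gives `x' ∈ X` with `Cl (a n) x'`. So in all cases there is `x' n ∈ X` with
`Cl (a n) (x' n)`. Then `x' n << x' (n + 1)` (`ORL.cll`, `llc`, `csm`). The set `range x'` has no
maximum (`asy`, `irr`), against `Xok.wo`. -/
def St_YNE : Prop := ∀ (L : Lg) (P M : Type) (F : Fr L P) (g : Adr F.T → ℕ) (N₀ : Mo L P M)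
  (a : ℕ → M), Bse F g N₀ a → ∀ N X C, Apx F g N₀ N X C → ∃ y, Blw F g N X y

/-- [DCD] (1.5 h; uses `BAS`, `EMB`, `ABS`, `ORL`, `St_RSN`, `St_PLC`) (5.2) In a maximal
approximation all elements of `D` far below `v` are decided.

Proof. Let `y ∈ D`, `y << v`, not good and without reason. By `Xok.dc` there is no `x ∈ X` with
`x << y`. `St_RSN`: `M', N', j` with `UE N N' j` and a tree `u` of `j y` in `N'`; `B := range u`
(`ABS.lcw`). `St_PLC`: `N₁`, `h`. Let `u' := h ∘ u`: `F.Lam g N₁ y u'` (`u' [] = h (j y) = y`;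
`ABS.lsb` with `C := j '' N.A ∪ B`, and `EMB.iue`, `ABS.lam` for `Is (N'.sub C) N₁ h`). Let
`X₁ := X`, `C₁ y := range u'`, `C₁ z := C z` for `z ≠ y`. `C y` is empty, since otherwise `y` is good
in `N`. Check `Apx F g N₀ N₁ X C₁`: everything persists from `N` to `N₁` by absoluteness, except
`dc` for new elements: let `x ∈ X`, `z ∈ N₁.A ∖ N.A`, `z ∈ D`, `x << z << v`; `z = u' s`. If `y < z`,
then `z` is close to `y` (`ABS.lbt`), so `z ∈ N.A` by `Ok.ab1` (the closed set `id '' N.A`,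
`EMB.ucw`): contradiction. `z ≠ y`. So `z < y` (`Ok.tot`), and `x << y` (`ORL.lll`) in `N₁` and in
`N`: contradiction. `cr`: an element of `h '' B = range u'` is reached from `y` in one more step
(`y ∈ N.A` is reached; the steps of `C` are steps of `C₁`, since `C y` is empty). `Ale` is clear. By
maximality `N₁.A ⊆ N.A`, so all `u' s` are in `N.A`, and `y` is good in `N`: `ABS.lsb` for `N₁` and
`C := N.A`, and `Is (N₁.sub N.A) N id` by `EMB.uqi` (then `ABS.isg`). Contradiction. -/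
def St_DCD : Prop := ∀ (L : Lg) (P M : Type) (F : Fr L P) (g : Adr F.T → ℕ) (N₀ : Mo L P M)
  (a : ℕ → M), Bse F g N₀ a → ∀ N X C, Mxm F g N₀ N X C → N.Aᶜ.Infinite →
  ∀ y, F.D N y → F.Ll N y (N.c F.v) → F.Good g N y ∨ F.Rd g N y

/-- [CON] (1.2 h; uses `BAS`, `EMB`, `ABS`, `St_CPE`) Compactness for a new good element in a cut.

Proof. `St_CPE` with `V := Adr F.T` and `Γ` := the formulas for `Lam g` (witnesses for all `s`, `k`;
bounds `Bd g` with `y := u []`, `BAS.uimp`), `D (u [])`, `y < u []` for `y ∈ Lo`, `u [] < x` for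
`x ∈ Hi`. For a finite subset `Δ` only finitely many `y ∈ Lo`, `x ∈ Hi` occur; let `y₀` be the
largest of them, `x₀` the smallest (if there are none take any element of `Lo`, `Hi`; `Ok.tot`,
`Ok.trs` in `N`, induction on finite sets), and take the model of the hypothesis for `y₀`, `x₀`; in it
`j y ≤ j y₀ < z < j x₀ ≤ j x` (`ABS.ult`, `Ok.trs` in `N'`); `φ₀` is true by `UE.tr`. -/
def St_CON : Prop := ∀ (L : Lg) (P M : Type) (F : Fr L P) (g : Adr F.T → ℕ) (N : Mo L P M),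
  F.Ok → Md F.T N → ∀ Lo Hi : Set M, Lo.Nonempty → Hi.Nonempty → (∀ y ∈ Lo, F.D N y) →
  (∀ y ∈ Hi, F.D N y) →
  (∀ y ∈ Lo, ∀ x ∈ Hi, ∃ (M' : Type) (N' : Mo L P M') (j : M → M') (z : M'), Md F.T N' ∧
    UE N N' j ∧ F.D N' z ∧ F.Good g N' z ∧ F.Lt N' (j y) z ∧ F.Lt N' z (j x)) →
  ∃ (M' : Type) (N' : Mo L P M') (j : M → M') (z : M'), Md F.T N' ∧
    UE N N' j ∧ F.D N' z ∧ F.Good g N' z ∧ (∀ y ∈ Lo, F.Lt N' (j y) z) ∧
    ∀ x ∈ Hi, F.Lt N' z (j x)

/-- [NEW] (2 h; uses `BAS`, `EMB`, `ABS`, `ORL`, `St_PLC`) (5.3) A maximal approximation has no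
U-extension with a good element `z` between the classes of the good elements below `X`, `v` and the
classes of the elements of `X` and `v`.

Proof. (1) `z ∉ j '' N.A`: suppose `z = j z₀`. Then `z₀ ∈ D` (`ABS.udd`) and `z₀ < x'` for all `x'`
in the class of `x₁`, `x₁ ∈ X` or `x₁ = v`; so `z₀ << x₁` (not close: otherwise take `x' := z₀`,
`Ok.csm`, `Ok.irr`; and `x' := x₁`, `Ok.crf`). By the hypothesis `z₀` is good or has a reason; it has
no reason, as `j z₀` is good (`ABS.has`, `ABS.rgd`). So `Blw F g N X z₀`, and `z₀ < z₀` (take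
`y = y' = z₀`): contradiction.
(2) Let `u` be a tree of `z`, `B := range u`, `St_PLC`: `N₁`, `h`; `x⁺ := h z`, `u' := h ∘ u`,
`F.Lam g N₁ x⁺ u'` (as in `St_DCD`), `x⁺ ∉ N.A` (`h` is injective on `j '' N.A ∪ B` and
`h (j a) = a`). In `N₁`: `y' < x⁺` for `y'` close to `y`, `Blw y`; `x⁺ < x'` for `x'` close to
`x₁ ∈ X` or `x₁ = v` (isomorphism). The class of an element of `D ∩ N.A` is contained in `N.A`
(`Ok.ab1` in `N₁` for `id '' N.A`), so `x⁺` is not close to elements of `N.A`.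
(3) `X₁ := X ∪ {x⁺}`, `C₁ x⁺ := range u'`, `C₁ y := C y` otherwise (`C x⁺` is empty, since good
elements are in `N.A`). Check `Apx F g N₀ N₁ X₁ C₁`. `xg`, `xp`: `x⁺ << v`, `x⁺` is not close to the
elements of `X`. `wo`: `x⁺` is below all elements of `X`. `dc`: let `x₁ ∈ X₁`, `x₁ << z' << v`.
If `z' ∉ N.A`: `z' = u' s`; `x⁺ < z'` (if `x₁ ∈ X`: `x⁺ < x₁ < z'`), so `z'` is close to `x⁺`
(`ABS.lbt`); if `x₁ = x⁺` this is a contradiction, if `x₁ ∈ X` then `x₁` is close to `x⁺` (`Ok.cvx`):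
contradiction. If `z' ∈ N.A` and `x₁ ∈ X`: `dc` in `N` (absoluteness). If `z' ∈ N.A` and `x₁ = x⁺`:
`z'` is decided in `N`; a reason persists; if `z'` is good in `N`, it is not below `X` in the sense
of `Blw` (otherwise `z' < x⁺`), so there is `x₂ ∈ X` with not `z' << x₂`: `z'` is close to `x₂`, or
`x₂ << z'` (`ORL.tri`), and `dc` in `N` applies. `cc`, `cg`, `cr` as in `St_DCD`.
(4) `Ale F (N, X, C) (N₁, X₁, C₁)`; so `N₁.A ⊆ N.A`, against `x⁺ ∉ N.A`. -/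
def St_NEW : Prop := ∀ (L : Lg) (P M : Type) (F : Fr L P) (g : Adr F.T → ℕ) (N₀ : Mo L P M)
  (a : ℕ → M), Bse F g N₀ a → ∀ N X C, Mxm F g N₀ N X C → N.Aᶜ.Infinite →
  (∀ y, F.D N y → F.Ll N y (N.c F.v) → F.Good g N y ∨ F.Rd g N y) →
  ¬ ∃ (M' : Type) (N' : Mo L P M') (j : M → M') (z : M'), Md F.T N' ∧ UE N N' j ∧ F.D N' z ∧
    F.Good g N' z ∧ (∀ y, Blw F g N X y → ∀ y', F.D N y' → F.Cl N y y' → F.Lt N' (j y') z) ∧
    ∀ x₁, (x₁ ∈ X ∨ x₁ = N.c F.v) → ∀ x', F.D N x' → F.Cl N x₁ x' → F.Lt N' z (j x')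

/-- [OLD] (1 h; uses `BAS`, `EMB`, `ABS`, `ORL`) (5.4) In a maximal approximation there are, for `y'`
in the class of a good element `y` below `X`, `v`, and `x'` in the class of `x₁ ∈ X` or `x₁ = v`,
U-extensions with a good element between `y'` and `x'`.

Proof. Suppose not, for `y, y', x₁, x'`. (1) There is no `x₂ ∈ X` with `x₂ << x₁`: otherwise
`N' := N`, `z := x₂` (`y' ~ y << x₂`, so `y' < x₂`; `x₂ << x₁ ~ x'`, so `x₂ < x'`; `ORL`). (2) There
is no `y₂` with `Blw y₂` and `y << y₂`: otherwise `z := y₂` (`y' ~ y << y₂ << x₁ ~ x'`).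
(3) Let `X₁ := X ∪ {y}`. `Apx F g N₀ N X₁ C`: `xg`, `xp`, `wo` (`y` is far below all elements of
`X`), `cc`, `cg`, `cr` are clear. `dc`: for `x ∈ X` from `dc` for `X`. For `x = y`: `y << z << v`; `z`
is decided; let `z` be good. Not `Blw z`, by (2). So there is `x₂ ∈ X` with not `z << x₂`: `z ~ x₂`,
or `x₂ << z`, and `dc` for `X` applies. (4) `Ale F (N, X, C) (N, X₁, C)`, so `y ∈ X` and `y << y`:
contradiction (`irr`). -/
def St_OLD : Prop := ∀ (L : Lg) (P M : Type) (F : Fr L P) (g : Adr F.T → ℕ) (N₀ : Mo L P M)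
  (a : ℕ → M), Bse F g N₀ a → ∀ N X C, Mxm F g N₀ N X C →
  (∀ y, F.D N y → F.Ll N y (N.c F.v) → F.Good g N y ∨ F.Rd g N y) →
  ∀ y, Blw F g N X y → ∀ y', F.D N y' → F.Cl N y y' → ∀ x₁, (x₁ ∈ X ∨ x₁ = N.c F.v) →
  ∀ x', F.D N x' → F.Cl N x₁ x' →
  ∃ (M' : Type) (N' : Mo L P M') (j : M → M') (z : M'), Md F.T N' ∧ UE N N' j ∧ F.D N' z ∧
    F.Good g N' z ∧ F.Lt N' (j y') z ∧ F.Lt N' z (j x')

/-- [CRD] (1 h; no other module) Cardinalities.

Proof. For `b : M` the set `R b` of the elements reached from `b` is countable (`⋃ n`, the elements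
reached in `n` steps: countable by induction, as all `C s` are countable). `N.A ⊆ ⋃ b ∈ N₀.A ∪ X,
R b`. If `#X ≤ 𝔠` then `#(N₀.A ∪ X) ≤ 𝔠`, so `#N.A ≤ 𝔠 * ℵ₀ = 𝔠`, and `#M ≤ #N.A + #N.Aᶜ ≤ 𝔠`. -/
def St_CRD : Prop := ∀ (L : Lg) (P M : Type) (F : Fr L P) (g : Adr F.T → ℕ) (N₀ N : Mo L P M)
  (X : Set M) (C : M → Set M), Apx F g N₀ N X C → N₀.A.Countable → N.Aᶜ.Finite → 𝔠 < #M →
  𝔠 < #X

/-- [PLM] (0.6 h; uses `BAS`, `EMB`) Changing the carrier.

Proofs. (1) `N.A` is countable, `M'` infinite: `h` injective on `N.A`; define `N'` on `h '' N.A` with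
the inverse map. (2) `N'.S.RelMap R t := N.S.RelMap R fun i => t i` etc. -/
def St_PLM : Prop := (∀ (L : Lg) (P M M' : Type) (N : Mo L P M), Infinite M' → N.A.Countable →
    (∀ p, N.c p ∈ N.A) → N.A.Nonempty → ∃ (N' : Mo L P M') (h : M → M'), Is N N' h) ∧
  ∀ (L : Lg) (P M : Type) (N : Mo L P M), (∀ p, N.c p ∈ N.A) → N.A.Nonempty →
    ∃ N' : Mo L P N.A, N'.A = Set.univ ∧ Is N' N Subtype.val

/-- [LNG] (1.3 h; uses `BAS`, `EMB`, `ABS`, `ORL`, `St_ZRN`, `St_YNE`, `St_DCD`, `St_CON`, `St_NEW`,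
`St_OLD`, `St_CRD`, `St_PLM`) The long sequence.

Proof. Let `M₁ := Set (Set ℕ)`, `#M₁ = 2 ^ 𝔠 > 𝔠`. `St_PLM` (1): `N₁ : Mo L P M₁`, `h`,
`Is N₀ N₁ h`; `Bse F g N₁ (h ∘ a)` (`EMB`, `ABS.isd`, ..). `St_ZRN`: `Mxm F g N₁ N X C`. `N.Aᶜ` is
finite: otherwise `St_DCD`; let `Lo` be the set of the elements `y' ∈ D` close to some `y` with `Blw
y` (nonempty: `St_YNE`, `crf`), `Hi` the set of the `x' ∈ D` close to an element of `X` or to `v`
(contains `v`, `Ok.vdd`); by `St_OLD` the hypothesis of `St_CON` is true, and `St_CON` contradicts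
`St_NEW`. `St_CRD`: `𝔠 < #X`. `St_PLM` (2): `N' : Mo L P N.A`, `N'.A = univ`, `Is N' N val`. Let
`M' := N.A`, `X' := Subtype.val ⁻¹' X` (`#X' = #X`, since `X ⊆ N.A`), `e x := ⟨h x, _⟩` for
`x ∈ N₀.A` (and arbitrary otherwise). `UE N₀ N' e`: composition of `UE N₀ N₁ h`, `UE N₁ N id` and the
inverse of the isomorphism (`EMB.isi`, `EMB.iue`). `Xok F g N' X'`: by the isomorphism (`ABS.isd`,
`isl`, `isc`, `isg`; for `Rd`: `ABS.has` for the inverse map). -/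
def St_LNG : Prop := ∀ (L : Lg) (P M : Type) (F : Fr L P) (g : Adr F.T → ℕ) (N₀ : Mo L P M)
  (a : ℕ → M), Bse F g N₀ a → ∃ (M' : Type) (N : Mo L P M') (e : M → M') (X : Set M'),
  N.A = Set.univ ∧ UE N₀ N e ∧ Xok F g N X ∧ 𝔠 < #X

end ORD
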