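import Pool.Agent.ORD.StB
import Pool.Agent.UN.StB

/-!
# ORD: statements, part C (section 6: the template)
-/

set_option autoImplicit false
set_option linter.unusedVariables false

namespace ORD

open Set FirstOrder Filter

/-! ## Definitions -/

variable {L : Lg} {P M M' M₀ I : Type}

/-- the function symbols of the template: witnesses, trees of good elements, parameters of reasons,
constants -/
inductive Fs (F : Fr L P) (g : Adr F.T → ℕ) (I : Type) : Type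
  | wt (k : F.T.K) (i : Fin (F.T.n k)) : Fs F g I
  | tr (s : Adr F.T) : Fs F g I
  | rp (ρ : F.Rsn g) (i : Fin ρ.n) : Fs F g I
  | cs (m : I) : Fs F g I

/-- the relation symbols of the template: U-formulas, good elements, closeness, reasons -/
inductive Rs (F : Fr L P) (g : Adr F.T → ℕ) : Type
  | uf (r : ℕ) (φ : Uf L (P ⊕ Fin r)) : Rs F g
  | gd : Rs F g
  | cl : Rs F g
  | rs (ρ : F.Rsn g) : Rs F g

/-- arities -/
def Rs.ar {F : Fr L P} {g : Adr F.T → ℕ} : Rs F g → ℕ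
  | .uf r _ => r
  | .gd => 1
  | .cl => 2
  | .rs _ => 1

/-- the signature of the template -/
abbrev SG (F : Fr L P) (g : Adr F.T → ℕ) (I : Type) : UN.Sg := ⟨Fs F g I, Rs F g, Rs.ar⟩

variable {F : Fr L P} {g : Adr F.T → ℕ}

def ufR (S : UN.Sys (SG F g I) M) {r : ℕ} (φ : Uf L (P ⊕ Fin r)) (v : Fin r → M) : Prop :=
  S.rel (Rs.uf r φ) v

def gdR (S : UN.Sys (SG F g I) M) (y : M) : Prop := S.rel Rs.gd fun _ => y

def clR (S : UN.Sys (SG F g I) M) (x y : M) : Prop := S.rel Rs.cl (![x, y] : Fin 2 → M)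

def rsR (S : UN.Sys (SG F g I) M) (ρ : F.Rsn g) (y : M) : Prop := S.rel (Rs.rs ρ) fun _ => y

/-- the meaning of the symbols; this is preserved by ultrapowers -/
structure Sy (F : Fr L P) (g : Adr F.T → ℕ) (N : Mo L P M) (S : UN.Sys (SG F g I) M) (e : I → M) :
    Prop where
  wt : ∀ k y, F.T.Wit N k y fun i => S.fn (Fs.wt k i) y
  tr : ∀ y, gdR S y → F.Lam g N y fun s => S.fn (Fs.tr s) y
  rs : ∀ ρ y, rsR S ρ y → Fr.Has N y ρ fun i => S.fn (Fs.rp ρ i) y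
  cs : ∀ m y, S.fn (Fs.cs m) y = e m
  uf : ∀ (r : ℕ) (φ : Uf L (P ⊕ Fin r)) (v : Fin r → M), ufR S φ v ↔ N.Tr φ v
  cl : ∀ x y, F.Cl N x y → clR S x y

/-- the meaning of the symbols in the standard structure -/
structure Sz (F : Fr L P) (g : Adr F.T → ℕ) (N : Mo L P M) (S : UN.Sys (SG F g I) M) (e : I → M) :
    Prop extends Sy F g N S e where
  gd : ∀ y, F.Good g N y → gdR S y
  rd : ∀ y, F.Rd g N y → ∃ ρ, rsR S ρ y
  lc : ∀ x y, clR S x y → F.Cl N x y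

/-- Templates: the model `N` with the set `X` of section 5, a sequence `x` in `X` with a common
record, an ultrapower `N'` of `N` and an indiscernible sequence `y` along the rationals, of the
type of `x`. -/
structure Tp (F : Fr L P) (g : Adr F.T → ℕ) (N₀ : Mo L P M₀) : Type 1 where
  M : Type
  M' : Type
  N : Mo L P M
  N' : Mo L P M'
  S : UN.Sys (SG F g N₀.A) M
  S' : UN.Sys (SG F g N₀.A) M'
  e : M₀ → M
  q : M → M'
  X : Set M
  x : ℕ → M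
  y : ℚ → M'
  ok : F.Ok
  md₀ : Md F.T N₀
  ue : UE N₀ N e
  nu : N.A = univ
  xo : Xok F g N X
  sz : Sz F g N S fun m => e m
  xX : ∀ n, x n ∈ X
  xl : ∀ n m, n < m → F.Ll N (x m) (x n)
  xr : ∀ n m, UN.Eqv S (fun _ : Unit => x n) S fun _ : Unit => x m
  uq : UE N N' q
  nu' : N'.A = univ
  md' : Md F.T N'
  sy : Sy F g N' S' fun m => q (e m)
  ind : UN.Ind S' q fun (j : ℚ) (_ : Unit) => y j
  lim : ∀ i j : ℚ, i < j → ∀ a : UN.At (SG F g N₀.A) (M ⊕ (Unit ⊕ Unit)),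
    UN.Tr S' (Sum.elim q (Sum.elim (fun _ => y i) fun _ => y j)) a ↔
      ∀ᶠ k in (hyperfilter ℕ : Filter ℕ), ∀ᶠ l in (hyperfilter ℕ : Filter ℕ),
        UN.Tr S (Sum.elim id (Sum.elim (fun _ => x k) fun _ => x l)) a

namespace Tp

variable {N₀ : Mo L P M₀} (t : Tp F g N₀)

/-- the word `w` at the index `n`, in `N` -/
def V (w : List (Fs F g N₀.A)) (n : ℕ) : t.M := t.S.w w (t.x n)

/-- the word `w` at the index `j`, in `N'` -/
def W (w : List (Fs F g N₀.A)) (j : ℚ) : t.M' := t.S'.w w (t.y j)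

/-- the closed set of the indices `J` -/
def NJ (J : Set ℚ) : Set t.M' := {z | ∃ j ∈ J, ∃ w, z = t.W w j}

/-- good words: they are between the neighbouring indices -/
structure GW (w : List (Fs F g N₀.A)) : Prop where
  g : gdR t.S' (t.W w 0)
  d : F.D t.N' (t.W w 0)
  l : F.Lt t.N' (t.W w 0) (t.y (-1))
  r : F.Lt t.N' (t.y 1) (t.W w 0)

end Tp

/-! ## Statements -/

/-- [SYS] (0.5 h; uses `BAS`, `EMB`) The standard interpretation of the symbols exists.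

Proof. Choice. `wt`: witnesses (`Md.wit`, `N.A = univ`). `tr`: a tree if `y` is good, arbitrary
otherwise; `rp ρ i`: the parameters if `Has N y ρ a` for some `a`; `rsR S ρ y := ∃ a, Has N y ρ a`;
`clR := F.Cl N`, `gdR := F.Good g N`, `ufR := N.Tr`. -/
def St_SYS : Prop := ∀ (L : Lg) (P M I : Type) (F : Fr L P) (g : Adr F.T → ℕ) (N : Mo L P M)
  (e : I → M), N.A = univ → Md F.T N → ∃ S : UN.Sys (SG F g I) M, Sz F g N S e

/-- [REC] (1.2 h; uses `BAS`) A decreasing sequence in `X` with a common record.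

Proof. `UN.At (SG F g I) Unit` is countable: `Fs F g I`, `Rs F g` are countable (`BAS.ctu`, `ctT`,
`ctR`; `Fs` injects into a sum of countable types), so are lists, `Sigma` types over the relation
symbols and functions from `Fin`. The record of `z` is `{a | Tr S (fun _ => z) a}`, an element of
`Set (At ..)`, a type of cardinality `≤ 𝔠`. If all `{z ∈ X | record z = r}` were finite (or
countable), `#X ≤ 𝔠 * ℵ₀ = 𝔠`. So some `Z := {z ∈ X | record z = r}` is infinite. Let `x n` be the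
maximum (`Xok.wo`) of `Z ∖ {x 0, .., x (n - 1)}` (define by strong recursion the finite sets, or use
`Nat.strongRec`). For `n < m`: `x m ∈ Z ∖ {x 0, .., x (n - 1)}`, `x m ≠ x n`, so `x m < x n`, and they
are not close by `Xok.xp`. -/
def St_REC : Prop := ∀ (L : Lg) (P M I : Type) (F : Fr L P) (g : Adr F.T → ℕ) (N : Mo L P M)
  (X : Set M) (S : UN.Sys (SG F g I) M), (∀ n, Countable (L.Relations n)) → Countable P →
  Countable F.T.K → Countable I → F.Ok → Xok F g N X → Cardinal.continuum < Cardinal.mk X →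
  ∃ x : ℕ → M, (∀ n, x n ∈ X) ∧ (∀ n m, n < m → F.Ll N (x m) (x n)) ∧
    ∀ n m, UN.Eqv S (fun _ : Unit => x n) S fun _ : Unit => x m

/-- [TPL] (1.2 h; uses `UN.St_UPR`, `UN.St_QLB`) Indiscernible sequences in ultrapowers.

Proof. This is the proof of `UN.thm_EMQ` (`Pool/Agent/UN/EMQ.lean`) together with the proof of
`UN.St_LIM` (docstring in `UN/StA.lean`, proof in `UN/LIM.lean`): let `Θ a` be the limit type
`EMQ_T` for `W := hyperfilter ℕ`, finitely satisfiable (`EMQ_sat`);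
`X := Finset (At G (M ⊕ ℚ × ι))`, `u := Ultrafilter.of Filter.atTop`, `v D : ℚ × ι → M` satisfies
the finitely many atoms of `D`; `N, S', q` from `UN.St_UPR` for the class `U M S := Nonempty M`
(`IsU`), `x i r := q fun D => v D (i, r)`. Copy the (private) lemmas of `EMQ.lean`. -/
def St_TPL : Prop := ∀ (G : UN.Sg) (M ι : Type) (S : UN.Sys G M) (z : ℕ → ι → M), Nonempty M →
  ∃ (N X : Type) (u : Ultrafilter X) (S' : UN.Sys G N) (q : (X → M) → N) (x : ℚ → ι → N),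
    Function.Surjective q ∧
    (∀ (κ : Type) (v : κ → X → M) (a : UN.At G κ), UN.Tr S' (fun i => q (v i)) a ↔
      ∀ᶠ t in (u : Filter X), UN.Tr S (fun i => v i t) a) ∧
    UN.Ind S' (fun m => q fun _ => m) x ∧
    ∀ i j : ℚ, i < j → ∀ a : UN.At G (M ⊕ (ι ⊕ ι)),
      (UN.Tr S' (Sum.elim (fun m => q fun _ => m) (Sum.elim (x i) (x j))) a ↔
        ∀ᶠ k in (hyperfilter ℕ : Filter ℕ), ∀ᶠ l in (hyperfilter ℕ : Filter ℕ),
          UN.Tr S (Sum.elim id (Sum.elim (z k) (z l))) a)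

/-- [MOX] (1.4 h; uses `BAS`, `EMB`) Ultrapowers of models.

Proof. `N'.A := univ`, `N'.c p := qq fun _ => N.c p`, `N'.S.RelMap R w := S'.rel (Rs.uf n φ) w` with
`φ := Uf.qf (Qf.rel n R Sum.inr)` (function symbols: constant functions; `M'` is nonempty).
Los: (*) `N'.Tr φ (fun i => qq (v i)) ↔ ∀ᶠ t in u, N.Tr φ (fun i => v i t)` for all `φ : Uf L (P ⊕ ι)`,
and the same for `Qf`: first for `Qf L (P ⊕ ι)` by induction (`eq`: the hypothesis for the atom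
`.eq ([], i) ([], j)`, where the constants `qq fun _ => N.c p` are included among the values `v`;
`rel`: the atom `.rel (Rs.uf n φ)` and `Sy.uf`, `BAS.uqf`; `imp`: `Ultrafilter.eventually_imp`);
for `Uf`: the values `z` are `qq (z' k)` (surjective); if not eventually true then eventually false,
choose `z' k t` (`N.A = univ`). `Md F.T N'`: every element is `qq v`, witnesses coordinatewise
(`Md.wit`). `UE N N' (fun m => qq fun _ => m)`: (*) for constant `v`. `Sy`: `qq` is surjective, and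
`S'.fn f (qq v) = qq fun t => S.fn f (v t)` (the atom `.eq ([f], i) ([], k)` for the family `v`,
`fun t => S.fn f (v t)`). `wt`: (*). `tr`: `gdR S' (qq v)` gives `gdR S (v t)` eventually; `uni`
trivial; `top`: `S.fn (Fs.tr []) (v t) = v t` eventually; `wit`, `bd`: (*) (in `bd` all premises hold
eventually). `rs`, `cs`, `uf`: similar (`uf`: (*) and `Sy.uf` for `S`). `cl`: `F.Cl N' x y` means
`N'.Tr (F.E n) ![x, y]` for some `n`, so `N.Tr (F.E n) ..` eventually, `clR S` eventually. -/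
def St_MOX : Prop := ∀ (L : Lg) (P M M' I X : Type) (F : Fr L P) (g : Adr F.T → ℕ) (N : Mo L P M)
  (S : UN.Sys (SG F g I) M) (e : I → M) (u : Ultrafilter X) (S' : UN.Sys (SG F g I) M')
  (qq : (X → M) → M'), N.A = univ → Md F.T N → Sy F g N S e → Function.Surjective qq →
  (∀ (κ : Type) (v : κ → X → M) (a : UN.At (SG F g I) κ), UN.Tr S' (fun i => qq (v i)) a ↔
    ∀ᶠ t in (u : Filter X), UN.Tr S (fun i => v i t) a) →
  ∃ N' : Mo L P M', N'.A = univ ∧ Md F.T N' ∧ Sy F g N' S' (fun m => qq fun _ => e m) ∧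
    UE N N' fun m => qq fun _ => m

/-- [TPX] (0.6 h; uses `St_LNG`, `St_SYS`, `St_REC`, `St_TPL`, `St_MOX`) Templates exist.

Proof. `St_LNG`: `M, N, e, X`. `St_SYS` for `I := N₀.A`, `fun m => e m`: `S`. `St_REC`: `x` (`N₀.A` is
countable). `St_TPL` for `ι := Unit`, `z n := fun _ => x n`: `M', X', u, S', qq, x'`;
`y j := x' j ()`. `St_MOX`: `N'`. `q m := qq fun _ => m`. -/
def St_TPX : Prop := ∀ (L : Lg) (P M₀ : Type) (F : Fr L P) (g : Adr F.T → ℕ) (N₀ : Mo L P M₀)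
  (a : ℕ → M₀), (∀ n, Countable (L.Relations n)) → Countable P → Bse F g N₀ a →
  Nonempty (Tp F g N₀)

/-- [WRD] (1.6 h; uses `BAS`, `EMB`, `ORL`) Words at one or two indices.

Proofs. (0) One variable: for `a : At (SG F g N₀.A) Unit`: `Tr S' (fun _ => y j) a ↔
Tr S (fun _ => x n) a` for all `j`, `n`: `Tp.lim` for `j < j + 1` and the atom
`a.map fun _ => Sum.inr (Sum.inl ())`, and `Tp.xr`. So every atom in words at one index is the same
in `N'` and in `N`. `d`, `l`: the symbol `Rs.uf` for the formulas `Uf.qf F.d`, `Uf.qf F.l`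
(`Sy.uf`, `BAS.uqf`; `D` also says `∈ univ`). `c`: `→`: `Sy.cl` for `N'`, (0) for the symbol
`Rs.cl`, `Sz.lc`; `←`: `N.Tr (F.E d) ..` for some `d`, (0) for `Rs.uf 2 (F.E d)`. `g`: `Sz.gd`,
`Sy.tr` in `N`, (0) for `Rs.gd`. `r`: (0). `lv`: `c`, `l` for the word `w' := [Fs.cs ⟨N₀.c F.v, _⟩]`:
`V w' n = e (N₀.c F.v) = N.c F.v`, `W w' j = q (e (N₀.c F.v)) = N'.c F.v` (`Sy.cs`, `UE.cst`).
`i1`, `i2`: `Tp.ind` for `n = 2`, the pairs `![i, j]`, `![i', j']` (strictly monotone) and the atom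
`.rel (Rs.uf 2 (Uf.qf F.l))` in the words `w`, `w'`.
`nr`: suppose `clR S' (W w i) (y j)`, `i ≠ j`, `D (W w i)`; so `D (V w n)` for all `n` (`d`). If
`i < j`: by `lim` for almost all `k`, for almost all `l`, `F.Cl N (V w k) (x l)` (`Sz.lc`); take
such a `k` and two different such `l`, `l'` (the hyperfilter is not principal:
`Filter.Eventually.and`, `hyperfilter_le_cofinite`, or: the set is infinite); `x l`, `x l'` are close
(`Ok.csm`, `Ok.ctr`), so equal (`Xok.xp`), but `x l' < x l` or conversely (`Tp.xl`), `Ok.irr`. If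
`j < i`: for almost all `l`, for almost all `k`, `F.Cl N (V w k) (x l)`: take two different `l`, `l'`
and a common `k`. `nr'`: the same for `clR S' (y j) (W w i)`. `nc`, `nc'`: `Sy.cl`.
`yd`, `yv`: `d`, `lv` for `w = []` and `Xok.xg`. `yl`: `Lt`: `lim` (for fixed `k` almost all `l`
are `> k`, `Tp.xl`), not close: `nc`. `ex`: if `k = j`: `ll` with `w' = []` (`n = m`). If `j < k`:
`lim` for the atoms of `y k < W w j` (true) and `clR (y k) (W w j)` (false by `nr'`): for almost all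
`n`, for almost all `m`: `x m < V w n` and not `clR S (x m) (V w n)`, so `Ll` (`Sy.cl`). If `k < j`:
the same with the other order of the limits. -/
structure WRD : Prop where
  d : ∀ {L : Lg} {P M₀ : Type} {F : Fr L P} {g : Adr F.T → ℕ} {N₀ : Mo L P M₀} (t : Tp F g N₀)
    (w : List (Fs F g N₀.A)) (j : ℚ) (n : ℕ), F.D t.N' (t.W w j) ↔ F.D t.N (t.V w n)
  l : ∀ {L : Lg} {P M₀ : Type} {F : Fr L P} {g : Adr F.T → ℕ} {N₀ : Mo L P M₀} (t : Tp F g N₀)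
    (w w' : List (Fs F g N₀.A)) (j : ℚ) (n : ℕ),
    F.Lt t.N' (t.W w j) (t.W w' j) ↔ F.Lt t.N (t.V w n) (t.V w' n)
  c : ∀ {L : Lg} {P M₀ : Type} {F : Fr L P} {g : Adr F.T → ℕ} {N₀ : Mo L P M₀} (t : Tp F g N₀)
    (w w' : List (Fs F g N₀.A)) (j : ℚ) (n : ℕ),
    F.Cl t.N' (t.W w j) (t.W w' j) ↔ F.Cl t.N (t.V w n) (t.V w' n)
  ll : ∀ {L : Lg} {P M₀ : Type} {F : Fr L P} {g : Adr F.T → ℕ} {N₀ : Mo L P M₀} (t : Tp F g N₀)
    (w w' : List (Fs F g N₀.A)) (j : ℚ) (n : ℕ),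
    F.Ll t.N' (t.W w j) (t.W w' j) ↔ F.Ll t.N (t.V w n) (t.V w' n)
  g : ∀ {L : Lg} {P M₀ : Type} {F : Fr L P} {g : Adr F.T → ℕ} {N₀ : Mo L P M₀} (t : Tp F g N₀)
    (w : List (Fs F g N₀.A)) (j : ℚ) (n : ℕ), gdR t.S' (t.W w j) ↔ F.Good g t.N (t.V w n)
  r : ∀ {L : Lg} {P M₀ : Type} {F : Fr L P} {g : Adr F.T → ℕ} {N₀ : Mo L P M₀} (t : Tp F g N₀)
    (w : List (Fs F g N₀.A)) (ρ : F.Rsn g) (j : ℚ) (n : ℕ),
    rsR t.S' ρ (t.W w j) ↔ rsR t.S ρ (t.V w n)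
  lv : ∀ {L : Lg} {P M₀ : Type} {F : Fr L P} {g : Adr F.T → ℕ} {N₀ : Mo L P M₀} (t : Tp F g N₀)
    (w : List (Fs F g N₀.A)) (j : ℚ) (n : ℕ),
    F.Ll t.N' (t.W w j) (t.N'.c F.v) ↔ F.Ll t.N (t.V w n) (t.N.c F.v)
  i1 : ∀ {L : Lg} {P M₀ : Type} {F : Fr L P} {g : Adr F.T → ℕ} {N₀ : Mo L P M₀} (t : Tp F g N₀)
    (w w' : List (Fs F g N₀.A)) (i j i' j' : ℚ), i < j → i' < j' →
    (F.Lt t.N' (t.W w i) (t.W w' j) ↔ F.Lt t.N' (t.W w i') (t.W w' j'))
  i2 : ∀ {L : Lg} {P M₀ : Type} {F : Fr L P} {g : Adr F.T → ℕ} {N₀ : Mo L P M₀} (t : Tp F g N₀)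
    (w w' : List (Fs F g N₀.A)) (i j i' j' : ℚ), i < j → i' < j' →
    (F.Lt t.N' (t.W w j) (t.W w' i) ↔ F.Lt t.N' (t.W w j') (t.W w' i'))
  nr : ∀ {L : Lg} {P M₀ : Type} {F : Fr L P} {g : Adr F.T → ℕ} {N₀ : Mo L P M₀} (t : Tp F g N₀)
    (w : List (Fs F g N₀.A)) (i j : ℚ), i ≠ j → F.D t.N' (t.W w i) →
    ¬ clR t.S' (t.W w i) (t.y j)
  nr' : ∀ {L : Lg} {P M₀ : Type} {F : Fr L P} {g : Adr F.T → ℕ} {N₀ : Mo L P M₀} (t : Tp F g N₀)
    (w : List (Fs F g N₀.A)) (i j : ℚ), i ≠ j → F.D t.N' (t.W w i) →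
    ¬ clR t.S' (t.y j) (t.W w i)
  nc : ∀ {L : Lg} {P M₀ : Type} {F : Fr L P} {g : Adr F.T → ℕ} {N₀ : Mo L P M₀} (t : Tp F g N₀)
    (w : List (Fs F g N₀.A)) (i j : ℚ), i ≠ j → F.D t.N' (t.W w i) →
    ¬ F.Cl t.N' (t.W w i) (t.y j) ∧ ¬ F.Cl t.N' (t.y j) (t.W w i)
  yd : ∀ {L : Lg} {P M₀ : Type} {F : Fr L P} {g : Adr F.T → ℕ} {N₀ : Mo L P M₀} (t : Tp F g N₀)
    (j : ℚ), F.D t.N' (t.y j) ∧ F.Ll t.N' (t.y j) (t.N'.c F.v)
  yl : ∀ {L : Lg} {P M₀ : Type} {F : Fr L P} {g : Adr F.T → ℕ} {N₀ : Mo L P M₀} (t : Tp F g N₀)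
    (i j : ℚ), i < j → F.Ll t.N' (t.y j) (t.y i)
  ex : ∀ {L : Lg} {P M₀ : Type} {F : Fr L P} {g : Adr F.T → ℕ} {N₀ : Mo L P M₀} (t : Tp F g N₀)
    (w : List (Fs F g N₀.A)) (j k : ℚ), F.D t.N' (t.W w j) → F.Ll t.N' (t.y k) (t.W w j) →
    ∃ n m, F.Ll t.N (t.x m) (t.V w n)

/-- [GJA] (1.2 h; uses `BAS`, `EMB`, `ABS`) (6.1), (6.2) The closed sets `NJ J`.

Proofs. `cw`: the witnesses of `W w j` are `W (Fs.wt k i :: w) j` (`Sy.wt`). `cc`: countably many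
words (as in `St_REC`) and indices. `ce`: `W [Fs.cs m] j = q (e m)`. `cp`: `N₀.c p ∈ N₀.A`
(`Tp.md₀`), `UE.cst` twice. `md`: `EMB.cmd`. `ue`: `EMB.uco`, `EMB.usb`. `gd`: the tree
`fun s => W (Fs.tr s :: w) j` is in `NJ J` (`Sy.tr`, `ABS.lsb`). `rs`: the parameters
`W (Fs.rp ρ i :: w) j` are in `NJ J` (`Sy.rs`, `ABS.hsb`, `ABS.rgd`). `dj`: let
`z = W w i = W w' j`, `i < j` (else exchange): by `Tp.ind` for pairs and the atom
`.eq (w, ..) (w', ..)` we have `W w i' = W w' j'` for all `i' < j'`; for given `i₁, i₂` take `j'`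
above both: `W w i₁ = W w' j' = W w i₂`. So `z = W w k`. -/
structure GJA : Prop where
  cw : ∀ {L : Lg} {P M₀ : Type} {F : Fr L P} {g : Adr F.T → ℕ} {N₀ : Mo L P M₀} (t : Tp F g N₀)
    (J : Set ℚ), Cw F.T t.N' (t.NJ J)
  cc : ∀ {L : Lg} {P M₀ : Type} {F : Fr L P} {g : Adr F.T → ℕ} {N₀ : Mo L P M₀} (t : Tp F g N₀)
    (J : Set ℚ), (∀ n, Countable (L.Relations n)) → Countable P → Countable F.T.K →
    N₀.A.Countable → (t.NJ J).Countable
  ce : ∀ {L : Lg} {P M₀ : Type} {F : Fr L P} {g : Adr F.T → ℕ} {N₀ : Mo L P M₀} (t : Tp F g N₀)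
    (J : Set ℚ), J.Nonempty → ∀ m ∈ N₀.A, t.q (t.e m) ∈ t.NJ J
  cp : ∀ {L : Lg} {P M₀ : Type} {F : Fr L P} {g : Adr F.T → ℕ} {N₀ : Mo L P M₀} (t : Tp F g N₀)
    (J : Set ℚ), J.Nonempty → ∀ p, t.N'.c p ∈ t.NJ J
  md : ∀ {L : Lg} {P M₀ : Type} {F : Fr L P} {g : Adr F.T → ℕ} {N₀ : Mo L P M₀} (t : Tp F g N₀)
    (J : Set ℚ), J.Nonempty → Md F.T (t.N'.sub (t.NJ J))
  ue : ∀ {L : Lg} {P M₀ : Type} {F : Fr L P} {g : Adr F.T → ℕ} {N₀ : Mo L P M₀} (t : Tp F g N₀)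
    (J : Set ℚ), J.Nonempty → UE N₀ (t.N'.sub (t.NJ J)) (t.q ∘ t.e)
  gd : ∀ {L : Lg} {P M₀ : Type} {F : Fr L P} {g : Adr F.T → ℕ} {N₀ : Mo L P M₀} (t : Tp F g N₀)
    (J : Set ℚ) (w : List (Fs F g N₀.A)) (j : ℚ), j ∈ J → gdR t.S' (t.W w j) →
    F.Good g (t.N'.sub (t.NJ J)) (t.W w j)
  rs : ∀ {L : Lg} {P M₀ : Type} {F : Fr L P} {g : Adr F.T → ℕ} {N₀ : Mo L P M₀} (t : Tp F g N₀)
    (J : Set ℚ) (w : List (Fs F g N₀.A)) (j : ℚ) (ρ : F.Rsn g), j ∈ J → rsR t.S' ρ (t.W w j) →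
    ¬ F.Good g (t.N'.sub (t.NJ J)) (t.W w j)
  dj : ∀ {L : Lg} {P M₀ : Type} {F : Fr L P} {g : Adr F.T → ℕ} {N₀ : Mo L P M₀} (t : Tp F g N₀)
    (i j : ℚ) (z : t.M'), i ≠ j → z ∈ t.NJ {i} → z ∈ t.NJ {j} → ∀ k, z ∈ t.NJ {k}

/-- [INN] (1.5 h; uses `ABS`, `ORL`, `WRD`, `GJA`) (6.3) Good words.

Proofs. `a`: `gdR`, `D` at the index `j`: `WRD.g`, `WRD.d` (the same for all indices). `i < j`:
`W w j < y i` by `WRD.i2` (from the pair `-1 < 0`, `y i = W [] i`), not close by `WRD.nc`. `j < i`: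
`WRD.i1`. `v`: `W w j << y (j - 1) << v` (`ORL.trn`, `WRD.yd`).
`b`: (1) `i ≤ j`: suppose `j < i`. `y k << W w j << y i`, so `y k < y i`, so not `k ≤ i` (`WRD.yl`,
`Ok.irr`, `ORL.asy`), so `j < i < k`. `W w j < y i` gives `W w j < y k` by `WRD.i1` for the pairs
`(j, i)`, `(j, k)`, against `y k < W w j`. In the same way `j ≤ k` (suppose `k < j`: `i < k < j`;
`y k < W w j` gives `y i < W w j` by `WRD.i1` for the pairs `(k, j)`, `(i, j)`: contradiction).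
(2) `W w j << v` (`ORL.trn`, `WRD.yd`), so `V w n << v` for all `n` (`WRD.lv`). `WRD.ex`: there are
`n`, `m` with `x m << V w n`. `Xok.dc` for `x m ∈ X`: `V w n` is good, or `F.Rd g N (V w n)`, so
`rsR S ρ (V w n)` for some `ρ` (`Sz.rd`). In the second case `rsR S' ρ (W w j)` (`WRD.r`), and
`W w j` is not good in `N'.sub (NJ J)` (`GJA.rs`): contradiction. So `gdR S' (W w j)` (`WRD.g`), and
`gdR S' (W w 0)`. `D (W w 0)`: `WRD.d`. (3) `W w 0 < y (-1)`: if `i < j` by `WRD.i2`. If `i = j`: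
`W w j < y j < y (j - 1)` (`WRD.yl`), and `WRD.i2` for the pairs `(j - 1, j)`, `(-1, 0)`. `y 1 < W w 0`:
if `j < k` by `WRD.i2` for the pairs `(j, k)`, `(0, 1)`; if `j = k`: `y (j + 1) < y j < W w j`.
`c`: `w = []`: `gdR`: `x n` is good (`Xok.xg`, `WRD.g`); `WRD.yd`, `WRD.yl`. -/
structure INN : Prop where
  a : ∀ {L : Lg} {P M₀ : Type} {F : Fr L P} {g : Adr F.T → ℕ} {N₀ : Mo L P M₀} (t : Tp F g N₀)
    (w : List (Fs F g N₀.A)), t.GW w → ∀ j : ℚ, gdR t.S' (t.W w j) ∧ F.D t.N' (t.W w j) ∧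
    (∀ i < j, F.Ll t.N' (t.W w j) (t.y i)) ∧ (∀ i, j < i → F.Ll t.N' (t.y i) (t.W w j)) ∧
    F.Ll t.N' (t.W w j) (t.N'.c F.v)
  b : ∀ {L : Lg} {P M₀ : Type} {F : Fr L P} {g : Adr F.T → ℕ} {N₀ : Mo L P M₀} (t : Tp F g N₀)
    (w : List (Fs F g N₀.A)) (i j k : ℚ), F.D t.N' (t.W w j) →
    (∃ J : Set ℚ, j ∈ J ∧ F.Good g (t.N'.sub (t.NJ J)) (t.W w j)) →
    F.Ll t.N' (t.W w j) (t.y i) → F.Ll t.N' (t.y k) (t.W w j) → i ≤ j ∧ j ≤ k ∧ t.GW w
  c : ∀ {L : Lg} {P M₀ : Type} {F : Fr L P} {g : Adr F.T → ℕ} {N₀ : Mo L P M₀} (t : Tp F g N₀),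
    t.GW []

/-- [WFD] (1 h; uses `ABS`, `ORL`, `WRD`, `INN`) (6.4) There is no infinite increasing sequence of
good words.

Proof. Suppose `W (w n) 0 << W (w (n + 1)) 0` for all `n`. `INN.a` for `w 0`: `y 1 << W (w 0) 0`, so
by `WRD.ex` there are `k`, `l` with `x l << V (w 0) k`. For all `n`: `V (w n) k << V (w (n + 1)) k`
(`WRD.ll`), so `x l << V (w n) k` (`ORL.trn`); `V (w n) k << v` (`INN.a`, `WRD.lv`); `V (w n) k ∈ D`
is good in `N` (`WRD.d`, `WRD.g`). `Xok.dc` (`ABS.rgd`: no reason): there is `z n ∈ X` close to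
`V (w n) k`. `z n << z (n + 1)` (`ORL.cll`, `llc`, `Ok.csm`), against `Xok.wo` for `range z`
(`ORL.asy`, `Ok.irr`). -/
def St_WFD : Prop := ∀ (L : Lg) (P M₀ : Type) (F : Fr L P) (g : Adr F.T → ℕ) (N₀ : Mo L P M₀)
  (t : Tp F g N₀), ¬ ∃ w : ℕ → List (Fs F g N₀.A), (∀ n, t.GW (w n)) ∧
    ∀ n, F.Ll t.N' (t.W (w n) 0) (t.W (w (n + 1)) 0)

/-- [PKG] (1.4 h; uses `ABS`, `ORL`, `WRD`, `GJA`, `INN`, `St_WFD`) (6.5) The good elements between
two elements `y i`, `y k`.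

Proof. On `{w // t.GW w}` the relation `Cl N' (W w 0) (W w' 0)` is an equivalence relation (`Ok`);
`B := Quotient`, `rep := Quotient.out`. `s < s' :↔ Ll N' (W (rep s') 0) (W (rep s) 0)`: a strict
linear order (`ORL.tri`: different classes are not close; `ORL.trn`, `ORL.asy`), so a `LinearOrder`
(`linearOrderOfSTO`, classical), well-founded by `St_WFD` (a strictly decreasing sequence in `B` is
an increasing sequence of words), nonempty by `INN.c`. `b j s := W (rep s) j`. `bm`: `INN.a`,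
`GJA.gd`. `bl`: `WRD.ll` at the indices `0` and `j` (both are equivalent to the statement at
`n = 0`). `by`: `INN.a`. `al`: `z = W w j`, `j ∈ J`; `INN.b` gives `i ≤ j ≤ k` and `GW w`; let `s` be
the class of `w`: `Cl N' (W w 0) (W (rep s) 0)`, so `Cl N' (W w j) (b j s)` (`WRD.c` twice). -/
def St_PKG : Prop := ∀ (L : Lg) (P M₀ : Type) (F : Fr L P) (g : Adr F.T → ℕ) (N₀ : Mo L P M₀)
  (t : Tp F g N₀), ∃ (B : Type) (_ : LinearOrder B) (b : ℚ → B → t.M'),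
    WellFoundedLT B ∧ Nonempty B ∧
    (∀ j s, b j s ∈ t.NJ {j} ∧ F.D t.N' (b j s) ∧
      ∀ J : Set ℚ, j ∈ J → F.Good g (t.N'.sub (t.NJ J)) (b j s)) ∧
    (∀ j s s', s < s' → F.Ll t.N' (b j s') (b j s)) ∧
    (∀ i j s, i < j → F.Ll t.N' (b j s) (t.y i) ∧ F.Ll t.N' (t.y j) (b i s)) ∧
    ∀ (J : Set ℚ) (i k : ℚ) (z : t.M'), z ∈ t.NJ J → F.D t.N' z →
      F.Good g (t.N'.sub (t.NJ J)) z → F.Ll t.N' z (t.y i) → F.Ll t.N' (t.y k) z →
      ∃ j ∈ J, i ≤ j ∧ j ≤ k ∧ ∃ s, F.Cl t.N' z (b j s)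

end ORD
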