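import Pool.Agent.ORD.StC

/-!
# ORD: statements, part D (section 7: decoding)
-/

set_option autoImplicit false
set_option linter.unusedVariables false

namespace ORD

open Set FirstOrder

/-! ## The order lemma -/

/-- copies of the order `B` at the points of `J` (cut down at `a` and at `c`) -/
def GS {B : Type} (a c : ℚ) (T₁ T₂ : Set B) (J : Set ℚ) : Set (ℚ × B) :=
  {z | z.1 ∈ J ∧ (z.1 = a → z.2 ∈ T₁) ∧ (z.1 = c → z.2 ∈ T₂)}

/-- the lexicographic order -/
def Lx {B : Type} [LinearOrder B] (z z' : ℚ × B) : Prop :=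
  z.1 < z'.1 ∨ (z.1 = z'.1 ∧ z.2 < z'.2)

/-- strictly monotone bijections -/
def Sim {B : Type} [LinearOrder B] (G G' : Set (ℚ × B)) : Prop :=
  ∃ h : ℚ × B → ℚ × B, BijOn h G G' ∧ ∀ z ∈ G, ∀ z' ∈ G, Lx z z' → Lx (h z) (h z')

/-- the interval between `z` and `z'` in `G` contains no infinite decreasing sequence -/
def Nds {B : Type} [LinearOrder B] (G : Set (ℚ × B)) (z z' : ℚ × B) : Prop :=
  ¬ ∃ s : ℕ → ℚ × B, (∀ n, s n ∈ G) ∧ (∀ n, Lx (s (n + 1)) (s n)) ∧
    ∀ n, (Lx z (s n) ∧ Lx (s n) z') ∨ (Lx z' (s n) ∧ Lx (s n) z)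

/-- the class of `z`: the points `z'` such that the interval between `z` and `z'` contains no
infinite decreasing sequence -/
def Ncl {B : Type} [LinearOrder B] (G : Set (ℚ × B)) (z : ℚ × B) : Set (ℚ × B) :=
  {z' | z' ∈ G ∧ Nds G z z'}

/-- the order type of the subset `E` (a well-order) is `τ` -/
def Otp {B : Type} [LinearOrder B] (E : Set (ℚ × B)) (τ : Ordinal.{0}) : Prop :=
  ∃ f : E → Ordinal.{0}, (∀ x y : E, Lx x.1 y.1 ↔ f x < f y) ∧ range f = Iio τ

/-- The index sets: `J f` contains `a`, `c` and lies between them; `a` and `c` are limits of `J f`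
(from the right, from the left); there are finite blocks `β n`, `n + 2` consecutive points without
other points of `J f` near them if `f n` is true, and every point of `J f` different from `a`, `c`
which is in no block is a limit of points of `J f` from both sides; the points next to a block are
limits. Precisely: `bl f q` is the set of the points of the block of `q`. -/
structure Idx (a c : ℚ) (J : (ℕ → Bool) → Set ℚ) (β : (n : ℕ) → Fin (n + 2) → ℚ) : Prop where
  ac : a < c
  ma : ∀ f, a ∈ J f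
  mc : ∀ f, c ∈ J f
  bd : ∀ f, ∀ q ∈ J f, a ≤ q ∧ q ≤ c
  clo : ∀ q, IsClopen {f | q ∈ J f}
  mon : ∀ n, StrictMono (β n)
  bac : ∀ n i, a < β n i ∧ β n i < c
  mem : ∀ f n i, β n i ∈ J f ↔ f n = true
  dis : ∀ n m i j, n < m → β n i < β m j
  btw : ∀ f n, f n = true → ∀ q ∈ J f, β n 0 ≤ q → q ≤ β n (Fin.last (n + 1)) → ∃ i, q = β n i
  rgt : ∀ f, ∀ q ∈ J f, q < c → (∀ n i, q = β n i → i = Fin.last (n + 1)) →
    ∀ r, q < r → ∃ s ∈ J f, q < s ∧ s < r ∧ ∃ s' ∈ J f, q < s' ∧ s' < s
  lft : ∀ f, ∀ q ∈ J f, a < q → (∀ n i, q = β n i → i = 0) →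
    ∀ r, r < q → ∃ s ∈ J f, r < s ∧ s < q ∧ ∃ s' ∈ J f, s < s' ∧ s' < q

/-- [ODX] (1.2 h; no other module) Index sets exist.

Proof. Let `E := ℕ ×ₗ (ℚ ⊕ₗ ℕ)` (lexicographic), `E' := WithBot (WithTop E)`, a countable linear
order; it embeds into `ℚ` by a strictly monotone map `ι` (`Order.embedding_from_countable_to_dense`).
`a := ι ⊥`, `c := ι ⊤`, `β n i := ι (n, inr i)`, `J f := {a, c} ∪ {ι (n, inl q)} ∪
{ι (n, inr i) | i < n + 2, f n}`. `clo`: membership of `q` depends on at most one value `f n`.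
`btw`: a point between `(n, inr 0)` and `(n, inr (n + 1))` is `(n, inr i)`. `rgt`: after `⊥` there is
no first point in `{(0, inl q)}` (there are points `(0, inl q)` below any given one; but between
`a` and a rational number `r > a` there need not be points of `ι '' E'`!). To get `rgt`, `lft` as
stated the embedding must be continuous at these points, so use instead the following concrete
index sets: `J f` is the union of `{a, c}` and dense sets: choose rationals
`a = 0 < .. `: let `c := 1`, `p n := 1 - 1 / (n + 1)` (so `p 0 = 0 = a`, `p n → 1 = c`),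
`m n := (p n + p (n + 1)) / 2`, all rational points of `(p n, m n)` are in `J f`, and
`β n i := m n + (p (n + 1) - m n) * i / (n + 2)` for `i < n + 2` (so `β n 0 = m n`, the limit of the
rational points of `(p n, m n)` from the left, and `β n (n + 1) < p (n + 1)`). This violates `rgt` at
`β n (n + 1)`, so put also all rational points of `(β n (n + 1), p (n + 1))` into `J f`, and the
points `p (n + 1)` as well. So `J f = {0, 1} ∪ ⋃ n, ({q | p n < q < m n} ∪ {β n i | f n} ∪
{q | β n (n + 1) < q ≤ p (n + 1)})`. All conditions are elementary. -/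
def St_ODX : Prop := ∃ (a c : ℚ) (J : (ℕ → Bool) → Set ℚ) (β : (n : ℕ) → Fin (n + 2) → ℚ),
  Idx a c J β

/-- [OCL] (1.8 h; no other module) The classes.

Proof. Let `G := GS a c T₁ T₂ (J f)`, `B` a well-order. (1) If there are infinitely many points of
`J f` between `q < q'` with an infinite decreasing sequence (as is the case when `q` is a limit from
the right or `q'` from the left and so on), then `Nds G z z'` fails for `z.1 = q`, `z'.1 = q'`
(take points `(s n, b)` with any `b : B`; `B` is nonempty since it contains `z.2`). So: if `z, z' ∈ G`,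
`z.1 < z'.1` and `Nds G z z'`, then `z.1`, `z'.1` are in the same block: otherwise let `q := z.1`. If
`q` is not in a block, or is the last point of its block, then `Idx.rgt` gives (apply it again and
again) an infinite decreasing sequence of points of `J f` between `q` and `z'.1` (`q < s' < s < r`
with `r := z'.1`, then `r := s'`, ..). If `q` is in the block `n`, `q = β n i`, let
`q₁ := β n (last)`; if `q₁ < z'.1` the same with `q₁`; if `z'.1 ≤ q₁` then `z'.1` is in the block by
`btw`. (2) Two points with the same first coordinate, or in the same block: `Nds` holds: an infinite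
decreasing sequence between them has first coordinates in a finite set, so infinitely many terms
have the same first coordinate, and `B` is well-founded. (3) So `Ncl G z = {z' ∈ G | z'.1 = z.1}` if
`z.1` is in no block, with an order type `≤ type B`, and if `z.1` is in the block `n` then
`Ncl G z = {(β n i, b)}`, all `i`, `b` (`β n i ≠ a, c`), of order type `type B * (n + 2)`
(`Ordinal.type_prod_lex` or a direct computation: `(β n i, b) ↦ type B * i + typein b`). -/
def St_OCL : Prop := ∀ (a c : ℚ) (J : (ℕ → Bool) → Set ℚ) (β : (n : ℕ) → Fin (n + 2) → ℚ),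
  Idx a c J β → ∀ (B : Type) [LinearOrder B] [WellFoundedLT B] [Nonempty B] (T₁ T₂ : Set B)
    (f : ℕ → Bool),
  (∀ z ∈ GS a c T₁ T₂ (J f), (¬ ∃ n i, f n = true ∧ z.1 = β n i) →
    ∃ τ ≤ Ordinal.type (α := B) (· < ·), Otp (Ncl (GS a c T₁ T₂ (J f)) z) τ) ∧
  (∀ z ∈ GS a c T₁ T₂ (J f), ∀ n i, f n = true → z.1 = β n i →
    Otp (Ncl (GS a c T₁ T₂ (J f)) z) (Ordinal.type (α := B) (· < ·) * (n + 2 : ℕ))) ∧
  ∀ n, f n = true → ∃ z ∈ GS a c T₁ T₂ (J f), z.1 = β n 0

/-- [ODC] (1 h; uses `St_ODX`, `St_OCL`) The order lemma.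

Proof. `a, c, J, β` from `St_ODX`. Let `h : Sim G G'`, `G := GS .. (J f)`, `G' := GS .. (J f')`. `h` and
its inverse on `G'` preserve `Lx` in both directions (`Lx` is a strict linear order; `h` is injective
on `G`). So `h` maps `Ncl G z` onto `Ncl G' (h z)`, preserving order types (`Otp`). Let `f n = true`.
By `St_OCL` there is `z ∈ G` with `Otp (Ncl G z) (σ * (n + 2))`, `σ := type B ≠ 0`. So
`Otp (Ncl G' (h z)) (σ * (n + 2))`. Order types are unique (a strictly monotone surjection of an
initial segment of the ordinals onto another one is the identity; or well-orders). By `St_OCL` for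
`f'`: the type is `≤ σ`, impossible since `σ < σ * 2 ≤ σ * (n + 2)`, or it is `σ * (m + 2)` with
`f' m = true`, and then `m = n` (`Ordinal.mul_left_cancel` type lemmas, `Nat.cast_inj`). So
`f' n = true`. By symmetry (the inverse of `h`) `f = f'`. -/
def St_ODC : Prop := ∃ (a c : ℚ) (J : (ℕ → Bool) → Set ℚ), a < c ∧
  (∀ f, a ∈ J f ∧ c ∈ J f ∧ ∀ q ∈ J f, a ≤ q ∧ q ≤ c) ∧ (∀ q, IsClopen {f | q ∈ J f}) ∧
  ∀ (B : Type) [LinearOrder B] [WellFoundedLT B] [Nonempty B] (T₁ T₂ : Set B)
    (f f' : ℕ → Bool), Sim (GS a c T₁ T₂ (J f)) (GS a c T₁ T₂ (J f')) → f = f'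

/-- [THA] (1.8 h; uses `BAS`, `EMB`, `ABS`, `ORL`, `WRD`, `GJA`, `INN`, `St_TPX`, `St_PKG`,
`St_ODC`) Decoding.

Proof. `t : Tp F g N₀` from `St_TPX`, `B`, `b` from `St_PKG`, `a, c, J` from `St_ODC`.
`X f := t.NJ (J f)`, `e := t.q ∘ t.e`, `k := ![t.y a, t.y c]` (`y a = W [] a ∈ NJ (J f)`). Countable:
`GJA.cc` for `univ`. Clopen: `x ∈ X f ↔ ∃ j ∈ J f, x ∈ NJ {j}`; if `x ∈ NJ {j}` for two different
`j`, then for all `j` (`GJA.dj`) and the set is `univ`; otherwise it is `{f | j ∈ J f}` or empty.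
`Md`, `UE`: `GJA`. Let `h : Is (N'.sub (X f)) (N'.sub (X f')) h`, `h (y a) = y a`, `h (y c) = y c`.
(1) In `N'.sub (X f)` the notions `D`, `Lt` are those of `N'`, and `Cl` for elements of `D`
(`ABS.sdd`, `ABS.scl`, `GJA.cw`, `GJA.cp`). So `h` preserves `D`, `Lt`, `Cl`, `Ll` in the sense of
`N'`, and maps the elements which are good in `N'.sub (X f)` to elements good in `N'.sub (X f')`
(`ABS.isd`, `isl`, `isc`, `isg`).
(2) `T₁ := {s | Ll N' (b a s) (y a)}`, `T₂ := {s | Ll N' (y c) (b c s)}`. For `z = (j, s) ∈ GS a c T₁ T₂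
(J f)` the element `b j s` is in `X f`, in `D`, good in `N'.sub (X f)`, and
`y c << b j s << y a` (if `j = a`: `T₁`; if `a < j`: `St_PKG`, 5th clause; the same for `c`).
(3) So `h (b j s)` has the same properties for `f'`, and by the last clause of `St_PKG` there are
`j₁ ∈ J f'`, `a ≤ j₁ ≤ c`, `s₁` with `Cl N' (h (b j s)) (b j₁ s₁)`; `(j₁, s₁) ∈ GS a c T₁ T₂ (J f')`
(if `j₁ = a` then `b a s₁ ~ h (b j s) << y a`, `ORL.cll`; the same for `c`). Let `H (j, s) := (j₁, s₁)`.
(4) `Lx z z'` implies `b z' << b z`: if `j < j'` take `j < i < j'`: `b j' s' << y i << b j s`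
(`ORL.trn`); if `j = j'`: clause 4 of `St_PKG`. Different elements of `GS` are comparable by `Lx`. So
`H` is strictly monotone: `b z' << b z`, `h (b z') << h (b z)`, `b (H z') << b (H z)` (`ORL.cll`,
`llc`), so not `H z = H z'` and not `Lx (H z') (H z)`. So `H` is injective on `GS`.
(5) Surjective: the inverse `h'` of `h` (`EMB.isi`) has the same properties; for `z' ∈ GS .. (J f')`
there is `z ∈ GS .. (J f)` with `Cl N' (h' (b z')) (b z)`, so `b z' ~ h (b z) ~ b (H z)`, and
`z' = H z` by (4). So `Sim`, and `f = f'` by `St_ODC`. -/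
def St_THA : Prop := ∀ (L : Lg) (P M : Type) (F : Fr L P) (g : Adr F.T → ℕ) (N₀ : Mo L P M)
  (a : ℕ → M), (∀ n, Countable (L.Relations n)) → Countable P → Bse F g N₀ a →
  ∃ (M' : Type) (N' : Mo L P M') (e : M → M') (X : (ℕ → Bool) → Set M') (k : Fin 2 → M'),
    (⋃ f, X f).Countable ∧ (∀ x, IsClopen {f | x ∈ X f}) ∧ (∀ f, Md F.T (N'.sub (X f))) ∧
    (∀ f, UE N₀ (N'.sub (X f)) e) ∧ (∀ f i, k i ∈ X f) ∧
    ∀ f f', (∃ h : M' → M', Is (N'.sub (X f)) (N'.sub (X f')) h ∧ ∀ i, h (k i) = k i) → f = f'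

end ORD
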