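import Pool.Agent.ORD.Defs

/-!
# ORD: the final statements

`Fam T N W`: a continuous family of closed sets without isomorphisms. `St_CORE`: it exists, if
quantifier free formulas (with parameters) define in `N` a linear preorder of `k`-tuples with
infinitely many classes. `St_COR1`: the case of a linear order of elements.
-/

set_option autoImplicit false
set_option linter.unusedVariables false

namespace ORD

open Set

variable {L : FirstOrder.Language.{0, 0}} {P M : Type}

/-- The countable infinite sets `X f`, `f : ℕ → Bool`, depend continuously on `f`, are models of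
`T` and contain copies `w x` of the elements `x ∈ W`, with the U-formulas which are true in `N` for
them. `E` is a model contained in all `X f`, `G` a finite subset of `E`, and there is no isomorphism
between `X f` and `X f'`, `f ≠ f'`, which fixes the elements of `G`. -/
structure FamS (T : Th L P) (N : Mo L P M) (W : Set M) {M' : Type} (N' : Mo L P M') (w : W → M')
    (X : (ℕ → Bool) → Set M') (E G : Set M') : Prop where
  cou : (⋃ f, X f).Countable
  clo : ∀ x, IsClopen {f | x ∈ X f}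
  inf : ∀ f, (X f).Infinite
  mod : ∀ f, Md T (N'.sub (X f))
  wit : ∀ f x, w x ∈ X f
  tru : ∀ f, ∀ φ : Uf L (P ⊕ W), N.Tr φ (fun x => (x : M)) → (N'.sub (X f)).Tr φ w
  mdE : Md T (N'.sub E)
  sub : ∀ f, E ⊆ X f
  fin : G.Finite
  gsE : G ⊆ E
  non : ∀ f f', (∃ h : M' → M', BijOn h (X f) (X f') ∧ (∀ x ∈ G, h x = x) ∧
    ∀ (n : ℕ) (R : L.Relations n) (t : Fin n → M'), (∀ i, t i ∈ X f) →
      (N'.S.RelMap R t ↔ N'.S.RelMap R (h ∘ t))) → f = f'

/-- there is such a family -/
def Fam (T : Th L P) (N : Mo L P M) (W : Set M) : Prop :=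
  ∃ (M' : Type) (N' : Mo L P M') (w : W → M') (X : (ℕ → Bool) → Set M') (E G : Set M'),
    FamS T N W N' w X E G

/-- `d`, `l` define in `N` a linear preorder (`l` is `≤`) of `k`-tuples, with infinitely many
classes -/
structure Lpo {k : ℕ} (N : Mo L P M) (d : Qf L (P ⊕ Fin k)) (l : Qf L (P ⊕ (Fin k ⊕ Fin k))) :
    Prop where
  trs : ∀ x y z : Fin k → M, (∀ i, x i ∈ N.A) → (∀ i, y i ∈ N.A) → (∀ i, z i ∈ N.A) →
    N.Q d x → N.Q d y → N.Q d z → N.Q l (Sum.elim x y) → N.Q l (Sum.elim y z) →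
    N.Q l (Sum.elim x z)
  tot : ∀ x y : Fin k → M, (∀ i, x i ∈ N.A) → (∀ i, y i ∈ N.A) → N.Q d x → N.Q d y →
    N.Q l (Sum.elim x y) ∨ N.Q l (Sum.elim y x)
  inf : ∃ a : ℕ → Fin k → M, (∀ n i, a n i ∈ N.A) ∧ (∀ n, N.Q d (a n)) ∧
    ∀ n m, N.Q l (Sum.elim (a n) (a m)) → N.Q l (Sum.elim (a m) (a n)) → n = m

/-- linear preorders of tuples -/
def St_CORE : Prop := ∀ (L : FirstOrder.Language.{0, 0}) [∀ n, IsEmpty (L.Functions n)]
  [∀ n, Countable (L.Relations n)] (P M : Type) (T : Th L P) (N : Mo L P M) (W : Set M) (k : ℕ)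
  (d : Qf L (P ⊕ Fin k)) (l : Qf L (P ⊕ (Fin k ⊕ Fin k))), Finite P → Countable T.K →
  N.A = univ → Md T N → W.Countable → Lpo N d l → Fam T N W

/-- linear orders of elements -/
def St_COR1 : Prop := ∀ (L : FirstOrder.Language.{0, 0}) [∀ n, IsEmpty (L.Functions n)]
  [∀ n, Countable (L.Relations n)] (P M : Type) (T : Th L P) (N : Mo L P M) (W : Set M)
  (d : Qf L (P ⊕ Fin 1)) (l : Qf L (P ⊕ Fin 2)), Finite P → Countable T.K →
  N.A = univ → Md T N → W.Countable →
  (∀ x, N.Q d ![x] → ¬ N.Q l ![x, x]) →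
  (∀ x y z, N.Q d ![x] → N.Q d ![y] → N.Q d ![z] → N.Q l ![x, y] → N.Q l ![y, z] →
    N.Q l ![x, z]) →
  (∀ x y, N.Q d ![x] → N.Q d ![y] → x = y ∨ N.Q l ![x, y] ∨ N.Q l ![y, x]) →
  {x | N.Q d ![x]}.Infinite → Fam T N W

end ORD
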