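import Pool.Agent.ORD.StC

/-!
# ORD, module TPX: templates exist
-/

set_option autoImplicit false
set_option linter.unusedVariables false

namespace ORD

open Set FirstOrder Filter

/-- [TPX] templates exist -/
theorem thm_TPX (hl : St_LNG) (hs : St_SYS) (hr : St_REC) (ht : St_TPL) (hm : St_MOX) :
    St_TPX := by
  intro L P M₀ F g N₀ a hL hP hB
  obtain ⟨M, N, e, X, hu, hUE, hX, hcard⟩ := hl L P M₀ F g N₀ a hB
  obtain ⟨S, hS⟩ := hs L P M N₀.A F g N (fun m => e m) hu hX.md
  obtain ⟨x, hxX, hxl, hxr⟩ := hr L P M N₀.A F g N X S hL hP hB.ctK hB.ct.to_subtype hB.ok hX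
    hcard
  obtain ⟨M', X', u, S', qq, x', hsur, hlos, hind, hlim⟩ :=
    ht _ M Unit S (fun n _ => x n) ⟨x 0⟩
  obtain ⟨N', hnu', hmd', hsy, hue⟩ := hm L P M M' N₀.A X' F g N S (fun m => e m) u S' qq hu
    hX.md hS.toSy hsur hlos
  exact ⟨{
    M := M
    M' := M'
    N := N
    N' := N'
    S := S
    S' := S'
    e := e
    q := fun m => qq fun _ => m
    X := X
    x := x
    y := fun j => x' j ()
    ok := hB.ok
    md₀ := hB.md
    ue := hUE
    nu := hu
    xo := hX
    sz := hS
    xX := hxX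
    xl := hxl
    xr := hxr
    uq := hue
    nu' := hnu'
    md' := hmd'
    sy := hsy
    ind := hind
    lim := hlim }⟩

end ORD
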